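import Mathlib

/-!
Real roots of an irreducible integer polynomial: lower bounds.
-/

open Polynomial

namespace Pool.Agent.TH728.FX

/-- real version -/
noncomputable abbrev Ar (A : ℤ[X]) : ℝ[X] := A.map (Int.castRingHom ℝ)

/-- the real roots -/
noncomputable def Rt (A : ℤ[X]) : Finset ℝ := (Ar A).roots.toFinset

lemma Ar_ne_zero {A : ℤ[X]} (hA : A ≠ 0) : Ar A ≠ 0 :=
  (Polynomial.map_ne_zero_iff (RingHom.injective_int _)).2 hA

lemma mem_Rt {A : ℤ[X]} (hA : A ≠ 0) {θ : ℝ} : θ ∈ Rt A ↔ (Ar A).eval θ = 0 := by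
  classical
  rw [Rt, Multiset.mem_toFinset, mem_roots (Ar_ne_zero hA), IsRoot.def]

lemma card_Rt (A : ℤ[X]) : (Rt A).card ≤ A.natDegree := by
  classical
  refine (Multiset.toFinset_card_le _).trans ((card_roots' _).trans ?_)
  exact natDegree_map_le

lemma ne_zero_of_irr {A : ℤ[X]} (hA : Irreducible (A.map (Int.castRingHom ℚ))) : A ≠ 0 := by
  rintro rfl
  simp at hA

lemma Ar_eq (A : ℤ[X]) : Ar A = (A.map (Int.castRingHom ℚ)).map (algebraMap ℚ ℝ) := by
  rw [Polynomial.map_map]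
  congr 1

/-- simple roots -/
lemma deriv_ne_zero {A : ℤ[X]} (hA : Irreducible (A.map (Int.castRingHom ℚ))) {θ : ℝ}
    (hθ : (Ar A).eval θ = 0) : (derivative (Ar A)).eval θ ≠ 0 := by
  have h1 : (Ar A).Separable := by
    rw [Ar_eq]
    exact (hA.separable).map
  obtain ⟨a, b, hab⟩ := h1
  intro h
  have h2 := congrArg (eval θ) hab
  rw [eval_add, eval_mul, eval_mul, hθ, h, mul_zero, mul_zero, add_zero, eval_one] at h2
  exact zero_ne_one h2

lemma no_rat {A : ℤ[X]} (hA : Irreducible (A.map (Int.castRingHom ℚ))) (hd : 2 ≤ A.natDegree)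
    (r : ℚ) : (A.map (Int.castRingHom ℚ)).eval r ≠ 0 := by
  intro h
  have h1 := degree_eq_one_of_irreducible_of_root hA h
  have h2 : (A.map (Int.castRingHom ℚ)).natDegree = 1 := natDegree_eq_of_degree_eq_some h1
  rw [natDegree_map_eq_of_injective (RingHom.injective_int _)] at h2
  omega

/-- the value at a rational number is not too small -/
lemma rat_lower {A : ℤ[X]} (hA : Irreducible (A.map (Int.castRingHom ℚ))) (hd : 2 ≤ A.natDegree)
    (a : ℤ) {q : ℤ} (hq : 0 < q) :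
    1 ≤ (q : ℝ) ^ A.natDegree * |(Ar A).eval ((a : ℝ) / q)| := by
  have h1 : (Ar A).eval ((a : ℝ) / q) = (((A.map (Int.castRingHom ℚ)).eval ((a : ℚ) / q) : ℚ) : ℝ) := by
    rw [Ar_eq]
    have : ((a : ℝ) / q) = algebraMap ℚ ℝ ((a : ℚ) / q) := by simp
    rw [this, eval_map_algebraMap, aeval_algebraMap_apply]
    simp
  have h2 : eval ((a : ℝ) / q) (A.map (algebraMap ℤ ℝ)) ≠ 0 := by
    show (Ar A).eval ((a : ℝ) / q) ≠ 0
    rw [h1]
    exact_mod_cast no_rat hA hd _
  exact one_le_pow_mul_abs_eval_div hq h2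

/-- growth -/
lemma growth {A : ℤ[X]} (hA : A ≠ 0) : ∃ T : ℝ, 1 ≤ T ∧ ∀ t : ℝ, T ≤ |t| →
    |t| ^ A.natDegree / 2 ≤ |(Ar A).eval t| := by
  obtain ⟨S, hS⟩ : ∃ S : ℝ, S = ∑ i ∈ Finset.range A.natDegree, |(A.coeff i : ℝ)| := ⟨_, rfl⟩
  have hS0 : 0 ≤ S := by rw [hS]; exact Finset.sum_nonneg fun _ _ => abs_nonneg _
  refine ⟨2 * S + 1, by linarith, ?_⟩
  intro t ht
  have ht1 : 1 ≤ |t| := by linarith
  have hnd : (Ar A).natDegree = A.natDegree := natDegree_map_eq_of_injective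
    (RingHom.injective_int _) _
  rw [eval_eq_sum_range, hnd, Finset.sum_range_succ]
  simp only [coeff_map, eq_intCast]
  rcases Nat.eq_zero_or_pos A.natDegree with h0 | hpos
  · rw [h0]
    simp only [Finset.range_zero, Finset.sum_empty, pow_zero, mul_one, zero_add]
    have h1 : A.coeff 0 ≠ 0 := by
      have := leadingCoeff_ne_zero.2 hA
      rwa [leadingCoeff, h0] at this
    have h2 : (1 : ℝ) ≤ |(A.coeff 0 : ℝ)| := by exact_mod_cast Int.one_le_abs h1
    linarith
  · obtain ⟨n, hn⟩ : ∃ n, A.natDegree = n + 1 := ⟨A.natDegree - 1, by omega⟩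
    have h2 : (1 : ℝ) ≤ |(A.coeff A.natDegree : ℝ)| := by
      exact_mod_cast Int.one_le_abs (leadingCoeff_ne_zero.2 hA)
    have h3 : |∑ i ∈ Finset.range A.natDegree, (A.coeff i : ℝ) * t ^ i| ≤ S * |t| ^ n := by
      rw [hS, Finset.sum_mul]
      refine (Finset.abs_sum_le_sum_abs _ _).trans (Finset.sum_le_sum fun i hi => ?_)
      rw [abs_mul, abs_pow]
      apply mul_le_mul_of_nonneg_left _ (abs_nonneg _)
      rw [Finset.mem_range] at hi
      exact pow_le_pow_right₀ ht1 (by omega)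
    have h4 : |t| ^ A.natDegree ≤ |(A.coeff A.natDegree : ℝ) * t ^ A.natDegree| := by
      rw [abs_mul, abs_pow]
      exact le_mul_of_one_le_left (by positivity) h2
    have h5 : S * |t| ^ n ≤ |t| ^ A.natDegree / 2 := by
      rw [hn, pow_succ]
      have : S ≤ |t| / 2 := by linarith
      have h6 : 0 ≤ |t| ^ n := by positivity
      nlinarith
    have h6 := abs_sub_abs_le_abs_sub ((A.coeff A.natDegree : ℝ) * t ^ A.natDegree)
      (-(∑ i ∈ Finset.range A.natDegree, (A.coeff i : ℝ) * t ^ i))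
    rw [abs_neg, sub_neg_eq_add, add_comm ((A.coeff A.natDegree : ℝ) * t ^ A.natDegree)] at h6
    linarith

/-- small values are taken only near roots -/
lemma near_root {A : ℤ[X]} (hA : Irreducible (A.map (Int.castRingHom ℚ))) :
    ∃ c C : ℝ, 0 < c ∧ 1 ≤ C ∧ ∀ t : ℝ, |(Ar A).eval t| ≤ c → ∃ θ ∈ Rt A,
      |t - θ| ≤ C * |(Ar A).eval t| := by
  classical
  have hA0 := ne_zero_of_irr hA
  have hloc : ∀ θ ∈ Rt A, ∃ ε > 0, ∀ t : ℝ, |t - θ| < ε →
      |(derivative (Ar A)).eval θ| / 2 * |t - θ| ≤ |(Ar A).eval t| := by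
    intro θ hθ
    rw [mem_Rt hA0] at hθ
    have hD := deriv_ne_zero hA hθ
    have h1 := (Ar A).hasDerivAt θ
    have h2 := h1.isLittleO
    have h3 : (0 : ℝ) < |(derivative (Ar A)).eval θ| / 2 := by positivity
    have h4 := h2.bound h3
    rw [Metric.eventually_nhds_iff] at h4
    obtain ⟨ε, hε, h5⟩ := h4
    refine ⟨ε, hε, fun t ht => ?_⟩
    have h6 := h5 (show dist t θ < ε by rwa [Real.dist_eq])
    rw [hθ, Real.norm_eq_abs, Real.norm_eq_abs, smul_eq_mul, sub_zero] at h6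
    have h7 := abs_sub_abs_le_abs_sub ((t - θ) * (derivative (Ar A)).eval θ) ((Ar A).eval t)
    rw [abs_sub_comm ((t - θ) * (derivative (Ar A)).eval θ) ((Ar A).eval t), abs_mul] at h7
    linarith
  choose! ε hε hloc using hloc
  obtain ⟨T, hT1, hT⟩ := growth hA0
  -- compact set away from the roots
  obtain ⟨Z, hZ⟩ : ∃ Z : Set ℝ, Z = Set.Icc (-T) T ∩ ⋂ θ ∈ Rt A, {t | ε θ ≤ |t - θ|} := ⟨_, rfl⟩
  have hZc : IsCompact Z := by
    rw [hZ]
    apply isCompact_Icc.inter_right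
    apply isClosed_biInter
    intro θ _
    exact isClosed_le continuous_const (continuous_abs.comp (continuous_id.sub continuous_const))
  have hZpos : ∃ c > 0, ∀ t ∈ Z, c ≤ |(Ar A).eval t| := by
    rcases Z.eq_empty_or_nonempty with h0 | hne
    · exact ⟨1, one_pos, fun t ht => by rw [h0] at ht; exact absurd ht (Set.notMem_empty t)⟩
    · obtain ⟨t0, ht0, hmin⟩ := hZc.exists_isMinOn hne
        ((continuous_abs.comp (Ar A).continuous).continuousOn)
      refine ⟨|(Ar A).eval t0|, ?_, fun t ht => hmin ht⟩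
      apply abs_pos.2
      intro h0
      have h1 : t0 ∈ Rt A := (mem_Rt hA0).2 h0
      rw [hZ] at ht0
      have h2 := Set.mem_iInter₂.1 ht0.2 t0 h1
      simp only [Set.mem_ofPred_eq, sub_self, abs_zero] at h2
      exact absurd h2 (not_le.2 (hε t0 h1))
  obtain ⟨c, hc, hcZ⟩ := hZpos
  obtain ⟨C, hC⟩ : ∃ C : ℝ, C = 1 + ∑ θ ∈ Rt A, 2 / |(derivative (Ar A)).eval θ| := ⟨_, rfl⟩
  refine ⟨min (c / 2) (1 / 4), C, by positivity, ?_, ?_⟩
  · rw [hC]
    have : 0 ≤ ∑ θ ∈ Rt A, 2 / |(derivative (Ar A)).eval θ| :=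
      Finset.sum_nonneg fun _ _ => by positivity
    linarith
  · intro t ht
    have ht1 : |(Ar A).eval t| < c := by
      have := ht.trans (min_le_left _ _)
      linarith
    have ht2 : |(Ar A).eval t| ≤ 1 / 4 := ht.trans (min_le_right _ _)
    have htT : |t| < T := by
      by_contra hcon
      push Not at hcon
      have h1 := hT t hcon
      have h2 : 1 ≤ |t| ^ A.natDegree := one_le_pow₀ (hT1.trans hcon)
      linarith
    have hex : ∃ θ ∈ Rt A, |t - θ| < ε θ := by
      by_contra hcon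
      push Not at hcon
      have h1 : t ∈ Z := by
        rw [hZ]
        refine ⟨abs_le.1 htT.le, ?_⟩
        rw [Set.mem_iInter₂]
        exact hcon
      have := hcZ t h1
      linarith
    obtain ⟨θ, hθ, hlt⟩ := hex
    refine ⟨θ, hθ, ?_⟩
    have h1 := hloc θ hθ t hlt
    have hD : 0 < |(derivative (Ar A)).eval θ| :=
      abs_pos.2 (deriv_ne_zero hA ((mem_Rt hA0).1 hθ))
    have h2 : |t - θ| ≤ 2 / |(derivative (Ar A)).eval θ| * |(Ar A).eval t| := by
      rw [div_mul_eq_mul_div, le_div_iff₀ hD]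
      linarith
    refine h2.trans (mul_le_mul_of_nonneg_right ?_ (abs_nonneg _))
    rw [hC]
    have := Finset.single_le_sum (f := fun θ => 2 / |(derivative (Ar A)).eval θ|)
      (fun _ _ => by positivity) hθ
    linarith

/-- lower bound for the values of integer polynomials of degree less than `d` at the roots -/
lemma sep_root {A : ℤ[X]} (hA : Irreducible (A.map (Int.castRingHom ℚ))) :
    ∃ c : ℝ, 0 < c ∧ ∀ (e : ℤ[X]) (N : ℝ), e ≠ 0 → e.natDegree < A.natDegree → 1 ≤ N →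
      (∀ i, |(e.coeff i : ℝ)| ≤ N) → ∀ θ ∈ Rt A, c / N ^ (A.natDegree - 1) ≤ |(Ar e).eval θ| := by
  classical
  have hA0 := ne_zero_of_irr hA
  obtain ⟨d, hd⟩ : ∃ d, d = A.natDegree := ⟨_, rfl⟩
  obtain ⟨Ac, hAc⟩ : ∃ Ac : ℂ[X], Ac = A.map (Int.castRingHom ℂ) := ⟨_, rfl⟩
  have hAc0 : Ac ≠ 0 := by
    rw [hAc]
    exact (Polynomial.map_ne_zero_iff (RingHom.injective_int _)).2 hA0
  have hAcd : Ac.natDegree = d := by
    rw [hAc, hd]
    exact natDegree_map_eq_of_injective (RingHom.injective_int _) _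
  obtain ⟨B, hB⟩ : ∃ B : ℝ, B = (d + 1) * (1 + ∑ z ∈ Ac.roots.toFinset, ‖z‖) ^ d := ⟨_, rfl⟩
  have hs0 : 0 ≤ ∑ z ∈ Ac.roots.toFinset, ‖z‖ := Finset.sum_nonneg fun _ _ => norm_nonneg _
  have hB1 : 1 ≤ B := by
    rw [hB]
    have h1 : (1 : ℝ) ≤ (1 + ∑ z ∈ Ac.roots.toFinset, ‖z‖) ^ d := one_le_pow₀ (by linarith)
    have h2 : (0 : ℝ) ≤ d := Nat.cast_nonneg _
    nlinarith
  obtain ⟨L, hL⟩ : ∃ L : ℝ, L = ‖Ac.leadingCoeff‖ ^ (d - 1) := ⟨_, rfl⟩
  have hL0 : 0 < L := by
    rw [hL]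
    exact pow_pos (norm_pos_iff.2 (leadingCoeff_ne_zero.2 hAc0)) _
  refine ⟨1 / (L * B ^ (d - 1)), by positivity, ?_⟩
  intro e N he hed hN heN θ hθ
  rw [← hd] at hed ⊢
  have hd1 : 1 ≤ d := by omega
  obtain ⟨ec, hec⟩ : ∃ ec : ℂ[X], ec = e.map (Int.castRingHom ℂ) := ⟨_, rfl⟩
  have hecn : ec.natDegree ≤ d - 1 := by
    rw [hec]
    exact natDegree_map_le.trans (by omega)
  have hsz : ∀ z ∈ Ac.roots, ‖ec.eval z‖ ≤ N * B := by
    intro z hz
    have hz1 : ‖z‖ ≤ ∑ z ∈ Ac.roots.toFinset, ‖z‖ :=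
      Finset.single_le_sum (f := fun z : ℂ => ‖z‖) (fun _ _ => norm_nonneg _)
        (Multiset.mem_toFinset.2 hz)
    rw [eval_eq_sum_range' (show ec.natDegree < d + 1 by omega)]
    refine (norm_sum_le _ _).trans ?_
    have h1 : ∀ i ∈ Finset.range (d + 1), ‖ec.coeff i * z ^ i‖ ≤
        N * (1 + ∑ z ∈ Ac.roots.toFinset, ‖z‖) ^ d := by
      intro i hi
      rw [Finset.mem_range] at hi
      rw [norm_mul, norm_pow]
      apply mul_le_mul _ _ (by positivity) (by linarith)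
      · rw [hec, coeff_map]
        have := heN i
        simpa using this
      · calc ‖z‖ ^ i ≤ (1 + ∑ z ∈ Ac.roots.toFinset, ‖z‖) ^ i :=
              pow_le_pow_left₀ (norm_nonneg _) (by linarith) _
          _ ≤ _ := pow_le_pow_right₀ (by linarith) (by omega)
    refine (Finset.sum_le_sum h1).trans ?_
    rw [Finset.sum_const, Finset.card_range, nsmul_eq_mul, hB]
    push_cast
    apply le_of_eq
    ring
  -- the resultant
  have hspl : Ac.Splits := IsAlgClosed.splits Ac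
  have hres := resultant_eq_prod_eval Ac ec (d - 1) hecn hspl
  have hres' : resultant Ac ec Ac.natDegree (d - 1) =
      ((resultant A e d (d - 1) : ℤ) : ℂ) := by
    rw [hAcd, hAc, hec, resultant_map_map]
    rfl
  have hne : ∀ z ∈ Ac.roots, ec.eval z ≠ 0 := by
    intro z hz h0
    have hcop : IsCoprime (A.map (Int.castRingHom ℚ)) (e.map (Int.castRingHom ℚ)) := by
      rw [hA.coprime_iff_not_dvd]
      intro hdv
      have h1 := natDegree_le_of_dvd hdv
        ((Polynomial.map_ne_zero_iff (RingHom.injective_int _)).2 he)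
      rw [natDegree_map_eq_of_injective (RingHom.injective_int _),
        natDegree_map_eq_of_injective (RingHom.injective_int _)] at h1
      omega
    obtain ⟨a, b, hab⟩ := hcop
    have h1 := congrArg (fun p : ℚ[X] => (p.map (algebraMap ℚ ℂ)).eval z) hab
    simp only [Polynomial.map_add, Polynomial.map_mul, Polynomial.map_map, eval_add, eval_mul,
      Polynomial.map_one, eval_one] at h1
    have h2 : (algebraMap ℚ ℂ).comp (Int.castRingHom ℚ) = Int.castRingHom ℂ := by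
      ext; simp
    rw [h2, ← hAc, ← hec, h0, mul_zero, add_zero] at h1
    have h3 : Ac.eval z = 0 := (mem_roots hAc0).1 hz
    rw [h3, mul_zero] at h1
    exact zero_ne_one h1
  have hRne : resultant A e d (d - 1) ≠ 0 := by
    intro h0
    rw [hres', h0] at hres
    have h1 : Ac.leadingCoeff ^ (d - 1) * (Ac.roots.map ec.eval).prod ≠ 0 := by
      apply mul_ne_zero (pow_ne_zero _ (leadingCoeff_ne_zero.2 hAc0))
      apply Multiset.prod_ne_zero
      intro h2
      obtain ⟨z, hz, hz0⟩ := Multiset.mem_map.1 h2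
      exact hne z hz hz0
    apply h1
    rw [← hres]
    simp
  have hR1 : (1 : ℝ) ≤ ‖Ac.leadingCoeff‖ ^ (d - 1) * ‖(Ac.roots.map ec.eval).prod‖ := by
    rw [← norm_pow, ← norm_mul, ← hres, hres', Complex.norm_intCast]
    exact_mod_cast Int.one_le_abs hRne
  have hθc : (θ : ℂ) ∈ Ac.roots := by
    rw [mem_roots hAc0, IsRoot.def, hAc]
    rw [mem_Rt hA0] at hθ
    have h1 : (Int.castRingHom ℂ) = (Complex.ofRealHom).comp (Int.castRingHom ℝ) := by
      ext; simp
    rw [h1, ← Polynomial.map_map, eval_map, ← Complex.ofRealHom_eq_coe, eval₂_hom, hθ, map_zero]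
  have hprod : ‖(Ac.roots.map ec.eval).prod‖ ≤ |(Ar e).eval θ| * (N * B) ^ (d - 1) := by
    rw [← Multiset.cons_erase hθc, Multiset.map_cons, Multiset.prod_cons, norm_mul]
    have h1 : ‖ec.eval (θ : ℂ)‖ = |(Ar e).eval θ| := by
      have h1 : (Int.castRingHom ℂ) = (Complex.ofRealHom).comp (Int.castRingHom ℝ) := by
        ext; simp
      rw [hec, h1, ← Polynomial.map_map, eval_map, ← Complex.ofRealHom_eq_coe, eval₂_hom,
        Complex.ofRealHom_eq_coe, Complex.norm_real, Real.norm_eq_abs]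
    rw [h1]
    apply mul_le_mul_of_nonneg_left _ (abs_nonneg _)
    have h2 : ∀ s : Multiset ℂ, (∀ z ∈ s, ‖ec.eval z‖ ≤ N * B) →
        ‖(s.map ec.eval).prod‖ ≤ (N * B) ^ (Multiset.card s) := by
      intro s
      induction s using Multiset.induction with
      | empty => intro _; simp
      | cons a s ih =>
        intro hs
        rw [Multiset.map_cons, Multiset.prod_cons, norm_mul, Multiset.card_cons, pow_succ, mul_comm]
        apply mul_le_mul (ih fun z hz => hs z (Multiset.mem_cons_of_mem hz))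
          (hs a (Multiset.mem_cons_self a s)) (norm_nonneg _) (by positivity)
    have h3 := h2 (Ac.roots.erase (θ : ℂ)) (fun z hz => hsz z (Multiset.mem_of_mem_erase hz))
    rw [Multiset.card_erase_of_mem hθc, ← hspl.natDegree_eq_card_roots, hAcd] at h3
    exact h3
  rw [← hL] at hR1
  have h4 : (1 : ℝ) ≤ L * (|(Ar e).eval θ| * (N * B) ^ (d - 1)) :=
    hR1.trans (mul_le_mul_of_nonneg_left hprod hL0.le)
  rw [div_div, div_le_iff₀ (by positivity)]
  calc (1 : ℝ) ≤ L * (|(Ar e).eval θ| * (N * B) ^ (d - 1)) := h4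
    _ = |(Ar e).eval θ| * (L * B ^ (d - 1) * N ^ (d - 1)) := by rw [mul_pow]; ring

end Pool.Agent.TH728.FX
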