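import Pool.Agent.TH728.FX.Quad
import Pool.Agent.TH728.FX.Root

/-!
The polynomial in coordinates at infinity.
-/

open Polynomial

namespace Pool.Agent.TH728.FX

/-- exponents of total degree less than `d` -/
def Jx (d : ℕ) : Finset (ℕ × ℕ) :=
  ((Finset.range d) ×ˢ (Finset.range d)).filter fun p => p.1 + p.2 < d

lemma mem_Jx {d : ℕ} {p : ℕ × ℕ} : p ∈ Jx d ↔ p.1 + p.2 < d := by
  rw [Jx, Finset.mem_filter, Finset.mem_product, Finset.mem_range, Finset.mem_range]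
  constructor
  · rintro ⟨_, h⟩; exact h
  · intro h; exact ⟨⟨by omega, by omega⟩, h⟩

/-- the polynomial at infinity -/
noncomputable def Ps (A : ℤ[X]) (d : ℕ) (β : ℕ × ℕ → ℝ) (σ t : ℝ) : ℝ :=
  (Ar A).eval t + ∑ p ∈ Jx d, β p * (σ ^ (d - p.1 - p.2) * t ^ p.1)

/-- coefficient of `σ` -/
noncomputable def G1 (d : ℕ) (β : ℕ × ℕ → ℝ) (t : ℝ) : ℝ :=
  ∑ p ∈ Jx d, β p * (if d - p.1 - p.2 = 1 then t ^ p.1 else 0)

/-- its derivative -/
noncomputable def G1' (d : ℕ) (β : ℕ × ℕ → ℝ) (t : ℝ) : ℝ :=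
  ∑ p ∈ Jx d, β p * (if d - p.1 - p.2 = 1 then p.1 * t ^ (p.1 - 1) else 0)

/-- coefficient of `σ²` -/
noncomputable def G2 (d : ℕ) (β : ℕ × ℕ → ℝ) (t : ℝ) : ℝ :=
  ∑ p ∈ Jx d, β p * (if d - p.1 - p.2 = 2 then t ^ p.1 else 0)

/-- linear coefficient on a line -/
noncomputable def q1 (A : ℤ[X]) (d : ℕ) (β : ℕ × ℕ → ℝ) (α b : ℝ) : ℝ :=
  (derivative (Ar A)).eval α * b + G1 d β α

/-- quadratic coefficient on a line -/
noncomputable def q2 (A : ℤ[X]) (d : ℕ) (β : ℕ × ℕ → ℝ) (α b : ℝ) : ℝ :=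
  (derivative (derivative (Ar A))).eval α / 2 * b ^ 2 + (G1' d β α * b + G2 d β α)

lemma term_bound {d : ℕ} {σ t B : ℝ} (hσ : |σ| ≤ 1) (hB : 1 ≤ B) (ht : |t| ≤ B) {k j n : ℕ}
    (hkn : n ≤ k) (hj : j ≤ d) : |σ ^ k * t ^ j| ≤ |σ| ^ n * B ^ d := by
  rw [abs_mul, abs_pow, abs_pow]
  apply mul_le_mul _ _ (by positivity) (by positivity)
  · exact pow_le_pow_of_le_one (abs_nonneg _) hσ hkn
  · exact (pow_le_pow_left₀ (abs_nonneg _) ht _).trans (pow_le_pow_right₀ hB hj)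

lemma sum_bound {J : Finset (ℕ × ℕ)} {β : ℕ × ℕ → ℝ} (hβ : ∀ p, |β p| ≤ 1) {f : ℕ × ℕ → ℝ} {C : ℝ}
    (hf : ∀ p ∈ J, |f p| ≤ C) : |∑ p ∈ J, β p * f p| ≤ J.card * C := by
  refine (Finset.abs_sum_le_sum_abs _ _).trans ?_
  have h1 : ∀ p ∈ J, |β p * f p| ≤ C := by
    intro p hp
    rw [abs_mul]
    have h2 := hf p hp
    have h3 : 0 ≤ C := (abs_nonneg _).trans h2
    calc |β p| * |f p| ≤ 1 * C := mul_le_mul (hβ p) h2 (abs_nonneg _) (by norm_num)
      _ = C := one_mul _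
  refine (Finset.sum_le_sum h1).trans ?_
  rw [Finset.sum_const, nsmul_eq_mul]

/-- points near infinity are near an asymptote, to second order -/
lemma asy {A : ℤ[X]} (hA : Irreducible (A.map (Int.castRingHom ℚ))) (hd1 : 1 ≤ A.natDegree) :
    ∃ s₀ K : ℝ, 0 < s₀ ∧ s₀ ≤ 1 ∧ 1 ≤ K ∧ ∀ β : ℕ × ℕ → ℝ, (∀ p, |β p| ≤ 1) → ∀ σ t : ℝ,
      |σ| ≤ s₀ → |Ps A A.natDegree β σ t| ≤ 2 * |σ| ^ 2 → ∃ θ ∈ Rt A, |t - θ| ≤ K * |σ| ∧
        |(derivative (Ar A)).eval θ * (t - θ) + σ * G1 A.natDegree β θ| ≤ K * |σ| ^ 2 := by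
  obtain ⟨d, hd⟩ : ∃ d, d = A.natDegree := ⟨_, rfl⟩
  rw [← hd]
  have hA0 := ne_zero_of_irr hA
  obtain ⟨c, C, hc, hC, hnear⟩ := near_root hA
  obtain ⟨T, hT1, hT⟩ := growth hA0
  rw [← hd] at hT hd1
  -- all roots are at most `T`
  have hRT : ∀ θ ∈ Rt A, |θ| ≤ T := by
    intro θ hθ
    by_contra hcon
    push Not at hcon
    have h1 := hT θ hcon.le
    rw [mem_Rt hA0] at hθ
    rw [hθ, abs_zero] at h1
    have h2 : 1 ≤ |θ| ^ d := one_le_pow₀ (by linarith)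
    linarith
  obtain ⟨K₃, hK3, htay⟩ := poly_tay (Ar A) T hT1
  obtain ⟨n, hn⟩ : ∃ n : ℝ, n = (Jx d).card := ⟨_, rfl⟩
  have hn0 : 0 ≤ n := by rw [hn]; exact Nat.cast_nonneg _
  obtain ⟨K₁, hK1⟩ : ∃ K₁, K₁ = 2 + n * T ^ d := ⟨_, rfl⟩
  have hTd : 1 ≤ T ^ d := one_le_pow₀ hT1
  have hK10 : 2 ≤ K₁ := by
    rw [hK1]
    have : 0 ≤ n * T ^ d := by positivity
    linarith
  obtain ⟨K₄, hK4⟩ : ∃ K₄, K₄ = C * K₁ + (2 + K₃ * (C * K₁) ^ 2 + n * (d * T ^ d) * (C * K₁) +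
    n * T ^ d) := ⟨_, rfl⟩
  refine ⟨min (1 / (2 * (n + 3))) (c / K₁), K₄, by positivity, ?_, ?_, ?_⟩
  · refine (min_le_left _ _).trans ?_
    rw [div_le_one (by positivity)]
    linarith
  · rw [hK4]
    have h1 : 1 ≤ C * K₁ := by nlinarith
    have h2 : 0 ≤ K₃ * (C * K₁) ^ 2 := by positivity
    have h3 : 0 ≤ n * (d * T ^ d) * (C * K₁) := by positivity
    have h4 : 0 ≤ n * T ^ d := by positivity
    linarith
  · intro β hβ σ t hσ hPs
    have hσ1 : |σ| ≤ 1 / (2 * (n + 3)) := hσ.trans (min_le_left _ _)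
    have hσ2 : |σ| ≤ c / K₁ := hσ.trans (min_le_right _ _)
    have hσn : |σ| * (2 * (n + 3)) ≤ 1 := by
      rwa [le_div_iff₀ (by positivity)] at hσ1
    have hs0 : 0 ≤ |σ| := abs_nonneg _
    have hσ11 : |σ| ≤ 1 := by nlinarith
    have hPs' : |Ps A d β σ t| ≤ 2 * |σ| := by
      refine hPs.trans ?_
      nlinarith
    -- step 1
    have ht : |t| < T := by
      by_contra hcon
      push Not at hcon
      have h1 := hT t hcon
      have ht1 : 1 ≤ |t| := hT1.trans hcon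
      have h2 : |∑ p ∈ Jx d, β p * (σ ^ (d - p.1 - p.2) * t ^ p.1)| ≤ n * (|σ| * |t| ^ (d - 1)) := by
        rw [hn]
        apply sum_bound hβ
        intro p hp
        rw [mem_Jx] at hp
        have := term_bound (d := d - 1) hσ11 ht1 le_rfl (k := d - p.1 - p.2) (j := p.1) (n := 1)
          (by omega) (by omega)
        rwa [pow_one] at this
      have h3 : |(Ar A).eval t| ≤ |Ps A d β σ t| +
          |∑ p ∈ Jx d, β p * (σ ^ (d - p.1 - p.2) * t ^ p.1)| := by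
        have := abs_sub (Ps A d β σ t) (∑ p ∈ Jx d, β p * (σ ^ (d - p.1 - p.2) * t ^ p.1))
        unfold Ps at this ⊢
        rwa [add_sub_cancel_right] at this
      have h4 : 1 ≤ |t| ^ (d - 1) := one_le_pow₀ ht1
      have h5 : |t| ^ d = |t| ^ (d - 1) * |t| := by
        rw [← pow_succ]
        congr 1
        omega
      rw [h5] at h1
      have h6 : |t| ^ (d - 1) * |t| / 2 ≤ (n + 2) * |σ| * |t| ^ (d - 1) := by
        have h7 : 2 * |σ| ≤ 2 * |σ| * |t| ^ (d - 1) := le_mul_of_one_le_right (by positivity) h4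
        linarith
      have h7 : |t| ≤ 2 * (n + 2) * |σ| := by
        have h8 : 0 < |t| ^ (d - 1) := by positivity
        have h9 : |t| ^ (d - 1) * |t| ≤ |t| ^ (d - 1) * (2 * (n + 2) * |σ|) := by linarith
        exact le_of_mul_le_mul_left h9 h8
      have h8 : 2 * (n + 2) * |σ| < 1 := by
        rcases hs0.lt_or_eq with h | h
        · nlinarith
        · rw [← h]; norm_num
      linarith
    -- step 2
    have h2 : |∑ p ∈ Jx d, β p * (σ ^ (d - p.1 - p.2) * t ^ p.1)| ≤ n * (|σ| * T ^ d) := by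
      rw [hn]
      apply sum_bound hβ
      intro p hp
      rw [mem_Jx] at hp
      have := term_bound (d := d) hσ11 hT1 ht.le (k := d - p.1 - p.2) (j := p.1) (n := 1)
        (by omega) (by omega)
      rwa [pow_one] at this
    have h3 : |(Ar A).eval t| ≤ K₁ * |σ| := by
      have := abs_sub (Ps A d β σ t) (∑ p ∈ Jx d, β p * (σ ^ (d - p.1 - p.2) * t ^ p.1))
      have e : Ps A d β σ t - ∑ p ∈ Jx d, β p * (σ ^ (d - p.1 - p.2) * t ^ p.1) =
          (Ar A).eval t := by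
        unfold Ps
        rw [add_sub_cancel_right]
      rw [e] at this
      rw [hK1]
      linarith
    have h4 : |(Ar A).eval t| ≤ c := by
      refine h3.trans ?_
      rw [le_div_iff₀ (by linarith)] at hσ2
      linarith
    obtain ⟨θ, hθ, hθt⟩ := hnear t h4
    have h5 : |t - θ| ≤ C * K₁ * |σ| := by
      refine hθt.trans ?_
      rw [mul_assoc]
      exact mul_le_mul_of_nonneg_left h3 (by linarith)
    have hθT := hRT θ hθ
    refine ⟨θ, hθ, ?_, ?_⟩
    · refine h5.trans (mul_le_mul_of_nonneg_right ?_ hs0)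
      rw [hK4]
      have h2 : 0 ≤ K₃ * (C * K₁) ^ 2 := by positivity
      have h3 : 0 ≤ n * (d * T ^ d) * (C * K₁) := by positivity
      have h4 : 0 ≤ n * T ^ d := by positivity
      linarith
    · have e : (derivative (Ar A)).eval θ * (t - θ) + σ * G1 d β θ =
          Ps A d β σ t - ((Ar A).eval t - (Ar A).eval θ - (derivative (Ar A)).eval θ * (t - θ))
          - ∑ p ∈ Jx d, β p * ((if d - p.1 - p.2 = 1 then σ * (t ^ p.1 - θ ^ p.1) else 0)
          + (if d - p.1 - p.2 = 1 then 0 else σ ^ (d - p.1 - p.2) * t ^ p.1)) := by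
        rw [(mem_Rt hA0).1 hθ]
        unfold Ps G1
        rw [Finset.mul_sum]
        have e1 : ∀ p ∈ Jx d, β p * ((if d - p.1 - p.2 = 1 then σ * (t ^ p.1 - θ ^ p.1) else 0)
            + (if d - p.1 - p.2 = 1 then 0 else σ ^ (d - p.1 - p.2) * t ^ p.1)) =
            β p * (σ ^ (d - p.1 - p.2) * t ^ p.1) - σ * (β p * (if d - p.1 - p.2 = 1 then θ ^ p.1
            else 0)) := by
          intro p _
          by_cases h : d - p.1 - p.2 = 1
          · rw [if_pos h, if_pos h, if_pos h, h]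
            ring
          · rw [if_neg h, if_neg h, if_neg h]
            ring
        rw [Finset.sum_congr rfl e1, Finset.sum_sub_distrib]
        ring
      have f1 := htay t θ ht.le hθT
      have f2 : |∑ p ∈ Jx d, β p * ((if d - p.1 - p.2 = 1 then σ * (t ^ p.1 - θ ^ p.1) else 0)
          + (if d - p.1 - p.2 = 1 then 0 else σ ^ (d - p.1 - p.2) * t ^ p.1))| ≤
          n * (d * T ^ d * (C * K₁) * |σ| ^ 2 + |σ| ^ 2 * T ^ d) := by
        rw [hn]
        apply sum_bound hβ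
        intro p hp
        rw [mem_Jx] at hp
        by_cases h : d - p.1 - p.2 = 1
        · rw [if_pos h, if_pos h, add_zero, abs_mul]
          have g1 := pow_lip hT1 ht.le hθT p.1
          have g2 : (p.1 : ℝ) * T ^ p.1 ≤ d * T ^ d := by
            apply mul_le_mul _ (pow_le_pow_right₀ hT1 (by omega)) (by positivity) (by positivity)
            exact_mod_cast (by omega : p.1 ≤ d)
          have g3 : |t ^ p.1 - θ ^ p.1| ≤ d * T ^ d * (C * K₁ * |σ|) :=
            g1.trans (mul_le_mul g2 h5 (abs_nonneg _) (by positivity))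
          have g4 := mul_le_mul_of_nonneg_left g3 hs0
          have g5 : 0 ≤ |σ| ^ 2 * T ^ d := by positivity
          calc |σ| * |t ^ p.1 - θ ^ p.1| ≤ |σ| * (d * T ^ d * (C * K₁ * |σ|)) := g4
            _ = d * T ^ d * (C * K₁) * |σ| ^ 2 := by ring
            _ ≤ _ := by linarith
        · rw [if_neg h, if_neg h, zero_add]
          have g1 := term_bound (d := d) hσ11 hT1 ht.le (k := d - p.1 - p.2) (j := p.1) (n := 2)
            (by omega) (by omega)
          have g2 : 0 ≤ d * T ^ d * (C * K₁) * |σ| ^ 2 := by positivity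
          linarith
      have f3 : |t - θ| ^ 2 ≤ (C * K₁) ^ 2 * |σ| ^ 2 := by
        rw [← mul_pow]
        exact pow_le_pow_left₀ (abs_nonneg _) h5 _
      rw [e]
      refine (abs_sub _ _).trans ((add_le_add (abs_sub _ _) le_rfl).trans ?_)
      have f4 : K₃ * |t - θ| ^ 2 ≤ K₃ * ((C * K₁) ^ 2 * |σ| ^ 2) :=
        mul_le_mul_of_nonneg_left f3 (by linarith)
      rw [hK4]
      have f5 : 0 ≤ C * K₁ * |σ| ^ 2 := by positivity
      have f6 : (C * K₁ + (2 + K₃ * (C * K₁) ^ 2 + n * (d * T ^ d) * (C * K₁) + n * T ^ d)) *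
          |σ| ^ 2 = C * K₁ * |σ| ^ 2 + 2 * |σ| ^ 2 + K₃ * ((C * K₁) ^ 2 * |σ| ^ 2) +
          n * (d * T ^ d * (C * K₁) * |σ| ^ 2 + |σ| ^ 2 * T ^ d) := by ring
      rw [f6]
      linarith

end Pool.Agent.TH728.FX
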