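import Pool.Agent.TH728.FX.RangeC

/-!
Curves with a small integer point.
-/

open Polynomial

namespace Pool.Agent.TH728.FX

open Classical in
lemma dig_count {d : ℕ} (hd : 1 ≤ d) {u : ℤ} (hu : u ≠ 0) {H : ℕ} (F : Finset (ℕ × ℕ → ℤ))
    (e : ℕ → ℕ × ℕ) (hF : ∀ b ∈ F, ∀ p, |b p| ≤ H)
    (hinj : ∀ b ∈ F, ∀ b' ∈ F, (∀ i < d, b (e i) = b' (e i)) → b = b')
    (hsum : ∀ b ∈ F, ∀ b' ∈ F, ∑ i ∈ Finset.range d, (b (e i) - b' (e i)) * u ^ i = 0) :
    F.card ≤ (2 * H / u.natAbs + 1) ^ (d - 1) := by
  have hupos : 0 < |u| := abs_pos.2 hu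
  have h1 : F.card ≤ (Fintype.piFinset fun _ : Fin (d - 1) =>
      Finset.Icc (0 : ℤ) ((2 * H / u.natAbs : ℕ) : ℤ)).card := by
    apply Finset.card_le_card_of_injOn (fun b i => (b (e i) + H) / |u|)
    · intro b hb
      rw [Finset.mem_coe, Fintype.mem_piFinset]
      intro i
      rw [Finset.mem_Icc]
      have h2 := abs_le.1 (hF b hb (e i))
      constructor
      · apply Int.ediv_nonneg _ hupos.le
        linarith
      · have h3 : (b (e i) + H) / |u| ≤ (2 * H) / |u| := by
          apply Int.ediv_le_ediv hupos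
          linarith
        refine h3.trans (le_of_eq ?_)
        push_cast
        rfl
    · intro b hb b' hb' h
      rw [Finset.mem_coe] at hb hb'
      apply hinj b hb b' hb'
      have h3 := hsum b hb b' hb'
      obtain ⟨n, hn⟩ : ∃ n, d = n + 1 := ⟨d - 1, by omega⟩
      subst hn
      have h4 : ∀ i < n, |b (e i) - b' (e i)| < |u| := by
        intro i hi
        have h5 := congrFun h ⟨i, by omega⟩
        simp only at h5
        have h6 : b (e i) - b' (e i) = (b (e i) + H) % |u| - (b' (e i) + H) % |u| := by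
          have e1 := Int.emod_add_mul_ediv (b (e i) + H) |u|
          have e2 := Int.emod_add_mul_ediv (b' (e i) + H) |u|
          rw [h5] at e1
          linarith
        rw [h6]
        have f1 := Int.emod_nonneg (b (e i) + H) hupos.ne'
        have f2 := Int.emod_lt_of_pos (b (e i) + H) hupos
        have f3 := Int.emod_nonneg (b' (e i) + H) hupos.ne'
        have f4 := Int.emod_lt_of_pos (b' (e i) + H) hupos
        rw [abs_lt]
        constructor <;> linarith
      intro i hi
      have h7 := digits_zero n (fun i => b (e i) - b' (e i)) h4 h3 hu i hi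
      linarith
  refine h1.trans (le_of_eq ?_)
  rw [Fintype.card_piFinset, Finset.prod_const, Int.card_Icc, Finset.card_univ, Fintype.card_fin]
  congr 1

open Classical in
lemma one_point {A : ℤ[X]} (hd : 4 ≤ A.natDegree) {c : ℝ} (hc : 1 ≤ c) {H : ℕ} (hH : 1 ≤ H)
    {N : ℕ} (hN : 1 ≤ N) (hNH : (N : ℝ) ≤ c * H) (u w : ℤ) (h : u.natAbs = N ∨ w.natAbs = N)
    (S : Finset (ℕ × ℕ → ℤ)) (hS : S ⊆ Bo (Jx A.natDegree) H)
    (hSP : ∀ b ∈ S, Vl A A.natDegree b u w = 0) :
    (S.card : ℝ) ≤ ((c + 2) / N) ^ 3 * (c + 2) ^ A.natDegree *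
      (2 * H + 1) ^ ((Jx A.natDegree).card - 1) := by
  have hH' : (1 : ℝ) ≤ H := by exact_mod_cast hH
  have hH0 : (0 : ℝ) < H := by linarith
  have hN' : (1 : ℝ) ≤ N := by exact_mod_cast hN
  have hN0 : (0 : ℝ) < N := by linarith
  obtain ⟨d, hdd⟩ : ∃ d, d = A.natDegree := ⟨_, rfl⟩
  rw [← hdd] at hd hS hSP ⊢
  have hdJ : d ≤ (Jx d).card := by
    have h1 : ((Finset.range d).image (fun i => ((0 : ℕ), i))) ⊆ Jx d := by
      intro p hp
      obtain ⟨i, hi, rfl⟩ := Finset.mem_image.1 hp
      rw [Finset.mem_range] at hi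
      rw [mem_Jx]
      simpa using hi
    have h2 := Finset.card_le_card h1
    rw [Finset.card_image_of_injective _ (fun i j h => (Prod.mk.inj h).2), Finset.card_range] at h2
    exact h2
  -- general step
  have key : ∀ (v : ℤ) (e : ℕ → ℕ × ℕ), v.natAbs = N → Function.Injective e → (∀ i < d, e i ∈ Jx d) →
      (∀ b b' : ℕ × ℕ → ℤ, b ∈ S → b' ∈ S → (∀ p, (∀ i < d, p ≠ e i) → b p = b' p) →
        ∑ i ∈ Finset.range d, (b (e i) - b' (e i)) * v ^ i = 0) →
      S.card ≤ (2 * H / N + 1) ^ (d - 1) * (2 * H + 1) ^ ((Jx d).card - d) := by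
    intro v e hv he heJ hsum
    obtain ⟨D, hD⟩ : ∃ D, D = (Finset.range d).image e := ⟨_, rfl⟩
    have hDc : D.card = d := by
      rw [hD, Finset.card_image_of_injective _ he, Finset.card_range]
    have hDJ : D ⊆ Jx d := by
      intro p hp
      rw [hD] at hp
      obtain ⟨i, hi, rfl⟩ := Finset.mem_image.1 hp
      exact heJ i (Finset.mem_range.1 hi)
    have hv0 : v ≠ 0 := by
      intro h0
      rw [h0] at hv
      simp at hv
      omega
    have h1 := card_fib hS hDJ (k := (2 * H / N + 1) ^ (d - 1)) (by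
      intro c' _
      rw [← hv]
      have hagree : ∀ b ∈ S.filter (fun c'' => res D c'' = res D c'),
          ∀ b' ∈ S.filter (fun c'' => res D c'' = res D c'), ∀ p, (∀ i < d, p ≠ e i) → b p = b' p := by
        intro b hb b' hb' p hp
        rw [Finset.mem_filter] at hb hb'
        have := congrFun (hb.2.trans hb'.2.symm) p
        have hpD : p ∉ D := by
          rw [hD, Finset.mem_image]
          rintro ⟨i, hi, rfl⟩
          exact hp i (Finset.mem_range.1 hi) rfl
        simp only [res, if_neg hpD] at this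
        exact this
      apply dig_count (by omega) hv0 _ e
      · intro b hb p
        exact (mem_Bo.1 (hS (Finset.mem_filter.1 hb).1)).1 p
      · intro b hb b' hb' h
        funext p
        by_cases hp : ∀ i < d, p ≠ e i
        · exact hagree b hb b' hb' p hp
        · push Not at hp
          obtain ⟨i, hi, rfl⟩ := hp
          exact h i hi
      · intro b hb b' hb'
        exact hsum b b' (Finset.mem_filter.1 hb).1 (Finset.mem_filter.1 hb').1
          (hagree b hb b' hb'))
    rw [hDc] at h1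
    exact h1
  have h1 : S.card ≤ (2 * H / N + 1) ^ (d - 1) * (2 * H + 1) ^ ((Jx d).card - d) := by
    rcases h with h | h
    · apply key u (fun i => (0, i)) h (fun i j hij => (Prod.mk.inj hij).2)
      · intro i hi
        rw [mem_Jx]
        simpa using hi
      · intro b b' hb hb' hag
        have e1 := hSP b hb
        have e2 := hSP b' hb'
        unfold Vl at e1 e2
        have e3 : ∑ p ∈ Jx d, (b p - b' p) * w ^ p.1 * u ^ p.2 = 0 := by
          have : ∑ p ∈ Jx d, (b p - b' p) * w ^ p.1 * u ^ p.2 =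
            ∑ p ∈ Jx d, b p * w ^ p.1 * u ^ p.2 - ∑ p ∈ Jx d, b' p * w ^ p.1 * u ^ p.2 := by
            rw [← Finset.sum_sub_distrib]
            apply Finset.sum_congr rfl
            intro p _
            ring
          rw [this]
          linarith
        have e4 : (Finset.range d).image (fun i => ((0 : ℕ), i)) ⊆ Jx d := by
          intro p hp
          obtain ⟨i, hi, rfl⟩ := Finset.mem_image.1 hp
          rw [Finset.mem_range] at hi
          rw [mem_Jx]
          simpa using hi
        rw [← Finset.sum_subset e4] at e3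
        · rw [Finset.sum_image (fun i _ j _ hij => (Prod.mk.inj hij).2)] at e3
          rw [← e3]
          apply Finset.sum_congr rfl
          intro i _
          simp
        · intro p _ hp
          rw [hag p]
          · ring
          · intro i hi hpe
            apply hp
            rw [hpe]
            exact Finset.mem_image_of_mem _ (Finset.mem_range.2 hi)
    · apply key w (fun i => (i, 0)) h (fun i j hij => (Prod.mk.inj hij).1)
      · intro i hi
        rw [mem_Jx]
        simpa using hi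
      · intro b b' hb hb' hag
        have e1 := hSP b hb
        have e2 := hSP b' hb'
        unfold Vl at e1 e2
        have e3 : ∑ p ∈ Jx d, (b p - b' p) * w ^ p.1 * u ^ p.2 = 0 := by
          have : ∑ p ∈ Jx d, (b p - b' p) * w ^ p.1 * u ^ p.2 =
            ∑ p ∈ Jx d, b p * w ^ p.1 * u ^ p.2 - ∑ p ∈ Jx d, b' p * w ^ p.1 * u ^ p.2 := by
            rw [← Finset.sum_sub_distrib]
            apply Finset.sum_congr rfl
            intro p _
            ring
          rw [this]
          linarith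
        have e4 : (Finset.range d).image (fun i => (i, (0 : ℕ))) ⊆ Jx d := by
          intro p hp
          obtain ⟨i, hi, rfl⟩ := Finset.mem_image.1 hp
          rw [Finset.mem_range] at hi
          rw [mem_Jx]
          simpa using hi
        rw [← Finset.sum_subset e4] at e3
        · rw [Finset.sum_image (fun i _ j _ hij => (Prod.mk.inj hij).1)] at e3
          rw [← e3]
          apply Finset.sum_congr rfl
          intro i _
          simp
        · intro p _ hp
          rw [hag p]
          · ring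
          · intro i hi hpe
            apply hp
            rw [hpe]
            exact Finset.mem_image_of_mem _ (Finset.mem_range.2 hi)
  have h2 : (S.card : ℝ) ≤ (((2 * H / N + 1 : ℕ) : ℝ)) ^ (d - 1) *
      (2 * H + 1) ^ ((Jx d).card - d) := by exact_mod_cast h1
  have h3 : ((2 * H / N + 1 : ℕ) : ℝ) ≤ (c + 2) / N * H := by
    have h4 : (((2 * H / N : ℕ) : ℕ) : ℝ) ≤ 2 * H / N := by
      have := @Nat.cast_div_le ℝ _ _ _ (2 * H) N
      push_cast at this
      exact this
    push_cast
    have h5 : (c + 2) / N * (H : ℝ) = 2 * H / N + c * H / N := by ring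
    rw [h5]
    have h6 : 1 ≤ c * H / N := by rw [le_div_iff₀ hN0]; linarith
    linarith
  refine h2.trans ?_
  have h4 : (((2 * H / N + 1 : ℕ) : ℝ)) ^ (d - 1) ≤ ((c + 2) / N * H) ^ (d - 1) :=
    pow_le_pow_left₀ (Nat.cast_nonneg _) h3 _
  have h5 : ((c + 2) / N * (H : ℝ)) ^ (d - 1) ≤
      ((c + 2) / N) ^ 3 * (c + 2) ^ d * (2 * H + 1) ^ (d - 1) := by
    rw [mul_pow]
    apply mul_le_mul _ _ (by positivity) (by positivity)
    · have e : d - 1 = 3 + (d - 4) := by omega
      rw [e, pow_add]
      apply mul_le_mul_of_nonneg_left _ (by positivity)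
      have h6 : (c + 2) / N ≤ c + 2 := div_le_self (by linarith) hN'
      refine (pow_le_pow_left₀ (by positivity) h6 _).trans ?_
      exact pow_le_pow_right₀ (by linarith) (by omega)
    · apply pow_le_pow_left₀ hH0.le
      linarith
  have e6 : (2 * (H : ℝ) + 1) ^ ((Jx d).card - 1) =
      (2 * H + 1) ^ (d - 1) * (2 * H + 1) ^ ((Jx d).card - d) := by
    rw [← pow_add]
    congr 1
    omega
  rw [e6]
  calc (((2 * H / N + 1 : ℕ) : ℝ)) ^ (d - 1) * (2 * (H : ℝ) + 1) ^ ((Jx d).card - d)
      ≤ (((c + 2) / N) ^ 3 * (c + 2) ^ d * (2 * H + 1) ^ (d - 1)) *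
        (2 * H + 1) ^ ((Jx d).card - d) :=
        mul_le_mul_of_nonneg_right (h4.trans h5) (by positivity)
    _ = _ := by ring

lemma sum_sq_le (L : ℕ) : ∑ N ∈ Finset.Icc 1 L, 1 / (N : ℝ) ^ 2 ≤ (2 : ℝ) - 1 / (L : ℝ) := by
  induction L with
  | zero => simp
  | succ n ih =>
    rw [Finset.sum_Icc_succ_top (by omega)]
    rcases Nat.eq_zero_or_pos n with rfl | hn
    · norm_num
    · have hn' : (0 : ℝ) < n := by exact_mod_cast hn
      have h3 : 1 / ((n : ℝ) + 1) ^ 2 ≤ 1 / n - 1 / (n + 1) := by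
        rw [div_sub_div _ _ hn'.ne' (by positivity), div_le_div_iff₀ (by positivity) (by positivity)]
        nlinarith
      push_cast
      linarith

open Classical in
lemma rangeA {A : ℤ[X]} (hd : 4 ≤ A.natDegree) {c : ℝ} (hc : 1 ≤ c) {H : ℕ} (hH : 1 ≤ H)
    (S : Finset (ℕ × ℕ → ℤ)) (hS : S ⊆ Bo (Jx A.natDegree) H)
    (hSP : ∀ b ∈ S, ∃ P : ℤ × ℤ, Vl A A.natDegree b P.1 P.2 = 0 ∧ |(P.1 : ℝ)| ≤ c * H ∧
      |(P.2 : ℝ)| ≤ c * H) :
    (S.card : ℝ) ≤ (1 + 24 * (c + 2) ^ (A.natDegree + 3)) *
      (2 * H + 1) ^ ((Jx A.natDegree).card - 1) := by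
  have hH' : (1 : ℝ) ≤ H := by exact_mod_cast hH
  have hH0 : (0 : ℝ) < H := by linarith
  obtain ⟨X, hX⟩ : ∃ X : ℝ, X = (2 * (H : ℝ) + 1) ^ ((Jx A.natDegree).card - 1) := ⟨_, rfl⟩
  have hX0 : 0 ≤ X := by rw [hX]; positivity
  obtain ⟨L, hL⟩ : ∃ L : ℕ, L = ⌊c * H⌋₊ := ⟨_, rfl⟩
  obtain ⟨Q, hQ⟩ : ∃ Q : ℕ → Finset (ℤ × ℤ), Q = fun N : ℕ =>
    (({(N : ℤ), -(N : ℤ)} : Finset ℤ) ×ˢ Finset.Icc (-(N : ℤ)) N) ∪
      (Finset.Icc (-(N : ℤ)) N ×ˢ ({(N : ℤ), -(N : ℤ)} : Finset ℤ)) := ⟨_, rfl⟩
  have hQc : ∀ N : ℕ, 1 ≤ N → ((Q N).card : ℝ) ≤ 12 * N := by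
    intro N hN
    have h1 : (Q N).card ≤ 2 * (2 * N + 1) + (2 * N + 1) * 2 := by
      rw [hQ]
      refine (Finset.card_union_le _ _).trans ?_
      rw [Finset.card_product, Finset.card_product, Int.card_Icc]
      have h2 : ({(N : ℤ), -(N : ℤ)} : Finset ℤ).card ≤ 2 := Finset.card_le_two
      have h3 : ((N : ℤ) + 1 - -(N : ℤ)).toNat = 2 * N + 1 := by omega
      rw [h3]
      exact add_le_add (Nat.mul_le_mul_right _ h2) (Nat.mul_le_mul_left _ h2)
    have h2 : (Q N).card ≤ 12 * N := by omega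
    exact_mod_cast h2
  have hQm : ∀ N : ℕ, ∀ P ∈ Q N, P.1.natAbs = N ∨ P.2.natAbs = N := by
    intro N P hP
    rw [hQ] at hP
    simp only [Finset.mem_union, Finset.mem_product, Finset.mem_insert, Finset.mem_singleton] at hP
    rcases hP with ⟨h, _⟩ | ⟨_, h⟩
    · left; omega
    · right; omega
  have hcov : S ⊆ S.filter (fun b => Vl A A.natDegree b 0 0 = 0) ∪ (Finset.Icc 1 L).biUnion
      (fun N => (Q N).biUnion (fun P => S.filter (fun b => Vl A A.natDegree b P.1 P.2 = 0))) := by
    intro b hb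
    obtain ⟨P, h1, h2, h3⟩ := hSP b hb
    rw [Finset.mem_union]
    by_cases hP : P.1 = 0 ∧ P.2 = 0
    · left
      rw [Finset.mem_filter]
      rw [hP.1, hP.2] at h1
      exact ⟨hb, h1⟩
    · right
      obtain ⟨N, hN⟩ : ∃ N : ℕ, N = max P.1.natAbs P.2.natAbs := ⟨_, rfl⟩
      rw [Finset.mem_biUnion]
      refine ⟨N, ?_, ?_⟩
      · rw [Finset.mem_Icc, hL]
        constructor
        · omega
        · apply Nat.le_floor
          rw [hN, Nat.cast_max]
          apply max_le
          · rw [Nat.cast_natAbs]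
            exact_mod_cast h2
          · rw [Nat.cast_natAbs]
            exact_mod_cast h3
      · rw [Finset.mem_biUnion]
        refine ⟨P, ?_, Finset.mem_filter.2 ⟨hb, h1⟩⟩
        rw [hQ]
        simp only [Finset.mem_union, Finset.mem_product, Finset.mem_insert, Finset.mem_singleton,
          Finset.mem_Icc]
        omega
  have h0 : ((S.filter (fun b => Vl A A.natDegree b 0 0 = 0)).card : ℝ) ≤ X := by
    have hDJ : ({(0, 0)} : Finset (ℕ × ℕ)) ⊆ Jx A.natDegree := by
      intro p hp
      rw [Finset.mem_singleton] at hp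
      rw [mem_Jx, hp]
      simp only; omega
    have h1 := card_fib (S := S.filter (fun b => Vl A A.natDegree b 0 0 = 0))
      (J := Jx A.natDegree) (K := {(0, 0)}) (H := H) (k := 1)
      ((Finset.filter_subset _ _).trans hS) hDJ (by
        intro b' _
        rw [Finset.card_le_one]
        intro b hb b'' hb''
        rw [Finset.mem_filter, Finset.mem_filter] at hb hb''
        have e1 := hb.1.2
        have e2 := hb''.1.2
        rw [Vl_split A _ b hDJ, hb.2] at e1
        rw [Vl_split A _ b'' hDJ, hb''.2] at e2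
        rw [Finset.sum_singleton] at e1 e2
        simp only [pow_zero, mul_one] at e1 e2
        funext p
        by_cases hp : p = (0, 0)
        · rw [hp]; linarith
        · have := congrFun (hb.2.trans hb''.2.symm) p
          simp only [res, Finset.mem_singleton, if_neg hp] at this
          exact this)
    rw [Finset.card_singleton, one_mul] at h1
    rw [hX]
    exact_mod_cast h1
  have h1 : ∀ N ∈ Finset.Icc 1 L, (((Q N).biUnion (fun P => S.filter
      (fun b => Vl A A.natDegree b P.1 P.2 = 0))).card : ℝ) ≤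
      12 * (c + 2) ^ (A.natDegree + 3) * X * (1 / (N : ℝ) ^ 2) := by
    intro N hN
    rw [Finset.mem_Icc] at hN
    have hN' : (1 : ℝ) ≤ N := by exact_mod_cast hN.1
    have hNH : (N : ℝ) ≤ c * H := by
      have h2 : (N : ℝ) ≤ L := by exact_mod_cast hN.2
      refine h2.trans ?_
      rw [hL]
      exact Nat.floor_le (by positivity)
    have h2 : ((Q N).biUnion (fun P => S.filter
      (fun b => Vl A A.natDegree b P.1 P.2 = 0))).card ≤ ∑ P ∈ Q N, (S.filter
      (fun b => Vl A A.natDegree b P.1 P.2 = 0)).card := Finset.card_biUnion_le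
    have h3 : ∀ P ∈ Q N, ((S.filter (fun b => Vl A A.natDegree b P.1 P.2 = 0)).card : ℝ) ≤
        ((c + 2) / N) ^ 3 * (c + 2) ^ A.natDegree * X := by
      intro P hP
      rw [hX]
      apply one_point hd hc hH hN.1 hNH P.1 P.2 (hQm N P hP) _
        ((Finset.filter_subset _ _).trans hS)
      intro b hb
      exact (Finset.mem_filter.1 hb).2
    have h4 : (((Q N).biUnion (fun P => S.filter
      (fun b => Vl A A.natDegree b P.1 P.2 = 0))).card : ℝ) ≤ ((∑ P ∈ Q N, (S.filter
      (fun b => Vl A A.natDegree b P.1 P.2 = 0)).card : ℕ) : ℝ) := by exact_mod_cast h2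
    refine h4.trans ?_
    push_cast
    refine (Finset.sum_le_sum h3).trans ?_
    rw [Finset.sum_const, nsmul_eq_mul]
    have h5 : ((Q N).card : ℝ) * (((c + 2) / N) ^ 3 * (c + 2) ^ A.natDegree * X) ≤
      12 * N * (((c + 2) / N) ^ 3 * (c + 2) ^ A.natDegree * X) :=
      mul_le_mul_of_nonneg_right (hQc N hN.1) (by positivity)
    refine h5.trans (le_of_eq ?_)
    rw [div_pow, pow_add]
    field_simp
  have h2 := (Finset.card_le_card hcov).trans (Finset.card_union_le _ _)
  have h3 : ((Finset.Icc 1 L).biUnion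
      (fun N => (Q N).biUnion (fun P => S.filter (fun b => Vl A A.natDegree b P.1 P.2 = 0)))).card ≤
      ∑ N ∈ Finset.Icc 1 L, ((Q N).biUnion (fun P => S.filter
        (fun b => Vl A A.natDegree b P.1 P.2 = 0))).card := Finset.card_biUnion_le
  have h4 : (((Finset.Icc 1 L).biUnion
      (fun N => (Q N).biUnion (fun P => S.filter (fun b => Vl A A.natDegree b P.1 P.2 = 0)))).card : ℝ)
      ≤ 24 * (c + 2) ^ (A.natDegree + 3) * X := by
    have h5 : (((Finset.Icc 1 L).biUnion
      (fun N => (Q N).biUnion (fun P => S.filter (fun b => Vl A A.natDegree b P.1 P.2 = 0)))).card : ℝ)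
      ≤ ((∑ N ∈ Finset.Icc 1 L, ((Q N).biUnion (fun P => S.filter
        (fun b => Vl A A.natDegree b P.1 P.2 = 0))).card : ℕ) : ℝ) := by exact_mod_cast h3
    refine h5.trans ?_
    push_cast
    refine (Finset.sum_le_sum h1).trans ?_
    rw [← Finset.mul_sum]
    have h6 := sum_sq_le L
    have h7 : 0 ≤ 1 / (L : ℝ) := by positivity
    have h8 : 12 * (c + 2) ^ (A.natDegree + 3) * X * ∑ N ∈ Finset.Icc 1 L, 1 / (N : ℝ) ^ 2 ≤
      12 * (c + 2) ^ (A.natDegree + 3) * X * 2 := by
      apply mul_le_mul_of_nonneg_left _ (by positivity)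
      linarith
    linarith
  have h5 : (S.card : ℝ) ≤ ((S.filter (fun b => Vl A A.natDegree b 0 0 = 0)).card : ℝ) +
    (((Finset.Icc 1 L).biUnion
      (fun N => (Q N).biUnion (fun P => S.filter (fun b => Vl A A.natDegree b P.1 P.2 = 0)))).card : ℝ)
      := by exact_mod_cast h2
  rw [← hX]
  linarith

end Pool.Agent.TH728.FX
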