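import Pool.Agent.TH728.FX.RangeB

/-!
Curves with an integer point of intermediate size, count.
-/

open Polynomial

namespace Pool.Agent.TH728.FX

/-- large points are near an asymptote -/
lemma asyP {A : ℤ[X]} (hA : Irreducible (A.map (Int.castRingHom ℚ))) (hd : 4 ≤ A.natDegree) :
    ∃ (k₀ : ℕ) (K₀ : ℝ), 4 ≤ k₀ ∧ 1 ≤ K₀ ∧ ∀ (b : ℕ × ℕ → ℤ) (H : ℕ), 1 ≤ H →
      b ∈ Bo (Jx A.natDegree) H → ∀ u w : ℤ, (k₀ : ℝ) * H ≤ |(u : ℝ)| →
      Vl A A.natDegree b u w = 0 → ∃ θ ∈ Rt A, |(w : ℝ) - θ * u| ≤ K₀ * H ∧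
        |(derivative (Ar A)).eval θ * (w - θ * u) + G1 A.natDegree (rb b) θ| ≤
          K₀ * (H ^ 2 / |(u : ℝ)|) := by
  obtain ⟨s₀, K, hs0, hs1, hK, hasy⟩ := asy hA (by omega)
  obtain ⟨k, hk⟩ := exists_nat_gt (1 / s₀)
  refine ⟨k + 4, K, by omega, hK, ?_⟩
  intro b H hH hb u w hu hV
  have hH' : (1 : ℝ) ≤ H := by exact_mod_cast hH
  have hH0 : (0 : ℝ) < H := by linarith
  have hk0 : 0 < 1 / s₀ := by positivity
  push_cast at hu
  have hu0 : 0 < |(u : ℝ)| := by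
    have : 0 < ((k : ℝ) + 4) * H := by positivity
    linarith
  have hu0' : (u : ℝ) ≠ 0 := abs_pos.1 hu0
  have hu0'' : u ≠ 0 := by exact_mod_cast hu0'
  have h1 := Vl_eq A b hH hu0'' w
  rw [hV, Int.cast_zero] at h1
  have h2 : Ps A A.natDegree (nb A.natDegree b H) ((H : ℝ) / u) ((w : ℝ) / u) = 0 := by
    rcases mul_eq_zero.1 h1.symm with h | h
    · exact absurd h (pow_ne_zero _ hu0')
    · exact h
  have hσ : |(H : ℝ) / u| = H / |(u : ℝ)| := by rw [abs_div, Nat.abs_cast]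
  obtain ⟨θ, hθ, h3, h4⟩ := hasy (nb A.natDegree b H) (nb_le hH hb) ((H : ℝ) / u) ((w : ℝ) / u)
    (by
      rw [hσ, div_le_iff₀ hu0]
      have h5 : s₀ * (1 / s₀ * H) ≤ s₀ * |(u : ℝ)| := by
        apply mul_le_mul_of_nonneg_left _ hs0.le
        have : 1 / s₀ * H ≤ k * H := mul_le_mul_of_nonneg_right hk.le hH0.le
        linarith
      have h6 : s₀ * (1 / s₀ * H) = H := by field_simp
      linarith) (by rw [h2, abs_zero]; positivity)
  refine ⟨θ, hθ, ?_, ?_⟩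
  · have e : (w : ℝ) - θ * u = u * ((w : ℝ) / u - θ) := by field_simp
    rw [e, abs_mul]
    calc |(u : ℝ)| * |(w : ℝ) / u - θ| ≤ |(u : ℝ)| * (K * |(H : ℝ) / u|) :=
          mul_le_mul_of_nonneg_left h3 (abs_nonneg _)
      _ = K * H := by rw [hσ]; field_simp
  · have hG : G1 A.natDegree (rb b) θ = H * G1 A.natDegree (nb A.natDegree b H) θ := by
      rw [G1_eq, G1_eq, Finset.mul_sum]
      apply Finset.sum_congr rfl
      intro j hj
      rw [Finset.mem_range] at hj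
      unfold rb nb
      have e1 : A.natDegree - (j, A.natDegree - 1 - j).1 - (j, A.natDegree - 1 - j).2 = 1 := by
        simp only; omega
      rw [e1, pow_one]
      field_simp
    have e : (derivative (Ar A)).eval θ * (w - θ * u) + G1 A.natDegree (rb b) θ =
      u * ((derivative (Ar A)).eval θ * ((w : ℝ) / u - θ) + (H : ℝ) / u *
        G1 A.natDegree (nb A.natDegree b H) θ) := by
      rw [hG]
      field_simp
    rw [e, abs_mul]
    calc _ ≤ |(u : ℝ)| * (K * |(H : ℝ) / u| ^ 2) := mul_le_mul_of_nonneg_left h4 (abs_nonneg _)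
      _ = _ := by rw [hσ]; field_simp

open Classical in
lemma fixB {A : ℤ[X]} (hA : Irreducible (A.map (Int.castRingHom ℚ))) (hd : 4 ≤ A.natDegree)
    {K : ℝ} (hK : 1 ≤ K) : ∃ C : ℝ, 1 ≤ C ∧ ∀ H : ℕ, 1 ≤ H → ∀ u w : ℤ,
      4 * (H : ℝ) ≤ |(u : ℝ)| → |(u : ℝ)| ≤ (H : ℝ) ^ (A.natDegree + 1) → ∀ θ ∈ Rt A,
      |(w : ℝ) - θ * u| ≤ K * H → ∀ S : Finset (ℕ × ℕ → ℤ), S ⊆ Bo (Jx A.natDegree) H →
      (∀ b ∈ S, Vl A A.natDegree b u w = 0 ∧
        |(derivative (Ar A)).eval θ * (w - θ * u) + G1 A.natDegree (rb b) θ| ≤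
          K * (H ^ 2 / |(u : ℝ)|)) →
      (S.card : ℝ) ≤ C * ((H : ℝ) ^ (1 / (A.natDegree : ℝ)) /
        (|(u : ℝ)| * |(u : ℝ)| ^ (1 / (A.natDegree : ℝ)))) *
        (2 * H + 1) ^ ((Jx A.natDegree).card - 2) := by
  obtain ⟨c₁, hc1, hG⟩ := G1_sep hA
  obtain ⟨c₂, hc2, h2sep⟩ := sep2 hA hd hK
  obtain ⟨d, hdd⟩ : ∃ d, d = A.natDegree := ⟨_, rfl⟩
  rw [← hdd] at hd hG h2sep ⊢
  obtain ⟨r, hr⟩ : ∃ r : ℝ, r = 1 / (d : ℝ) := ⟨_, rfl⟩
  rw [← hr]
  have hdpos : (0 : ℝ) < d := by exact_mod_cast (by omega : 0 < d)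
  have hr0 : 0 < r := by rw [hr]; positivity
  have hrd : r * d = 1 := by rw [hr]; field_simp
  obtain ⟨C₁, hC1⟩ : ∃ C₁ : ℝ, C₁ = 2 * K * 2 ^ (d - 1) / c₁ + 1 := ⟨_, rfl⟩
  obtain ⟨C₂, hC2⟩ : ∃ C₂ : ℝ, C₂ = 2 / c₂ ^ r + 1 := ⟨_, rfl⟩
  have hc2r : 0 < c₂ ^ r := Real.rpow_pos_of_pos hc2 _
  have hC11 : 1 ≤ C₁ := by
    have : 0 ≤ 2 * K * 2 ^ (d - 1) / c₁ := by positivity
    linarith
  have hC21 : 1 ≤ C₂ := by
    have : 0 ≤ 2 / c₂ ^ r := by positivity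
    linarith
  refine ⟨C₂ * C₁, by nlinarith, ?_⟩
  intro H hH u w hu huH θ hθ hw S hS hSP
  have hH' : (1 : ℝ) ≤ H := by exact_mod_cast hH
  have hH0 : (0 : ℝ) < H := by linarith
  obtain ⟨U, hU⟩ : ∃ U : ℝ, U = |(u : ℝ)| := ⟨_, rfl⟩
  have hu' := hu
  rw [← hU] at hu huH ⊢
  have hU0 : 0 < U := by linarith
  obtain ⟨k₁, hk1⟩ : ∃ k₁ : ℕ, k₁ = ⌊C₁ * (H ^ (d + 1) / U)⌋₊ := ⟨_, rfl⟩
  obtain ⟨k₂, hk2⟩ : ∃ k₂ : ℕ, k₂ = ⌊C₂ * (H / (U / H) ^ r)⌋₊ := ⟨_, rfl⟩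
  have hUH1 : 1 ≤ (H : ℝ) ^ (d + 1) / U := by
    rw [le_div_iff₀ hU0]
    linarith
  have hUH : 0 < U / H := by positivity
  have hUHr : 0 < (U / H) ^ r := Real.rpow_pos_of_pos hUH _
  have hUHr1 : (U / H) ^ r ≤ H := by
    have h1 : U / H ≤ (H : ℝ) ^ d := by
      rw [div_le_iff₀ hH0, ← pow_succ]
      exact huH
    have h2 := Real.rpow_le_rpow hUH.le h1 hr0.le
    refine h2.trans (le_of_eq ?_)
    rw [← Real.rpow_natCast, ← Real.rpow_mul hH0.le, mul_comm, hrd, Real.rpow_one]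
  -- top part
  have h1 : (S.image (onl (T1 d))).card ≤ k₁ := by
    rw [hk1]
    apply Nat.le_floor
    have hval : ∀ b : ℕ × ℕ → ℤ, G1 d (rb (onl (T1 d) b)) θ = G1 d (rb b) θ := by
      intro b
      rw [G1_eq, G1_eq]
      apply Finset.sum_congr rfl
      intro j hj
      unfold rb onl
      rw [if_pos]
      exact Finset.mem_image_of_mem _ hj
    obtain ⟨y, hy⟩ : ∃ y, y = (derivative (Ar A)).eval θ * ((w : ℝ) - θ * u) := ⟨_, rfl⟩
    obtain ⟨B, hB⟩ : ∃ B : ℝ, B = c₁ / (2 * (H : ℝ)) ^ (d - 1) := ⟨_, rfl⟩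
    have hB0 : 0 < B := by rw [hB]; positivity
    have hsc := sep_card (S.image (onl (T1 d))) (fun c => G1 d (rb c) θ) (B := B)
      (lo := -y - K * (H ^ 2 / U)) (hi := -y + K * (H ^ 2 / U)) hB0 (by
        have : 0 ≤ K * ((H : ℝ) ^ 2 / U) := by positivity
        linarith) ?_ ?_
    · refine hsc.trans ?_
      have e1 : (-y + K * ((H : ℝ) ^ 2 / U) - (-y - K * (H ^ 2 / U))) / B =
        (2 * K * 2 ^ (d - 1) / c₁) * (H ^ (d + 1) / U) := by
        rw [hB, mul_pow]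
        have : (H : ℝ) ^ (d + 1) = H ^ 2 * H ^ (d - 1) := by
          rw [← pow_add]
          congr 1
          omega
        rw [this]
        field_simp
        ring
      rw [e1, hC1, add_mul, one_mul]
      linarith
    · intro c hc
      rw [Finset.mem_image] at hc
      obtain ⟨b, hb, rfl⟩ := hc
      rw [hval b]
      have h3 := (hSP b hb).2
      rw [← hU, ← hy, abs_le] at h3
      constructor <;> linarith [h3.1, h3.2]
    · intro c hc c' hc' hne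
      rw [Finset.mem_image] at hc hc'
      obtain ⟨b, hb, rfl⟩ := hc
      obtain ⟨b', hb', rfl⟩ := hc'
      rw [hval b, hval b', hB]
      apply hG b b' H hH (mem_Bo.1 (hS hb)).1 (mem_Bo.1 (hS hb')).1 _ θ hθ
      by_contra hcon
      push Not at hcon
      apply hne
      funext p
      unfold onl
      split_ifs with hp
      · unfold T1 at hp
        rw [Finset.mem_image] at hp
        obtain ⟨j, hj, rfl⟩ := hp
        exact hcon j (Finset.mem_range.1 hj)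
      · rfl
  -- bottom part
  have h2 : ∀ c ∈ S, (S.filter (fun c' => res (T2 d) c' = res (T2 d) c)).card ≤ k₂ := by
    intro c hc
    rw [hk2]
    apply Nat.le_floor
    obtain ⟨B, hB⟩ : ∃ B : ℝ, B = c₂ ^ r * (U / H) ^ r := ⟨_, rfl⟩
    have hB0 : 0 < B := by rw [hB]; positivity
    have hsc := sep_card (S.filter (fun c' => res (T2 d) c' = res (T2 d) c))
      (fun c => (c (1, 0) : ℝ)) (B := B) (lo := -H) (hi := H) hB0 (by linarith) ?_ ?_
    · refine hsc.trans ?_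
      have e1 : ((H : ℝ) - -H) / B = (2 / c₂ ^ r) * (H / (U / H) ^ r) := by
        rw [hB]
        field_simp
        ring
      have e2 : 1 ≤ H / (U / H) ^ r := by rw [le_div_iff₀ hUHr]; linarith
      rw [e1, hC2, add_mul, one_mul]
      linarith
    · intro b hb
      have h3 := (mem_Bo.1 (hS (Finset.mem_filter.1 hb).1)).1 (1, 0)
      have h4 : |(b (1, 0) : ℝ)| ≤ H := by exact_mod_cast h3
      exact abs_le.1 h4
    · intro b hb b' hb' hne
      rw [Finset.mem_filter] at hb hb'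
      have h3 := h2sep b b' H hH (mem_Bo.1 (hS hb.1)).1 (mem_Bo.1 (hS hb'.1)).1 u w hu' θ hθ hw
        (hb.2.trans hb'.2.symm) (hSP b hb.1).1 (hSP b' hb'.1).1 hne
      rw [← hU] at h3
      have h4 := Real.rpow_le_rpow (by positivity) h3 hr0.le
      rw [Real.mul_rpow hc2.le hUH.le, ← Real.rpow_natCast, ← Real.rpow_mul (abs_nonneg _),
        mul_comm (d : ℝ) r, hrd, Real.rpow_one] at h4
      rw [hB]
      exact h4
  have h3 := card_fib2 hS (T1_sub d) (T2_sub (by omega)) (T12_disj (by omega)) h1 h2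
  rw [T1_card, T2_card (by omega)] at h3
  have hJ : d + d ≤ (Jx d).card := by
    have h4 := Finset.card_le_card (Finset.union_subset (T1_sub d) (T2_sub (by omega : 2 ≤ d)))
    rw [Finset.card_union_of_disjoint (T12_disj (by omega)), T1_card, T2_card (by omega)] at h4
    exact h4
  have h4 : (S.card : ℝ) ≤ k₂ * (k₁ * (2 * H + 1) ^ ((Jx d).card - (d + d))) := by
    exact_mod_cast h3
  have hk1' : (k₁ : ℝ) ≤ C₁ * (H ^ (d + 1) / U) := by
    rw [hk1]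
    exact Nat.floor_le (by positivity)
  have hk2' : (k₂ : ℝ) ≤ C₂ * (H / (U / H) ^ r) := by
    rw [hk2]
    exact Nat.floor_le (by positivity)
  refine h4.trans ?_
  have h5 : (k₂ : ℝ) * (k₁ * (2 * H + 1) ^ ((Jx d).card - (d + d))) ≤
      C₂ * (H / (U / H) ^ r) * (C₁ * (H ^ (d + 1) / U) * (2 * H + 1) ^ ((Jx d).card - (d + d))) := by
    apply mul_le_mul hk2' _ (by positivity) (by positivity)
    exact mul_le_mul_of_nonneg_right hk1' (by positivity)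
  refine h5.trans ?_
  have h6 : (H : ℝ) * H ^ (d + 1) * (2 * H + 1) ^ ((Jx d).card - (d + d)) ≤
      (2 * H + 1) ^ ((Jx d).card - 2) := by
    have e1 : (2 * (H : ℝ) + 1) ^ ((Jx d).card - 2) = (2 * H + 1) ^ (2 * d - 2) *
        (2 * H + 1) ^ ((Jx d).card - (d + d)) := by
      rw [← pow_add]
      congr 1
      omega
    rw [e1]
    apply mul_le_mul_of_nonneg_right _ (by positivity)
    rw [← pow_succ']
    calc (H : ℝ) ^ (d + 1 + 1) ≤ (2 * H + 1) ^ (d + 1 + 1) :=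
          pow_le_pow_left₀ hH0.le (by linarith) _
      _ ≤ _ := pow_le_pow_right₀ (by linarith) (by omega)
  have h7 : (U / H) ^ r = U ^ r / (H : ℝ) ^ r := Real.div_rpow hU0.le hH0.le r
  have hUr : 0 < U ^ r := Real.rpow_pos_of_pos hU0 _
  have hHr : 0 < (H : ℝ) ^ r := Real.rpow_pos_of_pos hH0 _
  rw [h7]
  have e3 : C₂ * (H / (U ^ r / (H : ℝ) ^ r)) * (C₁ * (H ^ (d + 1) / U) *
      (2 * H + 1) ^ ((Jx d).card - (d + d))) = C₂ * C₁ * ((H : ℝ) ^ r / (U * U ^ r)) *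
      (H * H ^ (d + 1) * (2 * H + 1) ^ ((Jx d).card - (d + d))) := by
    field_simp
  rw [e3]
  exact mul_le_mul_of_nonneg_left h6 (by positivity)

open Classical in
lemma rangeB {A : ℤ[X]} (hA : Irreducible (A.map (Int.castRingHom ℚ))) (hd : 4 ≤ A.natDegree)
    {k₀ : ℕ} {K : ℝ} (hk : 4 ≤ k₀) (hK : 1 ≤ K) : ∃ C : ℝ, 1 ≤ C ∧ ∀ H : ℕ, 1 ≤ H →
      ∀ S : Finset (ℕ × ℕ → ℤ), S ⊆ Bo (Jx A.natDegree) H →
      (∀ b ∈ S, ∃ P : ℤ × ℤ, Vl A A.natDegree b P.1 P.2 = 0 ∧ (k₀ : ℝ) * H < |(P.1 : ℝ)| ∧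
        |(P.1 : ℝ)| ≤ (H : ℝ) ^ (A.natDegree + 1) ∧ ∃ θ ∈ Rt A, |(P.2 : ℝ) - θ * P.1| ≤ K * H ∧
        |(derivative (Ar A)).eval θ * (P.2 - θ * P.1) + G1 A.natDegree (rb b) θ| ≤
          K * (H ^ 2 / |(P.1 : ℝ)|)) →
      (S.card : ℝ) ≤ C * (2 * H + 1) ^ ((Jx A.natDegree).card - 1) := by
  obtain ⟨C, hC, hfix⟩ := fixB hA hd hK
  obtain ⟨d, hdd⟩ : ∃ d, d = A.natDegree := ⟨_, rfl⟩
  rw [← hdd] at hd hfix ⊢
  obtain ⟨r, hr⟩ : ∃ r : ℝ, r = 1 / (d : ℝ) := ⟨_, rfl⟩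
  rw [← hr] at hfix
  have hd1 : (1 : ℝ) ≤ d := by exact_mod_cast (by omega : 1 ≤ d)
  have hdpos : (0 : ℝ) < d := by linarith
  have hr0 : 0 < r := by rw [hr]; positivity
  have hr1 : r ≤ 1 := by rw [hr, div_le_one hdpos]; exact hd1
  refine ⟨2 * (d * ((2 * K + 1) * C)) * d, by
    have h1 : 1 ≤ (2 * K + 1) * C := by nlinarith
    have h2 : 1 ≤ d * ((2 * K + 1) * C) := by nlinarith
    nlinarith, ?_⟩
  intro H hH S hS hSP
  have hH' : (1 : ℝ) ≤ H := by exact_mod_cast hH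
  have hH0 : (0 : ℝ) < H := by linarith
  obtain ⟨X, hX⟩ : ∃ X : ℝ, X = (2 * (H : ℝ) + 1) ^ ((Jx d).card - 2) := ⟨_, rfl⟩
  have hX0 : 0 ≤ X := by rw [hX]; positivity
  obtain ⟨m, hm⟩ : ∃ m : ℕ, m = k₀ * H := ⟨_, rfl⟩
  have hm1 : 1 ≤ m := by
    rw [hm]
    exact Nat.mul_pos (by omega) hH
  obtain ⟨L, hL⟩ : ∃ L : ℕ, L = max m (H ^ (d + 1)) := ⟨_, rfl⟩
  have hmL : m ≤ L := by rw [hL]; exact le_max_left _ _
  -- cover
  obtain ⟨Wn, hWn⟩ : ∃ Wn : ℝ → ℤ → Finset ℤ, Wn = fun (θ : ℝ) (u : ℤ) =>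
    Finset.Icc ⌈θ * u - K * H⌉ ⌊θ * u + K * H⌋ := ⟨_, rfl⟩
  obtain ⟨Sf, hSf⟩ : ∃ Sf : ℝ → ℤ → ℤ → Finset (ℕ × ℕ → ℤ), Sf = fun (θ : ℝ) (u w : ℤ) =>
    S.filter (fun b => Vl A d b u w = 0 ∧ |(w : ℝ) - θ * u| ≤ K * H ∧
      |(derivative (Ar A)).eval θ * (w - θ * u) + G1 d (rb b) θ| ≤ K * (H ^ 2 / |(u : ℝ)|)) :=
    ⟨_, rfl⟩
  have hcov : S ⊆ (Finset.Icc (m + 1) L).biUnion (fun n => ({(n : ℤ), -(n : ℤ)} : Finset ℤ).biUnion
      (fun u => (Rt A).biUnion (fun θ => (Wn θ u).biUnion (fun w =>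
        if |(u : ℝ)| ≤ (H : ℝ) ^ (d + 1) then Sf θ u w else ∅)))) := by
    intro b hb
    obtain ⟨P, p1, p2, p3, θ, hθ, p4, p5⟩ := hSP b hb
    rw [Finset.mem_biUnion]
    refine ⟨P.1.natAbs, ?_, ?_⟩
    · rw [Finset.mem_Icc]
      have h1 : ((P.1.natAbs : ℕ) : ℝ) = |(P.1 : ℝ)| := by
        rw [Nat.cast_natAbs]
        push_cast
        rfl
      constructor
      · have h2 : ((m : ℕ) : ℝ) < ((P.1.natAbs : ℕ) : ℝ) := by
          rw [h1, hm]
          push_cast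
          exact p2
        have h3 : m < P.1.natAbs := by exact_mod_cast h2
        omega
      · have h2 : ((P.1.natAbs : ℕ) : ℝ) ≤ ((H ^ (d + 1) : ℕ) : ℝ) := by
          rw [h1]
          push_cast
          exact p3
        have h3 : P.1.natAbs ≤ H ^ (d + 1) := by exact_mod_cast h2
        rw [hL]
        exact h3.trans (le_max_right _ _)
    · rw [Finset.mem_biUnion]
      refine ⟨P.1, ?_, ?_⟩
      · rw [Finset.mem_insert, Finset.mem_singleton]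
        omega
      · rw [Finset.mem_biUnion]
        refine ⟨θ, hθ, ?_⟩
        rw [Finset.mem_biUnion]
        refine ⟨P.2, ?_, ?_⟩
        · rw [hWn, Finset.mem_Icc, Int.ceil_le, Int.le_floor]
          rw [abs_le] at p4
          constructor <;> linarith [p4.1, p4.2]
        · rw [if_pos p3, hSf, Finset.mem_filter]
          exact ⟨hb, p1, p4, p5⟩
  have hterm : ∀ n ∈ Finset.Icc (m + 1) L, ∀ u ∈ ({(n : ℤ), -(n : ℤ)} : Finset ℤ), ∀ θ ∈ Rt A,
      ∀ w ∈ Wn θ u, (((if |(u : ℝ)| ≤ (H : ℝ) ^ (d + 1) then Sf θ u w else ∅) :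
        Finset (ℕ × ℕ → ℤ)).card : ℝ) ≤
      C * (H : ℝ) ^ r * X * (1 / ((n : ℝ) * (n : ℝ) ^ r)) := by
    intro n hn u hu θ hθ w _
    rw [Finset.mem_Icc] at hn
    have hn0 : (0 : ℝ) < n := by exact_mod_cast (by omega : 0 < n)
    have hHr : 0 < (H : ℝ) ^ r := Real.rpow_pos_of_pos hH0 _
    have hnr : 0 < (n : ℝ) ^ r := Real.rpow_pos_of_pos hn0 _
    have hun : |(u : ℝ)| = n := by
      rw [Finset.mem_insert, Finset.mem_singleton] at hu
      rcases hu with rfl | rfl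
      · simp
      · simp
    split_ifs with hle
    · rcases (Sf θ u w).eq_empty_or_nonempty with h0 | ⟨b0, hb0⟩
      · rw [h0, Finset.card_empty]
        push_cast
        positivity
      · have hw : |(w : ℝ) - θ * u| ≤ K * H := by
          rw [hSf, Finset.mem_filter] at hb0
          exact hb0.2.2.1
        have h1 := hfix H hH u w (by
          rw [hun]
          have h2 : ((m : ℕ) : ℝ) ≤ n := by exact_mod_cast (by omega : m ≤ n)
          rw [hm] at h2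
          push_cast at h2
          have h3 : (4 : ℝ) ≤ k₀ := by exact_mod_cast hk
          have h4 : 4 * (H : ℝ) ≤ k₀ * H := mul_le_mul_of_nonneg_right h3 hH0.le
          linarith) hle θ hθ hw (Sf θ u w) (by
            rw [hSf]
            exact (Finset.filter_subset _ _).trans hS) (by
            intro b hb
            rw [hSf, Finset.mem_filter] at hb
            exact ⟨hb.2.1, hb.2.2.2⟩)
        rw [hun, ← hX] at h1
        refine h1.trans (le_of_eq ?_)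
        ring
    · rw [Finset.card_empty]
      push_cast
      positivity
  have hWc : ∀ θ : ℝ, ∀ u : ℤ, ((Wn θ u).card : ℝ) ≤ (2 * K + 1) * (2 * H + 1) := by
    intro θ u
    rw [hWn, Int.card_Icc]
    have h1 : ((⌊θ * u + K * H⌋ + 1 - ⌈θ * u - K * H⌉).toNat : ℝ) ≤ 2 * K * H + 1 := by
      rcases le_or_gt 0 (⌊θ * u + K * H⌋ + 1 - ⌈θ * u - K * H⌉) with h | h
      · have h7 : ((⌊θ * u + K * H⌋ + 1 - ⌈θ * u - K * H⌉).toNat : ℝ) =
            ((⌊θ * u + K * H⌋ + 1 - ⌈θ * u - K * H⌉ : ℤ) : ℝ) := by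
          exact_mod_cast congrArg (Int.cast (R := ℝ)) (Int.toNat_of_nonneg h)
        rw [h7]
        push_cast
        have h8 := Int.floor_le (θ * u + K * H)
        have h9 := Int.le_ceil (θ * u - K * H)
        linarith
      · rw [Int.toNat_of_nonpos h.le]
        push_cast
        positivity
    refine h1.trans ?_
    nlinarith
  -- sums
  have hn1 : ∀ n ∈ Finset.Icc (m + 1) L, ((({(n : ℤ), -(n : ℤ)} : Finset ℤ).biUnion
      (fun u => (Rt A).biUnion (fun θ => (Wn θ u).biUnion (fun w =>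
        if |(u : ℝ)| ≤ (H : ℝ) ^ (d + 1) then Sf θ u w else ∅)))).card : ℝ) ≤
      2 * (d * ((2 * K + 1) * (2 * H + 1) * (C * (H : ℝ) ^ r * X * (1 / ((n : ℝ) * (n : ℝ) ^ r))))) := by
    intro n hn
    have hHr : 0 < (H : ℝ) ^ r := Real.rpow_pos_of_pos hH0 _
    have hn0 : (0 : ℝ) < n := by
      rw [Finset.mem_Icc] at hn
      exact_mod_cast (by omega : 0 < n)
    have hnr : 0 < (n : ℝ) ^ r := Real.rpow_pos_of_pos hn0 _
    obtain ⟨Y, hY⟩ : ∃ Y, Y = C * (H : ℝ) ^ r * X * (1 / ((n : ℝ) * (n : ℝ) ^ r)) := ⟨_, rfl⟩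
    have hY0 : 0 ≤ Y := by rw [hY]; positivity
    have q1 : ∀ u ∈ ({(n : ℤ), -(n : ℤ)} : Finset ℤ), ∀ θ ∈ Rt A,
        (((Wn θ u).biUnion (fun w =>
        if |(u : ℝ)| ≤ (H : ℝ) ^ (d + 1) then Sf θ u w else ∅)).card : ℝ) ≤
        (2 * K + 1) * (2 * H + 1) * Y := by
      intro u hu θ hθ
      have f1 : ((Wn θ u).biUnion (fun w =>
        if |(u : ℝ)| ≤ (H : ℝ) ^ (d + 1) then Sf θ u w else ∅)).card ≤ ∑ w ∈ Wn θ u,
        (if |(u : ℝ)| ≤ (H : ℝ) ^ (d + 1) then Sf θ u w else ∅).card := Finset.card_biUnion_le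
      have f2 : (((Wn θ u).biUnion (fun w =>
        if |(u : ℝ)| ≤ (H : ℝ) ^ (d + 1) then Sf θ u w else ∅)).card : ℝ) ≤ ((∑ w ∈ Wn θ u,
        (if |(u : ℝ)| ≤ (H : ℝ) ^ (d + 1) then Sf θ u w else ∅).card : ℕ) : ℝ) := by
        exact_mod_cast f1
      refine f2.trans ?_
      push_cast
      refine (Finset.sum_le_sum (fun w hw => hterm n hn u hu θ hθ w hw)).trans ?_
      rw [← hY, Finset.sum_const, nsmul_eq_mul]
      exact mul_le_mul_of_nonneg_right (hWc θ u) hY0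
    have q2 : ∀ u ∈ ({(n : ℤ), -(n : ℤ)} : Finset ℤ), (((Rt A).biUnion (fun θ =>
        (Wn θ u).biUnion (fun w =>
        if |(u : ℝ)| ≤ (H : ℝ) ^ (d + 1) then Sf θ u w else ∅))).card : ℝ) ≤
        d * ((2 * K + 1) * (2 * H + 1) * Y) := by
      intro u hu
      have f1 : ((Rt A).biUnion (fun θ => (Wn θ u).biUnion (fun w =>
        if |(u : ℝ)| ≤ (H : ℝ) ^ (d + 1) then Sf θ u w else ∅))).card ≤ ∑ θ ∈ Rt A,
        ((Wn θ u).biUnion (fun w =>
          if |(u : ℝ)| ≤ (H : ℝ) ^ (d + 1) then Sf θ u w else ∅)).card := Finset.card_biUnion_le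
      have f2 : (((Rt A).biUnion (fun θ => (Wn θ u).biUnion (fun w =>
        if |(u : ℝ)| ≤ (H : ℝ) ^ (d + 1) then Sf θ u w else ∅))).card : ℝ) ≤ ((∑ θ ∈ Rt A,
        ((Wn θ u).biUnion (fun w =>
          if |(u : ℝ)| ≤ (H : ℝ) ^ (d + 1) then Sf θ u w else ∅)).card : ℕ) : ℝ) := by
        exact_mod_cast f1
      refine f2.trans ?_
      push_cast
      refine (Finset.sum_le_sum (fun θ hθ => q1 u hu θ hθ)).trans ?_
      rw [Finset.sum_const, nsmul_eq_mul]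
      apply mul_le_mul_of_nonneg_right _ (by positivity)
      rw [hdd]
      exact_mod_cast card_Rt A
    have f1 := Finset.card_biUnion_le (s := ({(n : ℤ), -(n : ℤ)} : Finset ℤ))
      (t := (fun u => (Rt A).biUnion (fun θ => (Wn θ u).biUnion (fun w =>
        if |(u : ℝ)| ≤ (H : ℝ) ^ (d + 1) then Sf θ u w else ∅))))
    have f2 : ((({(n : ℤ), -(n : ℤ)} : Finset ℤ).biUnion
      (fun u => (Rt A).biUnion (fun θ => (Wn θ u).biUnion (fun w =>
        if |(u : ℝ)| ≤ (H : ℝ) ^ (d + 1) then Sf θ u w else ∅)))).card : ℝ) ≤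
        ((∑ u ∈ ({(n : ℤ), -(n : ℤ)} : Finset ℤ), ((Rt A).biUnion (fun θ =>
        (Wn θ u).biUnion (fun w =>
        if |(u : ℝ)| ≤ (H : ℝ) ^ (d + 1) then Sf θ u w else ∅))).card : ℕ) : ℝ) := by
      exact_mod_cast f1
    refine f2.trans ?_
    push_cast
    refine (Finset.sum_le_sum (fun u hu => q2 u hu)).trans ?_
    rw [Finset.sum_const, nsmul_eq_mul, ← hY]
    apply mul_le_mul_of_nonneg_right _ (by positivity)
    exact_mod_cast Finset.card_le_two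
  have g1 := (Finset.card_le_card hcov).trans Finset.card_biUnion_le
  have g2 : (S.card : ℝ) ≤ ((∑ n ∈ Finset.Icc (m + 1) L, (({(n : ℤ), -(n : ℤ)} : Finset ℤ).biUnion
      (fun u => (Rt A).biUnion (fun θ => (Wn θ u).biUnion (fun w =>
        if |(u : ℝ)| ≤ (H : ℝ) ^ (d + 1) then Sf θ u w else ∅)))).card : ℕ) : ℝ) := by
    exact_mod_cast g1
  refine g2.trans ?_
  push_cast
  refine (Finset.sum_le_sum hn1).trans ?_
  have hHr : 0 < (H : ℝ) ^ r := Real.rpow_pos_of_pos hH0 _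
  have hm0 : (0 : ℝ) < m := by exact_mod_cast (by omega : 0 < m)
  have hmr : 0 < (m : ℝ) ^ r := Real.rpow_pos_of_pos hm0 _
  have g3 : ∀ n : ℕ, 2 * (d * ((2 * K + 1) * (2 * H + 1) * (C * (H : ℝ) ^ r * X *
      (1 / ((n : ℝ) * (n : ℝ) ^ r))))) = (2 * (d * ((2 * K + 1) * C)) * ((2 * H + 1) * X) *
        (H : ℝ) ^ r * d) * (r * (1 / ((n : ℝ) * (n : ℝ) ^ r))) := by
    intro n
    have : (d : ℝ) * r = 1 := by rw [hr]; field_simp
    calc _ = 2 * (d * ((2 * K + 1) * (2 * H + 1) * (C * (H : ℝ) ^ r * X *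
      (1 / ((n : ℝ) * (n : ℝ) ^ r))))) * 1 := by ring
      _ = 2 * (d * ((2 * K + 1) * (2 * H + 1) * (C * (H : ℝ) ^ r * X *
      (1 / ((n : ℝ) * (n : ℝ) ^ r))))) * (d * r) := by rw [this]
      _ = _ := by ring
  rw [Finset.sum_congr rfl (fun n _ => g3 n), ← Finset.mul_sum, ← Finset.mul_sum]
  have g4 := tele hr0 hr1 hm1 L hmL
  have g5 : 0 ≤ 1 / (L : ℝ) ^ r := by
    have : 0 ≤ (L : ℝ) ^ r := Real.rpow_nonneg (Nat.cast_nonneg _) _
    positivity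
  have g6 : r * ∑ k ∈ Finset.Icc (m + 1) L, 1 / ((k : ℝ) * (k : ℝ) ^ r) ≤ 1 / (m : ℝ) ^ r := by
    linarith
  have g7 : (H : ℝ) ^ r * (1 / (m : ℝ) ^ r) ≤ 1 := by
    rw [mul_one_div, div_le_one hmr]
    apply Real.rpow_le_rpow hH0.le _ hr0.le
    rw [hm]
    push_cast
    have h3 : (1 : ℝ) ≤ k₀ := by exact_mod_cast (by omega : 1 ≤ k₀)
    exact le_mul_of_one_le_left hH0.le h3
  have g8 : (2 * (H : ℝ) + 1) * X = (2 * H + 1) ^ ((Jx d).card - 1) := by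
    rw [hX, ← pow_succ']
    congr 1
    have hJ : d ≤ (Jx d).card := by
      have h4 := Finset.card_le_card (T1_sub d)
      rw [T1_card] at h4
      exact h4
    omega
  rw [g8]
  obtain ⟨Z, hZ⟩ : ∃ Z : ℝ, Z = 2 * (d * ((2 * K + 1) * C)) *
    (2 * (H : ℝ) + 1) ^ ((Jx d).card - 1) := ⟨_, rfl⟩
  have hZ0 : 0 ≤ Z := by rw [hZ]; positivity
  rw [← hZ]
  have g9 : 2 * (d * ((2 * K + 1) * C)) * d * (2 * (H : ℝ) + 1) ^ ((Jx d).card - 1) = Z * d := by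
    rw [hZ]
    ring
  rw [g9]
  calc Z * (H : ℝ) ^ r * d * (r * ∑ k ∈ Finset.Icc (m + 1) L, 1 / ((k : ℝ) * (k : ℝ) ^ r))
      ≤ Z * (H : ℝ) ^ r * d * (1 / (m : ℝ) ^ r) := mul_le_mul_of_nonneg_left g6 (by positivity)
    _ = Z * d * ((H : ℝ) ^ r * (1 / (m : ℝ) ^ r)) := by ring
    _ ≤ Z * d * 1 := mul_le_mul_of_nonneg_left g7 (by positivity)
    _ = Z * d := by ring

end Pool.Agent.TH728.FX
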