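import Pool.Agent.TH728.FX.RangeC

/-!
Curves with a small flex number.
-/

open Polynomial

namespace Pool.Agent.TH728.FX

lemma gam_diff (A : ℤ[X]) {d : ℕ} (hd : 4 ≤ d) {β β' : ℕ × ℕ → ℝ}
    (h : ∀ p, p ≠ (0, d - 2) → β p = β' p) (θ : ℝ) :
    gam A d β θ - gam A d β' θ = β (0, d - 2) - β' (0, d - 2) := by
  have hne : ∀ p : ℕ × ℕ, d - p.1 - p.2 = 1 → p ≠ (0, d - 2) := by
    rintro p hp rfl
    simp only at hp
    omega
  have e1 : ∀ t, G1 d β t = G1 d β' t := by
    intro t
    unfold G1
    apply Finset.sum_congr rfl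
    intro p _
    split_ifs with h1
    · rw [h p (hne p h1)]
    · simp
  have e2 : ∀ t, G1' d β t = G1' d β' t := by
    intro t
    unfold G1'
    apply Finset.sum_congr rfl
    intro p _
    split_ifs with h1
    · rw [h p (hne p h1)]
    · simp
  have e3 : ∀ t, G2 d β t - G2 d β' t = β (0, d - 2) - β' (0, d - 2) := by
    intro t
    unfold G2
    rw [← Finset.sum_sub_distrib, Finset.sum_eq_single (0, d - 2)]
    · have : d - (0, d - 2).1 - (0, d - 2).2 = 2 := by simp only; omega
      rw [if_pos this]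
      simp
    · intro p _ hp
      rw [h p hp]
      ring
    · intro hp
      exfalso
      apply hp
      rw [mem_Jx]
      simp only
      omega
  have e4 : kap A d β θ = kap A d β' θ := by
    unfold kap
    rw [e1]
  unfold gam q2
  rw [e2, e4, ← e3 θ]
  ring

open Classical in
lemma rangeD {A : ℤ[X]} (hd : 4 ≤ A.natDegree) (H : ℕ) (S : Finset (ℕ × ℕ → ℤ))
    (hS : S ⊆ Bo (Jx A.natDegree) H)
    (hSP : ∀ b ∈ S, ∃ θ ∈ Rt A, |gam A A.natDegree (rb b) θ| < 1) :
    (S.card : ℝ) ≤ A.natDegree * (3 * (2 * H + 1) ^ ((Jx A.natDegree).card - 1)) := by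
  obtain ⟨D, hD⟩ : ∃ D : Finset (ℕ × ℕ), D = {(0, A.natDegree - 2)} := ⟨_, rfl⟩
  have hDJ : D ⊆ Jx A.natDegree := by
    intro p hp
    rw [hD, Finset.mem_singleton] at hp
    rw [mem_Jx, hp]
    simp only; omega
  have hDc : D.card = 1 := by rw [hD]; rfl
  have hcov : S ⊆ (Rt A).biUnion (fun θ => S.filter (fun b => |gam A A.natDegree (rb b) θ| < 1)) := by
    intro b hb
    obtain ⟨θ, hθ, h⟩ := hSP b hb
    rw [Finset.mem_biUnion]
    exact ⟨θ, hθ, Finset.mem_filter.2 ⟨hb, h⟩⟩
  have h1 := (Finset.card_le_card hcov).trans Finset.card_biUnion_le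
  have h2 : ∀ θ ∈ Rt A, (S.filter (fun b => |gam A A.natDegree (rb b) θ| < 1)).card ≤
      3 * (2 * H + 1) ^ ((Jx A.natDegree).card - 1) := by
    intro θ hθ
    have h3 := card_fib (S := S.filter (fun b => |gam A A.natDegree (rb b) θ| < 1))
      (J := Jx A.natDegree) (K := D) (H := H) (k := 3)
      ((Finset.filter_subset _ _).trans hS) hDJ ?_
    · rw [hDc] at h3
      exact h3
    · intro c hc
      have h4 := sep_card ((S.filter (fun b => |gam A A.natDegree (rb b) θ| < 1)).filter
        (fun c' => res D c' = res D c)) (fun b => gam A A.natDegree (rb b) θ) (B := 1) (lo := -1)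
        (hi := 1) (by norm_num) (by norm_num) ?_ ?_
      · have h5 : (1 - (-1 : ℝ)) / 1 + 1 = ((3 : ℕ) : ℝ) := by norm_num
        rw [h5] at h4
        exact_mod_cast h4
      · intro b hb
        rw [Finset.mem_filter, Finset.mem_filter] at hb
        have := abs_lt.1 hb.1.2
        exact ⟨this.1.le, this.2.le⟩
      · intro b hb b' hb' hne
        rw [Finset.mem_filter] at hb hb'
        have h6 : ∀ p, p ≠ (0, A.natDegree - 2) → b p = b' p := by
          intro p hp
          have := congrFun (hb.2.trans hb'.2.symm) p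
          have hpD : p ∉ D := by rw [hD, Finset.mem_singleton]; exact hp
          simp only [res, if_neg hpD] at this
          exact this
        rw [gam_diff A hd (fun p hp => by unfold rb; rw [h6 p hp]) θ]
        unfold rb
        have h7 : b (0, A.natDegree - 2) ≠ b' (0, A.natDegree - 2) := by
          intro h8
          apply hne
          funext p
          by_cases hp : p = (0, A.natDegree - 2)
          · rw [hp, h8]
          · exact h6 p hp
        have h8 : (1 : ℤ) ≤ |b (0, A.natDegree - 2) - b' (0, A.natDegree - 2)| :=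
          Int.one_le_abs (sub_ne_zero.2 h7)
        exact_mod_cast h8
  have h3 : S.card ≤ A.natDegree * (3 * (2 * H + 1) ^ ((Jx A.natDegree).card - 1)) := by
    refine h1.trans ((Finset.sum_le_sum h2).trans ?_)
    rw [Finset.sum_const, smul_eq_mul]
    exact Nat.mul_le_mul_right _ (card_Rt A)
  exact_mod_cast h3

end Pool.Agent.TH728.FX
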