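import Pool.Agent.TH728.FX.RangeE
import Pool.Agent.TH728.FX.RangeA
import Pool.Agent.TH728.FX.RangeB2
import Pool.Agent.TH728.FX.RangeD

/-!
The number of curves with given top form and an integer point.
-/

open Polynomial

namespace Pool.Agent.TH728.FX

open Pool.Agent.H322R2 (kC kN)

/-- bound for the second coordinate -/
lemma w_bound (A : ℤ[X]) (hd : 4 ≤ A.natDegree) : ∃ c : ℝ, 1 ≤ c ∧ ∀ (b : ℕ × ℕ → ℤ) (H : ℕ), 1 ≤ H →
    b ∈ Bo (Jx A.natDegree) H → ∀ u w : ℤ, Vl A A.natDegree b u w = 0 → ∀ U : ℝ, |(u : ℝ)| ≤ U →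
      (H : ℝ) ≤ U → |(w : ℝ)| ≤ c * U := by
  obtain ⟨d, hdd⟩ : ∃ d, d = A.natDegree := ⟨_, rfl⟩
  rw [← hdd] at hd ⊢
  obtain ⟨a, ha⟩ : ∃ a : ℝ, a = ∑ j ∈ Finset.range d, |(A.coeff j : ℝ)| := ⟨_, rfl⟩
  have ha0 : 0 ≤ a := by rw [ha]; exact Finset.sum_nonneg fun _ _ => abs_nonneg _
  obtain ⟨n, hn⟩ : ∃ n : ℝ, n = (Jx d).card := ⟨_, rfl⟩
  have hn0 : 0 ≤ n := by rw [hn]; exact Nat.cast_nonneg _
  refine ⟨a + n + 1, by linarith, ?_⟩
  intro b H hH hb u w hV U hu hHU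
  have hH' : (1 : ℝ) ≤ H := by exact_mod_cast hH
  have hU1 : 1 ≤ U := by linarith
  by_contra hcon
  push Not at hcon
  obtain ⟨W, hW⟩ : ∃ W : ℝ, W = |(w : ℝ)| := ⟨_, rfl⟩
  rw [← hW] at hcon
  have hWU : U ≤ W := by nlinarith
  have hW0 : 0 < W := by linarith
  have hAd : (1 : ℝ) ≤ |(A.coeff d : ℝ)| := by
    have h1 : A.coeff d ≠ 0 := by
      rw [hdd]
      have : A ≠ 0 := by
        rintro rfl
        rw [natDegree_zero] at hdd
        omega
      exact leadingCoeff_ne_zero.2 this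
    have h2 : (1 : ℤ) ≤ |A.coeff d| := Int.one_le_abs h1
    exact_mod_cast h2
  have e1 : ((Vl A d b u w : ℤ) : ℝ) = 0 := by rw [hV]; simp
  unfold Vl at e1
  push_cast at e1
  rw [Finset.sum_range_succ, Nat.sub_self, pow_zero, mul_one] at e1
  have e2 : W ^ d ≤ |(A.coeff d : ℝ) * w ^ d| := by
    rw [abs_mul, abs_pow, ← hW]
    exact le_mul_of_one_le_left (by positivity) hAd
  have e3 : |∑ j ∈ Finset.range d, (A.coeff j : ℝ) * w ^ j * u ^ (d - j)| ≤ a * (U * W ^ (d - 1)) := by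
    refine (Finset.abs_sum_le_sum_abs _ _).trans ?_
    rw [ha, Finset.sum_mul]
    apply Finset.sum_le_sum
    intro j hj
    rw [Finset.mem_range] at hj
    rw [abs_mul, abs_mul, abs_pow, abs_pow, ← hW, mul_assoc]
    apply mul_le_mul_of_nonneg_left _ (abs_nonneg _)
    have h1 : |(u : ℝ)| ^ (d - j) ≤ U * W ^ (d - j - 1) := by
      calc |(u : ℝ)| ^ (d - j) ≤ U ^ (d - j) := pow_le_pow_left₀ (abs_nonneg _) hu _
        _ = U * U ^ (d - j - 1) := by rw [← pow_succ']; congr 1; omega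
        _ ≤ _ := mul_le_mul_of_nonneg_left (pow_le_pow_left₀ (by linarith) hWU _) (by linarith)
    calc W ^ j * |(u : ℝ)| ^ (d - j) ≤ W ^ j * (U * W ^ (d - j - 1)) :=
          mul_le_mul_of_nonneg_left h1 (by positivity)
      _ = U * (W ^ j * W ^ (d - j - 1)) := by ring
      _ = U * W ^ (d - 1) := by rw [← pow_add]; congr 2; omega
  have e4 : |∑ p ∈ Jx d, (b p : ℝ) * w ^ p.1 * u ^ p.2| ≤ n * (U * W ^ (d - 1)) := by
    refine (Finset.abs_sum_le_sum_abs _ _).trans ?_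
    rw [hn, ← nsmul_eq_mul]
    apply Finset.sum_le_card_nsmul
    intro p hp
    rw [mem_Jx] at hp
    rw [abs_mul, abs_mul, abs_pow, abs_pow, ← hW, mul_assoc]
    have h1 : |(b p : ℝ)| ≤ U := by
      have : |(b p : ℝ)| ≤ H := by exact_mod_cast (mem_Bo.1 hb).1 p
      linarith
    apply mul_le_mul h1 _ (by positivity) (by linarith)
    calc W ^ p.1 * |(u : ℝ)| ^ p.2 ≤ W ^ p.1 * W ^ p.2 :=
          mul_le_mul_of_nonneg_left (pow_le_pow_left₀ (abs_nonneg _) (hu.trans hWU) _)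
            (by positivity)
      _ = W ^ (p.1 + p.2) := (pow_add _ _ _).symm
      _ ≤ W ^ (d - 1) := pow_le_pow_right₀ (by linarith) (by omega)
  have e5 : |(A.coeff d : ℝ) * w ^ d| ≤ (a + n) * (U * W ^ (d - 1)) := by
    have : (A.coeff d : ℝ) * w ^ d = -(∑ j ∈ Finset.range d, (A.coeff j : ℝ) * w ^ j * u ^ (d - j)) -
      ∑ p ∈ Jx d, (b p : ℝ) * w ^ p.1 * u ^ p.2 := by linarith
    rw [this]
    refine (abs_sub _ _).trans ?_
    rw [abs_neg]
    linarith
  have e6 : W ^ d = W * W ^ (d - 1) := by rw [← pow_succ']; congr 1; omega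
  have e7 : W * W ^ (d - 1) ≤ ((a + n) * U) * W ^ (d - 1) := by
    rw [← e6]
    refine (e2.trans e5).trans (le_of_eq ?_)
    ring
  have e8 : W ≤ (a + n) * U := le_of_mul_le_mul_right e7 (by positivity)
  nlinarith

open Classical in
theorem box_main {A : ℤ[X]} (hA : Irreducible (A.map (Int.castRingHom ℚ)))
    (hd : 4 ≤ A.natDegree) : ∃ K : ℝ, 1 ≤ K ∧ ∀ H : ℕ, 1 ≤ H →
      (((Bo (Jx A.natDegree) H).filter (fun b => ∃ u w : ℤ, Vl A A.natDegree b u w = 0)).card : ℝ) ≤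
        K * (2 * H + 1) ^ ((Jx A.natDegree).card - 1) := by
  obtain ⟨k₀, K₀, hk0, hK0, hasy⟩ := asyP hA hd
  obtain ⟨cw, hcw, hwb⟩ := w_bound A hd
  obtain ⟨CB, hCB, hB⟩ := rangeB hA hd hk0 hK0
  obtain ⟨C3, K3, hC3, hK3, hC⟩ := rangeC hA hd K₀ hK0
  obtain ⟨L₀, hL0, hE⟩ := rangeE hA hd
  have hAA := @rangeA A hd (cw * k₀) (by
    have : (1 : ℝ) ≤ k₀ := by exact_mod_cast (by omega : 1 ≤ k₀)
    nlinarith)
  have hDD := @rangeD A hd
  obtain ⟨d, hdd⟩ : ∃ d, d = A.natDegree := ⟨_, rfl⟩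
  rw [← hdd] at hd hasy hwb hB hC hE hAA hDD ⊢
  obtain ⟨H₀, hH0⟩ := exists_nat_gt C3
  obtain ⟨KA, hKA⟩ : ∃ KA : ℝ, KA = 1 + 24 * (cw * k₀ + 2) ^ (d + 3) := ⟨_, rfl⟩
  have hk0' : (1 : ℝ) ≤ k₀ := by exact_mod_cast (by omega : 1 ≤ k₀)
  have hKA0 : 0 ≤ KA := by rw [hKA]; positivity
  obtain ⟨x, hx⟩ : ∃ x : ℝ, x = ((d : ℝ) + 1) * L₀ := ⟨_, rfl⟩
  have hx1 : 1 ≤ x := by
    have h1 : (1 : ℝ) ≤ L₀ := by exact_mod_cast hL0
    have h2 : (0 : ℝ) ≤ d := Nat.cast_nonneg _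
    rw [hx]
    nlinarith
  obtain ⟨K4, hK4⟩ : ∃ K4 : ℝ, K4 = K3 * (2 * (kC d * (x + 4)) + 1) := ⟨_, rfl⟩
  have hK40 : 0 ≤ K4 := by rw [hK4]; positivity
  refine ⟨(2 * H₀ + 1) + (KA + CB + K4 + d * 3 + kN d), by
    have h1 : (0 : ℝ) ≤ H₀ := Nat.cast_nonneg _
    have h2 : (0 : ℝ) ≤ d := Nat.cast_nonneg _
    have h3 : (0 : ℝ) ≤ kN d := Nat.cast_nonneg _
    linarith, ?_⟩
  intro H hH
  have hH' : (1 : ℝ) ≤ H := by exact_mod_cast hH
  have hH0' : (0 : ℝ) < H := by linarith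
  obtain ⟨X, hX⟩ : ∃ X : ℝ, X = (2 * (H : ℝ) + 1) ^ ((Jx d).card - 1) := ⟨_, rfl⟩
  have hX0 : 0 ≤ X := by rw [hX]; positivity
  obtain ⟨S, hS⟩ : ∃ S, S = (Bo (Jx d) H).filter (fun b => ∃ u w : ℤ, Vl A d b u w = 0) := ⟨_, rfl⟩
  have hSB : S ⊆ Bo (Jx d) H := by rw [hS]; exact Finset.filter_subset _ _
  have hJ2 : 2 ≤ (Jx d).card := by
    have h4 := Finset.card_le_card (T1_sub d)
    rw [T1_card] at h4
    omega
  rw [← hS, ← hX]
  have hd0 : (0 : ℝ) ≤ d := Nat.cast_nonneg _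
  have hN0 : (0 : ℝ) ≤ kN d := Nat.cast_nonneg _
  rcases lt_or_ge H H₀ with hlt | hge
  · have h1 : (S.card : ℝ) ≤ (2 * H + 1) ^ (Jx d).card := by
      have := Finset.card_le_card hSB
      rw [card_Bo] at this
      exact_mod_cast this
    have h2 : (2 * (H : ℝ) + 1) ^ (Jx d).card = (2 * H + 1) * X := by
      rw [hX, ← pow_succ']
      congr 1
      omega
    rw [h2] at h1
    refine h1.trans ?_
    apply mul_le_mul_of_nonneg_right _ hX0
    have : (H : ℝ) ≤ H₀ := by exact_mod_cast hlt.le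
    linarith
  · have hHC : C3 * (H : ℝ) ^ 3 ≤ (H : ℝ) ^ (d + 1) := by
      have h1 : C3 ≤ H := by
        have : (H₀ : ℝ) ≤ H := by exact_mod_cast hge
        linarith
      calc C3 * (H : ℝ) ^ 3 ≤ H * (H : ℝ) ^ 3 := mul_le_mul_of_nonneg_right h1 (by positivity)
        _ = (H : ℝ) ^ 4 := by ring
        _ ≤ _ := pow_le_pow_right₀ hH' (by omega)
    obtain ⟨E, hEdef⟩ : ∃ E : ℕ, E = ((d + 1) * (L₀ * H)) ^ (kC d) := ⟨_, rfl⟩
    have hE1 : 1 ≤ E := by
      rw [hEdef]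
      apply Nat.one_le_pow
      exact Nat.mul_pos (by omega) (Nat.mul_pos hL0 hH)
    have hE1' : (1 : ℝ) ≤ E := by exact_mod_cast hE1
    -- cover
    obtain ⟨SA, hSA⟩ : ∃ SA, SA = S.filter (fun b => ∃ P : ℤ × ℤ, Vl A d b P.1 P.2 = 0 ∧
      |(P.1 : ℝ)| ≤ cw * k₀ * H ∧ |(P.2 : ℝ)| ≤ cw * k₀ * H) := ⟨_, rfl⟩
    obtain ⟨SB, hSBd⟩ : ∃ SB, SB = S.filter (fun b => ∃ P : ℤ × ℤ, Vl A d b P.1 P.2 = 0 ∧
        (k₀ : ℝ) * H < |(P.1 : ℝ)| ∧
        |(P.1 : ℝ)| ≤ (H : ℝ) ^ (d + 1) ∧ ∃ θ ∈ Rt A, |(P.2 : ℝ) - θ * P.1| ≤ K₀ * H ∧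
        |(derivative (Ar A)).eval θ * (P.2 - θ * P.1) + G1 d (rb b) θ| ≤
          K₀ * (H ^ 2 / |(P.1 : ℝ)|)) := ⟨_, rfl⟩
    obtain ⟨SC, hSC⟩ : ∃ SC, SC = S.filter (fun b => (∀ θ ∈ Rt A, 1 ≤ |gam A d (rb b) θ|) ∧
          ∃ P : ℤ × ℤ, Vl A d b P.1 P.2 = 0 ∧ C3 * H ^ 3 ≤ |(P.1 : ℝ)| ∧
            |(P.1 : ℝ)| ≤ E ∧ ∃ θ ∈ Rt A, |(P.2 : ℝ) - θ * P.1| ≤ K₀ * H) := ⟨_, rfl⟩
    obtain ⟨SD, hSD⟩ : ∃ SD, SD = S.filter (fun b => ∃ θ ∈ Rt A, |gam A d (rb b) θ| < 1) :=
      ⟨_, rfl⟩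
    obtain ⟨SE, hSE⟩ : ∃ SE, SE = S.filter (fun b => (∀ θ ∈ Rt A, gam A d (rb b) θ ≠ 0) ∧
      ∃ P : ℤ × ℤ, Vl A d b P.1 P.2 = 0 ∧
        ((d + 1) * (L₀ * H)) ^ (kC d) < max P.2.natAbs P.1.natAbs) := ⟨_, rfl⟩
    have hcov : S ⊆ (SA ∪ SB) ∪ ((SC ∪ SD) ∪ SE) := by
      intro b hb
      have hb' := hb
      rw [hS, Finset.mem_filter] at hb'
      obtain ⟨hbB, u, w, hV⟩ := hb'
      rw [Finset.mem_union, Finset.mem_union, Finset.mem_union, Finset.mem_union]
      rcases le_or_gt |(u : ℝ)| (k₀ * H) with h1 | h1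
      · left; left
        rw [hSA, Finset.mem_filter]
        have h2 : (H : ℝ) ≤ k₀ * H := le_mul_of_one_le_left hH0'.le hk0'
        have h3 := hwb b H hH hbB u w hV (k₀ * H) h1 h2
        refine ⟨hb, (u, w), hV, ?_, ?_⟩
        · simp only
          refine h1.trans ?_
          rw [mul_assoc]
          exact le_mul_of_one_le_left (by positivity) hcw
        · simp only
          rw [mul_assoc]
          exact h3
      · obtain ⟨θ, hθ, g1, g2⟩ := hasy b H hH hbB u w h1.le hV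
        rcases le_or_gt |(u : ℝ)| ((H : ℝ) ^ (d + 1)) with h2 | h2
        · left; right
          rw [hSBd, Finset.mem_filter]
          exact ⟨hb, (u, w), hV, h1, h2, θ, hθ, g1, g2⟩
        · right
          by_cases hγ : ∃ θ ∈ Rt A, |gam A d (rb b) θ| < 1
          · left; right
            rw [hSD, Finset.mem_filter]
            exact ⟨hb, hγ⟩
          · push Not at hγ
            rcases le_or_gt |(u : ℝ)| (E : ℝ) with h3 | h3
            · left; left
              rw [hSC, Finset.mem_filter]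
              exact ⟨hb, hγ, (u, w), hV, hHC.trans h2.le, h3, θ, hθ, g1⟩
            · right
              rw [hSE, Finset.mem_filter]
              refine ⟨hb, ?_, (u, w), hV, ?_⟩
              · intro θ hθ h0
                have := hγ θ hθ
                rw [h0, abs_zero] at this
                linarith
              · simp only
                rw [← hEdef]
                have h4 : (E : ℝ) < ((u.natAbs : ℕ) : ℝ) := by
                  rw [Nat.cast_natAbs]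
                  push_cast
                  exact h3
                have h5 : E < u.natAbs := by exact_mod_cast h4
                exact lt_of_lt_of_le h5 (le_max_right _ _)
    have gA : (SA.card : ℝ) ≤ KA * X := by
      rw [hKA, hX]
      apply hAA hH SA (by rw [hSA]; exact (Finset.filter_subset _ _).trans hSB)
      intro b hb
      rw [hSA, Finset.mem_filter] at hb
      exact hb.2
    have gB : (SB.card : ℝ) ≤ CB * X := by
      rw [hX]
      apply hB H hH SB (by rw [hSBd]; exact (Finset.filter_subset _ _).trans hSB)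
      intro b hb
      rw [hSBd, Finset.mem_filter] at hb
      exact hb.2
    have gD : (SD.card : ℝ) ≤ d * 3 * X := by
      have h1 := hDD H SD (by rw [hSD]; exact (Finset.filter_subset _ _).trans hSB) (by
        intro b hb
        rw [hSD, Finset.mem_filter] at hb
        exact hb.2)
      rw [hX, mul_assoc]
      exact h1
    have gE : (SE.card : ℝ) ≤ kN d * X := by
      rw [hX]
      apply hE H hH SE (by rw [hSE]; exact (Finset.filter_subset _ _).trans hSB)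
      intro b hb
      rw [hSE, Finset.mem_filter] at hb
      exact hb.2
    have gC : (SC.card : ℝ) ≤ K4 * X := by
      have h1 := hC H hH E hE1' SC (by rw [hSC]; exact (Finset.filter_subset _ _).trans hSB) (by
        intro b hb
        rw [hSC, Finset.mem_filter] at hb
        exact hb.2)
      refine h1.trans ?_
      obtain ⟨t, ht⟩ : ∃ t : ℝ, t = (H : ℝ) ^ (1 / 4 : ℝ) := ⟨_, rfl⟩
      have ht1 : 1 ≤ t := by rw [ht]; exact Real.one_le_rpow hH' (by norm_num)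
      have hlog : Real.log E ≤ kC d * ((x + 4) * t) := by
        have e1 : ((E : ℕ) : ℝ) = (x * H) ^ (kC d) := by
          rw [hEdef, hx]
          push_cast
          ring
        rw [e1, Real.log_pow]
        apply mul_le_mul_of_nonneg_left _ (Nat.cast_nonneg _)
        rw [Real.log_mul (by linarith) (by linarith)]
        have e2 : Real.log x ≤ x := (Real.log_le_sub_one_of_pos (by linarith)).trans (by linarith)
        have e3 : Real.log H ≤ 4 * t := by
          have := Real.log_le_rpow_div hH0'.le (show (0 : ℝ) < 1 / 4 by norm_num)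
          rw [← ht] at this
          linarith
        have e4 : x ≤ x * t := le_mul_of_one_le_right (by linarith) ht1
        linarith
      have e5 : 2 * Real.log E + 1 ≤ (2 * (kC d * (x + 4)) + 1) * t := by
        have : (2 * (kC d * (x + 4)) + 1) * t = 2 * (kC d * ((x + 4) * t)) + t := by ring
        rw [this]
        linarith
      have e6 : (H : ℝ) ^ (3 / 4 : ℝ) * t = H := by
        rw [ht, ← Real.rpow_add hH0']
        norm_num
      have e7 : X = (2 * H + 1) * (2 * (H : ℝ) + 1) ^ ((Jx d).card - 2) := by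
        rw [hX, ← pow_succ']
        congr 1
        omega
      have hHr : 0 ≤ (H : ℝ) ^ (3 / 4 : ℝ) := Real.rpow_nonneg hH0'.le _
      rw [e7]
      calc K3 * (H : ℝ) ^ (3 / 4 : ℝ) * (2 * Real.log E + 1) * (2 * H + 1) ^ ((Jx d).card - 2)
          ≤ K3 * (H : ℝ) ^ (3 / 4 : ℝ) * ((2 * (kC d * (x + 4)) + 1) * t) *
            (2 * H + 1) ^ ((Jx d).card - 2) := by
            apply mul_le_mul_of_nonneg_right _ (by positivity)
            exact mul_le_mul_of_nonneg_left e5 (by positivity)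
        _ = K4 * ((H : ℝ) ^ (3 / 4 : ℝ) * t) * (2 * H + 1) ^ ((Jx d).card - 2) := by
            rw [hK4]; ring
        _ = K4 * H * (2 * H + 1) ^ ((Jx d).card - 2) := by rw [e6]
        _ ≤ K4 * (2 * H + 1) * (2 * H + 1) ^ ((Jx d).card - 2) := by
            apply mul_le_mul_of_nonneg_right _ (by positivity)
            exact mul_le_mul_of_nonneg_left (by linarith) hK40
        _ = _ := by ring
    have g1 := (Finset.card_le_card hcov).trans (Finset.card_union_le _ _)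
    have g2 := Finset.card_union_le SA SB
    have g3 := Finset.card_union_le (SC ∪ SD) SE
    have g4 := Finset.card_union_le SC SD
    have g5 : S.card ≤ (SA.card + SB.card) + ((SC.card + SD.card) + SE.card) := by omega
    have g6 : (S.card : ℝ) ≤ (SA.card + SB.card) + ((SC.card + SD.card) + SE.card) := by
      exact_mod_cast g5
    have g7 : 0 ≤ (2 * (H₀ : ℝ) + 1) * X := by positivity
    linarith

end Pool.Agent.TH728.FX
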