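import Pool.Agent.TH728.FX.Vol

/-!
Curves through one or two given integer points.
-/

open Polynomial Filter Topology

namespace Pool.Agent.TH728.FX

/-- value of the top form -/
def Tv (A : ℤ[X]) (d : ℕ) (u w : ℤ) : ℤ :=
  ∑ j ∈ Finset.range (d + 1), A.coeff j * w ^ j * u ^ (d - j)

lemma Vl_Lc (A : ℤ[X]) {d : ℕ} (hd : 4 ≤ d) (b : ℕ × ℕ → ℤ) (u w : ℤ) :
    Vl A d b u w = b (0, 0) + (Tv A d u w + Lc d u w b) := by
  unfold Vl Lc Tv Jy
  have h : ((0, 0) : ℕ × ℕ) ∈ Jx d := by
    rw [mem_Jx]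
    simp only
    omega
  rw [← Finset.add_sum_erase _ _ h]
  simp only [pow_zero, mul_one]
  ring

open Classical in
/-- number of curves through a point -/
noncomputable def NP (A : ℤ[X]) (d : ℕ) (u w : ℤ) (H : ℕ) : ℕ :=
  ((Bo (Jx d) H).filter (fun b => Vl A d b u w = 0)).card

lemma NP_eq (A : ℤ[X]) {d : ℕ} (hd : 4 ≤ d) (u w : ℤ) (H : ℕ) :
    NP A d u w H = MP d u w (Tv A d u w) H := by
  classical
  unfold NP MP
  have h0 : ((0, 0) : ℕ × ℕ) ∉ Jy d := by
    rw [mem_Jy]
    simp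
  have hL : ∀ b b' : ℕ × ℕ → ℤ, (∀ p, p ≠ (0, 0) → b p = b' p) → Lc d u w b = Lc d u w b' := by
    intro b b' h
    unfold Lc
    apply Finset.sum_congr rfl
    intro p hp
    rw [mem_Jy] at hp
    rw [h p hp.1]
  apply Finset.card_nbij' (fun b => Function.update b (0, 0) 0)
    (fun c => Function.update c (0, 0) (-(Tv A d u w + Lc d u w c)))
  · intro b hb
    rw [Finset.mem_coe, Finset.mem_filter, mem_Bo, Vl_Lc A hd] at hb
    obtain ⟨⟨h1, h2⟩, h3⟩ := hb
    rw [Finset.mem_coe, Finset.mem_filter, mem_Bo]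
    beta_reduce
    refine ⟨⟨?_, ?_⟩, ?_⟩
    · intro p
      by_cases hp : p = (0, 0)
      · rw [hp, Function.update_self]; simp
      · rw [Function.update_of_ne hp]; exact h1 p
    · intro p hp
      by_cases hp0 : p = (0, 0)
      · rw [hp0, Function.update_self]
      · rw [Function.update_of_ne hp0]
        apply h2
        intro h4
        exact hp (Finset.mem_erase.2 ⟨hp0, h4⟩)
    · rw [hL (Function.update b (0, 0) 0) b (fun p hp => Function.update_of_ne hp _ _)]
      have e : Tv A d u w + Lc d u w b = -(b (0, 0)) := by linarith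
      rw [e, abs_neg]
      exact h1 _
  · intro c hc
    rw [Finset.mem_coe, Finset.mem_filter, mem_Bo] at hc
    obtain ⟨⟨h1, h2⟩, h3⟩ := hc
    rw [Finset.mem_coe, Finset.mem_filter, mem_Bo, Vl_Lc A hd]
    beta_reduce
    refine ⟨⟨?_, ?_⟩, ?_⟩
    · intro p
      by_cases hp : p = (0, 0)
      · rw [hp, Function.update_self, abs_neg]; exact h3
      · rw [Function.update_of_ne hp]; exact h1 p
    · intro p hp
      have hp0 : p ≠ (0, 0) := by
        rintro rfl
        apply hp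
        rw [mem_Jx]
        simp only
        omega
      rw [Function.update_of_ne hp0]
      apply h2
      intro h4
      exact hp (Finset.mem_of_mem_erase h4)
    · rw [Function.update_self, hL (Function.update c (0, 0) _) c
        (fun p hp => Function.update_of_ne hp _ _)]
      ring
  · intro b hb
    rw [Finset.mem_coe, Finset.mem_filter, Vl_Lc A hd] at hb
    simp only
    rw [hL (Function.update b (0, 0) 0) b (fun p hp => Function.update_of_ne hp _ _),
      Function.update_idem]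
    have e : -(Tv A d u w + Lc d u w b) = b (0, 0) := by linarith [hb.2]
    rw [e, Function.update_eq_self]
  · intro c hc
    rw [Finset.mem_coe, Finset.mem_filter, mem_Bo] at hc
    simp only
    rw [Function.update_idem]
    have e : (0 : ℤ) = c (0, 0) := (hc.1.2 _ h0).symm
    rw [e, Function.update_eq_self]

lemma rho_close {d : ℕ} (hd : 4 ≤ d) {u w : ℤ} {N : ℕ} (hN : 1 ≤ N)
    (h : N = max u.natAbs w.natAbs) (H : ℕ) :
    |rho d u w - (MP d u w 0 H : ℝ) / (2 * H + 1) ^ ((Jx d).card - 1)| ≤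
      2 * (2 * (Jx d).card + 1) / (2 * H + 1) := by
  have h1 := MP_tendsto d u w
  rw [card_Jy (by omega : 1 ≤ d)] at h1
  have h2 : Tendsto (fun m : ℕ => (2 * m + 1) * H + m) atTop atTop := by
    apply tendsto_atTop_mono (fun m => _) tendsto_id
    intro m
    simp only [id]
    exact Nat.le_add_left _ _
  have h3 := h1.comp h2
  have h4 : Tendsto (fun m : ℕ => |(MP d u w 0 ((2 * m + 1) * H + m) : ℝ) /
      (2 * (((2 * m + 1) * H + m : ℕ) : ℝ) + 1) ^ ((Jx d).card - 1) -
      (MP d u w 0 H : ℝ) / (2 * H + 1) ^ ((Jx d).card - 1)|) atTop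
      (𝓝 |rho d u w - (MP d u w 0 H : ℝ) / (2 * H + 1) ^ ((Jx d).card - 1)|) :=
    (h3.sub_const _).abs
  exact le_of_tendsto' h4 (fun m => MP_refine hd hN h H m)

lemma rho_nonneg (d : ℕ) (u w : ℤ) : 0 ≤ rho d u w := by
  unfold rho
  positivity

lemma rho_zero {d : ℕ} (hd : 4 ≤ d) : rho d 0 0 = 1 := by
  have h1 := MP_tendsto d 0 0
  have h2 : ∀ n : ℕ, (MP d 0 0 0 n : ℝ) / (2 * n + 1) ^ (Jy d).card = 1 := by
    intro n
    have h3 : MP d 0 0 0 n = (2 * n + 1) ^ (Jy d).card := by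
      classical
      unfold MP
      rw [← card_Bo, Finset.filter_true_of_mem]
      intro c _
      have : Lc d 0 0 c = 0 := by
        unfold Lc
        apply Finset.sum_eq_zero
        intro p hp
        rw [mem_Jy] at hp
        rcases Nat.eq_zero_or_pos p.1 with h4 | h4
        · rcases Nat.eq_zero_or_pos p.2 with h5 | h5
          · exact absurd (Prod.ext h4 h5) hp.1
          · rw [zero_pow (by omega : p.2 ≠ 0), mul_zero]
        · rw [zero_pow (by omega : p.1 ≠ 0), mul_zero, zero_mul]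
      rw [this]
      simp
    rw [h3]
    push_cast
    exact div_self (by positivity)
  have h3 : Tendsto (fun n : ℕ => (MP d 0 0 0 n : ℝ) / (2 * n + 1) ^ (Jy d).card) atTop (𝓝 1) := by
    simp only [h2]
    exact tendsto_const_nhds
  exact tendsto_nhds_unique h1 h3

lemma rho_le {d : ℕ} (hd : 4 ≤ d) {u w : ℤ} {N : ℕ} (hN : 1 ≤ N)
    (h : N = max u.natAbs w.natAbs) : rho d u w ≤ 1 / (N : ℝ) ^ 3 := by
  have hN1 : (1 : ℝ) ≤ N := by exact_mod_cast hN
  have hN0 : (0 : ℝ) < N := by linarith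
  have h1 := MP_tendsto d u w
  rw [card_Jy (by omega : 1 ≤ d)] at h1
  have hJ2 : 2 ≤ (Jx d).card := by
    have h1 : (Jy d).card = (Jx d).card - 1 := card_Jy (by omega)
    have h2 : ((1, 0) : ℕ × ℕ) ∈ Jy d := by
      rw [mem_Jy]
      refine ⟨by simp, ?_⟩
      simp only; omega
    have h3 := Finset.card_pos.2 ⟨_, h2⟩
    omega
  have h2 : ∀ n : ℕ, (MP d u w 0 n : ℝ) / (2 * n + 1) ^ ((Jx d).card - 1) ≤
      1 / (N : ℝ) ^ 3 + 2 * (1 / ((n : ℝ) + 1)) := by
    intro n
    have hn0 : (0 : ℝ) ≤ n := Nat.cast_nonneg _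
    have h3 := shell hd hN h n 0 n hn0
    have h4 : MP d u w 0 n = ((Bo (Jy d) n).filter (fun c => (0 : ℝ) ≤ |(Lc d u w c : ℝ)| ∧
        |(Lc d u w c : ℝ)| ≤ n)).card := by
      unfold MP
      congr 1
      apply Finset.filter_congr
      intro c _
      rw [zero_add]
      constructor
      · intro h5
        exact ⟨abs_nonneg _, by exact_mod_cast h5⟩
      · intro h5
        exact_mod_cast h5.2
    rw [h4, div_le_iff₀ (by positivity)]
    refine h3.trans ?_
    have e : (2 * (n : ℝ) + 1) ^ ((Jx d).card - 1) = (2 * n + 1) * (2 * n + 1) ^ ((Jx d).card - 2) := by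
      rw [← pow_succ']
      congr 1
      omega
    rw [e, ← mul_assoc]
    apply mul_le_mul_of_nonneg_right _ (by positivity)
    have h6 : ((n : ℝ) - 0) / (N : ℝ) ^ (d - 1) ≤ n / (N : ℝ) ^ 3 := by
      rw [sub_zero]
      apply div_le_div_of_nonneg_left hn0 (by positivity)
      exact pow_le_pow_right₀ hN1 (by omega)
    have h7 : (1 : ℝ) / (N : ℝ) ^ 3 * (2 * n + 1) = 2 * (n / (N : ℝ) ^ 3) + 1 / (N : ℝ) ^ 3 := by ring
    have h8 : 0 ≤ 1 / (N : ℝ) ^ 3 := by positivity
    have h9 : 2 ≤ 2 * (1 / ((n : ℝ) + 1)) * (2 * n + 1) := by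
      rw [mul_assoc, one_div_mul_eq_div]
      have : 1 ≤ (2 * (n : ℝ) + 1) / (n + 1) := by
        rw [le_div_iff₀ (by positivity)]
        linarith
      linarith
    rw [add_mul]
    linarith
  have h3 : Tendsto (fun n : ℕ => 1 / (N : ℝ) ^ 3 + 2 * (1 / ((n : ℝ) + 1))) atTop
      (𝓝 (1 / (N : ℝ) ^ 3 + 2 * 0)) :=
    tendsto_const_nhds.add (tendsto_one_div_add_atTop_nhds_zero_nat.const_mul 2)
  have h4 := le_of_tendsto_of_tendsto' h1 h3 h2
  linarith

lemma NP_close {A : ℤ[X]} (hd : 4 ≤ A.natDegree) : ∃ C : ℝ, 0 ≤ C ∧ ∀ (u w : ℤ) (H : ℕ), 1 ≤ H →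
    |(NP A A.natDegree u w H : ℝ) / (2 * H + 1) ^ ((Jx A.natDegree).card - 1) -
      rho A.natDegree u w| ≤ C * (max u.natAbs w.natAbs : ℕ) / (2 * H + 1) := by
  obtain ⟨d, hdd⟩ : ∃ d, d = A.natDegree := ⟨_, rfl⟩
  rw [← hdd] at hd ⊢
  obtain ⟨a, ha⟩ : ∃ a : ℝ, a = ∑ j ∈ Finset.range (d + 1), |(A.coeff j : ℝ)| := ⟨_, rfl⟩
  have ha0 : 0 ≤ a := by rw [ha]; exact Finset.sum_nonneg fun _ _ => abs_nonneg _
  obtain ⟨n, hn⟩ : ∃ n, n = (Jx d).card := ⟨_, rfl⟩
  have hJ2 : 2 ≤ n := by
    have h1 : (Jy d).card = (Jx d).card - 1 := card_Jy (by omega)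
    have h2 : ((1, 0) : ℕ × ℕ) ∈ Jy d := by
      rw [mem_Jy]
      refine ⟨by simp, ?_⟩
      simp only; omega
    have h3 := Finset.card_pos.2 ⟨_, h2⟩
    omega
  refine ⟨2 * (2 * a + 1) + 2 * (2 * n + 1), by positivity, ?_⟩
  intro u w H hH
  obtain ⟨N, hN⟩ : ∃ N, N = max u.natAbs w.natAbs := ⟨_, rfl⟩
  have hH0 : (0 : ℝ) ≤ H := Nat.cast_nonneg _
  rw [← hN, ← hn, NP_eq A hd]
  rcases Nat.eq_zero_or_pos N with h0 | hpos
  · have hu : u = 0 := by omega
    have hw : w = 0 := by omega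
    rw [hu, hw, rho_zero hd, h0]
    have h1 : MP d 0 0 (Tv A d 0 0) H = (2 * H + 1) ^ (n - 1) := by
      classical
      have hc : (Jy d).card = n - 1 := by rw [hn]; exact card_Jy (by omega)
      unfold MP
      rw [← hc, ← card_Bo, Finset.filter_true_of_mem]
      intro c _
      have e1 : Lc d 0 0 c = 0 := by
        unfold Lc
        apply Finset.sum_eq_zero
        intro p hp
        rw [mem_Jy] at hp
        rcases Nat.eq_zero_or_pos p.1 with h4 | h4
        · rcases Nat.eq_zero_or_pos p.2 with h5 | h5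
          · exact absurd (Prod.ext h4 h5) hp.1
          · rw [zero_pow (by omega : p.2 ≠ 0), mul_zero]
        · rw [zero_pow (by omega : p.1 ≠ 0), mul_zero, zero_mul]
      have e2 : Tv A d 0 0 = 0 := by
        unfold Tv
        apply Finset.sum_eq_zero
        intro j hj
        rw [Finset.mem_range] at hj
        rcases Nat.eq_zero_or_pos j with rfl | hj0
        · rw [Nat.sub_zero, zero_pow (by omega : d ≠ 0), mul_zero]
        · rw [zero_pow (by omega : j ≠ 0), mul_zero, zero_mul]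
      rw [e1, e2]
      simp
    rw [h1]
    push_cast
    rw [div_self (by positivity), sub_self, abs_zero, mul_zero, zero_div]
  · have hN1 : (1 : ℝ) ≤ N := by exact_mod_cast hpos
    have hN0 : (0 : ℝ) < N := by linarith
    have h1 := MP_shift hd hpos hN (Tv A d u w) H
    have h2 := rho_close hd hpos hN H
    rw [← hn] at h1 h2
    have hv : |(Tv A d u w : ℝ)| ≤ a * (N : ℝ) ^ d := by
      unfold Tv
      push_cast
      refine (Finset.abs_sum_le_sum_abs _ _).trans ?_
      rw [ha, Finset.sum_mul]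
      apply Finset.sum_le_sum
      intro j hj
      rw [Finset.mem_range] at hj
      rw [abs_mul, abs_mul, abs_pow, abs_pow, mul_assoc]
      apply mul_le_mul_of_nonneg_left _ (abs_nonneg _)
      have e1 : |(w : ℝ)| ≤ N := by
        have : |w| ≤ N := by rw [Int.abs_eq_natAbs]; omega
        exact_mod_cast this
      have e2 : |(u : ℝ)| ≤ N := by
        have : |u| ≤ N := by rw [Int.abs_eq_natAbs]; omega
        exact_mod_cast this
      calc |(w : ℝ)| ^ j * |(u : ℝ)| ^ (d - j) ≤ (N : ℝ) ^ j * (N : ℝ) ^ (d - j) :=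
            mul_le_mul (pow_le_pow_left₀ (abs_nonneg _) e1 _)
              (pow_le_pow_left₀ (abs_nonneg _) e2 _) (by positivity) (by positivity)
        _ = (N : ℝ) ^ d := by rw [← pow_add]; congr 1; omega
    have h3 : 2 * (2 * |(Tv A d u w : ℝ)| / N ^ (d - 1) + 1) ≤ 2 * (2 * a + 1) * N := by
      have h4 : 2 * |(Tv A d u w : ℝ)| / N ^ (d - 1) ≤ 2 * a * N := by
        rw [div_le_iff₀ (by positivity)]
        have e : (N : ℝ) ^ d = N * N ^ (d - 1) := by
          rw [← pow_succ']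
          congr 1
          omega
        rw [e] at hv
        linarith
      linarith
    obtain ⟨X, hX⟩ : ∃ X : ℝ, X = (2 * (H : ℝ) + 1) ^ (n - 1) := ⟨_, rfl⟩
    have hX0 : 0 < X := by rw [hX]; positivity
    rw [← hX] at h2 ⊢
    have e5 : X = (2 * (H : ℝ) + 1) * (2 * H + 1) ^ (n - 2) := by
      rw [hX, ← pow_succ']
      congr 1
      omega
    have h4 : |(MP d u w (Tv A d u w) H : ℝ) / X - (MP d u w 0 H : ℝ) / X| ≤
        2 * (2 * a + 1) * N / (2 * H + 1) := by
      rw [← sub_div, abs_div, abs_of_pos hX0, div_le_iff₀ hX0]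
      refine h1.trans ?_
      rw [e5]
      have e6 : 2 * (2 * a + 1) * N / (2 * (H : ℝ) + 1) * ((2 * (H : ℝ) + 1) * (2 * H + 1) ^ (n - 2)) =
        2 * (2 * a + 1) * N * (2 * H + 1) ^ (n - 2) := by field_simp
      rw [e6]
      exact mul_le_mul_of_nonneg_right h3 (by positivity)
    have h5 : |(MP d u w (Tv A d u w) H : ℝ) / X - rho d u w| ≤
        |(MP d u w (Tv A d u w) H : ℝ) / X - (MP d u w 0 H : ℝ) / X| +
        |(MP d u w 0 H : ℝ) / X - rho d u w| := abs_sub_le _ _ _
    rw [abs_sub_comm (rho d u w)] at h2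
    have h6 : 2 * (2 * (n : ℝ) + 1) / (2 * H + 1) ≤ 2 * (2 * (n : ℝ) + 1) * N / (2 * H + 1) := by
      apply div_le_div_of_nonneg_right _ (by positivity)
      exact le_mul_of_one_le_right (by positivity) hN1
    have h7 : (2 * (2 * a + 1) + 2 * (2 * (n : ℝ) + 1)) * N / (2 * H + 1) =
      2 * (2 * a + 1) * N / (2 * (H : ℝ) + 1) + 2 * (2 * (n : ℝ) + 1) * N / (2 * H + 1) := by ring
    rw [h7]
    linarith

open Classical in
lemma pair_count (A : ℤ[X]) {d : ℕ} (hd : 4 ≤ d) (H : ℕ) {u w u' w' : ℤ} (hne : (u, w) ≠ (u', w')) :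
    ((Bo (Jx d) H).filter (fun b => Vl A d b u w = 0 ∧ Vl A d b u' w' = 0)).card ≤
      (2 * H + 1) ^ ((Jx d).card - 2) := by
  obtain ⟨p₁, hp1, hp10, hp1v⟩ : ∃ p₁ ∈ Jx d, p₁ ≠ (0, 0) ∧
      w ^ p₁.1 * u ^ p₁.2 ≠ w' ^ p₁.1 * u' ^ p₁.2 := by
    by_cases h : u = u'
    · refine ⟨(1, 0), ?_, by simp, ?_⟩
      · rw [mem_Jx]; simp only; omega
      · simp only [pow_one, pow_zero, mul_one]
        intro h2
        exact hne (by rw [h, h2])
    · refine ⟨(0, 1), ?_, by simp, ?_⟩
      · rw [mem_Jx]; simp only; omega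
      · simpa using h
  have h00 : ((0, 0) : ℕ × ℕ) ∈ Jx d := by rw [mem_Jx]; simp only; omega
  obtain ⟨D, hD⟩ : ∃ D : Finset (ℕ × ℕ), D = {(0, 0), p₁} := ⟨_, rfl⟩
  have hDJ : D ⊆ Jx d := by
    intro p hp
    rw [hD, Finset.mem_insert, Finset.mem_singleton] at hp
    rcases hp with rfl | rfl
    · exact h00
    · exact hp1
  have hDc : D.card = 2 := by
    rw [hD, Finset.card_insert_of_notMem, Finset.card_singleton]
    rw [Finset.mem_singleton]
    exact hp10.symm
  have h := card_fib (S := (Bo (Jx d) H).filter (fun b => Vl A d b u w = 0 ∧ Vl A d b u' w' = 0))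
    (J := Jx d) (K := D) (H := H) (k := 1) (Finset.filter_subset _ _) hDJ (by
      intro c _
      rw [Finset.card_le_one]
      intro b hb b' hb'
      rw [Finset.mem_filter, Finset.mem_filter] at hb hb'
      obtain ⟨⟨-, e1, e2⟩, hr⟩ := hb
      obtain ⟨⟨-, e1', e2'⟩, hr'⟩ := hb'
      have hsum : ∀ (β : ℕ × ℕ → ℤ) (x y : ℤ), ∑ p ∈ D, β p * y ^ p.1 * x ^ p.2 =
          β (0, 0) + β p₁ * (y ^ p₁.1 * x ^ p₁.2) := by
        intro β x y
        rw [hD, Finset.sum_insert (by rw [Finset.mem_singleton]; exact hp10.symm),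
          Finset.sum_singleton]
        simp only [pow_zero, mul_one]
        ring
      rw [Vl_split A d b hDJ, hsum, hr] at e1 e2
      rw [Vl_split A d b' hDJ, hsum, hr'] at e1' e2'
      have f1 : (b (0, 0) - b' (0, 0)) + (b p₁ - b' p₁) * (w ^ p₁.1 * u ^ p₁.2) = 0 := by linarith
      have f2 : (b (0, 0) - b' (0, 0)) + (b p₁ - b' p₁) * (w' ^ p₁.1 * u' ^ p₁.2) = 0 := by linarith
      have f3 : (b p₁ - b' p₁) * (w ^ p₁.1 * u ^ p₁.2 - w' ^ p₁.1 * u' ^ p₁.2) = 0 := by linarith
      have f4 : b p₁ - b' p₁ = 0 := by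
        rcases mul_eq_zero.1 f3 with h1 | h1
        · exact h1
        · exact absurd (sub_eq_zero.1 h1) hp1v
      have f5 : b (0, 0) - b' (0, 0) = 0 := by
        rw [f4] at f1
        linarith
      funext p
      by_cases hp : p ∈ D
      · rw [hD, Finset.mem_insert, Finset.mem_singleton] at hp
        rcases hp with rfl | rfl
        · linarith
        · linarith
      · have := congrFun (hr.trans hr'.symm) p
        simp only [res, if_neg hp] at this
        exact this)
  rw [hDc, one_mul] at h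
  exact h

lemma bonf {ι α : Type*} [DecidableEq ι] [DecidableEq α] (Q : Finset ι) (E : ι → Finset α) (k : ℕ)
    (hk : ∀ i ∈ Q, ∀ j ∈ Q, i ≠ j → (E i ∩ E j).card ≤ k) :
    ∑ i ∈ Q, (E i).card ≤ (Q.biUnion E).card + Q.card ^ 2 * k := by
  induction Q using Finset.induction_on with
  | empty => simp
  | insert a Q ha ih =>
    have ih' := ih (fun i hi j hj hij => hk i (Finset.mem_insert_of_mem hi) j
      (Finset.mem_insert_of_mem hj) hij)
    rw [Finset.sum_insert ha, Finset.biUnion_insert, Finset.card_insert_of_notMem ha]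
    have h1 := Finset.card_union_add_card_inter (E a) (Q.biUnion E)
    have h2 : (E a ∩ Q.biUnion E).card ≤ Q.card * k := by
      rw [Finset.inter_biUnion]
      refine Finset.card_biUnion_le.trans ?_
      refine (Finset.sum_le_card_nsmul _ _ k ?_).trans (le_of_eq (smul_eq_mul _ _))
      intro i hi
      exact hk a (Finset.mem_insert_self _ _) i (Finset.mem_insert_of_mem hi)
        (fun h => ha (h ▸ hi))
    have h3 : Q.card ^ 2 * k + Q.card * k ≤ (Q.card + 1) ^ 2 * k := by
      have : Q.card ^ 2 * k + Q.card * k = (Q.card ^ 2 + Q.card) * k := by ring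
      rw [this]
      apply Nat.mul_le_mul_right
      nlinarith
    omega

end Pool.Agent.TH728.FX
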