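import Pool.Agent.TH728.FX.TailA
import Pool.Agent.TH728.FX.Pair
import Pool.Agent.TH728.FX.RangeB5
import Pool.Agent.TH728.FX.RangeE5
import Pool.Agent.TH728.FX.Main

/-!
The asymptotic number of curves with given top form and an integer point.
-/

open Polynomial Filter Topology

namespace Pool.Agent.TH728.FX

open Pool.Agent.H322R2 (kC kN)

/-- points of size at most `B` -/
noncomputable def Qb (B : ℕ) : Finset (ℤ × ℤ) := Finset.Icc (-(B : ℤ)) B ×ˢ Finset.Icc (-(B : ℤ)) B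

lemma mem_Qb {B : ℕ} {P : ℤ × ℤ} : P ∈ Qb B ↔ max P.1.natAbs P.2.natAbs ≤ B := by
  rw [Qb, Finset.mem_product, Finset.mem_Icc, Finset.mem_Icc]
  omega

lemma card_Qb (B : ℕ) : (Qb B).card = (2 * B + 1) ^ 2 := by
  rw [Qb, Finset.card_product, Int.card_Icc, pow_two]
  have : ((B : ℤ) + 1 - -(B : ℤ)).toNat = 2 * B + 1 := by omega
  rw [this]

lemma Qb_mono {B L : ℕ} (h : B ≤ L) : Qb B ⊆ Qb L := by
  intro P hP
  rw [mem_Qb] at hP ⊢
  omega

lemma rho_ring {d : ℕ} (hd : 4 ≤ d) {B L : ℕ} (hB : 1 ≤ B) :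
    ∑ P ∈ Qb L \ Qb B, rho d P.1 P.2 ≤ 12 / (B : ℝ) := by
  classical
  obtain ⟨Q, hQ⟩ : ∃ Q : ℕ → Finset (ℤ × ℤ), Q = fun N : ℕ =>
    (({(N : ℤ), -(N : ℤ)} : Finset ℤ) ×ˢ Finset.Icc (-(N : ℤ)) N) ∪
      (Finset.Icc (-(N : ℤ)) N ×ˢ ({(N : ℤ), -(N : ℤ)} : Finset ℤ)) := ⟨_, rfl⟩
  have hQc : ∀ N : ℕ, 1 ≤ N → ((Q N).card : ℝ) ≤ 12 * N := by
    intro N hN
    have h1 : (Q N).card ≤ 2 * (2 * N + 1) + (2 * N + 1) * 2 := by
      rw [hQ]
      refine (Finset.card_union_le _ _).trans ?_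
      rw [Finset.card_product, Finset.card_product, Int.card_Icc]
      have h2 : ({(N : ℤ), -(N : ℤ)} : Finset ℤ).card ≤ 2 := Finset.card_le_two
      have h3 : ((N : ℤ) + 1 - -(N : ℤ)).toNat = 2 * N + 1 := by omega
      rw [h3]
      exact add_le_add (Nat.mul_le_mul_right _ h2) (Nat.mul_le_mul_left _ h2)
    have h2 : (Q N).card ≤ 12 * N := by omega
    exact_mod_cast h2
  have hQm : ∀ N : ℕ, ∀ P ∈ Q N, N = max P.1.natAbs P.2.natAbs := by
    intro N P hP
    rw [hQ] at hP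
    simp only [Finset.mem_union, Finset.mem_product, Finset.mem_insert, Finset.mem_singleton,
      Finset.mem_Icc] at hP
    omega
  have hsub : Qb L \ Qb B ⊆ (Finset.Icc (B + 1) L).biUnion Q := by
    intro P hP
    rw [Finset.mem_sdiff, mem_Qb, mem_Qb] at hP
    rw [Finset.mem_biUnion]
    refine ⟨max P.1.natAbs P.2.natAbs, ?_, ?_⟩
    · rw [Finset.mem_Icc]; omega
    · rw [hQ]
      simp only [Finset.mem_union, Finset.mem_product, Finset.mem_insert, Finset.mem_singleton,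
        Finset.mem_Icc]
      omega
  have hB0 : (0 : ℝ) < B := by exact_mod_cast (by omega : 0 < B)
  calc ∑ P ∈ Qb L \ Qb B, rho d P.1 P.2
      ≤ ∑ P ∈ (Finset.Icc (B + 1) L).biUnion Q, rho d P.1 P.2 :=
        Finset.sum_le_sum_of_subset_of_nonneg hsub (fun P _ _ => rho_nonneg d _ _)
    _ ≤ ∑ N ∈ Finset.Icc (B + 1) L, ∑ P ∈ Q N, rho d P.1 P.2 := by
        rw [Finset.sum_biUnion]
        intro N _ M _ hNM
        rw [Function.onFun, Finset.disjoint_left]
        intro P hP hP'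
        exact hNM ((hQm N P hP).trans (hQm M P hP').symm)
    _ ≤ ∑ N ∈ Finset.Icc (B + 1) L, 12 * (1 / (N : ℝ) ^ 2) := by
        apply Finset.sum_le_sum
        intro N hN
        rw [Finset.mem_Icc] at hN
        have hN0 : (0 : ℝ) < N := by exact_mod_cast (by omega : 0 < N)
        have h1 : ∀ P ∈ Q N, rho d P.1 P.2 ≤ 1 / (N : ℝ) ^ 3 := by
          intro P hP
          exact rho_le hd (by omega) (hQm N P hP)
        refine (Finset.sum_le_sum h1).trans ?_
        rw [Finset.sum_const, nsmul_eq_mul]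
        refine (mul_le_mul_of_nonneg_right (hQc N (by omega)) (by positivity)).trans (le_of_eq ?_)
        field_simp
    _ = 12 * ∑ N ∈ Finset.Icc (B + 1) L, 1 / (N : ℝ) ^ 2 := by rw [Finset.mul_sum]
    _ ≤ 12 * (1 / B) := by
        have h6 := sum_sq_tail hB L
        have h7 : 0 ≤ (if B ≤ L then 1 / (L : ℝ) else 0) := by
          split_ifs
          · positivity
          · exact le_rfl
        linarith
    _ = 12 / (B : ℝ) := by ring

lemma rho_fin {d : ℕ} (hd : 4 ≤ d) {B : ℕ} (hB : 1 ≤ B) (F : Finset (ℤ × ℤ)) :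
    ∑ P ∈ F, rho d P.1 P.2 ≤ ∑ P ∈ Qb B, rho d P.1 P.2 + 12 / (B : ℝ) := by
  classical
  obtain ⟨L, hL⟩ : ∃ L : ℕ, L = B + ∑ P ∈ F, max P.1.natAbs P.2.natAbs := ⟨_, rfl⟩
  have hFL : F ⊆ Qb L := by
    intro P hP
    rw [mem_Qb, hL]
    have := Finset.single_le_sum (f := fun P : ℤ × ℤ => max P.1.natAbs P.2.natAbs)
      (fun _ _ => Nat.zero_le _) hP
    omega
  have h1 := Finset.sum_le_sum_of_subset_of_nonneg hFL
    (f := fun P : ℤ × ℤ => rho d P.1 P.2) (fun P _ _ => rho_nonneg d _ _)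
  have h2 := Finset.sum_sdiff (f := fun P : ℤ × ℤ => rho d P.1 P.2) (Qb_mono (by omega : B ≤ L))
  have h3 := rho_ring hd (L := L) hB
  linarith

lemma rho_summable {d : ℕ} (hd : 4 ≤ d) : Summable (fun P : ℤ × ℤ => rho d P.1 P.2) :=
  summable_of_sum_le (fun _ => rho_nonneg d _ _) (fun F => rho_fin hd (B := 1) le_rfl F)

lemma rho_tsum {d : ℕ} (hd : 4 ≤ d) {B : ℕ} (hB : 1 ≤ B) :
    |∑ P ∈ Qb B, rho d P.1 P.2 - ∑' P : ℤ × ℤ, rho d P.1 P.2| ≤ 12 / (B : ℝ) := by
  have h1 : ∑ P ∈ Qb B, rho d P.1 P.2 ≤ ∑' P : ℤ × ℤ, rho d P.1 P.2 :=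
    (rho_summable hd).sum_le_tsum _ (fun P _ => rho_nonneg d _ _)
  have h2 : ∑' P : ℤ × ℤ, rho d P.1 P.2 ≤ ∑ P ∈ Qb B, rho d P.1 P.2 + 12 / (B : ℝ) :=
    (rho_summable hd).tsum_le_of_sum_le (fun F => rho_fin hd hB F)
  have h3 : 0 ≤ 12 / (B : ℝ) := by positivity
  rw [abs_le]
  constructor <;> linarith

set_option maxHeartbeats 2000000 in
open Classical in
theorem asym_main {A : ℤ[X]} (hA : Irreducible (A.map (Int.castRingHom ℚ)))
    (hd5 : 5 ≤ A.natDegree) : ∃ K : ℝ, ∀ H : ℕ, 1 ≤ H →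
      |(((Bo (Jx A.natDegree) H).filter (fun b => ∃ u w : ℤ, Vl A A.natDegree b u w = 0)).card : ℝ) /
        (2 * H + 1) ^ ((Jx A.natDegree).card - 1) - ∑' P : ℤ × ℤ, rho A.natDegree P.1 P.2| ≤
        K * (1 / (H : ℝ) ^ (1 / 5 : ℝ)) := by
  have hd : 4 ≤ A.natDegree := by omega
  obtain ⟨k₀, K₀, hk0, hK0, hasy⟩ := asyP hA hd
  obtain ⟨cw, hcw, hwb⟩ := w_bound A hd
  obtain ⟨CB, hCB, hB⟩ := rangeB5 hA hd5 hk0 hK0
  obtain ⟨C3, K3, hC3, hK3, hC⟩ := rangeC hA hd K₀ hK0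
  obtain ⟨L₀, hL0, hE⟩ := rangeE5 hA hd5
  obtain ⟨CD, hCD, hDD⟩ := rangeD5 hA hd
  obtain ⟨CN, hCN, hNP⟩ := NP_close hd
  have hAA := @rangeA_tail A hd (cw * k₀) (by
    have : (1 : ℝ) ≤ k₀ := by exact_mod_cast (by omega : 1 ≤ k₀)
    nlinarith)
  obtain ⟨d, hdd⟩ : ∃ d, d = A.natDegree := ⟨_, rfl⟩
  rw [← hdd] at hd hasy hwb hB hC hE hAA hDD hNP ⊢
  obtain ⟨cd, hcd⟩ : ∃ cd : ℝ, cd = ∑' P : ℤ × ℤ, rho d P.1 P.2 := ⟨_, rfl⟩
  have hcd0 : 0 ≤ cd := by rw [hcd]; exact tsum_nonneg (fun P => rho_nonneg d _ _)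
  obtain ⟨H₀, hH0⟩ := exists_nat_gt C3
  obtain ⟨KA, hKA⟩ : ∃ KA : ℝ, KA = 12 * (cw * k₀ + 2) ^ (d + 3) := ⟨_, rfl⟩
  have hk0' : (1 : ℝ) ≤ k₀ := by exact_mod_cast (by omega : 1 ≤ k₀)
  have hKA0 : 0 ≤ KA := by rw [hKA]; positivity
  obtain ⟨x, hx⟩ : ∃ x : ℝ, x = ((d : ℝ) + 1) * L₀ := ⟨_, rfl⟩
  have hx1 : 1 ≤ x := by
    have h1 : (1 : ℝ) ≤ L₀ := by exact_mod_cast hL0
    have h2 : (0 : ℝ) ≤ d := Nat.cast_nonneg _
    rw [hx]
    nlinarith
  obtain ⟨K4, hK4⟩ : ∃ K4 : ℝ, K4 = K3 * (2 * (kC d * (x + 20)) + 1) := ⟨_, rfl⟩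
  have hK40 : 0 ≤ K4 := by rw [hK4]; positivity
  have hN0 : (0 : ℝ) ≤ kN d := Nat.cast_nonneg _
  refine ⟨((2 * H₀ + 1) + cd) * (H₀ + 1) + (2 * KA + CB + K4 + CD + kN d + 81 + 9 * CN + 24), ?_⟩
  intro H hH
  have hH' : (1 : ℝ) ≤ H := by exact_mod_cast hH
  have hH0' : (0 : ℝ) < H := by linarith
  obtain ⟨h, hh⟩ : ∃ h : ℝ, h = (H : ℝ) ^ (1 / 5 : ℝ) := ⟨_, rfl⟩
  have hh1 : 1 ≤ h := by rw [hh]; exact Real.one_le_rpow hH' (by norm_num)
  have hhpos : 0 < h := by linarith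
  have hh5 : h ^ 5 = H := by
    rw [hh, ← Real.rpow_natCast, ← Real.rpow_mul hH0'.le]
    norm_num
  obtain ⟨X, hX⟩ : ∃ X : ℝ, X = (2 * (H : ℝ) + 1) ^ ((Jx d).card - 1) := ⟨_, rfl⟩
  have hXpos : 0 < X := by rw [hX]; positivity
  obtain ⟨S, hS⟩ : ∃ S, S = (Bo (Jx d) H).filter (fun b => ∃ u w : ℤ, Vl A d b u w = 0) := ⟨_, rfl⟩
  have hSB : S ⊆ Bo (Jx d) H := by rw [hS]; exact Finset.filter_subset _ _
  have hJ2 : 2 ≤ (Jx d).card := by
    have h4 := Finset.card_le_card (T1_sub d)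
    rw [T1_card] at h4
    omega
  rw [← hS, ← hX, ← hcd, ← hh]
  have hX2 : X = (2 * H + 1) * (2 * (H : ℝ) + 1) ^ ((Jx d).card - 2) := by
    rw [hX, ← pow_succ']
    congr 1
    omega
  obtain ⟨X₂, hX2d⟩ : ∃ X₂ : ℝ, X₂ = (2 * (H : ℝ) + 1) ^ ((Jx d).card - 2) := ⟨_, rfl⟩
  have hX2pos : 0 < X₂ := by rw [hX2d]; positivity
  rw [← hX2d] at hX2
  have hsmall : 0 ≤ 2 * KA + CB + K4 + CD + kN d + 81 + 9 * CN + 24 := by linarith
  rcases lt_or_ge H H₀ with hlt | hge
  · have h1 : (S.card : ℝ) ≤ (2 * H + 1) ^ (Jx d).card := by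
      have := Finset.card_le_card hSB
      rw [card_Bo] at this
      exact_mod_cast this
    have h2 : (2 * (H : ℝ) + 1) ^ (Jx d).card = (2 * H + 1) * X := by
      rw [hX, ← pow_succ']
      congr 1
      omega
    rw [h2] at h1
    have h3 : (S.card : ℝ) / X ≤ 2 * H + 1 := by
      rw [div_le_iff₀ hXpos]
      exact h1
    have h4 : 0 ≤ (S.card : ℝ) / X := by positivity
    have hHH : (H : ℝ) ≤ H₀ := by exact_mod_cast hlt.le
    have h5 : |(S.card : ℝ) / X - cd| ≤ (2 * H₀ + 1) + cd := by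
      rw [abs_le]
      constructor <;> linarith
    have h6 : 1 ≤ ((H₀ : ℝ) + 1) * (1 / h) := by
      rw [mul_one_div, le_div_iff₀ hhpos, one_mul]
      have : h ≤ H := by
        rw [← hh5]
        exact le_self_pow₀ hh1 (by norm_num)
      linarith
    have h7 : 0 ≤ (2 * (H₀ : ℝ) + 1) + cd := by positivity
    have h8 : ((2 * (H₀ : ℝ) + 1) + cd) * 1 ≤ ((2 * (H₀ : ℝ) + 1) + cd) * (((H₀ : ℝ) + 1) * (1 / h)) :=
      mul_le_mul_of_nonneg_left h6 h7
    have h9 : 0 ≤ (2 * KA + CB + K4 + CD + kN d + 81 + 9 * CN + 24) * (1 / h) := by positivity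
    rw [add_mul]
    linarith
  · have hHC : C3 * (H : ℝ) ^ 3 ≤ (H : ℝ) ^ (d + 1) := by
      have h1 : C3 ≤ H := by
        have : (H₀ : ℝ) ≤ H := by exact_mod_cast hge
        linarith
      calc C3 * (H : ℝ) ^ 3 ≤ H * (H : ℝ) ^ 3 := mul_le_mul_of_nonneg_right h1 (by positivity)
        _ = (H : ℝ) ^ 4 := by ring
        _ ≤ _ := pow_le_pow_right₀ hH' (by omega)
    obtain ⟨B, hBd⟩ : ∃ B : ℕ, B = ⌊h⌋₊ := ⟨_, rfl⟩
    have hB1 : 1 ≤ B := by
      rw [hBd]
      exact Nat.le_floor (by simpa using hh1)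
    have hB1' : (1 : ℝ) ≤ B := by exact_mod_cast hB1
    have hBh : (B : ℝ) ≤ h := by rw [hBd]; exact Nat.floor_le hhpos.le
    have hhB : h ≤ 2 * B := by
      have := Nat.lt_floor_add_one h
      rw [← hBd] at this
      linarith
    obtain ⟨E, hEdef⟩ : ∃ E : ℕ, E = ((d + 1) * (L₀ * H)) ^ (kC d) := ⟨_, rfl⟩
    have hE1 : 1 ≤ E := by
      rw [hEdef]
      apply Nat.one_le_pow
      exact Nat.mul_pos (by omega) (Nat.mul_pos hL0 hH)
    have hE1' : (1 : ℝ) ≤ E := by exact_mod_cast hE1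
    -- cover
    obtain ⟨Ep, hEp⟩ : ∃ Ep : ℤ × ℤ → Finset (ℕ × ℕ → ℤ), Ep = fun P =>
      (Bo (Jx d) H).filter (fun b => Vl A d b P.1 P.2 = 0) := ⟨_, rfl⟩
    obtain ⟨SA, hSA⟩ : ∃ SA, SA = S.filter (fun b => ∃ P : ℤ × ℤ, Vl A d b P.1 P.2 = 0 ∧
      B < max P.1.natAbs P.2.natAbs ∧
      |(P.1 : ℝ)| ≤ cw * k₀ * H ∧ |(P.2 : ℝ)| ≤ cw * k₀ * H) := ⟨_, rfl⟩
    obtain ⟨SB, hSBd⟩ : ∃ SB, SB = S.filter (fun b => ∃ P : ℤ × ℤ, Vl A d b P.1 P.2 = 0 ∧
        (k₀ : ℝ) * H < |(P.1 : ℝ)| ∧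
        |(P.1 : ℝ)| ≤ (H : ℝ) ^ (d + 1) ∧ ∃ θ ∈ Rt A, |(P.2 : ℝ) - θ * P.1| ≤ K₀ * H ∧
        |(derivative (Ar A)).eval θ * (P.2 - θ * P.1) + G1 d (rb b) θ| ≤
          K₀ * (H ^ 2 / |(P.1 : ℝ)|)) := ⟨_, rfl⟩
    obtain ⟨SC, hSC⟩ : ∃ SC, SC = S.filter (fun b => (∀ θ ∈ Rt A, 1 ≤ |gam A d (rb b) θ|) ∧
          ∃ P : ℤ × ℤ, Vl A d b P.1 P.2 = 0 ∧ C3 * H ^ 3 ≤ |(P.1 : ℝ)| ∧
            |(P.1 : ℝ)| ≤ E ∧ ∃ θ ∈ Rt A, |(P.2 : ℝ) - θ * P.1| ≤ K₀ * H) := ⟨_, rfl⟩
    obtain ⟨SD, hSD⟩ : ∃ SD, SD = S.filter (fun b => ∃ θ ∈ Rt A, |gam A d (rb b) θ| < 1) :=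
      ⟨_, rfl⟩
    obtain ⟨SE, hSE⟩ : ∃ SE, SE = S.filter (fun b => (∀ θ ∈ Rt A, gam A d (rb b) θ ≠ 0) ∧
      ∃ P : ℤ × ℤ, Vl A d b P.1 P.2 = 0 ∧
        ((d + 1) * (L₀ * H)) ^ (kC d) < max P.2.natAbs P.1.natAbs) := ⟨_, rfl⟩
    have hcov : S ⊆ ((Qb B).biUnion Ep ∪ (SA ∪ SB)) ∪ ((SC ∪ SD) ∪ SE) := by
      intro b hb
      have hb' := hb
      rw [hS, Finset.mem_filter] at hb'
      obtain ⟨hbB, u, w, hV⟩ := hb'
      rw [Finset.mem_union, Finset.mem_union, Finset.mem_union, Finset.mem_union, Finset.mem_union]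
      rcases le_or_gt |(u : ℝ)| (k₀ * H) with h1 | h1
      · left
        by_cases hPB : max u.natAbs w.natAbs ≤ B
        · left
          rw [Finset.mem_biUnion]
          refine ⟨(u, w), mem_Qb.2 hPB, ?_⟩
          rw [hEp, Finset.mem_filter]
          exact ⟨hbB, hV⟩
        · right; left
          rw [hSA, Finset.mem_filter]
          have h2 : (H : ℝ) ≤ k₀ * H := le_mul_of_one_le_left hH0'.le hk0'
          have h3 := hwb b H hH hbB u w hV (k₀ * H) h1 h2
          refine ⟨hb, (u, w), hV, ?_, ?_, ?_⟩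
          · simp only; omega
          · simp only
            refine h1.trans ?_
            rw [mul_assoc]
            exact le_mul_of_one_le_left (by positivity) hcw
          · simp only
            rw [mul_assoc]
            exact h3
      · obtain ⟨θ, hθ, g1, g2⟩ := hasy b H hH hbB u w h1.le hV
        rcases le_or_gt |(u : ℝ)| ((H : ℝ) ^ (d + 1)) with h2 | h2
        · left; right; right
          rw [hSBd, Finset.mem_filter]
          exact ⟨hb, (u, w), hV, h1, h2, θ, hθ, g1, g2⟩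
        · right
          by_cases hγ : ∃ θ ∈ Rt A, |gam A d (rb b) θ| < 1
          · left; right
            rw [hSD, Finset.mem_filter]
            exact ⟨hb, hγ⟩
          · push Not at hγ
            rcases le_or_gt |(u : ℝ)| (E : ℝ) with h3 | h3
            · left; left
              rw [hSC, Finset.mem_filter]
              exact ⟨hb, hγ, (u, w), hV, hHC.trans h2.le, h3, θ, hθ, g1⟩
            · right
              rw [hSE, Finset.mem_filter]
              refine ⟨hb, ?_, (u, w), hV, ?_⟩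
              · intro θ hθ h0
                have := hγ θ hθ
                rw [h0, abs_zero] at this
                linarith
              · simp only
                rw [← hEdef]
                have h4 : (E : ℝ) < ((u.natAbs : ℕ) : ℝ) := by
                  rw [Nat.cast_natAbs]
                  push_cast
                  exact h3
                have h5 : E < u.natAbs := by exact_mod_cast h4
                exact lt_of_lt_of_le h5 (le_max_right _ _)
    have gA : (SA.card : ℝ) ≤ KA * (1 / B) * X := by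
      rw [hKA, hX]
      apply hAA hH hB1 SA (by rw [hSA]; exact (Finset.filter_subset _ _).trans hSB)
      intro b hb
      rw [hSA, Finset.mem_filter] at hb
      exact hb.2
    have gB : (SB.card : ℝ) ≤ CB * X₂ := by
      rw [hX2d]
      apply hB H hH SB (by rw [hSBd]; exact (Finset.filter_subset _ _).trans hSB)
      intro b hb
      rw [hSBd, Finset.mem_filter] at hb
      exact hb.2
    have gD : (SD.card : ℝ) ≤ CD * Real.sqrt H * X₂ := by
      rw [hX2d]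
      apply hDD H hH SD (by rw [hSD]; exact (Finset.filter_subset _ _).trans hSB)
      intro b hb
      rw [hSD, Finset.mem_filter] at hb
      exact hb.2
    have gE : (SE.card : ℝ) ≤ kN d * X₂ := by
      rw [hX2d]
      apply hE H hH SE (by rw [hSE]; exact (Finset.filter_subset _ _).trans hSB)
      intro b hb
      rw [hSE, Finset.mem_filter] at hb
      exact hb.2
    have gC : (SC.card : ℝ) ≤ K4 * h ^ 4 * X₂ := by
      have h1 := hC H hH E hE1' SC (by rw [hSC]; exact (Finset.filter_subset _ _).trans hSB) (by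
        intro b hb
        rw [hSC, Finset.mem_filter] at hb
        exact hb.2)
      rw [← hX2d] at h1
      refine h1.trans ?_
      apply mul_le_mul_of_nonneg_right _ hX2pos.le
      obtain ⟨t, ht⟩ : ∃ t : ℝ, t = (H : ℝ) ^ (1 / 20 : ℝ) := ⟨_, rfl⟩
      have ht1 : 1 ≤ t := by rw [ht]; exact Real.one_le_rpow hH' (by norm_num)
      have hlog : Real.log E ≤ kC d * ((x + 20) * t) := by
        have e1 : ((E : ℕ) : ℝ) = (x * H) ^ (kC d) := by
          rw [hEdef, hx]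
          push_cast
          ring
        rw [e1, Real.log_pow]
        apply mul_le_mul_of_nonneg_left _ (Nat.cast_nonneg _)
        rw [Real.log_mul (by linarith) (by linarith)]
        have e2 : Real.log x ≤ x := (Real.log_le_sub_one_of_pos (by linarith)).trans (by linarith)
        have e3 : Real.log H ≤ 20 * t := by
          have := Real.log_le_rpow_div hH0'.le (show (0 : ℝ) < 1 / 20 by norm_num)
          rw [← ht] at this
          linarith
        have e4 : x ≤ x * t := le_mul_of_one_le_right (by linarith) ht1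
        linarith
      have e5 : 2 * Real.log E + 1 ≤ (2 * (kC d * (x + 20)) + 1) * t := by
        have : (2 * (kC d * (x + 20)) + 1) * t = 2 * (kC d * ((x + 20) * t)) + t := by ring
        rw [this]
        linarith
      have e6 : (H : ℝ) ^ (3 / 4 : ℝ) * t = h ^ 4 := by
        rw [ht, hh, ← Real.rpow_add hH0', ← Real.rpow_natCast, ← Real.rpow_mul hH0'.le]
        norm_num
      have hHr : 0 ≤ (H : ℝ) ^ (3 / 4 : ℝ) := Real.rpow_nonneg hH0'.le _
      calc K3 * (H : ℝ) ^ (3 / 4 : ℝ) * (2 * Real.log E + 1)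
          ≤ K3 * (H : ℝ) ^ (3 / 4 : ℝ) * ((2 * (kC d * (x + 20)) + 1) * t) :=
            mul_le_mul_of_nonneg_left e5 (by positivity)
        _ = K4 * ((H : ℝ) ^ (3 / 4 : ℝ) * t) := by rw [hK4]; ring
        _ = _ := by rw [e6]
    -- sums over the small points
    obtain ⟨Sg, hSg1⟩ : ∃ s : ℝ, s = ∑ P ∈ Qb B, (NP A d P.1 P.2 H : ℝ) := ⟨_, rfl⟩
    have hEpc : ∀ P, (Ep P).card = NP A d P.1 P.2 H := by
      intro P
      rw [hEp]
      rfl
    have hup : (S.card : ℝ) ≤ Sg + (SA.card + SB.card) + ((SC.card + SD.card) + SE.card) := by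
      have g1 := (Finset.card_le_card hcov).trans (Finset.card_union_le _ _)
      have g2 := Finset.card_union_le ((Qb B).biUnion Ep) (SA ∪ SB)
      have g3 := Finset.card_union_le SA SB
      have g4 := Finset.card_union_le (SC ∪ SD) SE
      have g5 := Finset.card_union_le SC SD
      have g6 : ((Qb B).biUnion Ep).card ≤ ∑ P ∈ Qb B, (Ep P).card := Finset.card_biUnion_le
      have g7 : S.card ≤ (∑ P ∈ Qb B, (Ep P).card) + (SA.card + SB.card) +
        ((SC.card + SD.card) + SE.card) := by omega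
      have g8 : (((∑ P ∈ Qb B, (Ep P).card : ℕ)) : ℝ) = Sg := by
        rw [hSg1]
        push_cast
        apply Finset.sum_congr rfl
        intro P _
        rw [hEpc]
      rw [← g8]
      exact_mod_cast g7
    have hlow : Sg ≤ S.card + (2 * (B : ℝ) + 1) ^ 4 * X₂ := by
      have g1 := bonf (Qb B) Ep ((2 * H + 1) ^ ((Jx d).card - 2)) (by
        intro P _ P' _ hne
        rw [hEp, ← Finset.filter_and]
        exact pair_count A hd H (u := P.1) (w := P.2) (u' := P'.1) (w' := P'.2) hne)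
      have g2 : (Qb B).biUnion Ep ⊆ S := by
        intro b hb
        rw [Finset.mem_biUnion] at hb
        obtain ⟨P, _, hbP⟩ := hb
        rw [hEp, Finset.mem_filter] at hbP
        rw [hS, Finset.mem_filter]
        exact ⟨hbP.1, P.1, P.2, hbP.2⟩
      have g3 := Finset.card_le_card g2
      have g4 : ∑ P ∈ Qb B, (Ep P).card ≤ S.card + ((2 * B + 1) ^ 2) ^ 2 *
          (2 * H + 1) ^ ((Jx d).card - 2) := by
        rw [← card_Qb]
        omega
      have g8 : (((∑ P ∈ Qb B, (Ep P).card : ℕ)) : ℝ) = Sg := by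
        rw [hSg1]
        push_cast
        apply Finset.sum_congr rfl
        intro P _
        rw [hEpc]
      rw [← g8, hX2d]
      have e : (2 * (B : ℝ) + 1) ^ 4 = ((2 * (B : ℝ) + 1) ^ 2) ^ 2 := by ring
      rw [e]
      exact_mod_cast g4
    have hSgr : |Sg / X - ∑ P ∈ Qb B, rho d P.1 P.2| ≤ (2 * (B : ℝ) + 1) ^ 2 * (CN * B / (2 * H + 1)) := by
      have e1 : Sg / X - ∑ P ∈ Qb B, rho d P.1 P.2 =
          ∑ P ∈ Qb B, ((NP A d P.1 P.2 H : ℝ) / X - rho d P.1 P.2) := by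
        rw [hSg1, Finset.sum_sub_distrib, Finset.sum_div]
      rw [e1]
      refine (Finset.abs_sum_le_sum_abs _ _).trans ?_
      have h2 : ∀ P ∈ Qb B, |(NP A d P.1 P.2 H : ℝ) / X - rho d P.1 P.2| ≤ CN * B / (2 * H + 1) := by
        intro P hP
        rw [mem_Qb] at hP
        have h3 := hNP P.1 P.2 H hH
        rw [← hX] at h3
        refine h3.trans ?_
        apply div_le_div_of_nonneg_right _ (by positivity)
        apply mul_le_mul_of_nonneg_left _ hCN
        exact_mod_cast hP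
      refine (Finset.sum_le_card_nsmul _ _ _ h2).trans (le_of_eq ?_)
      rw [nsmul_eq_mul, card_Qb]
      push_cast
      ring
    have hρt := rho_tsum hd hB1
    rw [← hcd] at hρt
    -- estimates
    have hH5 : h ^ 5 ≤ 2 * (H : ℝ) + 1 := by rw [hh5]; linarith
    have hXX : X₂ / X = 1 / (2 * (H : ℝ) + 1) := by
      rw [hX2]
      field_simp
    have hinv : 1 / (2 * (H : ℝ) + 1) ≤ 1 / h ^ 5 :=
      div_le_div_of_nonneg_left (by norm_num) (by positivity) hH5
    have hh45 : h ^ 4 * (1 / h ^ 5) = 1 / h := by field_simp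
    have hge4 : 1 ≤ h ^ 4 := one_le_pow₀ hh1
    have b1 : KA * (1 / B) * X / X ≤ 2 * KA * (1 / h) := by
      rw [mul_div_assoc, div_self hXpos.ne', mul_one, mul_comm 2 KA, mul_assoc]
      apply mul_le_mul_of_nonneg_left _ hKA0
      rw [mul_one_div, div_le_div_iff₀ (by linarith) hhpos]
      linarith
    have key : ∀ y : ℝ, 0 ≤ y → y ≤ h ^ 4 → y * X₂ / X ≤ 1 / h := by
      intro y hy0 hy
      rw [mul_div_assoc, hXX, ← hh45]
      exact mul_le_mul hy hinv (by positivity) (by positivity)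
    have hsq : Real.sqrt H ≤ h ^ 4 := by
      rw [Real.sqrt_le_left (by positivity), ← hh5]
      calc h ^ 5 ≤ h ^ 8 := pow_le_pow_right₀ hh1 (by norm_num)
        _ = (h ^ 4) ^ 2 := by ring
    have b2 : CB * X₂ / X ≤ CB * (1 / h) := by
      have := key 1 (by norm_num) hge4
      rw [one_mul] at this
      rw [mul_div_assoc]
      exact mul_le_mul_of_nonneg_left this (by linarith)
    have b3 : K4 * h ^ 4 * X₂ / X ≤ K4 * (1 / h) := by
      have := key (h ^ 4) (by positivity) le_rfl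
      have e : K4 * h ^ 4 * X₂ / X = K4 * (h ^ 4 * X₂ / X) := by ring
      rw [e]
      exact mul_le_mul_of_nonneg_left this hK40
    have b4 : CD * Real.sqrt H * X₂ / X ≤ CD * (1 / h) := by
      have := key (Real.sqrt H) (Real.sqrt_nonneg _) hsq
      have e : CD * Real.sqrt H * X₂ / X = CD * (Real.sqrt H * X₂ / X) := by ring
      rw [e]
      exact mul_le_mul_of_nonneg_left this hCD
    have b5 : kN d * X₂ / X ≤ kN d * (1 / h) := by
      have := key 1 (by norm_num) hge4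
      rw [one_mul] at this
      rw [mul_div_assoc]
      exact mul_le_mul_of_nonneg_left this hN0
    have hBB : 2 * (B : ℝ) + 1 ≤ 3 * h := by linarith
    have b6 : (2 * (B : ℝ) + 1) ^ 4 * X₂ / X ≤ 81 * (1 / h) := by
      have h1 : (2 * (B : ℝ) + 1) ^ 4 ≤ 81 * h ^ 4 := by
        calc (2 * (B : ℝ) + 1) ^ 4 ≤ (3 * h) ^ 4 := pow_le_pow_left₀ (by positivity) hBB 4
          _ = 81 * h ^ 4 := by ring
      have h2 := key (h ^ 4) (by positivity) le_rfl
      calc (2 * (B : ℝ) + 1) ^ 4 * X₂ / X ≤ 81 * h ^ 4 * X₂ / X := by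
            apply div_le_div_of_nonneg_right _ hXpos.le
            exact mul_le_mul_of_nonneg_right h1 hX2pos.le
        _ = 81 * (h ^ 4 * X₂ / X) := by ring
        _ ≤ _ := mul_le_mul_of_nonneg_left h2 (by norm_num)
    have b7 : (2 * (B : ℝ) + 1) ^ 2 * (CN * B / (2 * H + 1)) ≤ 9 * CN * (1 / h) := by
      have h1 : (2 * (B : ℝ) + 1) ^ 2 ≤ 9 * h ^ 2 := by
        calc (2 * (B : ℝ) + 1) ^ 2 ≤ (3 * h) ^ 2 := pow_le_pow_left₀ (by positivity) hBB 2
          _ = 9 * h ^ 2 := by ring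
      have h2 : CN * B / (2 * H + 1) ≤ CN * h * (1 / h ^ 5) := by
        have e : CN * B / (2 * (H : ℝ) + 1) = (CN * B) * (1 / (2 * H + 1)) := by ring
        rw [e]
        apply mul_le_mul (mul_le_mul_of_nonneg_left hBh hCN) hinv (by positivity) (by positivity)
      calc (2 * (B : ℝ) + 1) ^ 2 * (CN * B / (2 * H + 1)) ≤ 9 * h ^ 2 * (CN * h * (1 / h ^ 5)) :=
            mul_le_mul h1 h2 (by positivity) (by positivity)
        _ = 9 * CN * (1 / h) * (1 / h) := by field_simp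
        _ ≤ 9 * CN * (1 / h) * 1 := by
            apply mul_le_mul_of_nonneg_left _ (by positivity)
            rw [div_le_one hhpos]
            exact hh1
        _ = _ := by ring
    have b8 : 12 / (B : ℝ) ≤ 24 * (1 / h) := by
      rw [mul_one_div, div_le_div_iff₀ (by linarith) hhpos]
      linarith
    have c1 : (S.card : ℝ) / X ≤ Sg / X + (2 * KA + CB + K4 + CD + kN d) * (1 / h) := by
      have h1 : (S.card : ℝ) / X ≤ (Sg + (SA.card + SB.card) + ((SC.card + SD.card) + SE.card)) / X :=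
        div_le_div_of_nonneg_right hup hXpos.le
      have h2 : (Sg + (SA.card + SB.card) + ((SC.card + SD.card) + SE.card)) / X =
        Sg / X + (SA.card / X + SB.card / X) + ((SC.card / X + SD.card / X) + SE.card / X) := by
        ring
      have h3 : (SA.card : ℝ) / X ≤ 2 * KA * (1 / h) :=
        (div_le_div_of_nonneg_right gA hXpos.le).trans b1
      have h4 : (SB.card : ℝ) / X ≤ CB * (1 / h) :=
        (div_le_div_of_nonneg_right gB hXpos.le).trans b2
      have h5 : (SC.card : ℝ) / X ≤ K4 * (1 / h) :=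
        (div_le_div_of_nonneg_right gC hXpos.le).trans b3
      have h6 : (SD.card : ℝ) / X ≤ CD * (1 / h) :=
        (div_le_div_of_nonneg_right gD hXpos.le).trans b4
      have h7 : (SE.card : ℝ) / X ≤ kN d * (1 / h) :=
        (div_le_div_of_nonneg_right gE hXpos.le).trans b5
      rw [h2] at h1
      linarith
    have c2 : Sg / X ≤ (S.card : ℝ) / X + 81 * (1 / h) := by
      have h1 : Sg / X ≤ ((S.card : ℝ) + (2 * (B : ℝ) + 1) ^ 4 * X₂) / X :=
        div_le_div_of_nonneg_right hlow hXpos.le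
      rw [add_div] at h1
      linarith
    have c3 : |(S.card : ℝ) / X - Sg / X| ≤ (2 * KA + CB + K4 + CD + kN d + 81) * (1 / h) := by
      have h0 : 0 ≤ (2 * KA + CB + K4 + CD + kN d) * (1 / h) := by positivity
      have h0' : 0 ≤ 1 / h := by positivity
      rw [abs_le, add_mul]
      constructor <;> linarith
    have c4 : |(S.card : ℝ) / X - cd| ≤ |(S.card : ℝ) / X - Sg / X| +
        (|Sg / X - ∑ P ∈ Qb B, rho d P.1 P.2| + |∑ P ∈ Qb B, rho d P.1 P.2 - cd|) := by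
      have h1 := abs_sub_le ((S.card : ℝ) / X) (Sg / X) cd
      have h2 := abs_sub_le (Sg / X) (∑ P ∈ Qb B, rho d P.1 P.2) cd
      linarith
    have c5 : 0 ≤ ((2 * (H₀ : ℝ) + 1) + cd) * (H₀ + 1) * (1 / h) := by positivity
    have c6 : (((2 * (H₀ : ℝ) + 1) + cd) * (H₀ + 1) + (2 * KA + CB + K4 + CD + kN d + 81 + 9 * CN +
      24)) * (1 / h) = ((2 * (H₀ : ℝ) + 1) + cd) * (H₀ + 1) * (1 / h) +
      (2 * KA + CB + K4 + CD + kN d + 81) * (1 / h) + 9 * CN * (1 / h) + 24 * (1 / h) := by ring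
    rw [c6]
    linarith

end Pool.Agent.TH728.FX
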