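import Mathlib

/-!
Counting integer functions in boxes.
-/

open Finset

namespace Pool.Agent.TH728.FX

open Classical in
/-- integer functions supported on `J` with values in `[-H, H]` -/
noncomputable def Bo (J : Finset (ℕ × ℕ)) (H : ℕ) : Finset (ℕ × ℕ → ℤ) :=
  (Fintype.piFinset fun _ : ↥J => Finset.Icc (-(H : ℤ)) H).image
    (fun c p => if h : p ∈ J then c ⟨p, h⟩ else 0)

lemma mem_Bo {J : Finset (ℕ × ℕ)} {H : ℕ} {c : ℕ × ℕ → ℤ} :
    c ∈ Bo J H ↔ (∀ p, |c p| ≤ (H : ℤ)) ∧ ∀ p, p ∉ J → c p = 0 := by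
  classical
  rw [Bo, Finset.mem_image]
  constructor
  · rintro ⟨e, he, rfl⟩
    rw [Fintype.mem_piFinset] at he
    constructor
    · intro p
      simp only
      split_ifs with h
      · exact abs_le.2 (Finset.mem_Icc.1 (he ⟨p, h⟩))
      · simp
    · intro p hp
      simp only
      rw [dif_neg hp]
  · rintro ⟨h1, h2⟩
    refine ⟨fun p => c p.1, ?_, ?_⟩
    · rw [Fintype.mem_piFinset]
      intro p
      exact Finset.mem_Icc.2 (abs_le.1 (h1 p.1))
    · funext p
      simp only
      split_ifs with h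
      · rfl
      · exact (h2 p h).symm

lemma card_Bo (J : Finset (ℕ × ℕ)) (H : ℕ) : (Bo J H).card = (2 * H + 1) ^ J.card := by
  classical
  rw [Bo, Finset.card_image_of_injective, Fintype.card_piFinset, Finset.prod_const, Int.card_Icc,
    Finset.card_univ, Fintype.card_coe]
  · congr 1
    omega
  · intro c c' h
    funext p
    have := congrFun h p.1
    simpa [p.2] using this

/-- remove the coordinates in `K` -/
def res (K : Finset (ℕ × ℕ)) (c : ℕ × ℕ → ℤ) : ℕ × ℕ → ℤ := fun p => if p ∈ K then 0 else c p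

/-- keep the coordinates in `K` only -/
def onl (K : Finset (ℕ × ℕ)) (c : ℕ × ℕ → ℤ) : ℕ × ℕ → ℤ := fun p => if p ∈ K then c p else 0

lemma res_mem {J K : Finset (ℕ × ℕ)} {H : ℕ} {c : ℕ × ℕ → ℤ} (hc : c ∈ Bo J H) :
    res K c ∈ Bo (J \ K) H := by
  rw [mem_Bo] at hc ⊢
  constructor
  · intro p
    unfold res
    split_ifs
    · simp
    · exact hc.1 p
  · intro p hp
    unfold res
    split_ifs with h
    · rfl
    · apply hc.2
      intro h'
      exact hp (Finset.mem_sdiff.2 ⟨h', h⟩)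

lemma res_mem' {J K : Finset (ℕ × ℕ)} {H : ℕ} {c : ℕ × ℕ → ℤ} (hc : c ∈ Bo J H) :
    res K c ∈ Bo J H := by
  have h := res_mem (K := K) hc
  rw [mem_Bo] at h ⊢
  exact ⟨h.1, fun p hp => h.2 p (fun h' => hp (Finset.mem_sdiff.1 h').1)⟩

open Classical in
lemma card_fib {S : Finset (ℕ × ℕ → ℤ)} {J K : Finset (ℕ × ℕ)} {H k : ℕ} (hS : S ⊆ Bo J H)
    (hKJ : K ⊆ J) (hk : ∀ c ∈ S, (S.filter (fun c' => res K c' = res K c)).card ≤ k) :
    S.card ≤ k * (2 * H + 1) ^ (J.card - K.card) := by
  have h1 := Finset.card_le_mul_card_image (f := res K) S k (by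
    intro b hb
    obtain ⟨c, hc, rfl⟩ := Finset.mem_image.1 hb
    exact hk c hc)
  refine h1.trans (Nat.mul_le_mul_left _ ?_)
  have h2 : S.image (res K) ⊆ Bo (J \ K) H := by
    intro b hb
    obtain ⟨c, hc, rfl⟩ := Finset.mem_image.1 hb
    exact res_mem (hS hc)
  refine (Finset.card_le_card h2).trans ?_
  rw [card_Bo, Finset.card_sdiff_of_subset hKJ]

open Classical in
lemma card_fib2 {S : Finset (ℕ × ℕ → ℤ)} {J K₁ K₂ : Finset (ℕ × ℕ)} {H k₁ k₂ : ℕ}
    (hS : S ⊆ Bo J H) (hK1 : K₁ ⊆ J) (hK2 : K₂ ⊆ J) (hdis : Disjoint K₁ K₂)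
    (h1 : (S.image (onl K₁)).card ≤ k₁)
    (h2 : ∀ c ∈ S, (S.filter (fun c' => res K₂ c' = res K₂ c)).card ≤ k₂) :
    S.card ≤ k₂ * (k₁ * (2 * H + 1) ^ (J.card - (K₁.card + K₂.card))) := by
  have e1 := Finset.card_le_mul_card_image (f := fun c => (onl K₁ c, res (K₁ ∪ K₂) c)) S k₂ (by
    intro b hb
    obtain ⟨c, hc, rfl⟩ := Finset.mem_image.1 hb
    refine le_trans (Finset.card_le_card ?_) (h2 c hc)
    intro c' hc'
    rw [Finset.mem_filter] at hc' ⊢
    refine ⟨hc'.1, ?_⟩
    funext p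
    have e1 := congrFun (congrArg Prod.fst hc'.2) p
    have e2 := congrFun (congrArg Prod.snd hc'.2) p
    simp only [onl, res] at e1 e2 ⊢
    split_ifs with h
    · rfl
    · by_cases h' : p ∈ K₁
      · rw [if_pos h', if_pos h'] at e1
        exact e1
      · have h'' : p ∉ K₁ ∪ K₂ := by
          rw [Finset.mem_union]
          tauto
        rw [if_neg h'', if_neg h''] at e2
        exact e2)
  refine e1.trans (Nat.mul_le_mul_left _ ?_)
  have e2 : S.image (fun c => (onl K₁ c, res (K₁ ∪ K₂) c)) ⊆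
      (S.image (onl K₁)) ×ˢ (Bo (J \ (K₁ ∪ K₂)) H) := by
    intro b hb
    obtain ⟨c, hc, rfl⟩ := Finset.mem_image.1 hb
    rw [Finset.mem_product]
    exact ⟨Finset.mem_image_of_mem _ hc, res_mem (hS hc)⟩
  refine (Finset.card_le_card e2).trans ?_
  rw [Finset.card_product, card_Bo, Finset.card_sdiff_of_subset (Finset.union_subset hK1 hK2),
    Finset.card_union_of_disjoint hdis]
  exact Nat.mul_le_mul_right _ h1

/-- separated values in an interval -/
lemma sep_card {α : Type*} (S : Finset α) (f : α → ℝ) {B lo hi : ℝ} (hB : 0 < B) (hlh : lo ≤ hi)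
    (hf : ∀ a ∈ S, lo ≤ f a ∧ f a ≤ hi) (hs : ∀ a ∈ S, ∀ b ∈ S, a ≠ b → B ≤ |f a - f b|) :
    (S.card : ℝ) ≤ (hi - lo) / B + 1 := by
  classical
  have h1 : S.card ≤ (Finset.range (⌊(hi - lo) / B⌋₊ + 1)).card := by
    apply Finset.card_le_card_of_injOn (fun a => ⌊(f a - lo) / B⌋₊)
    · intro a ha
      rw [Finset.mem_coe, Finset.mem_range]
      have := (hf a ha).2
      have h2 : ⌊(f a - lo) / B⌋₊ ≤ ⌊(hi - lo) / B⌋₊ := by
        apply Nat.floor_le_floor
        apply div_le_div_of_nonneg_right _ hB.le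
        linarith
      simp only
      omega
    · intro a ha b hb hab
      simp only at hab
      by_contra hne
      have h3 := hs a ha b hb hne
      have ha0 : 0 ≤ (f a - lo) / B := div_nonneg (by linarith [(hf a ha).1]) hB.le
      have hb0 : 0 ≤ (f b - lo) / B := div_nonneg (by linarith [(hf b hb).1]) hB.le
      have e1 := Nat.floor_le ha0
      have e2 := Nat.lt_floor_add_one ((f a - lo) / B)
      have e3 := Nat.floor_le hb0
      have e4 := Nat.lt_floor_add_one ((f b - lo) / B)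
      rw [hab] at e1 e2
      have h4 : |(f a - lo) / B - (f b - lo) / B| < 1 := by
        rw [abs_lt]
        constructor <;> linarith
      have h5 : (f a - lo) / B - (f b - lo) / B = (f a - f b) / B := by ring
      rw [h5, abs_div, abs_of_pos hB, div_lt_one hB] at h4
      linarith
  rw [Finset.card_range] at h1
  have h2 : ((⌊(hi - lo) / B⌋₊ : ℕ) : ℝ) ≤ (hi - lo) / B :=
    Nat.floor_le (div_nonneg (by linarith) hB.le)
  have h3 : (S.card : ℝ) ≤ ((⌊(hi - lo) / B⌋₊ + 1 : ℕ) : ℝ) := by exact_mod_cast h1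
  push_cast at h3
  linarith

lemma digits_zero {u : ℤ} (n : ℕ) : ∀ (δ : ℕ → ℤ), (∀ i < n, |δ i| < |u|) →
    ∑ i ∈ range (n + 1), δ i * u ^ i = 0 → u ≠ 0 → ∀ i < n + 1, δ i = 0 := by
  induction n with
  | zero =>
    intro δ _ h _ i hi
    have : i = 0 := by omega
    subst this
    simpa using h
  | succ n ih =>
    intro δ hδ h hu i hi
    rw [Finset.sum_range_succ'] at h
    have h0 : δ 0 = 0 := by
      apply Int.eq_zero_of_abs_lt_dvd (m := |u|)
      · rw [abs_dvd]
        have h1 : δ 0 = -(u * ∑ i ∈ range (n + 1), δ (i + 1) * u ^ i) := by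
          rw [Finset.mul_sum]
          have h2 : ∑ i ∈ range (n + 1), u * (δ (i + 1) * u ^ i) =
              ∑ i ∈ range (n + 1), δ (i + 1) * u ^ (i + 1) :=
            Finset.sum_congr rfl fun i _ => by ring
          rw [h2]
          simp only [pow_zero, mul_one] at h
          linarith
        rw [h1]
        exact (dvd_neg).2 (dvd_mul_right _ _)
      · exact hδ 0 (by omega)
    rcases Nat.eq_zero_or_pos i with rfl | hi0
    · exact h0
    · have h1 : ∑ i ∈ range (n + 1), δ (i + 1) * u ^ i = 0 := by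
        have h2 : u * ∑ i ∈ range (n + 1), δ (i + 1) * u ^ i = 0 := by
          rw [Finset.mul_sum]
          have h3 : ∑ i ∈ range (n + 1), u * (δ (i + 1) * u ^ i) =
              ∑ i ∈ range (n + 1), δ (i + 1) * u ^ (i + 1) :=
            Finset.sum_congr rfl fun i _ => by ring
          rw [h3]
          rw [h0] at h
          simpa using h
        exact (mul_eq_zero.1 h2).resolve_left hu
      have h4 := ih (fun i => δ (i + 1)) (fun j hj => hδ (j + 1) (by omega)) h1 hu (i - 1) (by omega)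
      have h5 : i - 1 + 1 = i := by omega
      simp only [h5] at h4
      exact h4

end Pool.Agent.TH728.FX
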