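import Pool.Agent.TH728.FX.RangeB
import Pool.Agent.H322R2.FMir

/-!
Connection with the vectors and polynomials of the library.
-/

open Polynomial Finset

namespace Pool.Agent.TH728.FX

open Pool.Agent.H322R2 (Ix mem_Ix cf PG ff gp FM lead evf ev coeff_PG coeff_lead coeff_ff FM sw
  line_coeffs map_ev evf_sum ev_sw ev_FM)

/-- the vector of the polynomial with top form `A` and lower coefficients `b` -/
def cv (A : ℤ[X]) (d : ℕ) (b : ℕ × ℕ → ℤ) : ↥(Ix d) → ℤ :=
  fun p => if p.1.1 + p.1.2 = d then A.coeff p.1.1 else b p.1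

lemma cf_cv_top (A : ℤ[X]) (d : ℕ) (b : ℕ × ℕ → ℤ) {j i : ℕ} (h : j + i = d) :
    cf (cv A d b) j i = A.coeff j := by
  rw [cf, dif_pos (by rw [mem_Ix]; exact h.le), cv]
  simp only
  rw [if_pos h]

lemma cf_cv_low (A : ℤ[X]) (d : ℕ) (b : ℕ × ℕ → ℤ) {j i : ℕ} (h : j + i < d) :
    cf (cv A d b) j i = b (j, i) := by
  rw [cf, dif_pos (by rw [mem_Ix]; exact h.le), cv]
  simp only
  rw [if_neg (by omega)]

lemma ff_cv (A : ℤ[X]) (b : ℕ × ℕ → ℤ) : ff (cv A A.natDegree b) = A := by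
  ext j
  rw [coeff_ff]
  by_cases h : j ≤ A.natDegree
  · exact cf_cv_top A _ b (by omega)
  · rw [Pool.Agent.H322R2.cf_of_lt _ (by omega), coeff_eq_zero_of_natDegree_lt (by omega)]

lemma evf_Ar (p : ℤ[X]) (η : ℝ) : evf η p = (Ar p).eval η := by
  unfold Ar
  rw [eval_map]
  rfl

lemma evf_deriv_sum (η : ℝ) (p : ℤ[X]) {N : ℕ} (h : p.natDegree < N) :
    evf η (derivative p) = ∑ j ∈ range N, (p.coeff j : ℝ) * (j * η ^ (j - 1)) := by
  rw [derivative_apply, Polynomial.sum_over_range' _ _ N h, map_sum]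
  · apply Finset.sum_congr rfl
    intro j _
    rw [map_mul, map_pow, Pool.Agent.H322R2.evf_X, Pool.Agent.H322R2.evf_C]
    push_cast
    ring
  · intro j; simp

lemma lead_deg (k d : ℕ) (c : ↥(Ix d) → ℤ) : (lead k (PG c)).natDegree < k + 1 := by
  have := Pool.Agent.H322R2.natDegree_lead_le k (PG c)
  omega

lemma lead1 (A : ℤ[X]) {d : ℕ} (hd : 4 ≤ d) (b : ℕ × ℕ → ℤ) (η : ℝ) :
    evf η (lead (d - 1) (PG (cv A d b))) = G1 d (rb b) η := by
  rw [G1_eq, evf_sum η _ (lead_deg (d - 1) d _), show d - 1 + 1 = d by omega]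
  apply Finset.sum_congr rfl
  intro j hj
  rw [Finset.mem_range] at hj
  rw [coeff_lead, if_pos (by omega), coeff_PG, cf_cv_low A d b (by omega)]
  rfl

lemma G1'_eq (d : ℕ) (β : ℕ × ℕ → ℝ) (t : ℝ) :
    G1' d β t = ∑ j ∈ Finset.range d, β (j, d - 1 - j) * (j * t ^ (j - 1)) := by
  unfold G1'
  rw [← Finset.sum_subset (T1_sub d)]
  · unfold T1
    rw [Finset.sum_image (fun i _ j _ h => (Prod.mk.inj h).1)]
    apply Finset.sum_congr rfl
    intro j hj
    rw [Finset.mem_range] at hj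
    rw [if_pos]
    simp only
    omega
  · intro p hp hp'
    rw [mem_Jx] at hp
    rw [if_neg, mul_zero]
    intro h
    apply hp'
    unfold T1
    rw [Finset.mem_image]
    refine ⟨p.1, Finset.mem_range.2 (by omega), ?_⟩
    ext
    · rfl
    · simp only; omega

lemma lead1' (A : ℤ[X]) {d : ℕ} (hd : 4 ≤ d) (b : ℕ × ℕ → ℤ) (η : ℝ) :
    evf η (derivative (lead (d - 1) (PG (cv A d b)))) = G1' d (rb b) η := by
  rw [G1'_eq, evf_deriv_sum η _ (lead_deg (d - 1) d _), show d - 1 + 1 = d by omega]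
  apply Finset.sum_congr rfl
  intro j hj
  rw [Finset.mem_range] at hj
  rw [coeff_lead, if_pos (by omega), coeff_PG, cf_cv_low A d b (by omega)]
  rfl

lemma G2_eq {d : ℕ} (hd : 4 ≤ d) (β : ℕ × ℕ → ℝ) (t : ℝ) :
    G2 d β t = ∑ j ∈ Finset.range (d - 1), β (j, d - 2 - j) * t ^ j := by
  unfold G2
  have hsub : (Finset.range (d - 1)).image (fun j => (j, d - 2 - j)) ⊆ Jx d := by
    intro p hp
    obtain ⟨j, hj, rfl⟩ := Finset.mem_image.1 hp
    rw [Finset.mem_range] at hj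
    rw [mem_Jx]
    simp only
    omega
  rw [← Finset.sum_subset hsub]
  · rw [Finset.sum_image (fun i _ j _ h => (Prod.mk.inj h).1)]
    apply Finset.sum_congr rfl
    intro j hj
    rw [Finset.mem_range] at hj
    rw [if_pos]
    simp only
    omega
  · intro p hp hp'
    rw [mem_Jx] at hp
    rw [if_neg, mul_zero]
    intro h
    apply hp'
    rw [Finset.mem_image]
    refine ⟨p.1, Finset.mem_range.2 (by omega), ?_⟩
    ext
    · rfl
    · simp only; omega

lemma lead2 (A : ℤ[X]) {d : ℕ} (hd : 4 ≤ d) (b : ℕ × ℕ → ℤ) (η : ℝ) :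
    evf η (lead (d - 2) (PG (cv A d b))) = G2 d (rb b) η := by
  rw [G2_eq hd, evf_sum η _ (lead_deg (d - 2) d _), show d - 2 + 1 = d - 1 by omega]
  apply Finset.sum_congr rfl
  intro j hj
  rw [Finset.mem_range] at hj
  rw [coeff_lead, if_pos (by omega), coeff_PG, cf_cv_low A d b (by omega)]
  rfl

lemma Ar_deriv (A : ℤ[X]) : Ar (derivative A) = derivative (Ar A) := by
  unfold Ar
  rw [derivative_map]

lemma gp_gam (A : ℤ[X]) (hd : 4 ≤ A.natDegree) (b : ℕ × ℕ → ℤ) (η : ℝ)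
    (h : (derivative (Ar A)).eval η ≠ 0) :
    evf η (gp A.natDegree (PG (cv A A.natDegree b))) =
      2 * ((derivative (Ar A)).eval η) ^ 2 * gam A A.natDegree (rb b) η := by
  rw [Pool.Agent.H322R2.gp_eq, ff_cv, lead1 A hd, lead1' A hd, lead2 A hd, evf_Ar, evf_Ar, Ar_deriv,
    Ar_deriv]
  unfold gam q2 kap
  field_simp
  ring

lemma line_red {d : ℕ} (c : ↥(Ix d) → ℤ) (p0 p1 q0 q1 : ℝ) (hq1 : q1 ≠ 0) :
    (ev (X : ℝ[X]) (C (q0 / q1) * X + C (p0 - q0 * p1 / q1)) (PG c)).natDegree =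
      (ev (C p1 + C q1 * X : ℝ[X]) (C p0 + C q0 * X) (PG c)).natDegree := by
  obtain ⟨s, hs⟩ : ∃ s : ℝ[X], s = C (1 / q1) * X + C (-(p1 / q1)) := ⟨_, rfl⟩
  have hsn : s.natDegree = 1 := by
    rw [hs]
    exact natDegree_linear (by positivity)
  have h2 : (ev (C p1 + C q1 * X : ℝ[X]) (C p0 + C q0 * X) (PG c)).comp s
      = ev (X : ℝ[X]) (C (q0 / q1) * X + C (p0 - q0 * p1 / q1)) (PG c) := by
    have h3 := map_ev (compRingHom s) (C p1 + C q1 * X : ℝ[X]) (C p0 + C q0 * X) (PG c)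
    rw [coe_compRingHom_apply] at h3
    rw [h3]
    congr 2
    · rw [coe_compRingHom_apply, add_comp, mul_comp, C_comp, C_comp, X_comp, hs, mul_add,
        ← mul_assoc, ← map_mul, ← map_mul]
      have e1 : q1 * (1 / q1) = 1 := by field_simp
      have e2 : q1 * -(p1 / q1) = -p1 := by field_simp
      rw [e1, e2, map_one, map_neg]; ring
    · rw [coe_compRingHom_apply, add_comp, mul_comp, C_comp, C_comp, X_comp, hs, mul_add,
        ← mul_assoc, ← map_mul, ← map_mul]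
      have e1 : q0 * (1 / q1) = q0 / q1 := by ring
      have e2 : q0 * -(p1 / q1) = -(q0 * p1 / q1) := by ring
      rw [e1, e2, map_sub, map_neg]; ring
  rw [← h2, natDegree_comp, hsn, mul_one]

lemma lines_b {A : ℤ[X]} (hA : Irreducible (A.map (Int.castRingHom ℚ))) (hd : 4 ≤ A.natDegree)
    (b : ℕ × ℕ → ℤ) (hγ : ∀ θ ∈ Rt A, gam A A.natDegree (rb b) θ ≠ 0) (p q : Fin 2 → ℝ)
    (hq : q ≠ 0) :
    A.natDegree ≤ (MvPolynomial.aeval (fun i => (C (p i) + C (q i) * X : ℝ[X]))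
      (FM (cv A A.natDegree b))).natDegree + 2 := by
  have hA0 := ne_zero_of_irr hA
  obtain ⟨c, hc⟩ : ∃ c, c = cv A A.natDegree b := ⟨_, rfl⟩
  have hF : MvPolynomial.aeval (fun i => (C (p i) + C (q i) * X : ℝ[X])) (FM c)
      = ev (C (p 1) + C (q 1) * X) (C (p 0) + C (q 0) * X) (PG c) := by
    rw [← ev_FM, MvPolynomial.aeval_def]
    congr 1
    funext i
    fin_cases i <;> rfl
  rw [← hc, hF]
  by_contra hcon
  push Not at hcon
  by_cases hq1 : q 1 = 0
  · have hq0 : q 0 ≠ 0 := by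
      intro h0
      apply hq
      ext i
      fin_cases i
      · exact h0
      · exact hq1
    rw [← ev_sw, ← line_red (sw c) (p 1) (p 0) (q 1) (q 0) hq0] at hcon
    obtain ⟨h1, -⟩ := line_coeffs (by omega) (sw c) _ _ hcon
    rw [hq1, zero_div, evf_Ar] at h1
    have h2 : (Ar (ff (sw c))).eval 0 = ((ff (sw c)).coeff 0 : ℝ) := by
      unfold Ar
      rw [← coeff_zero_eq_eval_zero, coeff_map]
      rfl
    rw [h2, coeff_ff, Nat.sub_zero] at h1
    have h3 : cf (sw c) 0 A.natDegree = A.leadingCoeff := by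
      rw [cf, dif_pos (by rw [mem_Ix]; simp), sw, hc, cv]
      simp only
      rw [if_pos (by omega)]
      rfl
    rw [h3] at h1
    have h4 : A.leadingCoeff = 0 := by exact_mod_cast h1
    exact hA0 (leadingCoeff_eq_zero.1 h4)
  · rw [← line_red c (p 0) (p 1) (q 0) (q 1) hq1] at hcon
    obtain ⟨h1, h2⟩ := line_coeffs (by omega) c _ _ hcon
    rw [hc, ff_cv, evf_Ar] at h1
    have hθ : q 0 / q 1 ∈ Rt A := (mem_Rt hA0).2 h1
    have hD := deriv_ne_zero hA h1
    rw [hc, gp_gam A hd b _ hD] at h2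
    have h3 := hγ _ hθ
    have h4 : 2 * ((derivative (Ar A)).eval (q 0 / q 1)) ^ 2 * gam A A.natDegree (rb b) (q 0 / q 1) ≠ 0 :=
      mul_ne_zero (mul_ne_zero (by norm_num) (pow_ne_zero _ hD)) h3
    exact h4 h2

end Pool.Agent.TH728.FX
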