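import Pool.Agent.TH728.FX.Scale

/-!
Counting integer points near an asymptote at one scale.
-/

open Polynomial

namespace Pool.Agent.TH728.FX

/-- facts about the line through two points -/
structure PairFacts (A : ℤ[X]) (b : ℕ × ℕ → ℤ) (H : ℕ) (M θ K₀ K a : ℝ) (P₁ P₂ : ℤ × ℤ)
    (α β q : ℝ) : Prop where
  l1 : (P₁.2 : ℝ) = α * P₁.1 + β
  l2 : (P₂.2 : ℝ) = α * P₂.1 + β
  hq : |q - gam A A.natDegree (nb A.natDegree b H) θ| ≤ K * (9 * H / M)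
  hA : |(Ar A).eval α| ≤ 16 * H / M ^ 2 + (|q| + K * (H / M)) * (H / M) ^ 2
  h3 : ∀ P₃ : ℤ × ℤ, Pt A A.natDegree b H M θ K₀ P₃ →
    a * |(P₃.2 : ℝ) - α * P₃.1 - β| * |(H : ℝ) / P₁.1 - H / P₂.1| ≤
      |(P₃.1 : ℝ)| * (2 * H / M ^ 3 * (|(H : ℝ) / P₁.1 - H / P₂.1| + (|(H : ℝ) / P₃.1 - H / P₂.1| +
        |(H : ℝ) / P₁.1 - H / P₃.1|)) + |(H : ℝ) / P₁.1 - H / P₃.1| *
        |(H : ℝ) / P₃.1 - H / P₂.1| * |(H : ℝ) / P₁.1 - H / P₂.1| * (|q| + K * (H / M)))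
  h4 : ∀ P₃ : ℤ × ℤ, Pt A A.natDegree b H M θ K₀ P₃ → (P₃.2 : ℝ) = α * P₃.1 + β →
    |(H : ℝ) / P₁.1 - H / P₃.1| * |(H : ℝ) / P₃.1 - H / P₂.1| * |(H : ℝ) / P₁.1 - H / P₂.1| *
      (|q| - K * (H / M)) ≤ 2 * H / M ^ (A.natDegree - 1) *
        (|(H : ℝ) / P₃.1 - H / P₂.1| + |(H : ℝ) / P₁.1 - H / P₂.1| + |(H : ℝ) / P₁.1 - H / P₃.1|)

set_option maxHeartbeats 1000000 in
lemma pair_facts {A : ℤ[X]} (hA : Irreducible (A.map (Int.castRingHom ℚ))) (hd : 4 ≤ A.natDegree)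
    (K₀ : ℝ) (hK0 : 1 ≤ K₀) : ∃ M₀ K a : ℝ, 8 ≤ M₀ ∧ 1 ≤ K ∧ 0 < a ∧
      (∀ (b : ℕ × ℕ → ℤ) (H : ℕ), 1 ≤ H → b ∈ Bo (Jx A.natDegree) H → ∀ θ ∈ Rt A,
        |gam A A.natDegree (nb A.natDegree b H) θ| ≤ K) ∧
      ∀ (b : ℕ × ℕ → ℤ) (H : ℕ), 1 ≤ H → b ∈ Bo (Jx A.natDegree) H → ∀ θ ∈ Rt A, ∀ M : ℝ,
        M₀ * H ≤ M → ∀ P₁ P₂ : ℤ × ℤ, Pt A A.natDegree b H M θ K₀ P₁ →
        Pt A A.natDegree b H M θ K₀ P₂ →
        (P₁.1 ≠ P₂.1 → ∃ α β q : ℝ, PairFacts A b H M θ K₀ K a P₁ P₂ α β q) ∧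
        (P₁.1 = P₂.1 → P₁.2 = P₂.2) := by
  obtain ⟨r₀, K, a, hr0, hr01, hK, hK0K, ha, hγ, hmain⟩ := line_main hA A.natDegree K₀ hK0
  refine ⟨8 + 1 / r₀ + 8 / a, K, a, by
    have : 0 < 1 / r₀ := by positivity
    have : 0 < 8 / a := by positivity
    linarith, hK, ha, ?_, ?_⟩
  · intro b H hH hb θ hθ
    exact hγ θ hθ _ (nb_le hH hb)
  · intro b H hH hb θ hθ M hM P₁ P₂ hP1 hP2
    have hH' : (1 : ℝ) ≤ H := by exact_mod_cast hH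
    have hH0 : (0 : ℝ) < H := by linarith
    have hr0' : 0 < 1 / r₀ := by positivity
    have ha' : 0 < 8 / a := by positivity
    have hM8 : 8 * H ≤ M := by nlinarith
    have hMr : 1 / r₀ * H ≤ M := by nlinarith
    have hMa : 8 / a * H ≤ M := by nlinarith
    have hM8' : 8 ≤ M := by linarith
    have hM0 : 0 < M := by linarith
    have hr : (H : ℝ) / M ≤ r₀ := by
      rw [div_le_iff₀ hM0]
      rw [one_div, inv_mul_le_iff₀ hr0] at hMr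
      exact hMr
    have hrpos : 0 < (H : ℝ) / M := by positivity
    have hβ := nb_le hH hb (d := A.natDegree)
    obtain ⟨v, hv⟩ : ∃ v : ℝ, v = 2 * H / M ^ (A.natDegree - 1) := ⟨_, rfl⟩
    have hv0 : 0 ≤ v := by rw [hv]; positivity
    have hM3 : M ^ 3 ≤ M ^ (A.natDegree - 1) := pow_le_pow_right₀ (by linarith) (by omega)
    have hv3 : v ≤ 2 * H / M ^ 3 := by
      rw [hv]
      exact div_le_div_of_nonneg_left (by positivity) (by positivity) hM3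
    obtain ⟨hn1, hs1, ht1, hp1⟩ := hP1.facts hH hM0 (by linarith) (by omega)
    obtain ⟨hn2, hs2, ht2, hp2⟩ := hP2.facts hH hM0 (by linarith) (by omega)
    rw [← hv] at hp1 hp2
    obtain ⟨m1, m2⟩ := hmain (nb A.natDegree b H) hβ θ hθ (H / M) v hrpos hr hv0
    constructor
    · intro hne
      have hne' : (P₁.1 : ℝ) ≠ P₂.1 := by exact_mod_cast hne
      obtain ⟨Δ, hΔ⟩ : ∃ Δ : ℝ, Δ = |(H : ℝ) / P₁.1 - H / P₂.1| := ⟨_, rfl⟩
      have hΔl : H / (4 * M ^ 2) ≤ Δ := by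
        rw [hΔ, diff_inv hn1 hn2 hH0.le]
        have h1 : (1 : ℝ) ≤ |(P₁.1 : ℝ) - P₂.1| := by
          have : (1 : ℤ) ≤ |P₁.1 - P₂.1| := Int.one_le_abs (sub_ne_zero.2 hne)
          exact_mod_cast this
        have h2 : |(P₁.1 : ℝ)| * |(P₂.1 : ℝ)| ≤ 4 * M ^ 2 := by
          calc _ ≤ (2 * M) * (2 * M) := mul_le_mul hP1.2.1 hP2.2.1 (abs_nonneg _) (by linarith)
            _ = _ := by ring
        have h3 : 0 < |(P₁.1 : ℝ)| * |(P₂.1 : ℝ)| := by positivity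
        apply div_le_div₀ (by positivity) _ h3 h2
        exact le_mul_of_one_le_right hH0.le h1
      have hΔpos : 0 < Δ := lt_of_lt_of_le (by positivity) hΔl
      have hvΔ : v ≤ 8 / M * Δ := by
        refine hv3.trans ?_
        have h1 : 8 / M * (H / (4 * M ^ 2)) = 2 * H / M ^ 3 := by
          field_simp
          ring
        rw [← h1]
        exact mul_le_mul_of_nonneg_left hΔl (by positivity)
      have hvΔ' : v ≤ Δ := by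
        refine hvΔ.trans ?_
        have : 8 / M ≤ 1 := by rw [div_le_one hM0]; exact hM8'
        exact mul_le_of_le_one_left hΔpos.le this
      have hσne : (H : ℝ) / P₁.1 ≠ H / P₂.1 := by
        intro h0
        rw [hΔ, h0, sub_self, abs_zero] at hΔpos
        exact lt_irrefl _ hΔpos
      rw [hΔ] at hvΔ'
      obtain ⟨α, c, q, e1, e2, g1, g2, g3⟩ := m2 _ _ _ _ hs1 hs2 ht1 ht2 hp1 hp2 hσne hvΔ'
      rw [← hΔ] at g1 g2
      refine ⟨α, c * H, q, ?_⟩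
      have hvd : v / Δ ≤ 8 / M := by
        rw [div_le_iff₀ hΔpos]
        exact hvΔ
      refine ⟨?_, ?_, ?_, ?_, ?_, ?_⟩
      · have : (P₁.2 : ℝ) = P₁.2 / P₁.1 * P₁.1 := by field_simp
        rw [this, e1]
        field_simp
      · have : (P₂.2 : ℝ) = P₂.2 / P₂.1 * P₂.1 := by field_simp
        rw [this, e2]
        field_simp
      · refine g1.trans (mul_le_mul_of_nonneg_left ?_ (by linarith))
        have h1 : 8 / M ≤ 8 * H / M := by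
          apply div_le_div_of_nonneg_right _ hM0.le
          linarith
        have h2 : (9 : ℝ) * H / M = H / M + 8 * H / M := by ring
        linarith
      · refine g2.trans (add_le_add ?_ le_rfl)
        have h1 : 2 * v * (H / M) / Δ = 2 * (v / Δ) * (H / M) := by ring
        rw [h1]
        have h2 : 16 * H / M ^ 2 = 2 * (8 / M) * (H / M) := by field_simp; ring
        rw [h2]
        apply mul_le_mul_of_nonneg_right _ hrpos.le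
        linarith
      · intro P₃ hP3
        obtain ⟨hn3, hs3, ht3, hp3⟩ := hP3.facts hH hM0 (by linarith) (by omega)
        rw [← hv] at hp3
        obtain ⟨f1, f2⟩ := g3 _ hs3
        obtain ⟨t', ht'⟩ : ∃ t', t' = α + c * ((H : ℝ) / P₃.1) := ⟨_, rfl⟩
        rw [← ht'] at f1 f2
        have hK0K' : |(P₃.2 : ℝ) / P₃.1 - θ| ≤ K * (H / M) :=
          ht3.trans (mul_le_mul_of_nonneg_right hK0K hrpos.le)
        have f3 := m1 _ _ _ hs3 hK0K' f1 hp3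
        obtain ⟨σ₁, hσ1⟩ : ∃ σ₁, σ₁ = (H : ℝ) / P₁.1 := ⟨_, rfl⟩
        obtain ⟨σ₂, hσ2⟩ : ∃ σ₂, σ₂ = (H : ℝ) / P₂.1 := ⟨_, rfl⟩
        obtain ⟨σ₃, hσ3⟩ : ∃ σ₃, σ₃ = (H : ℝ) / P₃.1 := ⟨_, rfl⟩
        obtain ⟨x₁, hx1⟩ : ∃ x₁, x₁ = Ps A A.natDegree (nb A.natDegree b H) σ₁ (P₁.2 / P₁.1) :=
          ⟨_, rfl⟩
        obtain ⟨x₂, hx2⟩ : ∃ x₂, x₂ = Ps A A.natDegree (nb A.natDegree b H) σ₂ (P₂.2 / P₂.1) :=
          ⟨_, rfl⟩
        obtain ⟨x₃, hx3⟩ : ∃ x₃, x₃ = Ps A A.natDegree (nb A.natDegree b H) σ₃ t' := ⟨_, rfl⟩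
        rw [← hσ1, ← hσ2, ← hσ3] at f2
        rw [← hσ1, ← hx1] at hp1
        rw [← hσ2, ← hx2] at hp2
        rw [← hσ3, ← hx3] at f3
        rw [← hx1, ← hx2, ← hx3] at f2
        rw [← hσ1, ← hσ2, ← hσ3]
        rw [← hσ1, ← hσ2] at hΔ
        rw [← hΔ]
        have hΔ' : |σ₂ - σ₁| = Δ := by rw [abs_sub_comm, hΔ]
        have f4 : |x₃| * Δ ≤ v * (|σ₃ - σ₂| + |σ₁ - σ₃|) +
            |σ₁ - σ₃| * |σ₃ - σ₂| * Δ * (|q| + K * (H / M)) := by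
          have e : |x₃| * Δ = |x₃ * (σ₂ - σ₁)| := by rw [abs_mul, hΔ']
          have e' : x₃ * (σ₂ - σ₁) = (x₁ * (σ₃ - σ₂) + x₃ * (σ₂ - σ₁) +
            x₂ * (σ₁ - σ₃) + (σ₁ - σ₃) * (σ₃ - σ₂) * (σ₂ - σ₁) * q) -
            (x₁ * (σ₃ - σ₂) + x₂ * (σ₁ - σ₃) + (σ₁ - σ₃) * (σ₃ - σ₂) * (σ₂ - σ₁) * q) := by ring
          rw [e, e']
          refine (abs_sub _ _).trans ?_
          have k1 := abs_add_le (x₁ * (σ₃ - σ₂) + x₂ * (σ₁ - σ₃))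
            ((σ₁ - σ₃) * (σ₃ - σ₂) * (σ₂ - σ₁) * q)
          have k2 := abs_add_le (x₁ * (σ₃ - σ₂)) (x₂ * (σ₁ - σ₃))
          have k3 : |x₁ * (σ₃ - σ₂)| ≤ v * |σ₃ - σ₂| := by
            rw [abs_mul]
            exact mul_le_mul_of_nonneg_right hp1 (abs_nonneg _)
          have k4 : |x₂ * (σ₁ - σ₃)| ≤ v * |σ₁ - σ₃| := by
            rw [abs_mul]
            exact mul_le_mul_of_nonneg_right hp2 (abs_nonneg _)
          have k5 : |(σ₁ - σ₃) * (σ₃ - σ₂) * (σ₂ - σ₁) * q| =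
              |σ₁ - σ₃| * |σ₃ - σ₂| * Δ * |q| := by
            rw [abs_mul, abs_mul, abs_mul, hΔ']
          have k6 : |(σ₁ - σ₃) * (σ₃ - σ₂) * (σ₂ - σ₁)| = |σ₁ - σ₃| * |σ₃ - σ₂| * Δ := by
            rw [abs_mul, abs_mul, hΔ']
          rw [k6] at f2
          have k7 : |σ₁ - σ₃| * |σ₃ - σ₂| * Δ * (|q| + K * (H / M)) =
            |σ₁ - σ₃| * |σ₃ - σ₂| * Δ * |q| + K * (H / M) * (|σ₁ - σ₃| * |σ₃ - σ₂| * Δ) := by ring
          rw [k7]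
          linarith
        have f5 : |(P₃.2 : ℝ) - α * P₃.1 - c * H| = |(P₃.1 : ℝ)| * |(P₃.2 : ℝ) / P₃.1 - t'| := by
          rw [← abs_mul, ht']
          congr 1
          field_simp
          ring
        rw [f5]
        have f6 : a * (|(P₃.1 : ℝ)| * |(P₃.2 : ℝ) / P₃.1 - t'|) * Δ =
          |(P₃.1 : ℝ)| * ((a * |(P₃.2 : ℝ) / P₃.1 - t'|) * Δ) := by ring
        rw [f6]
        apply mul_le_mul_of_nonneg_left _ (abs_nonneg _)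
        have f7 : a * |(P₃.2 : ℝ) / P₃.1 - t'| * Δ ≤ (v + |x₃|) * Δ :=
          mul_le_mul_of_nonneg_right f3 hΔpos.le
        have f8 : v * (Δ + (|σ₃ - σ₂| + |σ₁ - σ₃|)) ≤ 2 * H / M ^ 3 *
            (Δ + (|σ₃ - σ₂| + |σ₁ - σ₃|)) :=
          mul_le_mul_of_nonneg_right hv3 (by positivity)
        linarith
      · intro P₃ hP3 hline
        obtain ⟨hn3, hs3, ht3, hp3⟩ := hP3.facts hH hM0 (by linarith) (by omega)
        rw [← hv] at hp3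
        obtain ⟨f1, f2⟩ := g3 _ hs3
        have ht' : α + c * ((H : ℝ) / P₃.1) = P₃.2 / P₃.1 := by
          rw [hline]
          field_simp
        rw [ht'] at f2
        rw [← hv]
        obtain ⟨σ₁, hσ1⟩ : ∃ σ₁, σ₁ = (H : ℝ) / P₁.1 := ⟨_, rfl⟩
        obtain ⟨σ₂, hσ2⟩ : ∃ σ₂, σ₂ = (H : ℝ) / P₂.1 := ⟨_, rfl⟩
        obtain ⟨σ₃, hσ3⟩ : ∃ σ₃, σ₃ = (H : ℝ) / P₃.1 := ⟨_, rfl⟩
        obtain ⟨x₁, hx1⟩ : ∃ x₁, x₁ = Ps A A.natDegree (nb A.natDegree b H) σ₁ (P₁.2 / P₁.1) :=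
          ⟨_, rfl⟩
        obtain ⟨x₂, hx2⟩ : ∃ x₂, x₂ = Ps A A.natDegree (nb A.natDegree b H) σ₂ (P₂.2 / P₂.1) :=
          ⟨_, rfl⟩
        obtain ⟨x₃, hx3⟩ : ∃ x₃, x₃ = Ps A A.natDegree (nb A.natDegree b H) σ₃ (P₃.2 / P₃.1) :=
          ⟨_, rfl⟩
        rw [← hσ1, ← hσ2, ← hσ3] at f2
        rw [← hσ1, ← hx1] at hp1
        rw [← hσ2, ← hx2] at hp2
        rw [← hσ3, ← hx3] at hp3
        rw [← hx1, ← hx2, ← hx3] at f2
        rw [← hσ1, ← hσ2, ← hσ3]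
        have hΔ' : |σ₂ - σ₁| = |σ₁ - σ₂| := abs_sub_comm _ _
        have k6 : |(σ₁ - σ₃) * (σ₃ - σ₂) * (σ₂ - σ₁)| = |σ₁ - σ₃| * |σ₃ - σ₂| * |σ₁ - σ₂| := by
          rw [abs_mul, abs_mul, hΔ']
        rw [k6] at f2
        have k5 : |(σ₁ - σ₃) * (σ₃ - σ₂) * (σ₂ - σ₁) * q| =
            |σ₁ - σ₃| * |σ₃ - σ₂| * |σ₁ - σ₂| * |q| := by
          rw [abs_mul, k6]
        have e' : (σ₁ - σ₃) * (σ₃ - σ₂) * (σ₂ - σ₁) * q = (x₁ * (σ₃ - σ₂) + x₃ * (σ₂ - σ₁) +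
            x₂ * (σ₁ - σ₃) + (σ₁ - σ₃) * (σ₃ - σ₂) * (σ₂ - σ₁) * q) -
            (x₁ * (σ₃ - σ₂) + x₃ * (σ₂ - σ₁) + x₂ * (σ₁ - σ₃)) := by ring
        have f3 : |σ₁ - σ₃| * |σ₃ - σ₂| * |σ₁ - σ₂| * |q| ≤
            K * (H / M) * (|σ₁ - σ₃| * |σ₃ - σ₂| * |σ₁ - σ₂|) +
            v * (|σ₃ - σ₂| + |σ₁ - σ₂| + |σ₁ - σ₃|) := by
          rw [← k5, e']
          refine (abs_sub _ _).trans ?_
          have k1 := abs_add_le (x₁ * (σ₃ - σ₂) + x₃ * (σ₂ - σ₁)) (x₂ * (σ₁ - σ₃))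
          have k2 := abs_add_le (x₁ * (σ₃ - σ₂)) (x₃ * (σ₂ - σ₁))
          have k3 : |x₁ * (σ₃ - σ₂)| ≤ v * |σ₃ - σ₂| := by
            rw [abs_mul]
            exact mul_le_mul_of_nonneg_right hp1 (abs_nonneg _)
          have k4 : |x₂ * (σ₁ - σ₃)| ≤ v * |σ₁ - σ₃| := by
            rw [abs_mul]
            exact mul_le_mul_of_nonneg_right hp2 (abs_nonneg _)
          have k7 : |x₃ * (σ₂ - σ₁)| ≤ v * |σ₁ - σ₂| := by
            rw [abs_mul, hΔ']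
            exact mul_le_mul_of_nonneg_right hp3 (abs_nonneg _)
          linarith
        linarith
    · intro heq
      obtain ⟨w₁, hw1⟩ : ∃ w₁, w₁ = (P₁.2 : ℝ) / P₁.1 := ⟨_, rfl⟩
      have hp2' := hp2
      rw [← heq] at hp2' ht2
      have f3 := m1 _ _ _ hs1 (ht1.trans (mul_le_mul_of_nonneg_right hK0K hrpos.le))
        (ht2.trans (mul_le_mul_of_nonneg_right hK0K hrpos.le)) hp1
      have f4 : a * |(P₁.2 : ℝ) / P₁.1 - P₂.2 / P₁.1| ≤ 2 * v := by linarith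
      have f5 : |(P₁.2 : ℝ) - P₂.2| = |(P₁.1 : ℝ)| * |(P₁.2 : ℝ) / P₁.1 - P₂.2 / P₁.1| := by
        rw [← abs_mul]
        congr 1
        field_simp
      have f6 : a * |(P₁.2 : ℝ) - P₂.2| ≤ 2 * M * (2 * (2 * H / M ^ 3)) := by
        rw [f5]
        have : a * (|(P₁.1 : ℝ)| * |(P₁.2 : ℝ) / P₁.1 - P₂.2 / P₁.1|) =
          |(P₁.1 : ℝ)| * (a * |(P₁.2 : ℝ) / P₁.1 - P₂.2 / P₁.1|) := by ring
        rw [this]
        refine mul_le_mul hP1.2.1 (f4.trans ?_) (by positivity) (by linarith)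
        exact mul_le_mul_of_nonneg_left hv3 (by norm_num)
      have f7 : 2 * M * (2 * (2 * H / M ^ 3)) = 8 * H / M ^ 2 := by
        field_simp
        ring
      rw [f7] at f6
      have f8 : 8 * H / M ^ 2 ≤ a / M := by
        have h1 : 8 * (H : ℝ) ≤ a * M := by
          have : 8 / a * H * a = 8 * H := by field_simp
          nlinarith
        rw [div_le_div_iff₀ (by positivity) hM0]
        nlinarith
      have f9 : |(P₁.2 : ℝ) - P₂.2| ≤ 1 / M := by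
        have h1 : a * |(P₁.2 : ℝ) - P₂.2| ≤ a * (1 / M) := by
          refine (f6.trans f8).trans (le_of_eq ?_)
          ring
        exact le_of_mul_le_mul_left h1 ha
      have f10 : |(P₁.2 : ℝ) - P₂.2| < 1 := by
        refine lt_of_le_of_lt f9 ?_
        rw [div_lt_one hM0]
        linarith
      have f11 : |P₁.2 - P₂.2| < 1 := by exact_mod_cast f10
      have f12 := Int.abs_lt_one_iff.1 f11
      omega

end Pool.Agent.TH728.FX
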