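import Pool.Agent.TH728.FX.OneScale

/-!
Curves with a large integer point near an asymptote, whose flex numbers are not small.
-/

open Polynomial

namespace Pool.Agent.TH728.FX

lemma Vl_split (A : ℤ[X]) (d : ℕ) (b : ℕ × ℕ → ℤ) {K : Finset (ℕ × ℕ)} (hK : K ⊆ Jx d) (u w : ℤ) :
    Vl A d b u w = Vl A d (res K b) u w + ∑ p ∈ K, b p * w ^ p.1 * u ^ p.2 := by
  unfold Vl
  rw [add_assoc, ← Finset.sum_sdiff hK, ← Finset.sum_sdiff hK]
  congr 1
  have h1 : ∑ p ∈ K, res K b p * w ^ p.1 * u ^ p.2 = 0 := by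
    apply Finset.sum_eq_zero
    intro p hp
    unfold res
    rw [if_pos hp]
    ring
  rw [h1, add_zero]
  congr 1
  apply Finset.sum_congr rfl
  intro p hp
  unfold res
  rw [if_neg (Finset.mem_sdiff.1 hp).2]

lemma gam_congr (A : ℤ[X]) {d : ℕ} {β β' : ℕ × ℕ → ℝ}
    (h : ∀ p, d - p.1 - p.2 = 1 ∨ d - p.1 - p.2 = 2 → β p = β' p) (θ : ℝ) :
    gam A d β θ = gam A d β' θ := by
  have e1 : ∀ t, G1 d β t = G1 d β' t := by
    intro t
    unfold G1
    apply Finset.sum_congr rfl
    intro p _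
    split_ifs with h1
    · rw [h p (Or.inl h1)]
    · simp
  have e2 : ∀ t, G1' d β t = G1' d β' t := by
    intro t
    unfold G1'
    apply Finset.sum_congr rfl
    intro p _
    split_ifs with h1
    · rw [h p (Or.inl h1)]
    · simp
  have e3 : ∀ t, G2 d β t = G2 d β' t := by
    intro t
    unfold G2
    apply Finset.sum_congr rfl
    intro p _
    split_ifs with h1
    · rw [h p (Or.inr h1)]
    · simp
  have e4 : kap A d β θ = kap A d β' θ := by
    unfold kap
    rw [e1]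
  unfold gam q2
  rw [e2, e3, e4]

open Classical in
lemma rangeC {A : ℤ[X]} (hA : Irreducible (A.map (Int.castRingHom ℚ)))
    (hd : 4 ≤ A.natDegree) (K₀ : ℝ) (hK0 : 1 ≤ K₀) : ∃ C K : ℝ, 1 ≤ C ∧ 1 ≤ K ∧
      ∀ H : ℕ, 1 ≤ H → ∀ E : ℝ, 1 ≤ E → ∀ S : Finset (ℕ × ℕ → ℤ), S ⊆ Bo (Jx A.natDegree) H →
        (∀ b ∈ S, (∀ θ ∈ Rt A, 1 ≤ |gam A A.natDegree (rb b) θ|) ∧
          ∃ P : ℤ × ℤ, Vl A A.natDegree b P.1 P.2 = 0 ∧ C * H ^ 3 ≤ |(P.1 : ℝ)| ∧
            |(P.1 : ℝ)| ≤ E ∧ ∃ θ ∈ Rt A, |(P.2 : ℝ) - θ * P.1| ≤ K₀ * H) →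
        (S.card : ℝ) ≤ K * (H : ℝ) ^ (3 / 4 : ℝ) * (2 * Real.log E + 1) *
          (2 * H + 1) ^ ((Jx A.natDegree).card - 2) := by
  obtain ⟨C, K, hC, hK, hsc⟩ := scale_count hA hd K₀ hK0
  refine ⟨C + 2, (A.natDegree : ℝ) * K, by linarith, ?_, ?_⟩
  · have : (1 : ℝ) ≤ A.natDegree := by exact_mod_cast (by omega : 1 ≤ A.natDegree)
    nlinarith
  intro H hH E hE S hS hSP
  have hH' : (1 : ℝ) ≤ H := by exact_mod_cast hH
  have hH0 : (0 : ℝ) < H := by linarith
  have hH3 : (H : ℝ) ≤ H ^ 3 := le_self_pow₀ hH' (by norm_num)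
  have hHp : 0 ≤ (H : ℝ) ^ (3 / 4 : ℝ) := Real.rpow_nonneg hH0.le _
  have hlogE : 0 ≤ Real.log E := Real.log_nonneg hE
  obtain ⟨L, hL⟩ : ∃ L : ℕ, L = ⌊2 * Real.log E⌋₊ + 1 := ⟨_, rfl⟩
  obtain ⟨D, hD⟩ : ∃ D : Finset (ℕ × ℕ), D = {(0, 0), (0, 1)} := ⟨_, rfl⟩
  have hDJ : D ⊆ Jx A.natDegree := by
    intro p hp
    rw [hD, Finset.mem_insert, Finset.mem_singleton] at hp
    rw [mem_Jx]
    rcases hp with rfl | rfl
    · simp only; omega
    · simp only; omega
  have hDc : D.card = 2 := by rw [hD]; rfl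
  have hDsum : ∀ (b : ℕ × ℕ → ℤ) (u w : ℤ), ∑ p ∈ D, b p * w ^ p.1 * u ^ p.2 =
      b (0, 0) + b (0, 1) * u := by
    intro b u w
    rw [hD, Finset.sum_insert (by simp), Finset.sum_singleton]
    simp
  obtain ⟨k, hk⟩ : ∃ k : ℕ, k = ⌊(A.natDegree : ℝ) * K * (H : ℝ) ^ (3 / 4 : ℝ) *
    (2 * Real.log E + 1)⌋₊ := ⟨_, rfl⟩
  have hpos : 0 ≤ (A.natDegree : ℝ) * K * (H : ℝ) ^ (3 / 4 : ℝ) * (2 * Real.log E + 1) := by
    positivity
  have hfib : ∀ c ∈ S, (S.filter (fun c' => res D c' = res D c)).card ≤ k := by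
    intro c hc
    obtain ⟨F, hF⟩ : ∃ F, F = S.filter (fun c' => res D c' = res D c) := ⟨_, rfl⟩
    rw [← hF]
    have hF1 : ∀ b ∈ F, b ∈ S ∧ res D b = res D c := by
      intro b hb
      rw [hF, Finset.mem_filter] at hb
      exact hb
    choose! P hP using fun b (hb : b ∈ S) => (hSP b hb).2
    have hbig : ∀ b ∈ S, (2 * H : ℤ) < |(P b).1| := by
      intro b hb
      have h1 := (hP b hb).2.1
      have h2 : (2 * H : ℝ) < |((P b).1 : ℝ)| := by
        have h3 : 1 * (H : ℝ) ^ 3 ≤ C * H ^ 3 := mul_le_mul_of_nonneg_right hC (by positivity)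
        linarith
      exact_mod_cast h2
    have hinj : Set.InjOn P (F : Set (ℕ × ℕ → ℤ)) := by
      intro b hb b' hb' hPP
      rw [Finset.mem_coe] at hb hb'
      obtain ⟨hbS, hbr⟩ := hF1 b hb
      obtain ⟨hbS', hbr'⟩ := hF1 b' hb'
      have e1 := (hP b hbS).1
      have e2 := (hP b' hbS').1
      rw [Vl_split A _ b hDJ, hDsum, hbr] at e1
      rw [Vl_split A _ b' hDJ, hDsum, hbr', ← hPP] at e2
      have e3 : b (0, 0) - b' (0, 0) = (b' (0, 1) - b (0, 1)) * (P b).1 := by linarith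
      have m1 := (mem_Bo.1 (hS hbS)).1 (0, 0)
      have m2 := (mem_Bo.1 (hS hbS')).1 (0, 0)
      have e4 : b (0, 0) - b' (0, 0) = 0 := by
        apply Int.eq_zero_of_abs_lt_dvd (m := |(P b).1|)
        · rw [abs_dvd, e3]
          exact dvd_mul_left _ _
        · have := abs_sub (b (0, 0)) (b' (0, 0))
          have := hbig b hbS
          linarith
      have e5 : b' (0, 1) - b (0, 1) = 0 := by
        rw [e4] at e3
        rcases mul_eq_zero.1 e3.symm with h | h
        · exact h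
        · exfalso
          have := hbig b hbS
          rw [h, abs_zero] at this
          omega
      funext p
      by_cases hp : p ∈ D
      · rw [hD, Finset.mem_insert, Finset.mem_singleton] at hp
        rcases hp with rfl | rfl
        · linarith
        · linarith
      · have := congrFun (hbr.trans hbr'.symm) p
        simp only [res, if_neg hp] at this
        exact this
    obtain ⟨T, hT⟩ : ∃ T, T = F.image P := ⟨_, rfl⟩
    have hTc : F.card = T.card := by rw [hT, Finset.card_image_of_injOn hinj]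
    have hcov : T ⊆ (Rt A).biUnion (fun θ => (Finset.range L).biUnion (fun j =>
        T.filter (fun Q => Pt A A.natDegree (res D c) H ((C + 2) * H ^ 3 * 2 ^ j) θ K₀ Q))) := by
      intro Q hQ
      have hQ' := hQ
      rw [hT, Finset.mem_image] at hQ
      obtain ⟨b, hb, rfl⟩ := hQ
      obtain ⟨hbS, hbr⟩ := hF1 b hb
      obtain ⟨p1, p2, p3, θ, hθ, p4⟩ := hP b hbS
      rw [Finset.mem_biUnion]
      refine ⟨θ, hθ, ?_⟩
      rw [Finset.mem_biUnion]
      have hMp : 0 < (C + 2) * (H : ℝ) ^ 3 := by positivity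
      obtain ⟨j, hj1, hj2⟩ := exists_nat_pow_near (x := |((P b).1 : ℝ)| / ((C + 2) * H ^ 3))
        (y := 2) (by rw [le_div_iff₀ hMp]; linarith) (by norm_num)
      rw [le_div_iff₀ hMp] at hj1
      rw [div_lt_iff₀ hMp] at hj2
      refine ⟨j, ?_, ?_⟩
      · rw [Finset.mem_range, hL]
        have h1 : (2 : ℝ) ^ j ≤ E := by
          have h2 : (1 : ℝ) ≤ (C + 2) * H ^ 3 := by
            have : (1 : ℝ) ≤ (H : ℝ) ^ 3 := by linarith
            nlinarith
          have h3 : (2 : ℝ) ^ j * 1 ≤ 2 ^ j * ((C + 2) * H ^ 3) :=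
            mul_le_mul_of_nonneg_left h2 (by positivity)
          linarith
        have h2 : (j : ℝ) * Real.log 2 ≤ Real.log E := by
          rw [← Real.log_pow]
          exact Real.log_le_log (by positivity) h1
        have h3 : (1 / 2 : ℝ) ≤ Real.log 2 := by
          have := Real.log_two_gt_d9
          linarith
        have h4 : (j : ℝ) ≤ 2 * Real.log E := by
          have : (j : ℝ) * (1 / 2) ≤ j * Real.log 2 :=
            mul_le_mul_of_nonneg_left h3 (Nat.cast_nonneg _)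
          linarith
        have h5 := Nat.le_floor h4
        omega
      · rw [Finset.mem_filter]
        refine ⟨hQ', ?_, ?_, p4, ?_⟩
        · linarith
        · rw [pow_succ] at hj2
          linarith
        · have e1 := p1
          rw [Vl_split A _ b hDJ, hDsum, hbr] at e1
          have e2 : Vl A A.natDegree (res D c) (P b).1 (P b).2 =
            -(b (0, 0) + b (0, 1) * (P b).1) := by linarith
          rw [e2]
          push_cast
          rw [abs_neg]
          have m1 := (mem_Bo.1 (hS hbS)).1 (0, 0)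
          have m2 := (mem_Bo.1 (hS hbS)).1 (0, 1)
          have m1' : |(b (0, 0) : ℝ)| ≤ H := by exact_mod_cast m1
          have m2' : |(b (0, 1) : ℝ)| ≤ H := by exact_mod_cast m2
          refine (abs_add_le _ _).trans ?_
          rw [abs_mul]
          have h1 : |(b (0, 1) : ℝ)| * |((P b).1 : ℝ)| ≤ H * |((P b).1 : ℝ)| :=
            mul_le_mul_of_nonneg_right m2' (abs_nonneg _)
          have h2 : (1 : ℝ) ≤ |((P b).1 : ℝ)| := by
            have h3 : (2 * H : ℝ) < |((P b).1 : ℝ)| := by exact_mod_cast hbig b hbS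
            linarith
          have h3 : (H : ℝ) * 1 ≤ H * |((P b).1 : ℝ)| := mul_le_mul_of_nonneg_left h2 hH0.le
          linarith
    have hg1 : ∀ θ ∈ Rt A, 1 ≤ |gam A A.natDegree (rb (res D c)) θ| := by
      intro θ hθ
      rw [gam_congr A (β' := rb c)]
      · exact (hSP c hc).1 θ hθ
      · intro p hp
        unfold rb res
        rw [if_neg]
        intro hpD
        rw [hD, Finset.mem_insert, Finset.mem_singleton] at hpD
        rcases hpD with rfl | rfl
        · simp only at hp; omega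
        · simp only at hp; omega
    have hcard : (T.card : ℝ) ≤ (A.natDegree : ℝ) * ((L : ℝ) * (K * (H : ℝ) ^ (3 / 4 : ℝ))) := by
      have h1 := (Finset.card_le_card hcov).trans Finset.card_biUnion_le
      have h2 : ∀ θ ∈ Rt A, (((Finset.range L).biUnion (fun j =>
        T.filter (fun Q => Pt A A.natDegree (res D c) H ((C + 2) * H ^ 3 * 2 ^ j) θ K₀ Q))).card : ℝ)
          ≤ (L : ℝ) * (K * (H : ℝ) ^ (3 / 4 : ℝ)) := by
        intro θ hθ
        have h3 : ((Finset.range L).biUnion (fun j =>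
          T.filter (fun Q => Pt A A.natDegree (res D c) H ((C + 2) * H ^ 3 * 2 ^ j) θ K₀ Q))).card ≤
          ∑ j ∈ Finset.range L, (T.filter (fun Q => Pt A A.natDegree (res D c) H
            ((C + 2) * H ^ 3 * 2 ^ j) θ K₀ Q)).card := Finset.card_biUnion_le
        have h4 : ∀ j ∈ Finset.range L, ((T.filter (fun Q => Pt A A.natDegree (res D c) H
            ((C + 2) * H ^ 3 * 2 ^ j) θ K₀ Q)).card : ℝ) ≤ K * (H : ℝ) ^ (3 / 4 : ℝ) := by
          intro j _
          apply hsc (res D c) H hH (res_mem' (hS hc)) θ hθ ((C + 2) * H ^ 3 * 2 ^ j) _ (hg1 θ hθ)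
          · intro Q hQ
            exact (Finset.mem_filter.1 hQ).2
          · have h5 : (1 : ℝ) ≤ 2 ^ j := one_le_pow₀ (by norm_num)
            have h6 : (C + 2) * (H : ℝ) ^ 3 * 1 ≤ (C + 2) * (H : ℝ) ^ 3 * 2 ^ j :=
              mul_le_mul_of_nonneg_left h5 (by positivity)
            have h7 : 0 ≤ (H : ℝ) ^ 3 := by positivity
            linarith
        have h5 : (((Finset.range L).biUnion (fun j =>
          T.filter (fun Q => Pt A A.natDegree (res D c) H ((C + 2) * H ^ 3 * 2 ^ j) θ K₀ Q))).card : ℝ)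
          ≤ ((∑ j ∈ Finset.range L, (T.filter (fun Q => Pt A A.natDegree (res D c) H
            ((C + 2) * H ^ 3 * 2 ^ j) θ K₀ Q)).card : ℕ) : ℝ) := by exact_mod_cast h3
        refine h5.trans ?_
        push_cast
        refine (Finset.sum_le_sum h4).trans ?_
        rw [Finset.sum_const, Finset.card_range, nsmul_eq_mul]
      have h3 : (T.card : ℝ) ≤ ((∑ θ ∈ Rt A, ((Finset.range L).biUnion (fun j =>
        T.filter (fun Q => Pt A A.natDegree (res D c) H ((C + 2) * H ^ 3 * 2 ^ j) θ K₀ Q))).card : ℕ) : ℝ)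
          := by exact_mod_cast h1
      refine h3.trans ?_
      push_cast
      refine (Finset.sum_le_sum h2).trans ?_
      rw [Finset.sum_const, nsmul_eq_mul]
      apply mul_le_mul_of_nonneg_right _ (by positivity)
      exact_mod_cast card_Rt A
    rw [hTc, hk]
    apply Nat.le_floor
    refine hcard.trans ?_
    have hL' : (L : ℝ) ≤ 2 * Real.log E + 1 := by
      rw [hL]
      push_cast
      have := Nat.floor_le (show 0 ≤ 2 * Real.log E by positivity)
      linarith
    have e : (A.natDegree : ℝ) * K * (H : ℝ) ^ (3 / 4 : ℝ) * (2 * Real.log E + 1) =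
      (A.natDegree : ℝ) * ((2 * Real.log E + 1) * (K * (H : ℝ) ^ (3 / 4 : ℝ))) := by ring
    rw [e]
    apply mul_le_mul_of_nonneg_left _ (Nat.cast_nonneg _)
    exact mul_le_mul_of_nonneg_right hL' (by positivity)
  have h1 := card_fib hS hDJ hfib
  rw [hDc] at h1
  have h2 : (S.card : ℝ) ≤ k * (2 * H + 1) ^ ((Jx A.natDegree).card - 2) := by exact_mod_cast h1
  refine h2.trans ?_
  apply mul_le_mul_of_nonneg_right _ (by positivity)
  rw [hk]
  exact Nat.floor_le hpos

end Pool.Agent.TH728.FX
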