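import Pool.Agent.TH728.FX.RangeA
import Pool.Agent.TH728.FX.RangeC

/-!
The number of curves through a given integer point, precisely.
-/

open Polynomial

namespace Pool.Agent.TH728.FX

/-- exponents of positive total degree less than `d` -/
def Jy (d : ℕ) : Finset (ℕ × ℕ) := (Jx d).erase (0, 0)

lemma mem_Jy {d : ℕ} {p : ℕ × ℕ} : p ∈ Jy d ↔ p ≠ (0, 0) ∧ p.1 + p.2 < d := by
  rw [Jy, Finset.mem_erase, mem_Jx]

lemma card_Jy {d : ℕ} (hd : 1 ≤ d) : (Jy d).card = (Jx d).card - 1 := by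
  rw [Jy, Finset.card_erase_of_mem]
  rw [mem_Jx]
  simp only
  omega

/-- the linear form at a point -/
def Lc (d : ℕ) (u w : ℤ) (c : ℕ × ℕ → ℤ) : ℤ := ∑ p ∈ Jy d, c p * w ^ p.1 * u ^ p.2

lemma Lc_sub (d : ℕ) (u w : ℤ) (c c' : ℕ × ℕ → ℤ) :
    Lc d u w c - Lc d u w c' = Lc d u w (c - c') := by
  unfold Lc
  rw [← Finset.sum_sub_distrib]
  apply Finset.sum_congr rfl
  intro p _
  rw [Pi.sub_apply]
  ring

/-- norm of the linear form -/
def Ln (d : ℕ) (u w : ℤ) : ℤ := ∑ p ∈ Jy d, |w| ^ p.1 * |u| ^ p.2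

lemma Lc_le {d : ℕ} (u w : ℤ) {c : ℕ × ℕ → ℤ} {H : ℤ} (hc : ∀ p, |c p| ≤ H) :
    |Lc d u w c| ≤ H * Ln d u w := by
  unfold Lc Ln
  rw [Finset.mul_sum]
  refine (Finset.abs_sum_le_sum_abs _ _).trans (Finset.sum_le_sum ?_)
  intro p _
  rw [abs_mul, abs_mul, abs_pow, abs_pow, mul_assoc]
  exact mul_le_mul_of_nonneg_right (hc p) (by positivity)

lemma Ln_pos {d : ℕ} (hd : 4 ≤ d) {u w : ℤ} {N : ℕ} (hN : 1 ≤ N)
    (h : N = max u.natAbs w.natAbs) : 1 ≤ Ln d u w := by
  unfold Ln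
  rcases le_total u.natAbs w.natAbs with h1 | h1
  · have hp : ((1, 0) : ℕ × ℕ) ∈ Jy d := by
      rw [mem_Jy]
      refine ⟨by simp, ?_⟩
      simp only; omega
    have h2 := Finset.single_le_sum (f := fun p : ℕ × ℕ => |w| ^ p.1 * |u| ^ p.2)
      (fun _ _ => by positivity) hp
    simp only [pow_one, pow_zero, mul_one] at h2
    refine le_trans ?_ h2
    rw [max_eq_right h1] at h
    rw [Int.abs_eq_natAbs]
    omega
  · have hp : ((0, 1) : ℕ × ℕ) ∈ Jy d := by
      rw [mem_Jy]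
      refine ⟨by simp, ?_⟩
      simp only; omega
    have h2 := Finset.single_le_sum (f := fun p : ℕ × ℕ => |w| ^ p.1 * |u| ^ p.2)
      (fun _ _ => by positivity) hp
    simp only [pow_one, pow_zero, one_mul] at h2
    refine le_trans ?_ h2
    rw [max_eq_left h1] at h
    rw [Int.abs_eq_natAbs]
    omega

lemma Ln_le {d : ℕ} (hd : 4 ≤ d) {u w : ℤ} {N : ℕ} (hN : 1 ≤ N)
    (h : N = max u.natAbs w.natAbs) : Ln d u w ≤ (Jy d).card * (N : ℤ) ^ (d - 1) := by
  unfold Ln
  rw [← nsmul_eq_mul]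
  apply Finset.sum_le_card_nsmul
  intro p hp
  rw [mem_Jy] at hp
  have h1 : |w| ≤ N := by rw [Int.abs_eq_natAbs]; omega
  have h2 : |u| ≤ N := by rw [Int.abs_eq_natAbs]; omega
  have hN' : (1 : ℤ) ≤ N := by exact_mod_cast hN
  calc |w| ^ p.1 * |u| ^ p.2 ≤ (N : ℤ) ^ p.1 * (N : ℤ) ^ p.2 :=
        mul_le_mul (pow_le_pow_left₀ (abs_nonneg _) h1 _) (pow_le_pow_left₀ (abs_nonneg _) h2 _)
          (by positivity) (by positivity)
    _ = (N : ℤ) ^ (p.1 + p.2) := (pow_add _ _ _).symm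
    _ ≤ _ := pow_le_pow_right₀ hN' (by omega)

open Classical in
/-- few coefficient vectors have a value of the linear form in two given short intervals -/
lemma shell {d : ℕ} (hd : 4 ≤ d) {u w : ℤ} {N : ℕ} (hN : 1 ≤ N)
    (h : N = max u.natAbs w.natAbs) (H : ℕ) (lo hi : ℝ) (hlh : lo ≤ hi) :
    (((Bo (Jy d) H).filter (fun c => lo ≤ |(Lc d u w c : ℝ)| ∧ |(Lc d u w c : ℝ)| ≤ hi)).card : ℝ) ≤
      2 * ((hi - lo) / N ^ (d - 1) + 1) * (2 * H + 1) ^ ((Jx d).card - 2) := by
  -- the coordinate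
  obtain ⟨p₀, hp0, hp0v⟩ : ∃ p₀ ∈ Jy d, |w ^ p₀.1 * u ^ p₀.2| = (N : ℤ) ^ (d - 1) := by
    rcases le_total u.natAbs w.natAbs with h1 | h1
    · refine ⟨(d - 1, 0), ?_, ?_⟩
      · rw [mem_Jy]
        constructor
        · intro h2
          have := (Prod.mk.inj h2).1
          omega
        · simp only; omega
      · simp only [pow_zero, mul_one]
        rw [abs_pow]
        congr 1
        rw [max_eq_right h1] at h
        rw [Int.abs_eq_natAbs]
        omega
    · refine ⟨(0, d - 1), ?_, ?_⟩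
      · rw [mem_Jy]
        constructor
        · intro h2
          have := (Prod.mk.inj h2).2
          omega
        · simp only; omega
      · simp only [pow_zero, one_mul]
        rw [abs_pow]
        congr 1
        rw [max_eq_left h1] at h
        rw [Int.abs_eq_natAbs]
        omega
  have hN0 : (0 : ℝ) < (N : ℝ) ^ (d - 1) := by
    have : (0 : ℝ) < N := by exact_mod_cast (by omega : 0 < N)
    positivity
  have hX : 0 ≤ (hi - lo) / (N : ℝ) ^ (d - 1) := div_nonneg (by linarith) hN0.le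
  obtain ⟨S, hS⟩ : ∃ S, S = (Bo (Jy d) H).filter (fun c => lo ≤ |(Lc d u w c : ℝ)| ∧
    |(Lc d u w c : ℝ)| ≤ hi) := ⟨_, rfl⟩
  rw [← hS]
  have hSB : S ⊆ Bo (Jy d) H := by rw [hS]; exact Finset.filter_subset _ _
  have hD : ({p₀} : Finset (ℕ × ℕ)) ⊆ Jy d := by
    intro p hp
    rw [Finset.mem_singleton] at hp
    rw [hp]
    exact hp0
  have hmain := card_fib (H := H) (k := ⌊2 * ((hi - lo) / (N : ℝ) ^ (d - 1) + 1)⌋₊) hSB hD (by
    intro c hc
    apply Nat.le_floor
    obtain ⟨F, hF⟩ : ∃ F, F = S.filter (fun c' => res {p₀} c' = res {p₀} c) := ⟨_, rfl⟩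
    rw [← hF]
    have hsep : ∀ b ∈ F, ∀ b' ∈ F, b ≠ b' →
        (N : ℝ) ^ (d - 1) ≤ |(Lc d u w b : ℝ) - Lc d u w b'| := by
      intro b hb b' hb' hne
      rw [hF, Finset.mem_filter] at hb hb'
      have hag : ∀ p, p ≠ p₀ → b p = b' p := by
        intro p hp
        have := congrFun (hb.2.trans hb'.2.symm) p
        simp only [res, Finset.mem_singleton, if_neg hp] at this
        exact this
      have h1 : Lc d u w b - Lc d u w b' = (b p₀ - b' p₀) * (w ^ p₀.1 * u ^ p₀.2) := by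
        rw [Lc_sub]
        unfold Lc
        rw [Finset.sum_eq_single p₀]
        · rw [Pi.sub_apply]; ring
        · intro p _ hp
          rw [Pi.sub_apply, hag p hp]
          ring
        · intro h2
          exact absurd hp0 h2
      have h2 : b p₀ - b' p₀ ≠ 0 := by
        intro h3
        apply hne
        funext p
        by_cases hp : p = p₀
        · rw [hp]; linarith
        · exact hag p hp
      have h3 : (N : ℤ) ^ (d - 1) ≤ |Lc d u w b - Lc d u w b'| := by
        rw [h1, abs_mul, hp0v]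
        exact le_mul_of_one_le_left (by positivity) (Int.one_le_abs h2)
      exact_mod_cast h3
    obtain ⟨F1, hF1⟩ : ∃ F1, F1 = F.filter (fun b => 0 ≤ Lc d u w b) := ⟨_, rfl⟩
    obtain ⟨F2, hF2⟩ : ∃ F2, F2 = F.filter (fun b => Lc d u w b < 0) := ⟨_, rfl⟩
    have hcov : F ⊆ F1 ∪ F2 := by
      intro b hb
      rw [Finset.mem_union, hF1, hF2, Finset.mem_filter, Finset.mem_filter]
      rcases le_or_gt 0 (Lc d u w b) with h1 | h1
      · exact Or.inl ⟨hb, h1⟩
      · exact Or.inr ⟨hb, h1⟩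
    have c1 := sep_card F1 (fun b => (Lc d u w b : ℝ)) (B := (N : ℝ) ^ (d - 1)) (lo := lo)
      (hi := hi) hN0 hlh (by
        intro b hb
        rw [hF1, Finset.mem_filter, hF, Finset.mem_filter, hS, Finset.mem_filter] at hb
        have h1 : (0 : ℝ) ≤ Lc d u w b := by exact_mod_cast hb.2
        have h2 := hb.1.1.2
        rw [abs_of_nonneg h1] at h2
        exact h2) (by
        intro b hb b' hb' hne
        rw [hF1, Finset.mem_filter] at hb hb'
        exact hsep b hb.1 b' hb'.1 hne)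
    have c2 := sep_card F2 (fun b => (Lc d u w b : ℝ)) (B := (N : ℝ) ^ (d - 1)) (lo := -hi)
      (hi := -lo) hN0 (by linarith) (by
        intro b hb
        rw [hF2, Finset.mem_filter, hF, Finset.mem_filter, hS, Finset.mem_filter] at hb
        have h1 : (Lc d u w b : ℝ) < 0 := by exact_mod_cast hb.2
        have h2 := hb.1.1.2
        rw [abs_of_neg h1] at h2
        constructor <;> linarith [h2.1, h2.2]) (by
        intro b hb b' hb' hne
        rw [hF2, Finset.mem_filter] at hb hb'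
        exact hsep b hb.1 b' hb'.1 hne)
    have c3 := (Finset.card_le_card hcov).trans (Finset.card_union_le _ _)
    have c4 : (F.card : ℝ) ≤ F1.card + F2.card := by exact_mod_cast c3
    have e1 : (-lo - -hi) / (N : ℝ) ^ (d - 1) = (hi - lo) / (N : ℝ) ^ (d - 1) := by
      congr 1
      ring
    rw [e1] at c2
    linarith)
  rw [Finset.card_singleton, card_Jy (by omega)] at hmain
  have h1 : (S.card : ℝ) ≤ ((⌊2 * ((hi - lo) / (N : ℝ) ^ (d - 1) + 1)⌋₊ : ℕ) : ℝ) *
      (2 * H + 1) ^ ((Jx d).card - 1 - 1) := by exact_mod_cast hmain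
  refine h1.trans ?_
  rw [show (Jx d).card - 1 - 1 = (Jx d).card - 2 by omega]
  apply mul_le_mul_of_nonneg_right _ (by positivity)
  exact Nat.floor_le (by positivity)

open Classical in
/-- number of vectors with value in the box -/
noncomputable def MP (d : ℕ) (u w v : ℤ) (H : ℕ) : ℕ :=
  ((Bo (Jy d) H).filter (fun c => |v + Lc d u w c| ≤ H)).card

open Classical in
lemma MP_shift {d : ℕ} (hd : 4 ≤ d) {u w : ℤ} {N : ℕ} (hN : 1 ≤ N)
    (h : N = max u.natAbs w.natAbs) (v : ℤ) (H : ℕ) :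
    |(MP d u w v H : ℝ) - MP d u w 0 H| ≤
      2 * (2 * |(v : ℝ)| / N ^ (d - 1) + 1) * (2 * H + 1) ^ ((Jx d).card - 2) := by
  obtain ⟨S, hS⟩ : ∃ S, S = (Bo (Jy d) H).filter (fun c => (H : ℝ) - |(v : ℝ)| ≤ |(Lc d u w c : ℝ)| ∧
    |(Lc d u w c : ℝ)| ≤ H + |(v : ℝ)|) := ⟨_, rfl⟩
  have h0 := shell hd hN h H ((H : ℝ) - |(v : ℝ)|) (H + |(v : ℝ)|) (by
    have := abs_nonneg (v : ℝ)
    linarith)
  rw [← hS] at h0
  have e1 : (H + |(v : ℝ)| - (H - |(v : ℝ)|)) = 2 * |(v : ℝ)| := by ring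
  rw [e1] at h0
  refine le_trans ?_ h0
  have key : ∀ a a' : ℤ, (∀ x : ℤ, |a + x| ≤ H → ¬ |a' + x| ≤ H →
      (H : ℝ) - |(v : ℝ)| ≤ |(x : ℝ)| ∧ |(x : ℝ)| ≤ H + |(v : ℝ)|) →
      (MP d u w a H : ℝ) ≤ MP d u w a' H + S.card := by
    intro a a' haa
    have h1 : (Bo (Jy d) H).filter (fun c => |a + Lc d u w c| ≤ H) ⊆
        (Bo (Jy d) H).filter (fun c => |a' + Lc d u w c| ≤ H) ∪ S := by
      intro c hc
      rw [Finset.mem_filter] at hc
      rw [Finset.mem_union, Finset.mem_filter, hS, Finset.mem_filter]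
      by_cases h2 : |a' + Lc d u w c| ≤ H
      · exact Or.inl ⟨hc.1, h2⟩
      · exact Or.inr ⟨hc.1, haa _ hc.2 h2⟩
    have h2 := (Finset.card_le_card h1).trans (Finset.card_union_le _ _)
    unfold MP
    exact_mod_cast h2
  have k1 := key v 0 (by
    intro x h1 h2
    rw [zero_add] at h2
    push Not at h2
    have h1' : |(v : ℝ) + x| ≤ H := by exact_mod_cast h1
    have h2' : (H : ℝ) < |(x : ℝ)| := by exact_mod_cast h2
    constructor
    · have := abs_nonneg (v : ℝ)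
      linarith
    · have e : (x : ℝ) = (v + x) - v := by ring
      have := abs_sub ((v : ℝ) + x) v
      rw [← e] at this
      linarith)
  have k2 := key 0 v (by
    intro x h1 h2
    rw [zero_add] at h1
    push Not at h2
    have h1' : |(x : ℝ)| ≤ H := by exact_mod_cast h1
    have h2' : (H : ℝ) < |(v : ℝ) + x| := by exact_mod_cast h2
    constructor
    · have := abs_add_le (v : ℝ) x
      linarith
    · have := abs_nonneg (v : ℝ)
      linarith)
  rw [abs_le]
  constructor <;> linarith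

end Pool.Agent.TH728.FX
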