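import Pool.Agent.TH728.FX.Fine

/-!
Refinement of boxes.
-/

open Polynomial

namespace Pool.Agent.TH728.FX

/-- the box of radius `(2 m + 1) H + m` is the product of the boxes of radius `H` and `m` -/
def cmb (m : ℕ) (q : (ℕ × ℕ → ℤ) × (ℕ × ℕ → ℤ)) : ℕ × ℕ → ℤ := fun p => (2 * m + 1) * q.1 p + q.2 p

lemma Lc_cmb (d : ℕ) (u w : ℤ) (m : ℕ) (q : (ℕ × ℕ → ℤ) × (ℕ × ℕ → ℤ)) :
    Lc d u w (cmb m q) = (2 * m + 1) * Lc d u w q.1 + Lc d u w q.2 := by
  unfold Lc cmb
  rw [Finset.mul_sum, ← Finset.sum_add_distrib]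
  apply Finset.sum_congr rfl
  intro p _
  ring

open Classical in
lemma MP_cmb (d : ℕ) (u w : ℤ) (H m : ℕ) : MP d u w 0 ((2 * m + 1) * H + m) =
    ((Bo (Jy d) H ×ˢ Bo (Jy d) m).filter (fun q => |Lc d u w (cmb m q)| ≤
      ((2 * m + 1) * H + m : ℕ))).card := by
  symm
  unfold MP
  have hm0 : (0 : ℤ) < 2 * m + 1 := by positivity
  apply Finset.card_nbij' (cmb m)
    (fun b => ((fun p => (b p + m) / (2 * m + 1)), (fun p => (b p + m) % (2 * m + 1) - m)))
  · intro q hq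
    rw [Finset.mem_coe, Finset.mem_filter, Finset.mem_product, mem_Bo, mem_Bo] at hq
    obtain ⟨⟨⟨h1, h2⟩, ⟨h3, h4⟩⟩, h5⟩ := hq
    rw [Finset.mem_coe, Finset.mem_filter, mem_Bo, zero_add]
    refine ⟨⟨?_, ?_⟩, h5⟩
    · intro p
      unfold cmb
      have e1 := h1 p
      have e2 := h3 p
      refine (abs_add_le _ _).trans ?_
      rw [abs_mul, abs_of_pos hm0]
      push_cast
      exact add_le_add (mul_le_mul_of_nonneg_left e1 hm0.le) e2
    · intro p hp
      unfold cmb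
      rw [h2 p hp, h4 p hp]
      ring
  · intro b hb
    rw [Finset.mem_coe, Finset.mem_filter, mem_Bo, zero_add] at hb
    obtain ⟨⟨h1, h2⟩, h3⟩ := hb
    rw [Finset.mem_coe, Finset.mem_filter, Finset.mem_product, mem_Bo, mem_Bo]
    have hz : ∀ p, p ∉ Jy d → (b p + m) / (2 * m + 1) = 0 := by
      intro p hp
      rw [h2 p hp, zero_add]
      apply Int.ediv_eq_zero_of_lt (by positivity)
      linarith [(Nat.cast_nonneg m : (0 : ℤ) ≤ m)]
    have hz' : ∀ p, p ∉ Jy d → (b p + m) % (2 * m + 1) - m = 0 := by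
      intro p hp
      rw [h2 p hp, zero_add, Int.emod_eq_of_lt (by positivity)]
      · ring
      · linarith [(Nat.cast_nonneg m : (0 : ℤ) ≤ m)]
    refine ⟨⟨⟨?_, hz⟩, ⟨?_, hz'⟩⟩, ?_⟩
    · intro p
      simp only
      have e1 := abs_le.1 (h1 p)
      push_cast at e1
      rw [abs_le]
      constructor
      · rw [Int.le_ediv_iff_mul_le hm0]
        nlinarith [e1.1]
      · have : (b p + m) / (2 * m + 1) < H + 1 := by
          rw [Int.ediv_lt_iff_lt_mul hm0]
          nlinarith [e1.2]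
        linarith
    · intro p
      simp only
      have f1 := Int.emod_nonneg (b p + m) hm0.ne'
      have f2 := Int.emod_lt_of_pos (b p + m) hm0
      rw [abs_le]
      constructor <;> linarith
    · have : cmb m ((fun p => (b p + m) / (2 * m + 1)), (fun p => (b p + m) % (2 * m + 1) - m)) =
          b := by
        funext p
        unfold cmb
        simp only
        have := Int.emod_add_mul_ediv (b p + m) (2 * m + 1)
        linarith
      rw [this]
      exact h3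
  · intro q hq
    rw [Finset.mem_coe, Finset.mem_filter, Finset.mem_product, mem_Bo, mem_Bo] at hq
    obtain ⟨⟨⟨h1, h2⟩, ⟨h3, h4⟩⟩, h5⟩ := hq
    have key : ∀ p, (cmb m q p + m) / (2 * m + 1) = q.1 p ∧ (cmb m q p + m) % (2 * m + 1) - m = q.2 p := by
      intro p
      have e2 := abs_le.1 (h3 p)
      have e3 : cmb m q p + m = (q.2 p + m) + (2 * m + 1) * q.1 p := by unfold cmb; ring
      rw [e3, Int.add_mul_ediv_left _ _ hm0.ne', Int.add_mul_emod_self_left,
        Int.ediv_eq_zero_of_lt (by linarith [e2.1]) (by linarith [e2.2]),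
        Int.emod_eq_of_lt (by linarith [e2.1]) (by linarith [e2.2])]
      constructor <;> ring
    ext p
    · exact (key p).1
    · exact (key p).2
  · intro b _
    funext p
    unfold cmb
    simp only
    have := Int.emod_add_mul_ediv (b p + m) (2 * m + 1)
    linarith

open Classical in
lemma MP_refine {d : ℕ} (hd : 4 ≤ d) {u w : ℤ} {N : ℕ} (hN : 1 ≤ N)
    (h : N = max u.natAbs w.natAbs) (H m : ℕ) :
    |(MP d u w 0 ((2 * m + 1) * H + m) : ℝ) / (2 * (((2 * m + 1) * H + m : ℕ) : ℝ) + 1) ^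
        ((Jx d).card - 1) - (MP d u w 0 H : ℝ) / (2 * H + 1) ^ ((Jx d).card - 1)| ≤
      2 * (2 * (Jx d).card + 1) / (2 * H + 1) := by
  obtain ⟨n, hn⟩ : ∃ n, n = (Jx d).card := ⟨_, rfl⟩
  have hn2 : 2 ≤ n := by
    have h1 : (Jy d).card = n - 1 := by rw [hn]; exact card_Jy (by omega)
    have h2 : ((1, 0) : ℕ × ℕ) ∈ Jy d := by
      rw [mem_Jy]
      refine ⟨by simp, ?_⟩
      simp only; omega
    have h3 := Finset.card_pos.2 ⟨_, h2⟩
    omega
  have hcJ : (Jy d).card = n - 1 := by rw [hn]; exact card_Jy (by omega)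
  rw [← hn]
  obtain ⟨Y, hY⟩ : ∃ Y : ℝ, Y = (Ln d u w : ℝ) := ⟨_, rfl⟩
  have hY1 : 1 ≤ Y := by rw [hY]; exact_mod_cast Ln_pos hd hN h
  have hN0 : (0 : ℝ) < (N : ℝ) ^ (d - 1) := by
    have : (0 : ℝ) < N := by exact_mod_cast (by omega : 0 < N)
    positivity
  have hYN : Y / N ^ (d - 1) ≤ n := by
    rw [div_le_iff₀ hN0]
    have h1 := Ln_le hd hN h
    rw [hcJ] at h1
    have h2 : (Ln d u w : ℝ) ≤ ((n - 1 : ℕ) : ℝ) * (N : ℝ) ^ (d - 1) := by exact_mod_cast h1
    rw [hY]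
    refine h2.trans (mul_le_mul_of_nonneg_right ?_ hN0.le)
    exact_mod_cast Nat.sub_le n 1
  obtain ⟨a, ha⟩ : ∃ a : ℝ, a = MP d u w 0 H := ⟨_, rfl⟩
  obtain ⟨S, hS⟩ : ∃ S, S = (Bo (Jy d) H).filter (fun c => (H : ℝ) - Y ≤ |(Lc d u w c : ℝ)| ∧
    |(Lc d u w c : ℝ)| ≤ H + Y) := ⟨_, rfl⟩
  have hs := shell hd hN h H ((H : ℝ) - Y) (H + Y) (by linarith)
  rw [← hS, ← hn] at hs
  have e1 : (H + Y - (H - Y)) / (N : ℝ) ^ (d - 1) = 2 * (Y / N ^ (d - 1)) := by ring
  rw [e1] at hs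
  obtain ⟨s, hsd⟩ : ∃ s : ℝ, s = S.card := ⟨_, rfl⟩
  rw [← hsd] at hs
  obtain ⟨R, hR⟩ : ∃ R : ℝ, R = (2 * (m : ℝ) + 1) ^ (n - 1) := ⟨_, rfl⟩
  have hR0 : 0 < R := by rw [hR]; positivity
  have hBm : ((Bo (Jy d) m).card : ℝ) = R := by
    rw [card_Bo, hcJ, hR]
    push_cast
    ring
  have hm0 : (0 : ℝ) ≤ m := Nat.cast_nonneg _
  -- upper
  have hup : (MP d u w 0 ((2 * m + 1) * H + m) : ℝ) ≤ (a + s) * R := by
    rw [MP_cmb]
    have h1 : (Bo (Jy d) H ×ˢ Bo (Jy d) m).filter (fun q => |Lc d u w (cmb m q)| ≤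
      ((2 * m + 1) * H + m : ℕ)) ⊆
      (((Bo (Jy d) H).filter (fun c => |0 + Lc d u w c| ≤ H)) ∪ S) ×ˢ Bo (Jy d) m := by
      intro q hq
      rw [Finset.mem_filter, Finset.mem_product] at hq
      obtain ⟨⟨q1, q2⟩, q3⟩ := hq
      rw [Finset.mem_product]
      refine ⟨?_, q2⟩
      rw [Finset.mem_union, Finset.mem_filter, hS, Finset.mem_filter]
      by_cases h2 : |0 + Lc d u w q.1| ≤ H
      · exact Or.inl ⟨q1, h2⟩
      · refine Or.inr ⟨q1, ?_, ?_⟩
        · rw [zero_add] at h2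
          push Not at h2
          have h2' : (H : ℝ) < |(Lc d u w q.1 : ℝ)| := by exact_mod_cast h2
          linarith
        · rw [Lc_cmb] at q3
          have q3' : |(2 * (m : ℝ) + 1) * Lc d u w q.1 + Lc d u w q.2| ≤
              (2 * m + 1) * H + m := by exact_mod_cast q3
          have q4 := Lc_le (d := d) u w (mem_Bo.1 q2).1
          have q4' : |(Lc d u w q.2 : ℝ)| ≤ m * Y := by rw [hY]; exact_mod_cast q4
          have q5 : (2 * (m : ℝ) + 1) * |(Lc d u w q.1 : ℝ)| ≤ (2 * m + 1) * H + m + m * Y := by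
            have e : (2 * (m : ℝ) + 1) * |(Lc d u w q.1 : ℝ)| =
              |(2 * (m : ℝ) + 1) * Lc d u w q.1| := by
              rw [abs_mul, abs_of_pos (by positivity : (0 : ℝ) < 2 * m + 1)]
            have e' : (2 * (m : ℝ) + 1) * Lc d u w q.1 = ((2 * (m : ℝ) + 1) * Lc d u w q.1 +
              Lc d u w q.2) - Lc d u w q.2 := by ring
            rw [e, e']
            refine (abs_sub _ _).trans ?_
            linarith
          have q6 : (2 * (m : ℝ) + 1) * |(Lc d u w q.1 : ℝ)| ≤ (2 * m + 1) * (H + Y) := by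
            nlinarith
          exact le_of_mul_le_mul_left q6 (by positivity)
    have h2 := Finset.card_le_card h1
    rw [Finset.card_product] at h2
    have h3 := Nat.mul_le_mul_right (Bo (Jy d) m).card (Finset.card_union_le
      ((Bo (Jy d) H).filter (fun c => |0 + Lc d u w c| ≤ H)) S)
    have h4 := h2.trans h3
    rw [ha, hsd, ← hBm]
    unfold MP
    exact_mod_cast h4
  -- lower
  have hlow : (a - s) * R ≤ (MP d u w 0 ((2 * m + 1) * H + m) : ℝ) := by
    rw [MP_cmb]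
    obtain ⟨T, hT⟩ : ∃ T, T = (Bo (Jy d) H).filter (fun c => |(Lc d u w c : ℝ)| ≤ H - Y) :=
      ⟨_, rfl⟩
    have h1 : T ×ˢ Bo (Jy d) m ⊆ (Bo (Jy d) H ×ˢ Bo (Jy d) m).filter (fun q => |Lc d u w (cmb m q)| ≤
      ((2 * m + 1) * H + m : ℕ)) := by
      intro q hq
      rw [Finset.mem_product, hT, Finset.mem_filter] at hq
      obtain ⟨⟨q1, q2⟩, q3⟩ := hq
      rw [Finset.mem_filter, Finset.mem_product]
      refine ⟨⟨q1, q3⟩, ?_⟩
      rw [Lc_cmb]
      have q4 := Lc_le (d := d) u w (mem_Bo.1 q3).1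
      have q4' : |(Lc d u w q.2 : ℝ)| ≤ m * Y := by rw [hY]; exact_mod_cast q4
      have q5 : |(2 * (m : ℝ) + 1) * Lc d u w q.1 + Lc d u w q.2| ≤ (2 * m + 1) * H + m := by
        refine (abs_add_le _ _).trans ?_
        rw [abs_mul, abs_of_pos (by positivity : (0 : ℝ) < 2 * m + 1)]
        nlinarith
      exact_mod_cast q5
    have h2 := Finset.card_le_card h1
    rw [Finset.card_product] at h2
    have h3 : (Bo (Jy d) H).filter (fun c => |0 + Lc d u w c| ≤ H) ⊆ T ∪ S := by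
      intro c hc
      rw [Finset.mem_filter, zero_add] at hc
      have hc' : |(Lc d u w c : ℝ)| ≤ H := by exact_mod_cast hc.2
      rw [Finset.mem_union, hT, hS, Finset.mem_filter, Finset.mem_filter]
      rcases le_total |(Lc d u w c : ℝ)| (H - Y) with h4 | h4
      · exact Or.inl ⟨hc.1, h4⟩
      · exact Or.inr ⟨hc.1, h4, by linarith⟩
    have h4 := (Finset.card_le_card h3).trans (Finset.card_union_le _ _)
    have h5 : a ≤ T.card + s := by
      rw [ha, hsd]
      unfold MP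
      exact_mod_cast h4
    have h6 : (T.card : ℝ) * R ≤ (((Bo (Jy d) H ×ˢ Bo (Jy d) m).filter
        (fun q => |Lc d u w (cmb m q)| ≤ ((2 * m + 1) * H + m : ℕ))).card : ℝ) := by
      rw [← hBm]
      exact_mod_cast h2
    refine le_trans ?_ h6
    apply mul_le_mul_of_nonneg_right _ hR0.le
    linarith
  obtain ⟨Q, hQ⟩ : ∃ Q : ℝ, Q = (2 * (H : ℝ) + 1) ^ (n - 1) := ⟨_, rfl⟩
  have hQ0 : 0 < Q := by rw [hQ]; positivity
  have hQR : (2 * (((2 * m + 1) * H + m : ℕ) : ℝ) + 1) ^ (n - 1) = Q * R := by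
    rw [hQ, hR, ← mul_pow]
    congr 1
    push_cast
    ring
  rw [hQR, ← ha, ← hQ]
  have hsQ : s / Q ≤ 2 * (2 * n + 1) / (2 * H + 1) := by
    rw [div_le_iff₀ hQ0]
    have e2 : Q = (2 * (H : ℝ) + 1) * (2 * H + 1) ^ (n - 2) := by
      rw [hQ, ← pow_succ']
      congr 1
      omega
    rw [e2]
    have e3 : 2 * (2 * (n : ℝ) + 1) / (2 * H + 1) * ((2 * (H : ℝ) + 1) * (2 * H + 1) ^ (n - 2)) =
      2 * (2 * (n : ℝ) + 1) * (2 * H + 1) ^ (n - 2) := by
      field_simp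
    rw [e3]
    refine hs.trans ?_
    apply mul_le_mul_of_nonneg_right _ (by positivity)
    linarith
  have hd1 : (MP d u w 0 ((2 * m + 1) * H + m) : ℝ) / (Q * R) ≤ a / Q + s / Q := by
    rw [div_le_iff₀ (by positivity)]
    have : (a / Q + s / Q) * (Q * R) = (a + s) * R := by field_simp
    rw [this]
    exact hup
  have hd2 : a / Q - s / Q ≤ (MP d u w 0 ((2 * m + 1) * H + m) : ℝ) / (Q * R) := by
    rw [le_div_iff₀ (by positivity)]
    have : (a / Q - s / Q) * (Q * R) = (a - s) * R := by field_simp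
    rw [this]
    exact hlow
  rw [abs_le]
  constructor <;> linarith

end Pool.Agent.TH728.FX
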