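import Pool.Agent.TH728.FX.Asy

/-!
The polynomial at infinity: Lipschitz estimates, restriction to lines.
-/

open Polynomial

namespace Pool.Agent.TH728.FX

lemma ps_lip_s (A : ℤ[X]) (d : ℕ) (B : ℝ) (hB : 1 ≤ B) : ∃ K : ℝ, 1 ≤ K ∧
    ∀ β : ℕ × ℕ → ℝ, (∀ p, |β p| ≤ 1) → ∀ σ σ' t : ℝ, |σ| ≤ 1 → |σ'| ≤ 1 → |t| ≤ B →
      |Ps A d β σ t - Ps A d β σ' t| ≤ K * |σ - σ'| := by
  refine ⟨1 + (Jx d).card * (d * B ^ d), ?_, ?_⟩
  · have : 0 ≤ ((Jx d).card : ℝ) * (d * B ^ d) := by positivity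
    linarith
  · intro β hβ σ σ' t hσ hσ' ht
    have e : Ps A d β σ t - Ps A d β σ' t =
        ∑ p ∈ Jx d, β p * ((σ ^ (d - p.1 - p.2) - σ' ^ (d - p.1 - p.2)) * t ^ p.1) := by
      unfold Ps
      rw [add_sub_add_left_eq_sub, ← Finset.sum_sub_distrib]
      exact Finset.sum_congr rfl fun p _ => by ring
    rw [e]
    have h1 : |∑ p ∈ Jx d, β p * ((σ ^ (d - p.1 - p.2) - σ' ^ (d - p.1 - p.2)) * t ^ p.1)| ≤
        (Jx d).card * (d * |σ - σ'| * B ^ d) := by
      apply sum_bound hβ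
      intro p hp
      rw [mem_Jx] at hp
      rw [abs_mul, abs_pow]
      have h2 := pow_lip (le_refl (1 : ℝ)) hσ hσ' (d - p.1 - p.2)
      rw [one_pow, mul_one] at h2
      apply mul_le_mul _ _ (by positivity) (by positivity)
      · refine h2.trans (mul_le_mul_of_nonneg_right ?_ (abs_nonneg _))
        exact_mod_cast (by omega : d - p.1 - p.2 ≤ d)
      · exact (pow_le_pow_left₀ (abs_nonneg _) ht _).trans (pow_le_pow_right₀ hB (by omega))
    have h2 : 0 ≤ |σ - σ'| := abs_nonneg _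
    refine h1.trans ?_
    rw [add_mul]
    have : ((Jx d).card : ℝ) * (d * |σ - σ'| * B ^ d) = (Jx d).card * (d * B ^ d) * |σ - σ'| := by
      ring
    linarith

lemma ps_lip_t (A : ℤ[X]) (d : ℕ) (B : ℝ) (hB : 1 ≤ B) : ∃ K : ℝ, 1 ≤ K ∧
    ∀ β : ℕ × ℕ → ℝ, (∀ p, |β p| ≤ 1) → ∀ σ t t' θ : ℝ, |σ| ≤ 1 → |t| ≤ B → |t'| ≤ B → |θ| ≤ B →
      |Ps A d β σ t - Ps A d β σ t' - (derivative (Ar A)).eval θ * (t - t')| ≤
        K * (|σ| + |t - θ| + |t' - θ|) * |t - t'| := by
  obtain ⟨K₁, hK1, h1⟩ := poly_tay (Ar A) B hB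
  obtain ⟨K₂, hK2, h2⟩ := poly_lip (derivative (Ar A)) B hB
  refine ⟨K₁ + K₂ + (Jx d).card * (d * B ^ d), ?_, ?_⟩
  · have : 0 ≤ ((Jx d).card : ℝ) * (d * B ^ d) := by positivity
    linarith
  · intro β hβ σ t t' θ hσ ht ht' hθ
    have e : Ps A d β σ t - Ps A d β σ t' - (derivative (Ar A)).eval θ * (t - t') =
        ((Ar A).eval t - (Ar A).eval t' - (derivative (Ar A)).eval t' * (t - t')) +
        ((derivative (Ar A)).eval t' - (derivative (Ar A)).eval θ) * (t - t') +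
        ∑ p ∈ Jx d, β p * (σ ^ (d - p.1 - p.2) * (t ^ p.1 - t' ^ p.1)) := by
      unfold Ps
      have e1 : ∑ p ∈ Jx d, β p * (σ ^ (d - p.1 - p.2) * (t ^ p.1 - t' ^ p.1)) =
          ∑ p ∈ Jx d, β p * (σ ^ (d - p.1 - p.2) * t ^ p.1) -
          ∑ p ∈ Jx d, β p * (σ ^ (d - p.1 - p.2) * t' ^ p.1) := by
        rw [← Finset.sum_sub_distrib]
        exact Finset.sum_congr rfl fun p _ => by ring
      rw [e1]
      ring
    have f1 := h1 t t' ht ht'
    have f2 : |((derivative (Ar A)).eval t' - (derivative (Ar A)).eval θ) * (t - t')| ≤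
        K₂ * |t' - θ| * |t - t'| := by
      rw [abs_mul]
      exact mul_le_mul_of_nonneg_right (h2 t' θ ht' hθ) (abs_nonneg _)
    have f3 : |∑ p ∈ Jx d, β p * (σ ^ (d - p.1 - p.2) * (t ^ p.1 - t' ^ p.1))| ≤
        (Jx d).card * (|σ| * (d * B ^ d * |t - t'|)) := by
      apply sum_bound hβ
      intro p hp
      rw [mem_Jx] at hp
      rw [abs_mul, abs_pow]
      apply mul_le_mul _ _ (by positivity) (by positivity)
      · have := pow_le_pow_of_le_one (abs_nonneg σ) hσ (show 1 ≤ d - p.1 - p.2 by omega)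
        rwa [pow_one] at this
      · refine (pow_lip hB ht ht' p.1).trans (mul_le_mul_of_nonneg_right ?_ (abs_nonneg _))
        apply mul_le_mul _ (pow_le_pow_right₀ hB (by omega)) (by positivity) (by positivity)
        exact_mod_cast (by omega : p.1 ≤ d)
    have f4 : |t - t'| ≤ |t - θ| + |t' - θ| := by
      have := abs_sub (t - θ) (t' - θ)
      rwa [sub_sub_sub_cancel_right] at this
    rw [e]
    refine (abs_add_le _ _).trans ((add_le_add (abs_add_le _ _) le_rfl).trans ?_)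
    obtain ⟨D, hD⟩ : ∃ D, D = |t - t'| := ⟨_, rfl⟩
    obtain ⟨M, hM⟩ : ∃ M, M = |σ| + |t - θ| + |t' - θ| := ⟨_, rfl⟩
    rw [← hD] at f1 f2 f3 f4 ⊢
    rw [← hM]
    have hD0 : 0 ≤ D := by rw [hD]; exact abs_nonneg _
    have g0 : 0 ≤ |σ| := abs_nonneg _
    have g1 : 0 ≤ |t - θ| := abs_nonneg _
    have g2 : 0 ≤ |t' - θ| := abs_nonneg _
    have k1 : K₁ * D ^ 2 ≤ K₁ * (M * D) := by
      apply mul_le_mul_of_nonneg_left _ (by linarith)
      rw [pow_two]
      exact mul_le_mul_of_nonneg_right (by linarith) hD0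
    have k2 : K₂ * |t' - θ| * D ≤ K₂ * (M * D) := by
      rw [mul_assoc]
      apply mul_le_mul_of_nonneg_left _ (by linarith)
      exact mul_le_mul_of_nonneg_right (by linarith) hD0
    have k3 : ((Jx d).card : ℝ) * (|σ| * (d * B ^ d * D)) ≤
        (Jx d).card * (d * B ^ d) * (M * D) := by
      have k4 : |σ| * D ≤ M * D := mul_le_mul_of_nonneg_right (by linarith) hD0
      have k5 : 0 ≤ ((Jx d).card : ℝ) * (d * B ^ d) := by positivity
      calc ((Jx d).card : ℝ) * (|σ| * (d * B ^ d * D)) =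
          (Jx d).card * (d * B ^ d) * (|σ| * D) := by ring
        _ ≤ _ := mul_le_mul_of_nonneg_left k4 k5
    calc _ ≤ K₁ * (M * D) + K₂ * (M * D) + (Jx d).card * (d * B ^ d) * (M * D) := by
          linarith
      _ = _ := by ring

lemma Q2.zero {K : ℝ} (hK : 0 ≤ K) : Q2 (fun _ => 0) 0 0 0 K :=
  (Q2.const 0).mono (by rw [abs_zero]; exact hK)

lemma Q2.mulXpow {f : ℝ → ℝ} {q₀ q₁ q₂ K : ℝ} (h : Q2 f q₀ q₁ q₂ K) (k : ℕ) (hk : 1 ≤ k) :
    Q2 (fun s => s ^ k * f s) 0 (if k = 1 then q₀ else 0)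
      (if k = 1 then q₁ else if k = 2 then q₀ else 0) (4 ^ k * K) := by
  induction k with
  | zero => omega
  | succ k ih =>
    rcases Nat.eq_zero_or_pos k with rfl | hk0
    · refine (h.mulX.mono (le_of_eq (by ring))).congr (fun s => by ring) rfl (by simp) (by simp)
    · have h1 := (ih hk0).mulX
      refine (h1.mono (le_of_eq (by ring))).congr (fun s => by ring) rfl ?_ ?_
      · rw [if_neg (by omega)]
      · rw [if_neg (by omega)]
        by_cases h2 : k = 1
        · rw [if_pos (by omega), if_pos h2]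
        · rw [if_neg (by omega), if_neg h2]

lemma Q2.sum {ι : Type*} (s : Finset ι) {f : ι → ℝ → ℝ} {a b c K : ι → ℝ}
    (h : ∀ i ∈ s, Q2 (f i) (a i) (b i) (c i) (K i)) :
    Q2 (fun x => ∑ i ∈ s, f i x) (∑ i ∈ s, a i) (∑ i ∈ s, b i) (∑ i ∈ s, c i) (∑ i ∈ s, K i) := by
  classical
  induction s using Finset.induction_on with
  | empty =>
    simp only [Finset.sum_empty]
    exact Q2.zero le_rfl
  | insert i s hi ih =>
    have h1 := ih (fun j hj => h j (Finset.mem_insert_of_mem hj))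
    have h2 := h i (Finset.mem_insert_self i s)
    refine (h2.add h1).mono (le_of_eq ?_) |>.congr (fun x => ?_) ?_ ?_ ?_
    all_goals rw [Finset.sum_insert hi]

lemma ps_line (A : ℤ[X]) (d : ℕ) (B : ℝ) : ∃ K : ℝ, 1 ≤ K ∧
    ∀ β : ℕ × ℕ → ℝ, (∀ p, |β p| ≤ 1) → ∀ α b : ℝ, |α| ≤ B → |b| ≤ B →
      Q2 (fun s => Ps A d β s (α + b * s)) ((Ar A).eval α) (q1 A d β α b) (q2 A d β α b) K := by
  obtain ⟨K₀, hK0, h0⟩ := q2_poly (Ar A) B
  have hj : ∀ j : ℕ, ∃ K : ℝ, 1 ≤ K ∧ ∀ α β : ℝ, |α| ≤ B → |β| ≤ B →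
    Q2 (fun s => ((X : ℝ[X]) ^ j).eval (α + β * s)) (((X : ℝ[X]) ^ j).eval α)
      ((derivative ((X : ℝ[X]) ^ j)).eval α * β)
      ((derivative (derivative ((X : ℝ[X]) ^ j))).eval α / 2 * β ^ 2) K := fun j => q2_poly _ B
  choose Kj hKj1 hKj using hj
  refine ⟨K₀ + ∑ p ∈ Jx d, 4 ^ (d - p.1 - p.2) * Kj p.1, ?_, ?_⟩
  · have : 0 ≤ ∑ p ∈ Jx d, 4 ^ (d - p.1 - p.2) * Kj p.1 :=
      Finset.sum_nonneg fun p _ => mul_nonneg (by positivity) (by linarith [hKj1 p.1])
    linarith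
  · intro β hβ α b hα hb
    have h1 : ∀ p ∈ Jx d, Q2 (fun s => β p * (s ^ (d - p.1 - p.2) * (α + b * s) ^ p.1)) 0
        (β p * (if d - p.1 - p.2 = 1 then α ^ p.1 else 0))
        (β p * (if d - p.1 - p.2 = 1 then p.1 * α ^ (p.1 - 1) * b else
          if d - p.1 - p.2 = 2 then α ^ p.1 else 0)) (4 ^ (d - p.1 - p.2) * Kj p.1) := by
      intro p hp
      rw [mem_Jx] at hp
      have h2 := ((hKj p.1 α b hα hb).mulXpow (d - p.1 - p.2) (by omega)).smul (β p)
      have h3 : |β p| * (4 ^ (d - p.1 - p.2) * Kj p.1) ≤ 4 ^ (d - p.1 - p.2) * Kj p.1 := by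
        apply mul_le_of_le_one_left (mul_nonneg (by positivity) (by linarith [hKj1 p.1])) (hβ p)
      refine (h2.mono h3).congr (fun s => by rw [eval_pow, eval_X]) (by rw [mul_zero]) ?_ ?_
      · rw [eval_pow, eval_X]
      · rw [eval_pow, eval_X, derivative_X_pow, eval_mul, eval_pow, eval_X]
        simp
    have h2 := (h0 α b hα hb).add (Q2.sum (Jx d) h1)
    refine h2.congr (fun s => rfl) (by rw [Finset.sum_const_zero, add_zero]) ?_ ?_
    · rfl
    · unfold q2 G1' G2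
      congr 1
      rw [Finset.sum_mul, ← Finset.sum_add_distrib]
      apply Finset.sum_congr rfl
      intro p _
      by_cases h : d - p.1 - p.2 = 1
      · rw [if_pos h, if_pos h, if_neg (by omega)]
        ring
      · rw [if_neg h, if_neg h]
        ring

lemma g_lip (d : ℕ) (B : ℝ) (hB : 1 ≤ B) : ∃ K : ℝ, 1 ≤ K ∧
    ∀ β : ℕ × ℕ → ℝ, (∀ p, |β p| ≤ 1) → ∀ α θ : ℝ, |α| ≤ B → |θ| ≤ B →
      |G1 d β α - G1 d β θ| ≤ K * |α - θ| ∧ |G1' d β α - G1' d β θ| ≤ K * |α - θ| ∧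
      |G2 d β α - G2 d β θ| ≤ K * |α - θ| ∧ |G1 d β α| ≤ K ∧ |G1' d β α| ≤ K ∧ |G2 d β α| ≤ K := by
  obtain ⟨K, hK⟩ : ∃ K : ℝ, K = 1 + (Jx d).card * (d * (d * B ^ d)) + (Jx d).card * (d * B ^ d) +
    (Jx d).card * B ^ d := ⟨_, rfl⟩
  have k1 : (0 : ℝ) ≤ (Jx d).card * (d * (d * B ^ d)) := by positivity
  have k2 : (0 : ℝ) ≤ (Jx d).card * (d * B ^ d) := by positivity
  have k3 : (0 : ℝ) ≤ (Jx d).card * B ^ d := by positivity
  refine ⟨K, by linarith, ?_⟩
  intro β hβ α θ hα hθ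
  have hD : 0 ≤ |α - θ| := abs_nonneg _
  have hlip : ∀ n, n ≤ d → |α ^ n - θ ^ n| ≤ d * B ^ d * |α - θ| := by
    intro n hn
    refine (pow_lip hB hα hθ n).trans (mul_le_mul_of_nonneg_right ?_ hD)
    apply mul_le_mul _ (pow_le_pow_right₀ hB hn) (by positivity) (by positivity)
    exact_mod_cast hn
  have hbd : ∀ n, n ≤ d → |α ^ n| ≤ B ^ d := by
    intro n hn
    rw [abs_pow]
    exact (pow_le_pow_left₀ (abs_nonneg _) hα _).trans (pow_le_pow_right₀ hB hn)
  have hGs : ∀ m : ℕ, |∑ p ∈ Jx d, β p * (if d - p.1 - p.2 = m then α ^ p.1 else 0) -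
      ∑ p ∈ Jx d, β p * (if d - p.1 - p.2 = m then θ ^ p.1 else 0)| ≤
      (Jx d).card * (d * B ^ d * |α - θ|) := by
    intro m
    have e : ∑ p ∈ Jx d, β p * (if d - p.1 - p.2 = m then α ^ p.1 else 0) -
      ∑ p ∈ Jx d, β p * (if d - p.1 - p.2 = m then θ ^ p.1 else 0) =
      ∑ p ∈ Jx d, β p * (if d - p.1 - p.2 = m then α ^ p.1 - θ ^ p.1 else 0) := by
      rw [← Finset.sum_sub_distrib]
      apply Finset.sum_congr rfl
      intro p _
      split_ifs <;> ring
    rw [e]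
    apply sum_bound hβ
    intro p hp
    rw [mem_Jx] at hp
    split_ifs
    · exact hlip _ (by omega)
    · rw [abs_zero]; positivity
  have hGb : ∀ m : ℕ, |∑ p ∈ Jx d, β p * (if d - p.1 - p.2 = m then α ^ p.1 else 0)| ≤
      (Jx d).card * B ^ d := by
    intro m
    apply sum_bound hβ
    intro p hp
    rw [mem_Jx] at hp
    split_ifs
    · exact hbd _ (by omega)
    · rw [abs_zero]; positivity
  have e1 : (Jx d).card * (d * B ^ d * |α - θ|) ≤ K * |α - θ| := by
    have : ((Jx d).card : ℝ) * (d * B ^ d * |α - θ|) = (Jx d).card * (d * B ^ d) * |α - θ| := by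
      ring
    rw [this]
    exact mul_le_mul_of_nonneg_right (by linarith) hD
  refine ⟨(hGs 1).trans e1, ?_, (hGs 2).trans e1, (hGb 1).trans (by linarith), ?_,
    (hGb 2).trans (by linarith)⟩
  · have e : G1' d β α - G1' d β θ = ∑ p ∈ Jx d, β p * (if d - p.1 - p.2 = 1 then
        p.1 * (α ^ (p.1 - 1) - θ ^ (p.1 - 1)) else 0) := by
      unfold G1'
      rw [← Finset.sum_sub_distrib]
      apply Finset.sum_congr rfl
      intro p _
      split_ifs <;> ring
    rw [e]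
    have h1 : |∑ p ∈ Jx d, β p * (if d - p.1 - p.2 = 1 then
        (p.1 : ℝ) * (α ^ (p.1 - 1) - θ ^ (p.1 - 1)) else 0)| ≤
        (Jx d).card * (d * (d * B ^ d * |α - θ|)) := by
      apply sum_bound hβ
      intro p hp
      rw [mem_Jx] at hp
      split_ifs
      · rw [abs_mul, Nat.abs_cast]
        apply mul_le_mul _ (hlip _ (by omega)) (abs_nonneg _) (by positivity)
        exact_mod_cast (by omega : p.1 ≤ d)
      · rw [abs_zero]; positivity
    refine h1.trans ?_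
    have : ((Jx d).card : ℝ) * (d * (d * B ^ d * |α - θ|)) =
        (Jx d).card * (d * (d * B ^ d)) * |α - θ| := by ring
    rw [this]
    exact mul_le_mul_of_nonneg_right (by linarith) hD
  · have h1 : |G1' d β α| ≤ (Jx d).card * (d * B ^ d) := by
      apply sum_bound hβ
      intro p hp
      rw [mem_Jx] at hp
      split_ifs
      · rw [abs_mul, Nat.abs_cast]
        apply mul_le_mul _ (hbd _ (by omega)) (abs_nonneg _) (by positivity)
        exact_mod_cast (by omega : p.1 ≤ d)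
      · rw [abs_zero]; positivity
    linarith

lemma q_lip (A : ℤ[X]) (d : ℕ) (B : ℝ) (hB : 1 ≤ B) : ∃ K : ℝ, 1 ≤ K ∧
    ∀ β : ℕ × ℕ → ℝ, (∀ p, |β p| ≤ 1) → ∀ α b θ κ : ℝ, |α| ≤ B → |b| ≤ B → |θ| ≤ B → |κ| ≤ B →
      |q1 A d β α b - q1 A d β θ κ - (derivative (Ar A)).eval θ * (b - κ)| ≤ K * |α - θ| ∧
      |q2 A d β α b - q2 A d β θ κ| ≤ K * (|α - θ| + |b - κ|) := by
  obtain ⟨K₁, hK1, h1⟩ := poly_lip (derivative (Ar A)) B hB
  obtain ⟨K₂, hK2, h2⟩ := poly_lip (derivative (derivative (Ar A))) B hB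
  obtain ⟨K₃, hK3, h3⟩ := g_lip d B hB
  obtain ⟨K₄, hK4⟩ : ∃ K₄ : ℝ, K₄ = |(derivative (derivative (Ar A))).eval 0| + K₂ * B := ⟨_, rfl⟩
  have hK40 : 0 ≤ K₄ := by rw [hK4]; positivity
  have hb2 : ∀ α : ℝ, |α| ≤ B → |(derivative (derivative (Ar A))).eval α| ≤ K₄ := by
    intro α hα
    have e1 := h2 α 0 hα (by rw [abs_zero]; linarith)
    rw [sub_zero] at e1
    have e2 := abs_add_le ((derivative (derivative (Ar A))).eval α -
      (derivative (derivative (Ar A))).eval 0) ((derivative (derivative (Ar A))).eval 0)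
    rw [sub_add_cancel] at e2
    have e3 : K₂ * |α| ≤ K₂ * B := mul_le_mul_of_nonneg_left hα (by linarith)
    linarith
  refine ⟨K₁ * B + K₃ + (K₂ * B ^ 2 + K₄ * B + K₃ * B + K₃ + K₃), ?_, ?_⟩
  · have : 0 ≤ K₂ * B ^ 2 + K₄ * B + K₃ * B := by positivity
    have : 0 ≤ K₁ * B := by positivity
    linarith
  · intro β hβ α b θ κ hα hb hθ hκ
    obtain ⟨g1, g2, g3, g4, g5, g6⟩ := h3 β hβ α θ hα hθ
    obtain ⟨_, _, _, g7, g8, g9⟩ := h3 β hβ θ α hθ hα
    have hD : 0 ≤ |α - θ| := abs_nonneg _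
    have hE : 0 ≤ |b - κ| := abs_nonneg _
    have hR : 0 ≤ K₂ * B ^ 2 + K₄ * B + K₃ * B + K₃ + K₃ := by positivity
    have hR' : 0 ≤ K₁ * B := by positivity
    constructor
    · have e : q1 A d β α b - q1 A d β θ κ - (derivative (Ar A)).eval θ * (b - κ) =
          ((derivative (Ar A)).eval α - (derivative (Ar A)).eval θ) * b +
          (G1 d β α - G1 d β θ) := by
        unfold q1
        ring
      rw [e]
      refine (abs_add_le _ _).trans ?_
      rw [abs_mul]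
      have e1 : |(derivative (Ar A)).eval α - (derivative (Ar A)).eval θ| * |b| ≤
          K₁ * |α - θ| * B :=
        mul_le_mul (h1 α θ hα hθ) hb (abs_nonneg _) (by positivity)
      calc _ ≤ K₁ * |α - θ| * B + K₃ * |α - θ| := add_le_add e1 g1
        _ = (K₁ * B + K₃) * |α - θ| := by ring
        _ ≤ _ := mul_le_mul_of_nonneg_right (by linarith) hD
    · have e : q2 A d β α b - q2 A d β θ κ =
          ((derivative (derivative (Ar A))).eval α - (derivative (derivative (Ar A))).eval θ) / 2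
            * b ^ 2 + (derivative (derivative (Ar A))).eval θ / 2 * ((b - κ) * (b + κ)) +
          ((G1' d β α - G1' d β θ) * b + G1' d β θ * (b - κ)) + (G2 d β α - G2 d β θ) := by
        unfold q2
        ring
      rw [e]
      have e1 : |((derivative (derivative (Ar A))).eval α -
          (derivative (derivative (Ar A))).eval θ) / 2 * b ^ 2| ≤ K₂ * B ^ 2 * |α - θ| := by
        rw [abs_mul, abs_div, abs_pow]
        have f1 := h2 α θ hα hθ
        have f2 : |b| ^ 2 ≤ B ^ 2 := pow_le_pow_left₀ (abs_nonneg _) hb _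
        have f3 : |((derivative (derivative (Ar A))).eval α -
          (derivative (derivative (Ar A))).eval θ)| / |(2 : ℝ)| ≤ K₂ * |α - θ| := by
          rw [abs_of_pos (by norm_num : (0 : ℝ) < 2), div_le_iff₀ (by norm_num)]
          have : 0 ≤ K₂ * |α - θ| := by positivity
          linarith
        calc _ ≤ K₂ * |α - θ| * B ^ 2 := mul_le_mul f3 f2 (by positivity) (by positivity)
          _ = _ := by ring
      have e2 : |(derivative (derivative (Ar A))).eval θ / 2 * ((b - κ) * (b + κ))| ≤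
          K₄ * B * |b - κ| := by
        rw [abs_mul, abs_div, abs_mul, abs_of_pos (by norm_num : (0 : ℝ) < 2)]
        have f1 := hb2 θ hθ
        have f2 : |b + κ| ≤ 2 * B := (abs_add_le _ _).trans (by linarith)
        have f3 : |b - κ| * |b + κ| ≤ |b - κ| * (2 * B) := mul_le_mul_of_nonneg_left f2 hE
        calc _ ≤ K₄ / 2 * (|b - κ| * (2 * B)) :=
              mul_le_mul (div_le_div_of_nonneg_right f1 (by norm_num)) f3 (by positivity)
                (by positivity)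
          _ = _ := by ring
      have e3 : |(G1' d β α - G1' d β θ) * b + G1' d β θ * (b - κ)| ≤
          K₃ * B * |α - θ| + K₃ * |b - κ| := by
        refine (abs_add_le _ _).trans (add_le_add ?_ ?_)
        · rw [abs_mul]
          calc _ ≤ K₃ * |α - θ| * B := mul_le_mul g2 hb (abs_nonneg _) (by positivity)
            _ = _ := by ring
        · rw [abs_mul]
          exact mul_le_mul_of_nonneg_right g8 hE
      refine (abs_add_le _ _).trans ((add_le_add ((abs_add_le _ _).trans (add_le_add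
        ((abs_add_le _ _).trans (add_le_add e1 e2)) e3)) g3).trans ?_)
      have t1 : 0 ≤ K₁ * B * (|α - θ| + |b - κ|) := by positivity
      have t2 : 0 ≤ K₃ * (|α - θ| + |b - κ|) := by positivity
      have t3 : 0 ≤ K₂ * B ^ 2 * |b - κ| := by positivity
      have t4 : 0 ≤ K₄ * B * |α - θ| := by positivity
      have t5 : 0 ≤ K₃ * B * |b - κ| := by positivity
      have t6 : 0 ≤ K₃ * |b - κ| := by positivity
      have t7 : 0 ≤ K₃ * |α - θ| := by positivity
      nlinarith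

end Pool.Agent.TH728.FX
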