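import Pool.Agent.TH728.FX.Main

/-!
Transfer to polynomials in two variables.
-/

open Polynomial Finset

namespace Pool.Agent.TH728.FX

open Pool.Agent.H322R2 (Ix mem_Ix cf FM coeff_FM degree_fin2)

/-- the dehomogenised top form -/
noncomputable def dh (f : MvPolynomial (Fin 2) ℤ) : ℤ[X] := MvPolynomial.aeval ![X, 1] f

lemma hmg_dh {f : MvPolynomial (Fin 2) ℤ} {d : ℕ} (hf : f.IsHomogeneous d) :
    homogenize (dh f) d = f := homogenize_eq_of_isHomogeneous hf rfl

lemma coeff_dh {f : MvPolynomial (Fin 2) ℤ} {d : ℕ} (hf : f.IsHomogeneous d) (m : Fin 2 →₀ ℕ) :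
    f.coeff m = if m 0 + m 1 = d then (dh f).coeff (m 0) else 0 := by
  conv_lhs => rw [← hmg_dh hf]
  exact coeff_homogenize _ _ _

lemma dh_le {f : MvPolynomial (Fin 2) ℤ} {d : ℕ} (hf : f.IsHomogeneous d) :
    (dh f).natDegree ≤ d := by
  have := MvPolynomial.aeval_natDegree_le (n := 1) f (hf.totalDegree_le) ![(X : ℤ[X]), 1] (by
    intro i; fin_cases i <;> simp)
  rwa [mul_one] at this

lemma not_unit_hom {g : MvPolynomial (Fin 2) ℚ} {k : ℕ} (hk : 1 ≤ k) (hg : g.IsHomogeneous k) :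
    ¬ IsUnit g := by
  intro hu
  have h1 := hu.map (MvPolynomial.constantCoeff (σ := Fin 2) (R := ℚ))
  have h2 : MvPolynomial.constantCoeff g = 0 := by
    rw [MvPolynomial.constantCoeff_eq]
    by_contra h3
    have h4 := hg h3
    rw [Finsupp.weight_apply, Finsupp.sum_zero_index] at h4
    omega
  rw [h2] at h1
  exact not_isUnit_zero h1

lemma dh_deg {f : MvPolynomial (Fin 2) ℤ} {d : ℕ} (hd : 4 ≤ d) (hf : f.IsHomogeneous d)
    (hirr : Irreducible (MvPolynomial.map (Int.castRingHom ℚ) f)) : (dh f).natDegree = d := by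
  by_contra hne
  have h1 : (dh f).natDegree ≤ d - 1 := by
    have := dh_le hf
    omega
  have h2 : f = homogenize (dh f) (d - 1) * homogenize 1 1 := by
    rw [← homogenize_mul _ _ h1 (by simp), mul_one, show d - 1 + 1 = d by omega, hmg_dh hf]
  rw [h2, map_mul, ← homogenize_map, ← homogenize_map] at hirr
  rcases hirr.isUnit_or_isUnit rfl with h3 | h3
  · exact not_unit_hom (by omega) (isHomogeneous_homogenize _) h3
  · exact not_unit_hom le_rfl (isHomogeneous_homogenize _) h3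

lemma dh_irr {f : MvPolynomial (Fin 2) ℤ} {d : ℕ} (hd : 4 ≤ d) (hf : f.IsHomogeneous d)
    (hirr : Irreducible (MvPolynomial.map (Int.castRingHom ℚ) f)) :
    Irreducible ((dh f).map (Int.castRingHom ℚ)) := by
  have hdeg := dh_deg hd hf hirr
  obtain ⟨p, hp⟩ : ∃ p, p = (dh f).map (Int.castRingHom ℚ) := ⟨_, rfl⟩
  have hpd : p.natDegree = d := by
    rw [hp, natDegree_map_eq_of_injective (RingHom.injective_int _), hdeg]
  have hph : homogenize p d = MvPolynomial.map (Int.castRingHom ℚ) f := by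
    rw [hp, homogenize_map, hmg_dh hf]
  rw [← hp]
  rw [← hph] at hirr
  have hp0 : p ≠ 0 := by
    rintro h0
    rw [h0, natDegree_zero] at hpd
    omega
  constructor
  · intro hu
    have := natDegree_eq_zero_of_isUnit hu
    omega
  · intro P Q hPQ
    have hP : P ≠ 0 := by rintro rfl; rw [zero_mul] at hPQ; exact hp0 hPQ
    have hQ : Q ≠ 0 := by rintro rfl; rw [mul_zero] at hPQ; exact hp0 hPQ
    have h1 : P.natDegree + Q.natDegree = d := by
      rw [← natDegree_mul hP hQ, ← hPQ, hpd]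
    have h2 : homogenize p d = homogenize P P.natDegree * homogenize Q Q.natDegree := by
      rw [← homogenize_mul _ _ le_rfl le_rfl, ← hPQ, h1]
    have key : ∀ R : ℚ[X], IsUnit (homogenize R R.natDegree) → IsUnit R := by
      intro R hu
      have h3 := hu.map (MvPolynomial.aeval ![(X : ℚ[X]), 1] : MvPolynomial (Fin 2) ℚ →ₐ[ℚ] ℚ[X])
      rwa [aeval_homogenize_X_one _ le_rfl] at h3
    rcases hirr.isUnit_or_isUnit h2 with h3 | h3
    · exact Or.inl (key P h3)
    · exact Or.inr (key Q h3)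

/-- the polynomial with coefficients `b` -/
noncomputable def gB (d : ℕ) (b : ℕ × ℕ → ℤ) : MvPolynomial (Fin 2) ℤ :=
  FM (fun p : ↥(Ix d) => b p.1)

lemma coeff_gB {d H : ℕ} {b : ℕ × ℕ → ℤ} (hb : b ∈ Bo (Jx d) H) (m : Fin 2 →₀ ℕ) :
    (gB d b).coeff m = b (m 0, m 1) := by
  rw [gB, coeff_FM, cf]
  split_ifs with h
  · rfl
  · symm
    apply (mem_Bo.1 hb).2
    rw [mem_Jx]
    rw [mem_Ix] at h
    simp only at h ⊢
    omega

lemma add_gB {f : MvPolynomial (Fin 2) ℤ} {d H : ℕ} (hf : f.IsHomogeneous d) {b : ℕ × ℕ → ℤ}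
    (hb : b ∈ Bo (Jx d) H) : f + gB d b = FM (cv (dh f) d b) := by
  ext m
  rw [MvPolynomial.coeff_add, coeff_gB hb, coeff_FM, coeff_dh hf]
  rcases lt_trichotomy (m 0 + m 1) d with h | h | h
  · rw [if_neg h.ne, zero_add, cf_cv_low _ _ _ h]
  · rw [if_pos h, cf_cv_top _ _ _ h, (mem_Bo.1 hb).2, add_zero]
    rw [mem_Jx]
    simp only
    omega
  · rw [if_neg (by omega), zero_add, Pool.Agent.H322R2.cf_of_lt _ h]
    apply (mem_Bo.1 hb).2
    rw [mem_Jx]
    simp only
    omega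

/-- coefficients of a polynomial -/
noncomputable def cB (g : MvPolynomial (Fin 2) ℤ) : ℕ × ℕ → ℤ :=
  fun p => g.coeff (Finsupp.single 0 p.1 + Finsupp.single 1 p.2)

lemma single_add (m : Fin 2 →₀ ℕ) :
    (Finsupp.single 0 (m 0) + Finsupp.single 1 (m 1) : Fin 2 →₀ ℕ) = m := by
  ext i
  fin_cases i <;> simp

lemma cB_mem {g : MvPolynomial (Fin 2) ℤ} {d H : ℕ} (hg : g.totalDegree < d)
    (hH : ∀ n, |g.coeff n| ≤ (H : ℤ)) : cB g ∈ Bo (Jx d) H := by
  rw [mem_Bo]
  refine ⟨fun p => hH _, ?_⟩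
  intro p hp
  rw [mem_Jx] at hp
  by_contra hcon
  have h3 := MvPolynomial.le_totalDegree (MvPolynomial.mem_support_iff.2 hcon)
  have h4 : ∀ m : Fin 2 →₀ ℕ, (m.sum fun _ e => e) = m.degree := fun _ => rfl
  rw [h4, degree_fin2] at h3
  simp at h3
  omega

lemma gB_cB {g : MvPolynomial (Fin 2) ℤ} {d H : ℕ} (hg : g.totalDegree < d)
    (hH : ∀ n, |g.coeff n| ≤ (H : ℤ)) : gB d (cB g) = g := by
  ext m
  rw [coeff_gB (cB_mem hg hH), cB, single_add]

lemma gB_deg {d H : ℕ} (hd : 1 ≤ d) {b : ℕ × ℕ → ℤ} (hb : b ∈ Bo (Jx d) H) :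
    (gB d b).totalDegree < d := by
  have h1 : (gB d b).totalDegree ≤ d - 1 := by
    apply Finset.sup_le
    intro m hm
    rw [MvPolynomial.mem_support_iff, coeff_gB hb] at hm
    have h4 : (m.sum fun _ e => e) = m.degree := rfl
    rw [h4, degree_fin2]
    by_contra hcon
    push Not at hcon
    apply hm
    apply (mem_Bo.1 hb).2
    rw [mem_Jx]
    simp only
    omega
  omega

lemma gB_inj {d H : ℕ} : Set.InjOn (gB d) (Bo (Jx d) H : Set (ℕ × ℕ → ℤ)) := by
  intro b hb b' hb' h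
  rw [Finset.mem_coe] at hb hb'
  funext p
  have h1 := congrArg (MvPolynomial.coeff (Finsupp.single 0 p.1 + Finsupp.single 1 p.2)) h
  rw [coeff_gB hb, coeff_gB hb'] at h1
  simpa using h1

lemma card_Jx (d : ℕ) : (Jx d).card = d * (d + 1) / 2 := by
  rcases Nat.eq_zero_or_pos d with rfl | hd
  · simp [Jx]
  · have h1 : Jx d = Ix (d - 1) := by
      ext p
      rw [mem_Jx, mem_Ix]
      omega
    rw [h1, Pool.Agent.H322R2.card_Ix, show d - 1 + 1 = d by omega, show d - 1 + 2 = d + 1 by omega]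

open Classical in
lemma set_eq {d H : ℕ} (hd : 1 ≤ d) (P : MvPolynomial (Fin 2) ℤ → Prop) :
    Set.ncard {g : MvPolynomial (Fin 2) ℤ | g.totalDegree < d ∧ (∀ n, |g.coeff n| ≤ (H : ℤ)) ∧ P g} =
      ((Bo (Jx d) H).filter (fun b => P (gB d b))).card := by
  have h1 : {g : MvPolynomial (Fin 2) ℤ | g.totalDegree < d ∧ (∀ n, |g.coeff n| ≤ (H : ℤ)) ∧ P g} =
      (((Bo (Jx d) H).filter (fun b => P (gB d b))).image (gB d) :
        Finset (MvPolynomial (Fin 2) ℤ)) := by
    ext g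
    rw [Finset.mem_coe, Finset.mem_image, Set.mem_ofPred_eq]
    constructor
    · rintro ⟨h1, h2, h3⟩
      refine ⟨cB g, Finset.mem_filter.2 ⟨cB_mem h1 h2, ?_⟩, gB_cB h1 h2⟩
      rw [gB_cB h1 h2]
      exact h3
    · rintro ⟨b, hb, rfl⟩
      rw [Finset.mem_filter] at hb
      refine ⟨gB_deg hd hb.1, ?_, hb.2⟩
      intro n
      rw [coeff_gB hb.1]
      exact (mem_Bo.1 hb.1).1 _
  rw [h1, Set.ncard_coe_finset, Finset.card_image_of_injOn]
  exact gB_inj.mono (Finset.coe_subset.2 (Finset.filter_subset _ _))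

theorem mv_main (d : ℕ) (hd : 4 ≤ d) (f : MvPolynomial (Fin 2) ℤ) (hf : f.IsHomogeneous d)
    (hirr : Irreducible (MvPolynomial.map (Int.castRingHom ℚ) f)) :
    ∃ K : ℝ, 0 < K ∧ ∀ H : ℕ, 1 ≤ H →
      ((2 * H + 1) ^ (d * (d + 1) / 2) ≤ (2 * H + 1) * Set.ncard {g : MvPolynomial (Fin 2) ℤ |
        g.totalDegree < d ∧ (∀ n, |g.coeff n| ≤ (H : ℤ)) ∧
          ∃ x y : ℤ, MvPolynomial.eval ![x, y] (f + g) = 0}) ∧
      (Set.ncard {g : MvPolynomial (Fin 2) ℤ |
        g.totalDegree < d ∧ (∀ n, |g.coeff n| ≤ (H : ℤ)) ∧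
          ∃ x y : ℤ, MvPolynomial.eval ![x, y] (f + g) = 0} : ℝ) ≤
        K / H * (2 * H + 1) ^ (d * (d + 1) / 2) := by
  classical
  have hdeg := dh_deg hd hf hirr
  obtain ⟨K, hK, hmain⟩ := box_main (dh_irr hd hf hirr) (by rw [hdeg]; exact hd)
  rw [hdeg] at hmain
  refine ⟨K, by linarith, ?_⟩
  intro H hH
  have hH' : (1 : ℝ) ≤ H := by exact_mod_cast hH
  rw [set_eq (by omega), ← card_Jx]
  have hset : (Bo (Jx d) H).filter (fun b => ∃ x y : ℤ, MvPolynomial.eval ![x, y] (f + gB d b) = 0) =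
      (Bo (Jx d) H).filter (fun b => ∃ u w : ℤ, Vl (dh f) d b u w = 0) := by
    apply Finset.filter_congr
    intro b hb
    rw [add_gB hf hb]
    constructor
    · rintro ⟨x, y, h⟩
      exact ⟨y, x, by rw [← eval_cv]; exact h⟩
    · rintro ⟨u, w, h⟩
      exact ⟨w, u, by rw [eval_cv]; exact h⟩
  rw [hset]
  have hJ2 : 2 ≤ (Jx d).card := by
    have h4 := Finset.card_le_card (T1_sub d)
    rw [T1_card] at h4
    omega
  constructor
  · -- lower bound
    have h1 : (Bo (Jx d \ {(0, 0)}) H) ⊆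
        (Bo (Jx d) H).filter (fun b => ∃ u w : ℤ, Vl (dh f) d b u w = 0) := by
      intro b hb
      rw [mem_Bo] at hb
      have hb0 : b (0, 0) = 0 := hb.2 _ (by simp)
      rw [Finset.mem_filter, mem_Bo]
      refine ⟨⟨hb.1, fun p hp => hb.2 p (fun h => hp (Finset.mem_sdiff.1 h).1)⟩, 0, 0, ?_⟩
      unfold Vl
      have e1 : ∑ j ∈ Finset.range (d + 1), (dh f).coeff j * (0 : ℤ) ^ j * 0 ^ (d - j) = 0 := by
        apply Finset.sum_eq_zero
        intro j hj
        rw [Finset.mem_range] at hj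
        rcases Nat.eq_zero_or_pos j with rfl | hj0
        · rw [Nat.sub_zero, zero_pow (by omega : d ≠ 0), mul_zero]
        · rw [zero_pow (by omega), mul_zero, zero_mul]
      have e2 : ∑ p ∈ Jx d, b p * (0 : ℤ) ^ p.1 * 0 ^ p.2 = 0 := by
        apply Finset.sum_eq_zero
        intro p _
        rcases Nat.eq_zero_or_pos p.1 with h1 | h1
        · rcases Nat.eq_zero_or_pos p.2 with h2 | h2
          · have : p = (0, 0) := Prod.ext h1 h2
            rw [this, hb0]
            ring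
          · rw [zero_pow (by omega : p.2 ≠ 0), mul_zero]
        · rw [zero_pow (by omega : p.1 ≠ 0), mul_zero, zero_mul]
      rw [e1, e2, add_zero]
    have h2 := Finset.card_le_card h1
    rw [card_Bo, Finset.card_sdiff_of_subset (by
      intro p hp
      rw [Finset.mem_singleton] at hp
      rw [mem_Jx, hp]
      simp only
      omega), Finset.card_singleton] at h2
    calc (2 * H + 1) ^ (Jx d).card = (2 * H + 1) * (2 * H + 1) ^ ((Jx d).card - 1) := by
          rw [← pow_succ']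
          congr 1
          omega
      _ ≤ _ := Nat.mul_le_mul_left _ h2
  · refine (hmain H hH).trans ?_
    have e : (2 * (H : ℝ) + 1) ^ (Jx d).card = (2 * H + 1) * (2 * H + 1) ^ ((Jx d).card - 1) := by
      rw [← pow_succ']
      congr 1
      omega
    rw [e]
    have h2 : K * (2 * (H : ℝ) + 1) ^ ((Jx d).card - 1) ≤
        K * ((2 * H + 1) ^ ((Jx d).card - 1) * ((2 * H + 1) / H)) := by
      apply mul_le_mul_of_nonneg_left _ (by linarith)
      apply le_mul_of_one_le_right (by positivity)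
      rw [le_div_iff₀ (by linarith)]
      linarith
    refine h2.trans (le_of_eq ?_)
    ring

end Pool.Agent.TH728.FX
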