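import Pool.Agent.TH728.FX.Asym
import Pool.Agent.TH728.FX.MvT

/-!
Transfer of the asymptotic formula to polynomials in two variables.
-/

open Polynomial Finset

namespace Pool.Agent.TH728.FX

open Pool.Agent.H322R2 (Ix mem_Ix cf FM coeff_FM degree_fin2)

theorem mv_asym (d : ℕ) (hd : 5 ≤ d) (f : MvPolynomial (Fin 2) ℤ) (hf : f.IsHomogeneous d)
    (hirr : Irreducible (MvPolynomial.map (Int.castRingHom ℚ) f)) :
    ∃ K : ℝ, ∀ H : ℕ, 1 ≤ H →
      |(Set.ncard {g : MvPolynomial (Fin 2) ℤ |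
        g.totalDegree < d ∧ (∀ n, |g.coeff n| ≤ (H : ℤ)) ∧
          ∃ x y : ℤ, MvPolynomial.eval ![x, y] (f + g) = 0} : ℝ) /
        (2 * H + 1) ^ (d * (d + 1) / 2 - 1) - ∑' P : ℤ × ℤ, rho d P.1 P.2| ≤
        K * (1 / (H : ℝ) ^ (1 / 5 : ℝ)) := by
  classical
  have hdeg := dh_deg (by omega) hf hirr
  obtain ⟨K, hmain⟩ := asym_main (dh_irr (by omega) hf hirr) (by rw [hdeg]; exact hd)
  rw [hdeg] at hmain
  refine ⟨K, ?_⟩
  intro H hH
  rw [set_eq (by omega), ← card_Jx]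
  have hset : (Bo (Jx d) H).filter (fun b => ∃ x y : ℤ, MvPolynomial.eval ![x, y] (f + gB d b) = 0) =
      (Bo (Jx d) H).filter (fun b => ∃ u w : ℤ, Vl (dh f) d b u w = 0) := by
    apply Finset.filter_congr
    intro b hb
    rw [add_gB hf hb]
    constructor
    · rintro ⟨x, y, h⟩
      exact ⟨y, x, by rw [← eval_cv]; exact h⟩
    · rintro ⟨u, w, h⟩
      exact ⟨w, u, by rw [eval_cv]; exact h⟩
  rw [hset]
  exact hmain H hH

end Pool.Agent.TH728.FX
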