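import Pool.Agent.TH728.FX.Window

/-!
Counting the points near an asymptote at one scale.
-/

open Polynomial

namespace Pool.Agent.TH728.FX

lemma fourth_le {x y m K : ℝ} (hx : 0 ≤ x) (hy : 0 ≤ y) (hK : 1 ≤ K)
    (h : m ^ 4 ≤ K * (x ^ 4 + y ^ 4)) : m ≤ K * (x + y) := by
  have h1 : x ^ 4 + y ^ 4 ≤ (x + y) ^ 4 := by
    have e : (x + y) ^ 4 = x ^ 4 + y ^ 4 + (4 * x ^ 3 * y + 6 * x ^ 2 * y ^ 2 + 4 * x * y ^ 3) := by
      ring
    rw [e]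
    have : 0 ≤ 4 * x ^ 3 * y + 6 * x ^ 2 * y ^ 2 + 4 * x * y ^ 3 := by positivity
    linarith
  have h2 : m ^ 4 ≤ (K * (x + y)) ^ 4 := by
    rw [mul_pow]
    refine h.trans ?_
    apply mul_le_mul _ h1 (by positivity) (by positivity)
    exact le_self_pow₀ hK (by norm_num)
  by_contra hcon
  push Not at hcon
  have : (K * (x + y)) ^ 4 < m ^ 4 := pow_lt_pow_left₀ hcon (by positivity) (by norm_num)
  linarith

/-- number of points at one scale -/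
lemma scale_count {A : ℤ[X]} (hA : Irreducible (A.map (Int.castRingHom ℚ)))
    (hd : 4 ≤ A.natDegree) (K₀ : ℝ) (hK0 : 1 ≤ K₀) : ∃ C K : ℝ, 1 ≤ C ∧ 1 ≤ K ∧
      ∀ (b : ℕ × ℕ → ℤ) (H : ℕ), 1 ≤ H → b ∈ Bo (Jx A.natDegree) H → ∀ θ ∈ Rt A, ∀ M : ℝ,
        C * H ^ 3 ≤ M → 1 ≤ |gam A A.natDegree (rb b) θ| → ∀ S : Finset (ℤ × ℤ),
        (∀ P ∈ S, Pt A A.natDegree b H M θ K₀ P) → (S.card : ℝ) ≤ K * (H : ℝ) ^ (3 / 4 : ℝ) := by
  classical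
  obtain ⟨C, a, hC, ha, hgC, hwin⟩ := window_count hA hd K₀ hK0
  obtain ⟨c, hc⟩ : ∃ c : ℝ, c = 1 + 32 / a := ⟨_, rfl⟩
  have ha32 : 0 < 32 / a := by positivity
  have hc1 : 1 ≤ c := by linarith
  obtain ⟨K₂, hK2⟩ : ∃ K₂ : ℝ, K₂ = 17 * 512 ^ 2 := ⟨_, rfl⟩
  have hK21 : 1 ≤ K₂ := by rw [hK2]; norm_num
  refine ⟨C, 6 * c * (4 * K₂ + 2) * C ^ 4, hC, ?_, ?_⟩
  · have : 1 ≤ C ^ 4 := one_le_pow₀ hC
    have h1 : (1 : ℝ) ≤ 6 * c * (4 * K₂ + 2) := by nlinarith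
    nlinarith
  intro b H hH hb θ hθ M hM hg S hS
  have hH' : (1 : ℝ) ≤ H := by exact_mod_cast hH
  have hH0 : (0 : ℝ) < H := by linarith
  have hH3' : (1 : ℝ) ≤ (H : ℝ) ^ 3 := one_le_pow₀ hH'
  have hMpos : 0 < M := by nlinarith
  obtain ⟨g, hgdef⟩ : ∃ g, g = |gam A A.natDegree (rb b) θ| := ⟨_, rfl⟩
  rw [← hgdef] at hg
  have hgC2 := hgC b H hH hb θ hθ
  rw [← hgdef] at hgC2
  -- twelfth roots
  obtain ⟨h, hhdef⟩ : ∃ h : ℝ, h = (H : ℝ) ^ (1 / 12 : ℝ) := ⟨_, rfl⟩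
  obtain ⟨s, hsdef⟩ : ∃ s : ℝ, s = g ^ (1 / 12 : ℝ) := ⟨_, rfl⟩
  have hh12 : h ^ 12 = H := by
    rw [hhdef, ← Real.rpow_natCast, ← Real.rpow_mul hH0.le]
    norm_num
  have hh9 : h ^ 9 = (H : ℝ) ^ (3 / 4 : ℝ) := by
    rw [hhdef, ← Real.rpow_natCast, ← Real.rpow_mul hH0.le]
    norm_num
  have hs12 : s ^ 12 = g := by
    rw [hsdef, ← Real.rpow_natCast, ← Real.rpow_mul (by linarith)]
    norm_num
  have hh1 : 1 ≤ h := by rw [hhdef]; exact Real.one_le_rpow hH' (by norm_num)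
  have hs1 : 1 ≤ s := by rw [hsdef]; exact Real.one_le_rpow hg (by norm_num)
  have hsh : s ≤ C * h ^ 2 := by
    have h1 : s ^ 12 ≤ (C * h ^ 2) ^ 12 := by
      rw [hs12, mul_pow]
      have e : (h ^ 2) ^ 12 = (H : ℝ) ^ 2 := by rw [← hh12]; ring
      rw [e]
      refine hgC2.trans ?_
      apply mul_le_mul_of_nonneg_right _ (by positivity)
      exact le_self_pow₀ hC (by norm_num)
    by_contra hcon
    push Not at hcon
    have : (C * h ^ 2) ^ 12 < s ^ 12 := pow_lt_pow_left₀ hcon (by positivity) (by norm_num)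
    linarith
  -- the windows
  obtain ⟨W, hW⟩ : ∃ W : ℝ, W = c * s ^ 4 := ⟨_, rfl⟩
  have hs4 : 1 ≤ s ^ 4 := one_le_pow₀ hs1
  have hW1 : 1 ≤ W := by rw [hW]; nlinarith
  have hWa : 16 * (g + 1) ≤ a * W ^ 3 := by
    have h1 : W ^ 3 = c ^ 3 * g := by rw [hW, ← hs12]; ring
    have h2 : c ≤ c ^ 3 := le_self_pow₀ hc1 (by norm_num)
    have h3 : 32 ≤ a * c := by
      have : a * (32 / a) = 32 := by field_simp
      rw [hc]
      nlinarith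
    have h4 : a * c * g ≤ a * c ^ 3 * g := by
      apply mul_le_mul_of_nonneg_right _ (by linarith)
      exact mul_le_mul_of_nonneg_left h2 ha.le
    have h5 : 32 * g ≤ a * c * g := mul_le_mul_of_nonneg_right h3 (by linarith)
    rw [h1]
    linarith
  obtain ⟨x, hx⟩ : ∃ x : ℝ, x = h ^ 9 / s ^ 6 := ⟨_, rfl⟩
  obtain ⟨y, hy⟩ : ∃ y : ℝ, y = h ^ 6 / s ^ 3 := ⟨_, rfl⟩
  have hx0 : 0 ≤ x := by rw [hx]; positivity
  have hy0 : 0 ≤ y := by rw [hy]; positivity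
  have hs0 : 0 < s := by linarith
  have hTcard : ∀ T : Finset (ℤ × ℤ), T ⊆ S → (∀ P ∈ T, ∀ Q ∈ T, |(P.1 : ℝ) - Q.1| ≤ M / W) →
      (T.card : ℝ) ≤ 2 * (K₂ * (x + y)) + 2 := by
    intro T hTS hTW
    rcases Nat.eq_zero_or_pos T.card with h0 | h0
    · rw [h0]
      have : 0 ≤ K₂ * (x + y) := by positivity
      push_cast
      linarith
    · obtain ⟨m, hm⟩ : ∃ m, m = (T.card - 1) / 2 := ⟨_, rfl⟩
      have hm1 : 2 * m + 1 ≤ T.card := by omega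
      have hm2 : T.card ≤ 2 * m + 2 := by omega
      have h1 := hwin b H hH hb θ hθ M W g hM hW1 hgdef hg hWa T (fun P hP => hS P (hTS hP)) hTW m
        hm1
      rw [← hK2] at h1
      have h2 : (m : ℝ) ^ 4 ≤ K₂ * (x ^ 4 + y ^ 4) := by
        have h3 : (m : ℝ) ^ 4 * g ^ 2 ≤ K₂ * (x ^ 4 + y ^ 4) * g ^ 2 := by
          refine h1.trans (le_of_eq ?_)
          rw [← hs12, ← hh12, hx, hy]
          field_simp
        exact le_of_mul_le_mul_right h3 (by positivity)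
      have h3 := fourth_le hx0 hy0 hK21 h2
      have h4 : (T.card : ℝ) ≤ 2 * m + 2 := by exact_mod_cast hm2
      linarith
  obtain ⟨f, hf⟩ : ∃ f : ℤ × ℤ → ℤ, f = fun P => ⌊(P.1 : ℝ) * W / M⌋ := ⟨_, rfl⟩
  obtain ⟨n, hn⟩ : ∃ n : ℕ, n = ⌊2 * (K₂ * (x + y)) + 2⌋₊ := ⟨_, rfl⟩
  have hfib : ∀ k ∈ S.image f, (S.filter (fun P => f P = k)).card ≤ n := by
    intro k _
    rw [hn]
    apply Nat.le_floor
    apply hTcard _ (Finset.filter_subset _ _)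
    intro P hP Q hQ
    rw [Finset.mem_filter] at hP hQ
    have h1 : f P = f Q := by rw [hP.2, hQ.2]
    rw [hf] at h1
    have h2 := Int.abs_sub_lt_one_of_floor_eq_floor h1
    have h3 : (P.1 : ℝ) * W / M - Q.1 * W / M = ((P.1 : ℝ) - Q.1) * (W / M) := by ring
    rw [h3, abs_mul, abs_of_pos (show 0 < W / M by positivity)] at h2
    rw [le_div_iff₀ (by linarith)]
    have h4 : |(P.1 : ℝ) - Q.1| * (W / M) * M = |(P.1 : ℝ) - Q.1| * W := by field_simp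
    nlinarith
  have h1 : S.card ≤ n * (S.image f).card := Finset.card_le_mul_card_image _ _ hfib
  have h2 : ((S.image f).card : ℝ) ≤ 6 * W := by
    have h3 : S.image f ⊆ Finset.Icc ⌊-(2 * W)⌋ ⌊2 * W⌋ := by
      intro k hk
      rw [Finset.mem_image] at hk
      obtain ⟨P, hP, rfl⟩ := hk
      have h4 := (hS P hP).2.1
      have h5 : |(P.1 : ℝ) * W / M| ≤ 2 * W := by
        rw [abs_div, abs_mul, abs_of_pos hMpos, abs_of_pos (show 0 < W by linarith),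
          div_le_iff₀ hMpos]
        calc |(P.1 : ℝ)| * W ≤ 2 * M * W := mul_le_mul_of_nonneg_right h4 (by linarith)
          _ = _ := by ring
      rw [abs_le] at h5
      rw [Finset.mem_Icc, hf]
      exact ⟨Int.floor_le_floor h5.1, Int.floor_le_floor h5.2⟩
    have h4 := Finset.card_le_card h3
    rw [Int.card_Icc] at h4
    have h5 : ((⌊2 * W⌋ + 1 - ⌊-(2 * W)⌋).toNat : ℝ) ≤ 4 * W + 2 := by
      have h6 : (0 : ℤ) ≤ ⌊2 * W⌋ + 1 - ⌊-(2 * W)⌋ := by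
        have : ⌊-(2 * W)⌋ ≤ ⌊2 * W⌋ := Int.floor_le_floor (by linarith)
        omega
      have h7 : ((⌊2 * W⌋ + 1 - ⌊-(2 * W)⌋).toNat : ℝ) = ((⌊2 * W⌋ + 1 - ⌊-(2 * W)⌋ : ℤ) : ℝ) := by
        exact_mod_cast congrArg (Int.cast (R := ℝ)) (Int.toNat_of_nonneg h6)
      rw [h7]
      push_cast
      have h8 := Int.floor_le (2 * W)
      have h9 := Int.lt_floor_add_one (-(2 * W))
      linarith
    have h6 : ((S.image f).card : ℝ) ≤ ((⌊2 * W⌋ + 1 - ⌊-(2 * W)⌋).toNat : ℝ) := by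
      exact_mod_cast h4
    linarith
  have h3 : (n : ℝ) ≤ 2 * (K₂ * (x + y)) + 2 := by
    rw [hn]
    apply Nat.floor_le
    positivity
  have h4 : (S.card : ℝ) ≤ (2 * (K₂ * (x + y)) + 2) * (6 * W) := by
    have h5 : (S.card : ℝ) ≤ n * (S.image f).card := by exact_mod_cast h1
    refine h5.trans ?_
    apply mul_le_mul h3 h2 (by positivity) (by positivity)
  refine h4.trans ?_
  rw [← hh9, hW]
  -- final estimates
  have hC4 : C ≤ C ^ 4 := le_self_pow₀ hC (by norm_num)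
  have hC41 : 1 ≤ C ^ 4 := one_le_pow₀ hC
  have e1 : x * s ^ 4 ≤ C ^ 4 * h ^ 9 := by
    have : x * s ^ 4 = h ^ 9 / s ^ 2 := by rw [hx]; field_simp
    rw [this]
    have h5 : h ^ 9 / s ^ 2 ≤ h ^ 9 := div_le_self (by positivity) (one_le_pow₀ hs1)
    have h6 : 1 * h ^ 9 ≤ C ^ 4 * h ^ 9 := mul_le_mul_of_nonneg_right hC41 (by positivity)
    linarith
  have e2 : y * s ^ 4 ≤ C ^ 4 * h ^ 9 := by
    have : y * s ^ 4 = h ^ 6 * s := by rw [hy]; field_simp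
    rw [this]
    have h5 : h ^ 6 * s ≤ h ^ 6 * (C * h ^ 2) := mul_le_mul_of_nonneg_left hsh (by positivity)
    have h6 : h ^ 6 * (C * h ^ 2) = C * h ^ 8 := by ring
    have h7 : C * h ^ 8 ≤ C ^ 4 * h ^ 9 :=
      mul_le_mul hC4 (pow_le_pow_right₀ hh1 (by norm_num)) (by positivity) (by positivity)
    linarith
  have e3 : s ^ 4 ≤ C ^ 4 * h ^ 9 := by
    have h5 : s ^ 4 ≤ (C * h ^ 2) ^ 4 := pow_le_pow_left₀ hs0.le hsh 4
    have h6 : (C * h ^ 2) ^ 4 = C ^ 4 * h ^ 8 := by ring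
    have h7 : C ^ 4 * h ^ 8 ≤ C ^ 4 * h ^ 9 :=
      mul_le_mul_of_nonneg_left (pow_le_pow_right₀ hh1 (by norm_num)) (by positivity)
    linarith
  have e4 : (2 * (K₂ * (x + y)) + 2) * (6 * (c * s ^ 4)) =
      6 * c * (2 * K₂ * (x * s ^ 4) + 2 * K₂ * (y * s ^ 4) + 2 * s ^ 4) := by ring
  rw [e4]
  have e5 : 6 * c * (4 * K₂ + 2) * C ^ 4 * h ^ 9 =
      6 * c * (2 * K₂ * (C ^ 4 * h ^ 9) + 2 * K₂ * (C ^ 4 * h ^ 9) + 2 * (C ^ 4 * h ^ 9)) := by ring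
  rw [e5]
  apply mul_le_mul_of_nonneg_left _ (by positivity)
  have e6 : 2 * K₂ * (x * s ^ 4) ≤ 2 * K₂ * (C ^ 4 * h ^ 9) :=
    mul_le_mul_of_nonneg_left e1 (by positivity)
  have e7 : 2 * K₂ * (y * s ^ 4) ≤ 2 * K₂ * (C ^ 4 * h ^ 9) :=
    mul_le_mul_of_nonneg_left e2 (by positivity)
  linarith

end Pool.Agent.TH728.FX
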