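import Mathlib

/-!
Functions which are quadratic up to a cubic error, together with their divided differences.
-/

open Polynomial

namespace Pool.Agent.TH728.FX

lemma pow_lip {B x y : ℝ} (hB : 1 ≤ B) (hx : |x| ≤ B) (hy : |y| ≤ B) (n : ℕ) :
    |x ^ n - y ^ n| ≤ n * B ^ n * |x - y| := by
  induction n with
  | zero => simp
  | succ n ih =>
    have h1 : x ^ (n + 1) - y ^ (n + 1) = x * (x ^ n - y ^ n) + y ^ n * (x - y) := by ring
    rw [h1]
    refine (abs_add_le _ _).trans ?_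
    rw [abs_mul, abs_mul, abs_pow]
    have h2 : |y| ^ n ≤ B ^ n := pow_le_pow_left₀ (abs_nonneg _) hy _
    have h3 : B ^ n ≤ B ^ (n + 1) := pow_le_pow_right₀ hB (by omega)
    have h4 : 0 ≤ |x - y| := abs_nonneg _
    have h5 : |x| * |x ^ n - y ^ n| ≤ B * (n * B ^ n * |x - y|) :=
      mul_le_mul hx ih (abs_nonneg _) (by linarith)
    have h6 : |y| ^ n * |x - y| ≤ B ^ (n + 1) * |x - y| :=
      mul_le_mul_of_nonneg_right (h2.trans h3) h4
    push_cast
    calc |x| * |x ^ n - y ^ n| + |y| ^ n * |x - y|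
        ≤ B * (n * B ^ n * |x - y|) + B ^ (n + 1) * |x - y| := add_le_add h5 h6
      _ = ((n : ℝ) + 1) * B ^ (n + 1) * |x - y| := by ring

lemma pow_tay {B x y : ℝ} (hB : 1 ≤ B) (hx : |x| ≤ B) (hy : |y| ≤ B) (n : ℕ) :
    |x ^ n - y ^ n - n * y ^ (n - 1) * (x - y)| ≤ (n : ℝ) ^ 2 * B ^ n * |x - y| ^ 2 := by
  induction n with
  | zero => simp
  | succ n ih =>
    have h1 : x ^ (n + 1) - y ^ (n + 1) - ((n + 1 : ℕ) : ℝ) * y ^ (n + 1 - 1) * (x - y) =
        x * (x ^ n - y ^ n - n * y ^ (n - 1) * (x - y)) + n * y ^ (n - 1) * (x - y) ^ 2 := by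
      rcases Nat.eq_zero_or_pos n with rfl | hn
      · simp
      · obtain ⟨m, rfl⟩ : ∃ m, n = m + 1 := ⟨n - 1, by omega⟩
        have e1 : m + 1 + 1 - 1 = m + 1 := by omega
        have e2 : m + 1 - 1 = m := by omega
        rw [e1, e2]
        push_cast
        ring
    rw [h1]
    refine (abs_add_le _ _).trans ?_
    rw [abs_mul, abs_mul, abs_mul, abs_pow, abs_pow, Nat.abs_cast]
    have h2 : |y| ^ (n - 1) ≤ B ^ (n + 1) :=
      (pow_le_pow_left₀ (abs_nonneg _) hy _).trans (pow_le_pow_right₀ hB (by omega))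
    have h4 : 0 ≤ |x - y| ^ 2 := by positivity
    have h5 : |x| * |x ^ n - y ^ n - n * y ^ (n - 1) * (x - y)| ≤
        B * ((n : ℝ) ^ 2 * B ^ n * |x - y| ^ 2) :=
      mul_le_mul hx ih (abs_nonneg _) (by linarith)
    have h6 : (n : ℝ) * |y| ^ (n - 1) * |x - y| ^ 2 ≤ n * B ^ (n + 1) * |x - y| ^ 2 := by
      apply mul_le_mul_of_nonneg_right _ h4
      exact mul_le_mul_of_nonneg_left h2 (Nat.cast_nonneg _)
    have h7 : 0 ≤ B ^ (n + 1) * |x - y| ^ 2 := by positivity
    have h8 : (0 : ℝ) ≤ n := Nat.cast_nonneg _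
    push_cast
    calc |x| * |x ^ n - y ^ n - n * y ^ (n - 1) * (x - y)| + (n : ℝ) * |y| ^ (n - 1) * |x - y| ^ 2
        ≤ B * ((n : ℝ) ^ 2 * B ^ n * |x - y| ^ 2) + n * B ^ (n + 1) * |x - y| ^ 2 :=
          add_le_add h5 h6
      _ = ((n : ℝ) ^ 2 + n) * (B ^ (n + 1) * |x - y| ^ 2) := by ring
      _ ≤ ((n : ℝ) + 1) ^ 2 * (B ^ (n + 1) * |x - y| ^ 2) := by
          apply mul_le_mul_of_nonneg_right _ h7
          nlinarith
      _ = _ := by ring

lemma poly_lip (p : ℝ[X]) (B : ℝ) (hB : 1 ≤ B) : ∃ K : ℝ, 1 ≤ K ∧ ∀ x y : ℝ, |x| ≤ B → |y| ≤ B →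
    |p.eval x - p.eval y| ≤ K * |x - y| := by
  refine ⟨1 + ∑ n ∈ Finset.range (p.natDegree + 1), |p.coeff n| * (n * B ^ n), ?_, ?_⟩
  · have : 0 ≤ ∑ n ∈ Finset.range (p.natDegree + 1), |p.coeff n| * (n * B ^ n) :=
      Finset.sum_nonneg fun _ _ => by positivity
    linarith
  · intro x y hx hy
    rw [eval_eq_sum_range, eval_eq_sum_range, ← Finset.sum_sub_distrib]
    refine (Finset.abs_sum_le_sum_abs _ _).trans ?_
    rw [add_mul, Finset.sum_mul]
    have h1 : ∀ n ∈ Finset.range (p.natDegree + 1), |p.coeff n * x ^ n - p.coeff n * y ^ n| ≤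
        |p.coeff n| * (n * B ^ n) * |x - y| := by
      intro n _
      rw [← mul_sub, abs_mul, mul_assoc]
      exact mul_le_mul_of_nonneg_left (pow_lip hB hx hy n) (abs_nonneg _)
    have h2 := Finset.sum_le_sum h1
    have h3 : 0 ≤ |x - y| := abs_nonneg _
    linarith

lemma poly_tay (p : ℝ[X]) (B : ℝ) (hB : 1 ≤ B) : ∃ K : ℝ, 1 ≤ K ∧ ∀ x y : ℝ, |x| ≤ B → |y| ≤ B →
    |p.eval x - p.eval y - (derivative p).eval y * (x - y)| ≤ K * |x - y| ^ 2 := by
  refine ⟨1 + ∑ n ∈ Finset.range (p.natDegree + 1), |p.coeff n| * ((n : ℝ) ^ 2 * B ^ n), ?_, ?_⟩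
  · have : 0 ≤ ∑ n ∈ Finset.range (p.natDegree + 1), |p.coeff n| * ((n : ℝ) ^ 2 * B ^ n) :=
      Finset.sum_nonneg fun _ _ => by positivity
    linarith
  · intro x y hx hy
    have hder : (derivative p).eval y =
        ∑ n ∈ Finset.range (p.natDegree + 1), p.coeff n * (n * y ^ (n - 1)) := by
      rw [derivative_eval, sum_over_range]
      · exact Finset.sum_congr rfl fun n _ => by ring
      · intro n; simp
    rw [eval_eq_sum_range, eval_eq_sum_range, hder, Finset.sum_mul, ← Finset.sum_sub_distrib,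
      ← Finset.sum_sub_distrib]
    refine (Finset.abs_sum_le_sum_abs _ _).trans ?_
    rw [add_mul, Finset.sum_mul]
    have h1 : ∀ n ∈ Finset.range (p.natDegree + 1), |p.coeff n * x ^ n - p.coeff n * y ^ n -
        p.coeff n * (n * y ^ (n - 1)) * (x - y)| ≤
        |p.coeff n| * ((n : ℝ) ^ 2 * B ^ n) * |x - y| ^ 2 := by
      intro n _
      have e : p.coeff n * x ^ n - p.coeff n * y ^ n - p.coeff n * (n * y ^ (n - 1)) * (x - y) =
          p.coeff n * (x ^ n - y ^ n - n * y ^ (n - 1) * (x - y)) := by ring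
      rw [e, abs_mul]
      exact (mul_le_mul_of_nonneg_left (pow_tay hB hx hy n) (abs_nonneg _)).trans
        (le_of_eq (by ring))
    have h2 := Finset.sum_le_sum h1
    have h3 : 0 ≤ |x - y| ^ 2 := by positivity
    linarith

/-- `f` is `q₀ + q₁ s + q₂ s²` up to a cubic error, with its divided differences -/
structure Q2 (f : ℝ → ℝ) (q₀ q₁ q₂ K : ℝ) : Prop where
  h0 : f 0 = q₀
  b0 : |q₀| ≤ K
  b1 : |q₁| ≤ K
  b2 : |q₂| ≤ K
  d1 : ∀ r a b : ℝ, r ≤ 1 → |a| ≤ r → |b| ≤ r → |f a - f b - (a - b) * q₁| ≤ K * r * |a - b|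
  d2 : ∀ r a b c : ℝ, r ≤ 1 → |a| ≤ r → |b| ≤ r → |c| ≤ r →
    |f a * (b - c) + f b * (c - a) + f c * (a - b) + (a - b) * (b - c) * (c - a) * q₂| ≤
      K * r * |(a - b) * (b - c) * (c - a)|

lemma Q2.nonneg {f : ℝ → ℝ} {q₀ q₁ q₂ K : ℝ} (h : Q2 f q₀ q₁ q₂ K) : 0 ≤ K :=
  (abs_nonneg _).trans h.b0

lemma Q2.mono {f : ℝ → ℝ} {q₀ q₁ q₂ K K' : ℝ} (h : Q2 f q₀ q₁ q₂ K) (hK : K ≤ K') :
    Q2 f q₀ q₁ q₂ K' := by
  refine ⟨h.h0, h.b0.trans hK, h.b1.trans hK, h.b2.trans hK, ?_, ?_⟩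
  · intro r a b hr ha hb
    have hr0 : 0 ≤ r := (abs_nonneg a).trans ha
    refine (h.d1 r a b hr ha hb).trans ?_
    exact mul_le_mul_of_nonneg_right (mul_le_mul_of_nonneg_right hK hr0) (abs_nonneg _)
  · intro r a b c hr ha hb hc
    have hr0 : 0 ≤ r := (abs_nonneg a).trans ha
    refine (h.d2 r a b c hr ha hb hc).trans ?_
    exact mul_le_mul_of_nonneg_right (mul_le_mul_of_nonneg_right hK hr0) (abs_nonneg _)

lemma Q2.add {f g : ℝ → ℝ} {q₀ q₁ q₂ K p₀ p₁ p₂ L : ℝ} (h : Q2 f q₀ q₁ q₂ K)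
    (h' : Q2 g p₀ p₁ p₂ L) :
    Q2 (fun s => f s + g s) (q₀ + p₀) (q₁ + p₁) (q₂ + p₂) (K + L) := by
  refine ⟨by simp only [h.h0, h'.h0], (abs_add_le _ _).trans (add_le_add h.b0 h'.b0),
    (abs_add_le _ _).trans (add_le_add h.b1 h'.b1), (abs_add_le _ _).trans (add_le_add h.b2 h'.b2),
    ?_, ?_⟩
  · intro r a b hr ha hb
    have e : f a + g a - (f b + g b) - (a - b) * (q₁ + p₁) =
        (f a - f b - (a - b) * q₁) + (g a - g b - (a - b) * p₁) := by ring
    rw [e]
    refine (abs_add_le _ _).trans ((add_le_add (h.d1 r a b hr ha hb) (h'.d1 r a b hr ha hb)).trans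
      (le_of_eq ?_))
    ring
  · intro r a b c hr ha hb hc
    have e : (f a + g a) * (b - c) + (f b + g b) * (c - a) + (f c + g c) * (a - b) +
        (a - b) * (b - c) * (c - a) * (q₂ + p₂) =
        (f a * (b - c) + f b * (c - a) + f c * (a - b) + (a - b) * (b - c) * (c - a) * q₂) +
        (g a * (b - c) + g b * (c - a) + g c * (a - b) + (a - b) * (b - c) * (c - a) * p₂) := by
      ring
    rw [e]
    refine (abs_add_le _ _).trans ((add_le_add (h.d2 r a b c hr ha hb hc)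
      (h'.d2 r a b c hr ha hb hc)).trans (le_of_eq ?_))
    ring

lemma Q2.smul {f : ℝ → ℝ} {q₀ q₁ q₂ K : ℝ} (h : Q2 f q₀ q₁ q₂ K) (s : ℝ) :
    Q2 (fun x => s * f x) (s * q₀) (s * q₁) (s * q₂) (|s| * K) := by
  refine ⟨by simp only [h.h0], by rw [abs_mul]; exact mul_le_mul_of_nonneg_left h.b0 (abs_nonneg _),
    by rw [abs_mul]; exact mul_le_mul_of_nonneg_left h.b1 (abs_nonneg _),
    by rw [abs_mul]; exact mul_le_mul_of_nonneg_left h.b2 (abs_nonneg _), ?_, ?_⟩
  · intro r a b hr ha hb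
    have e : s * f a - s * f b - (a - b) * (s * q₁) = s * (f a - f b - (a - b) * q₁) := by ring
    rw [e, abs_mul]
    refine (mul_le_mul_of_nonneg_left (h.d1 r a b hr ha hb) (abs_nonneg _)).trans (le_of_eq ?_)
    ring
  · intro r a b c hr ha hb hc
    have e : s * f a * (b - c) + s * f b * (c - a) + s * f c * (a - b) +
        (a - b) * (b - c) * (c - a) * (s * q₂) =
        s * (f a * (b - c) + f b * (c - a) + f c * (a - b) + (a - b) * (b - c) * (c - a) * q₂) := by
      ring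
    rw [e, abs_mul]
    refine (mul_le_mul_of_nonneg_left (h.d2 r a b c hr ha hb hc) (abs_nonneg _)).trans (le_of_eq ?_)
    ring

lemma Q2.mulX {f : ℝ → ℝ} {q₀ q₁ q₂ K : ℝ} (h : Q2 f q₀ q₁ q₂ K) :
    Q2 (fun s => s * f s) 0 q₀ q₁ (4 * K) := by
  have hK := h.nonneg
  refine ⟨by simp, by rw [abs_zero]; linarith, by linarith [h.b0], by linarith [h.b1], ?_, ?_⟩
  · intro r a b hr ha hb
    have hr0 : 0 ≤ r := (abs_nonneg a).trans ha
    have e : a * f a - b * f b - (a - b) * q₀ = (a - b) * (f a - q₀) + b * (f a - f b) := by ring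
    rw [e]
    have h1 : |f a - q₀| ≤ 2 * K * r := by
      have h2 := h.d1 r a 0 hr ha (by rw [abs_zero]; exact hr0)
      rw [h.h0, sub_zero] at h2
      have h3 : |f a - q₀| ≤ |f a - q₀ - a * q₁| + |a * q₁| := by
        have := abs_add_le (f a - q₀ - a * q₁) (a * q₁)
        rwa [sub_add_cancel] at this
      have h4 : |a * q₁| ≤ r * K := by
        rw [abs_mul]
        exact mul_le_mul ha h.b1 (abs_nonneg _) hr0
      have h5 : K * r * |a| ≤ K * r * 1 :=
        mul_le_mul_of_nonneg_left (ha.trans hr) (mul_nonneg hK hr0)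
      linarith
    have h2 : |f a - f b| ≤ 2 * K * |a - b| := by
      have h3 := h.d1 r a b hr ha hb
      have h4 : |f a - f b| ≤ |f a - f b - (a - b) * q₁| + |(a - b) * q₁| := by
        have := abs_add_le (f a - f b - (a - b) * q₁) ((a - b) * q₁)
        rwa [sub_add_cancel] at this
      have h5 : |(a - b) * q₁| ≤ |a - b| * K := by
        rw [abs_mul]
        exact mul_le_mul_of_nonneg_left h.b1 (abs_nonneg _)
      have h6 : K * r * |a - b| ≤ K * 1 * |a - b| :=
        mul_le_mul_of_nonneg_right (mul_le_mul_of_nonneg_left hr hK) (abs_nonneg _)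
      linarith
    refine (abs_add_le _ _).trans ?_
    rw [abs_mul, abs_mul]
    have h3 : |a - b| * |f a - q₀| ≤ |a - b| * (2 * K * r) :=
      mul_le_mul_of_nonneg_left h1 (abs_nonneg _)
    have h4 : |b| * |f a - f b| ≤ r * (2 * K * |a - b|) :=
      mul_le_mul hb h2 (abs_nonneg _) hr0
    calc _ ≤ |a - b| * (2 * K * r) + r * (2 * K * |a - b|) := add_le_add h3 h4
      _ = _ := by ring
  · intro r a b c hr ha hb hc
    have hr0 : 0 ≤ r := (abs_nonneg a).trans ha
    have e : a * f a * (b - c) + b * f b * (c - a) + c * f c * (a - b) +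
        (a - b) * (b - c) * (c - a) * q₁ =
        a * (f a * (b - c) + f b * (c - a) + f c * (a - b) + (a - b) * (b - c) * (c - a) * q₂)
          - a * ((a - b) * (b - c) * (c - a) * q₂)
          - (a - b) * (c - a) * (f b - f c - (b - c) * q₁) := by ring
    rw [e]
    have h1 := h.d2 r a b c hr ha hb hc
    have h2 := h.d1 r b c hr hb hc
    obtain ⟨V, hV⟩ : ∃ V, V = (a - b) * (b - c) * (c - a) := ⟨_, rfl⟩
    rw [← hV] at h1 ⊢
    have hVn : 0 ≤ |V| := abs_nonneg _
    have e1 : |a * (f a * (b - c) + f b * (c - a) + f c * (a - b) + V * q₂)| ≤ r * (K * r * |V|) := by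
      rw [abs_mul]
      exact mul_le_mul ha h1 (abs_nonneg _) hr0
    have e2 : |a * (V * q₂)| ≤ r * (|V| * K) := by
      rw [abs_mul, abs_mul]
      exact mul_le_mul ha (mul_le_mul_of_nonneg_left h.b2 hVn) (by positivity) hr0
    have e3 : |(a - b) * (c - a) * (f b - f c - (b - c) * q₁)| ≤ K * r * |V| := by
      rw [abs_mul]
      refine (mul_le_mul_of_nonneg_left h2 (abs_nonneg _)).trans (le_of_eq ?_)
      rw [hV, abs_mul, abs_mul, abs_mul]
      ring
    have e4 : r * (K * r * |V|) ≤ 1 * (K * r * |V|) :=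
      mul_le_mul_of_nonneg_right hr (mul_nonneg (mul_nonneg hK hr0) hVn)
    have h3 : 0 ≤ K * r * |V| := mul_nonneg (mul_nonneg hK hr0) hVn
    refine (abs_sub _ _).trans ?_
    refine (add_le_add (abs_sub _ _) le_rfl).trans ?_
    linarith

lemma Q2.const (s : ℝ) : Q2 (fun _ => s) s 0 0 |s| := by
  refine ⟨rfl, le_rfl, by simp, by simp, ?_, ?_⟩
  · intro r a b _ ha _
    have hr0 : 0 ≤ r := (abs_nonneg a).trans ha
    simp only [sub_self, mul_zero, abs_zero]
    positivity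
  · intro r a b c _ ha _ _
    have hr0 : 0 ≤ r := (abs_nonneg a).trans ha
    have e : s * (b - c) + s * (c - a) + s * (a - b) + (a - b) * (b - c) * (c - a) * 0 = 0 := by
      ring
    rw [e, abs_zero]
    positivity

lemma Q2.congr {f g : ℝ → ℝ} {q₀ q₁ q₂ K p₀ p₁ p₂ : ℝ} (h : Q2 f q₀ q₁ q₂ K)
    (hf : ∀ s, g s = f s) (e0 : p₀ = q₀) (e1 : p₁ = q₁) (e2 : p₂ = q₂) : Q2 g p₀ p₁ p₂ K := by
  have : g = f := funext hf
  rw [this, e0, e1, e2]
  exact h

lemma Q2.mulLin {f : ℝ → ℝ} {q₀ q₁ q₂ K α β B : ℝ} (h : Q2 f q₀ q₁ q₂ K) (hα : |α| ≤ B)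
    (hβ : |β| ≤ B) :
    Q2 (fun s => (α + β * s) * f s) (α * q₀) (α * q₁ + β * q₀) (α * q₂ + β * q₁) (5 * B * K) := by
  have h1 := (h.smul α).add ((h.mulX).smul β)
  have hK := h.nonneg
  refine (h1.congr (g := fun s => (α + β * s) * f s) (fun s => by ring) (by ring) rfl rfl).mono ?_
  have e1 : |α| * K ≤ B * K := mul_le_mul_of_nonneg_right hα hK
  have e2 : |β| * (4 * K) ≤ B * (4 * K) := mul_le_mul_of_nonneg_right hβ (by linarith)
  linarith

lemma q2_poly (p : ℝ[X]) (B : ℝ) : ∃ K : ℝ, 1 ≤ K ∧ ∀ α β : ℝ, |α| ≤ B → |β| ≤ B →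
    Q2 (fun s => p.eval (α + β * s)) (p.eval α) ((derivative p).eval α * β)
      ((derivative (derivative p)).eval α / 2 * β ^ 2) K := by
  induction p using Polynomial.induction_on' with
  | add p q hp hq =>
    obtain ⟨K, hK, h⟩ := hp
    obtain ⟨L, hL, h'⟩ := hq
    refine ⟨K + L, by linarith, fun α β hα hβ => ?_⟩
    refine ((h α β hα hβ).add (h' α β hα hβ)).congr (fun s => by rw [eval_add]) (by rw [eval_add])
      (by rw [derivative_add, eval_add]; ring) (by
        rw [derivative_add, derivative_add, eval_add]; ring)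
  | monomial n a =>
    induction n with
    | zero =>
      refine ⟨1 + |a|, by linarith [abs_nonneg a], fun α β _ _ => ?_⟩
      refine ((Q2.const a).mono (by linarith)).congr (fun s => by simp) (by simp) (by simp)
        (by simp)
    | succ n ih =>
      obtain ⟨K, hK, h⟩ := ih
      refine ⟨1 + 5 * |B| * K, by
        have : 0 ≤ 5 * |B| * K := by positivity
        linarith, fun α β hα hβ => ?_⟩
      have hB : 0 ≤ B := (abs_nonneg α).trans hα
      have h1 := (h α β hα hβ).mulLin hα hβ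
      have hX : (monomial (n + 1) a : ℝ[X]) = X * monomial n a := by
        rw [mul_comm, ← monomial_mul_X]
      have hd : derivative (X * monomial n a : ℝ[X]) = monomial n a + X * derivative (monomial n a) := by
        rw [derivative_mul, derivative_X, one_mul]
      have hdd : derivative (derivative (X * monomial n a : ℝ[X])) =
          2 * derivative (monomial n a) + X * derivative (derivative (monomial n a)) := by
        rw [hd, derivative_add, derivative_mul, derivative_X, one_mul]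
        ring
      refine (h1.mono (by rw [abs_of_nonneg hB]; linarith)).congr (fun s => ?_) ?_ ?_ ?_
      · rw [hX, eval_mul, eval_X]
      · rw [hX, eval_mul, eval_X]
      · rw [hX, hd, eval_add, eval_mul, eval_X]
        ring
      · rw [hX, hdd, eval_add, eval_mul, eval_mul, eval_X]
        simp only [eval_ofNat]
        ring

end Pool.Agent.TH728.FX
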