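import Pool.Agent.TH728.FX.RangeC

/-!
Curves with an integer point of intermediate size.
-/

open Polynomial

namespace Pool.Agent.TH728.FX

/-- telescoping step -/
lemma tele_step {r x : ℝ} (hr : 0 < r) (hr1 : r ≤ 1) (hx : 2 ≤ x) :
    r * (1 / (x * x ^ r)) ≤ 1 / (x - 1) ^ r - 1 / x ^ r := by
  have hx0 : 0 < x := by linarith
  have h1 := rpow_one_add_le_one_add_mul_self (s := -(1 / x)) (p := r) (by
    have : 1 / x ≤ 1 := by rw [div_le_one hx0]; linarith
    linarith) hr.le hr1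
  have h2 : (x - 1) ^ r = x ^ r * (1 + -(1 / x)) ^ r := by
    rw [← Real.mul_rpow hx0.le]
    · congr 1
      field_simp
      ring
    · have : 1 / x ≤ 1 := by rw [div_le_one hx0]; linarith
      linarith
  obtain ⟨p, hp⟩ : ∃ p, p = x ^ r := ⟨_, rfl⟩
  obtain ⟨q, hq⟩ : ∃ q, q = (x - 1) ^ r := ⟨_, rfl⟩
  have hp0 : 0 < p := by rw [hp]; exact Real.rpow_pos_of_pos hx0 _
  have hq0 : 0 < q := by rw [hq]; exact Real.rpow_pos_of_pos (by linarith) _
  have hqp : q ≤ p * (1 - r / x) := by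
    rw [hq, h2, ← hp]
    apply mul_le_mul_of_nonneg_left _ hp0.le
    refine h1.trans (le_of_eq ?_)
    ring
  rw [← hp, ← hq]
  have hqp' : q ≤ p := by
    refine hqp.trans ?_
    have : 0 ≤ r / x := by positivity
    nlinarith
  rw [div_sub_div _ _ hq0.ne' hp0.ne', mul_one_div, div_le_div_iff₀ (by positivity) (by positivity)]
  have h3 : p * (r / x) ≤ p - q := by nlinarith
  have h4 : p * r ≤ (p - q) * x := by
    have h5 : p * (r / x) * x = p * r := by field_simp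
    rw [← h5]
    exact mul_le_mul_of_nonneg_right h3 hx0.le
  have h5 : q * (p * r) ≤ p * ((p - q) * x) := by
    have h6 : q * (p * r) ≤ p * (p * r) := mul_le_mul_of_nonneg_right hqp' (by positivity)
    have h7 : p * (p * r) ≤ p * ((p - q) * x) := mul_le_mul_of_nonneg_left h4 hp0.le
    linarith
  linarith

lemma tele {r : ℝ} (hr : 0 < r) (hr1 : r ≤ 1) {m : ℕ} (hm : 1 ≤ m) (n : ℕ) (hmn : m ≤ n) :
    r * ∑ k ∈ Finset.Icc (m + 1) n, 1 / ((k : ℝ) * (k : ℝ) ^ r) ≤ 1 / (m : ℝ) ^ r - 1 / (n : ℝ) ^ r := by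
  induction n, hmn using Nat.le_induction with
  | base => simp
  | succ n hmn ih =>
    rw [Finset.sum_Icc_succ_top (by omega), mul_add]
    have h1 : (2 : ℝ) ≤ ((n + 1 : ℕ) : ℝ) := by
      have : 2 ≤ n + 1 := by omega
      exact_mod_cast this
    have h2 := tele_step hr hr1 h1
    have h3 : (((n + 1 : ℕ) : ℝ) - 1) = n := by push_cast; ring
    rw [h3] at h2
    linarith

/-- top part -/
def T1 (d : ℕ) : Finset (ℕ × ℕ) := (Finset.range d).image (fun j => (j, d - 1 - j))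

/-- bottom part -/
def T2 (d : ℕ) : Finset (ℕ × ℕ) := insert (1, 0) ((Finset.range (d - 1)).image (fun i => (0, i)))

lemma T1_card (d : ℕ) : (T1 d).card = d := by
  unfold T1
  rw [Finset.card_image_of_injOn, Finset.card_range]
  intro i _ j _ h
  exact (Prod.mk.inj h).1

lemma T2_card {d : ℕ} (hd : 1 ≤ d) : (T2 d).card = d := by
  unfold T2
  rw [Finset.card_insert_of_notMem, Finset.card_image_of_injOn, Finset.card_range]
  · omega
  · intro i _ j _ h
    exact (Prod.mk.inj h).2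
  · intro h
    rw [Finset.mem_image] at h
    obtain ⟨i, _, h⟩ := h
    exact absurd (Prod.mk.inj h).1 (by norm_num)

lemma T1_sub (d : ℕ) : T1 d ⊆ Jx d := by
  intro p hp
  obtain ⟨j, hj, rfl⟩ := Finset.mem_image.1 hp
  rw [Finset.mem_range] at hj
  rw [mem_Jx]
  simp only
  omega

lemma T2_sub {d : ℕ} (hd : 2 ≤ d) : T2 d ⊆ Jx d := by
  intro p hp
  unfold T2 at hp
  rw [Finset.mem_insert, Finset.mem_image] at hp
  rw [mem_Jx]
  rcases hp with rfl | ⟨i, hi, rfl⟩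
  · simp only; omega
  · rw [Finset.mem_range] at hi
    simp only; omega

lemma T12_disj {d : ℕ} (hd : 3 ≤ d) : Disjoint (T1 d) (T2 d) := by
  rw [Finset.disjoint_left]
  intro p hp hp'
  obtain ⟨j, hj, rfl⟩ := Finset.mem_image.1 hp
  rw [Finset.mem_range] at hj
  unfold T2 at hp'
  rw [Finset.mem_insert, Finset.mem_image] at hp'
  rcases hp' with h | ⟨i, hi, h⟩
  · have h1 := (Prod.mk.inj h).1
    have h2 := (Prod.mk.inj h).2
    omega
  · rw [Finset.mem_range] at hi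
    have h1 := (Prod.mk.inj h).1
    have h2 := (Prod.mk.inj h).2
    omega

lemma G1_eq (d : ℕ) (β : ℕ × ℕ → ℝ) (t : ℝ) :
    G1 d β t = ∑ j ∈ Finset.range d, β (j, d - 1 - j) * t ^ j := by
  unfold G1
  rw [← Finset.sum_subset (T1_sub d)]
  · unfold T1
    rw [Finset.sum_image (fun i _ j _ h => (Prod.mk.inj h).1)]
    apply Finset.sum_congr rfl
    intro j hj
    rw [Finset.mem_range] at hj
    rw [if_pos]
    simp only
    omega
  · intro p hp hp'
    rw [mem_Jx] at hp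
    rw [if_neg, mul_zero]
    intro h
    apply hp'
    unfold T1
    rw [Finset.mem_image]
    refine ⟨p.1, Finset.mem_range.2 (by omega), ?_⟩
    ext
    · rfl
    · simp only; omega

lemma G1_sep {A : ℤ[X]} (hA : Irreducible (A.map (Int.castRingHom ℚ))) :
    ∃ c : ℝ, 0 < c ∧ ∀ (b b' : ℕ × ℕ → ℤ) (H : ℕ), 1 ≤ H → (∀ p, |b p| ≤ H) → (∀ p, |b' p| ≤ H) →
      (∃ j < A.natDegree, b (j, A.natDegree - 1 - j) ≠ b' (j, A.natDegree - 1 - j)) →
      ∀ θ ∈ Rt A, c / (2 * (H : ℝ)) ^ (A.natDegree - 1) ≤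
        |G1 A.natDegree (rb b) θ - G1 A.natDegree (rb b') θ| := by
  obtain ⟨c, hc, hsep⟩ := sep_root hA
  refine ⟨c, hc, ?_⟩
  rintro b b' H hH hb hb' ⟨j, hj, hne⟩ θ hθ
  obtain ⟨d, hd⟩ : ∃ d, d = A.natDegree := ⟨_, rfl⟩
  rw [← hd] at hj hne ⊢
  have hH' : (1 : ℝ) ≤ H := by exact_mod_cast hH
  obtain ⟨e, he⟩ : ∃ e : ℤ[X], e = ∑ i ∈ Finset.range d,
    Polynomial.C (b (i, d - 1 - i) - b' (i, d - 1 - i)) * X ^ i := ⟨_, rfl⟩
  have hcoef : ∀ i, e.coeff i = if i < d then b (i, d - 1 - i) - b' (i, d - 1 - i) else 0 := by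
    intro i
    rw [he, finsetSum_coeff]
    simp only [coeff_C_mul, coeff_X_pow]
    by_cases hi : i < d
    · rw [if_pos hi, Finset.sum_eq_single i]
      · simp
      · intro k _ hk
        rw [if_neg (Ne.symm hk), mul_zero]
      · intro h
        exact absurd (Finset.mem_range.2 hi) h
    · rw [if_neg hi]
      apply Finset.sum_eq_zero
      intro k hk
      rw [Finset.mem_range] at hk
      rw [if_neg (by omega), mul_zero]
  have hne0 : e ≠ 0 := by
    intro h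
    have := hcoef j
    rw [h, coeff_zero, if_pos hj] at this
    apply hne
    linarith
  have hdeg : e.natDegree < A.natDegree := by
    rw [← hd]
    by_contra hcon
    push Not at hcon
    have h1 := hcoef e.natDegree
    rw [if_neg (by omega)] at h1
    have h2 : e.leadingCoeff = 0 := h1
    exact hne0 (leadingCoeff_eq_zero.1 h2)
  have h1 := hsep e (2 * H) hne0 hdeg (by linarith) (by
    intro i
    rw [hcoef i]
    split_ifs
    · push_cast
      have f1 : |(b (i, d - 1 - i) : ℝ)| ≤ H := by exact_mod_cast hb _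
      have f2 : |(b' (i, d - 1 - i) : ℝ)| ≤ H := by exact_mod_cast hb' _
      have := abs_sub (b (i, d - 1 - i) : ℝ) (b' (i, d - 1 - i))
      linarith
    · simp
      ) θ hθ
  rw [← hd] at h1
  have h2 : (Ar e).eval θ = G1 d (rb b) θ - G1 d (rb b') θ := by
    rw [G1_eq, G1_eq, ← Finset.sum_sub_distrib]
    unfold Ar
    rw [he, Polynomial.map_sum, eval_finsetSum]
    apply Finset.sum_congr rfl
    intro i _
    simp [rb]
    ring
  rw [h2] at h1
  exact h1

lemma agree_of_res {D : Finset (ℕ × ℕ)} {b b' : ℕ × ℕ → ℤ} (h : res D b = res D b') {p : ℕ × ℕ}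
    (hp : p ∉ D) : b p = b' p := by
  have := congrFun h p
  simp only [res, if_neg hp] at this
  exact this

lemma sep2 {A : ℤ[X]} (hA : Irreducible (A.map (Int.castRingHom ℚ))) (hd : 4 ≤ A.natDegree)
    {K : ℝ} (hK : 1 ≤ K) : ∃ c : ℝ, 0 < c ∧ ∀ (b b' : ℕ × ℕ → ℤ) (H : ℕ), 1 ≤ H →
      (∀ p, |b p| ≤ H) → (∀ p, |b' p| ≤ H) → ∀ u w : ℤ, 4 * (H : ℝ) ≤ |(u : ℝ)| → ∀ θ ∈ Rt A,
      |(w : ℝ) - θ * u| ≤ K * H → res (T2 A.natDegree) b = res (T2 A.natDegree) b' →
      Vl A A.natDegree b u w = 0 → Vl A A.natDegree b' u w = 0 → b ≠ b' →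
      c * (|(u : ℝ)| / H) ≤ |(b (1, 0) : ℝ) - b' (1, 0)| ^ A.natDegree := by
  obtain ⟨c, hc, hsep⟩ := sep_root hA
  obtain ⟨Θ, hΘ0, hΘ⟩ : ∃ Θ : ℝ, 0 ≤ Θ ∧ ∀ θ ∈ Rt A, |θ| ≤ Θ := by
    refine ⟨∑ θ ∈ Rt A, |θ|, Finset.sum_nonneg fun _ _ => abs_nonneg _, ?_⟩
    intro θ hθ
    exact Finset.single_le_sum (f := fun θ : ℝ => |θ|) (fun _ _ => abs_nonneg _) hθ
  obtain ⟨C₀, hC0⟩ : ∃ C₀ : ℝ, C₀ = Θ + K + 2 := ⟨_, rfl⟩
  have hC01 : 1 ≤ C₀ := by linarith
  refine ⟨c / ((K + 2) * C₀ ^ (A.natDegree - 1)), by positivity, ?_⟩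
  intro b b' H hH hb hb' u w hu θ hθ hw hres h1 h2 hne
  obtain ⟨d, hdd⟩ : ∃ d, d = A.natDegree := ⟨_, rfl⟩
  have hH' : (1 : ℝ) ≤ H := by exact_mod_cast hH
  have hH0 : (0 : ℝ) < H := by linarith
  have hu0 : 0 < |(u : ℝ)| := by linarith
  have hu0' : (u : ℝ) ≠ 0 := abs_pos.1 hu0
  have hu0'' : u ≠ 0 := by exact_mod_cast hu0'
  have huZ : 4 * (H : ℤ) ≤ |u| := by exact_mod_cast hu
  rw [← hdd] at hd hres h1 h2 ⊢
  obtain ⟨δ, hδ⟩ : ∃ δ : ℕ → ℤ, δ = fun i => b (0, i) - b' (0, i) := ⟨_, rfl⟩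
  obtain ⟨ε, hε⟩ : ∃ ε : ℤ, ε = b (1, 0) - b' (1, 0) := ⟨_, rfl⟩
  have hδH : ∀ i, |δ i| ≤ 2 * H := by
    intro i
    rw [hδ]
    have := abs_sub (b (0, i)) (b' (0, i))
    have := hb (0, i)
    have := hb' (0, i)
    simp only
    linarith
  have hsum : ∀ β : ℕ × ℕ → ℤ, ∑ p ∈ T2 d, β p * w ^ p.1 * u ^ p.2 =
      β (1, 0) * w + ∑ i ∈ Finset.range (d - 1), β (0, i) * u ^ i := by
    intro β
    unfold T2
    rw [Finset.sum_insert, Finset.sum_image (fun i _ j _ h => (Prod.mk.inj h).2)]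
    · simp
    · intro h
      rw [Finset.mem_image] at h
      obtain ⟨i, _, h⟩ := h
      exact absurd (Prod.mk.inj h).1 (by norm_num)
  have e1 : ε * w + ∑ i ∈ Finset.range (d - 1), δ i * u ^ i = 0 := by
    have f1 := Vl_split A d b (T2_sub (by omega : 2 ≤ d)) u w
    have f2 := Vl_split A d b' (T2_sub (by omega : 2 ≤ d)) u w
    rw [h1, hsum] at f1
    rw [h2, hsum, ← hres] at f2
    have f3 : ∑ i ∈ Finset.range (d - 1), δ i * u ^ i = ∑ i ∈ Finset.range (d - 1), b (0, i) * u ^ i -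
        ∑ i ∈ Finset.range (d - 1), b' (0, i) * u ^ i := by
      rw [← Finset.sum_sub_distrib, hδ]
      apply Finset.sum_congr rfl
      intro i _
      ring
    rw [f3, hε]
    linarith
  have hε0 : ε ≠ 0 := by
    intro h0
    rw [h0, zero_mul, zero_add, show d - 1 = (d - 2) + 1 by omega] at e1
    have h3 := digits_zero (d - 2) δ (fun i _ => by have := hδH i; omega) e1 hu0''
    apply hne
    funext p
    by_cases hp : p ∈ T2 d
    · unfold T2 at hp
      rw [Finset.mem_insert, Finset.mem_image] at hp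
      rcases hp with rfl | ⟨i, hi, rfl⟩
      · linarith
      · rw [Finset.mem_range] at hi
        have := h3 i (by omega)
        rw [hδ] at this
        simp only at this
        linarith
    · exact agree_of_res hres hp
  obtain ⟨n, hn⟩ : ∃ n : ℤ, n = ∑ i ∈ Finset.range (d - 2), δ (i + 1) * u ^ i := ⟨_, rfl⟩
  have e2 : ε * w + u * n + δ 0 = 0 := by
    rw [show d - 1 = (d - 2) + 1 by omega, Finset.sum_range_succ'] at e1
    have : u * n = ∑ i ∈ Finset.range (d - 2), δ (i + 1) * u ^ (i + 1) := by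
      rw [hn, Finset.mul_sum]
      apply Finset.sum_congr rfl
      intro i _
      ring
    rw [this]
    simp only [pow_zero, mul_one] at e1
    linarith
  have hε1 : (1 : ℝ) ≤ |(ε : ℝ)| := by
    have : (1 : ℤ) ≤ |ε| := Int.one_le_abs hε0
    exact_mod_cast this
  obtain ⟨x, hx⟩ : ∃ x : ℝ, x = |(ε : ℝ)| := ⟨_, rfl⟩
  rw [← hx] at hε1
  have hHu : (H : ℝ) / |(u : ℝ)| ≤ 1 := by
    rw [div_le_one hu0]
    linarith
  have hδ0 : |(δ 0 : ℝ)| ≤ 2 * H := by exact_mod_cast hδH 0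
  have e3 : |(ε : ℝ) * θ + n| ≤ (K + 2) * x * (H / |(u : ℝ)|) := by
    have f1 : ((ε : ℝ) * θ + n) * u = -(ε * (w - θ * u)) - δ 0 := by
      have : ((ε * w + u * n + δ 0 : ℤ) : ℝ) = 0 := by rw [e2]; simp
      push_cast at this
      linarith
    have f2 : |(ε : ℝ) * θ + n| * |(u : ℝ)| ≤ (K + 2) * x * H := by
      rw [← abs_mul, f1]
      refine (abs_sub _ _).trans ?_
      rw [abs_neg, abs_mul, ← hx]
      have f3 : x * |(w : ℝ) - θ * u| ≤ x * (K * H) := mul_le_mul_of_nonneg_left hw (by linarith)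
      have f4 : 2 * (H : ℝ) ≤ 2 * H * x := le_mul_of_one_le_right (by linarith) hε1
      linarith
    have f3 : (K + 2) * x * (H / |(u : ℝ)|) = (K + 2) * x * H / |(u : ℝ)| := by ring
    rw [f3, le_div_iff₀ hu0]
    exact f2
  have hx0 : 0 < x := by linarith
  have e4 : |(n : ℝ)| ≤ C₀ * x := by
    have f1 : (n : ℝ) = ((ε : ℝ) * θ + n) - ε * θ := by ring
    rw [f1]
    refine (abs_sub _ _).trans ?_
    rw [abs_mul, ← hx]
    have f2 : x * |θ| ≤ x * Θ := mul_le_mul_of_nonneg_left (hΘ θ hθ) (by linarith)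
    have f3 : (K + 2) * x * (H / |(u : ℝ)|) ≤ (K + 2) * x := mul_le_of_le_one_right (by positivity) hHu
    rw [hC0]
    linarith
  obtain ⟨e, he⟩ : ∃ e : ℤ[X], e = Polynomial.C ε * X + Polynomial.C n := ⟨_, rfl⟩
  have hdeg : e.natDegree ≤ 1 := by
    rw [he]
    exact natDegree_linear_le
  have hc0 : e.coeff 0 = n := by rw [he]; simp
  have hc1 : e.coeff 1 = ε := by
    rw [he, coeff_add, coeff_C_mul, coeff_X_one, coeff_C, if_neg (by norm_num), mul_one, add_zero]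
  have hne0 : e ≠ 0 := by
    intro h
    rw [h, coeff_zero] at hc1
    exact hε0 hc1.symm
  have h3 := hsep e (C₀ * x) hne0 (by rw [← hdd]; omega) (by nlinarith) (by
    intro i
    match i with
    | 0 => rw [hc0]; exact e4
    | 1 =>
      rw [hc1, ← hx]
      exact le_mul_of_one_le_left hx0.le hC01
    | k + 2 =>
      rw [coeff_eq_zero_of_natDegree_lt (by omega)]
      simp
      positivity) θ hθ
  have h4 : (Ar e).eval θ = ε * θ + n := by
    unfold Ar
    rw [he]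
    simp
  rw [h4, ← hdd] at h3
  have h5 := h3.trans e3
  have h6 : (b (1, 0) : ℝ) - b' (1, 0) = (ε : ℝ) := by rw [hε]; push_cast; ring
  rw [h6, ← hx]
  rw [div_le_iff₀ (by positivity)] at h5
  have h7 : (K + 2) * x * (H / |(u : ℝ)|) * (C₀ * x) ^ (d - 1) =
    ((K + 2) * C₀ ^ (d - 1)) * (x ^ d * (H / |(u : ℝ)|)) := by
    have : x ^ d = x * x ^ (d - 1) := by
      rw [← pow_succ']
      congr 1
      omega
    rw [this, mul_pow]
    ring
  rw [h7] at h5
  have h8 : c / ((K + 2) * C₀ ^ (d - 1)) ≤ x ^ d * (H / |(u : ℝ)|) := by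
    rw [div_le_iff₀ (by positivity)]
    linarith
  have h9 : c / ((K + 2) * C₀ ^ (d - 1)) * (|(u : ℝ)| / H) ≤
      x ^ d * (H / |(u : ℝ)|) * (|(u : ℝ)| / H) := mul_le_mul_of_nonneg_right h8 (by positivity)
  refine h9.trans (le_of_eq ?_)
  field_simp

end Pool.Agent.TH728.FX
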