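import Pool.Agent.TH728.FX.Bridge
import Pool.Agent.H322R2.SecV

/-!
Curves with a very large integer point.
-/

open Polynomial Finset

namespace Pool.Agent.TH728.FX

open Pool.Agent.H322R2 (Ix mem_Ix cf PG ff gp FM lead evf ev coeff_PG coeff_lead coeff_ff FM sw
  line_coeffs map_ev evf_sum ev_sw ev_FM kC kN len Bx mem_Bx main3 coeff_FM degree_fin2)

/-- the part of the vector in `D` -/
def pv (D : Finset (ℕ × ℕ)) (d : ℕ) (b : ℕ × ℕ → ℤ) : ↥(Ix d) → ℤ :=
  fun p => if p.1 ∈ D then b p.1 else 0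

lemma cf_pv {D : Finset (ℕ × ℕ)} {d : ℕ} (hD : ∀ p ∈ D, p.1 + p.2 + 4 ≤ d) (b : ℕ × ℕ → ℤ)
    (j i : ℕ) : cf (pv D d b) j i = if (j, i) ∈ D then b (j, i) else 0 := by
  rw [cf]
  by_cases h : (j, i) ∈ D
  · have h1 := hD _ h
    rw [dif_pos (by rw [mem_Ix]; simp only at h1 ⊢; omega), pv]
  · rw [if_neg h]
    split_ifs with h1
    · rw [pv]
      simp only
      rw [if_neg h]
    · rfl

lemma cv_split (A : ℤ[X]) {D : Finset (ℕ × ℕ)} {d : ℕ} (hD : ∀ p ∈ D, p.1 + p.2 + 4 ≤ d)
    (b : ℕ × ℕ → ℤ) : cv A d b = cv A d (res D b) + pv D d b := by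
  funext p
  rw [Pi.add_apply, cv, cv, pv, res]
  by_cases h : p.1.1 + p.1.2 = d
  · rw [if_pos h, if_pos h, if_neg, add_zero]
    intro h1
    have := hD _ h1
    omega
  · rw [if_neg h, if_neg h]
    split_ifs <;> simp

lemma eval_mon (x y m : ℤ) (a b : ℕ) :
    MvPolynomial.eval ![x, y] (MvPolynomial.monomial (Finsupp.single 0 a + Finsupp.single 1 b) m) =
      m * x ^ a * y ^ b := by
  have h1 : MvPolynomial.monomial (Finsupp.single 0 a + Finsupp.single 1 b) m =
      (MvPolynomial.C m * MvPolynomial.X 0 ^ a * MvPolynomial.X 1 ^ b :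
      MvPolynomial (Fin 2) ℤ) := by
    rw [MvPolynomial.X_pow_eq_monomial, MvPolynomial.X_pow_eq_monomial, MvPolynomial.C_mul_monomial,
      MvPolynomial.monomial_mul, mul_one, mul_one]
  rw [h1]
  simp

lemma eval_cv (A : ℤ[X]) (d : ℕ) (b : ℕ × ℕ → ℤ) (u w : ℤ) :
    MvPolynomial.eval ![w, u] (FM (cv A d b)) = Vl A d b u w := by
  have h1 : MvPolynomial.eval ![w, u] (FM (cv A d b)) = ∑ p : ↥(Ix d),
      (fun p : ℕ × ℕ => (if p.1 + p.2 = d then A.coeff p.1 else b p) * w ^ p.1 * u ^ p.2) p.1 := by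
    rw [FM, map_sum]
    apply Finset.sum_congr rfl
    intro p _
    rw [eval_mon, cv]
  rw [h1, Finset.sum_coe_sort (Ix d)
    (fun p : ℕ × ℕ => (if p.1 + p.2 = d then A.coeff p.1 else b p) * w ^ p.1 * u ^ p.2)]
  have hsub : Jx d ⊆ Ix d := by
    intro p hp
    rw [mem_Jx] at hp
    rw [mem_Ix]
    omega
  rw [← Finset.sum_sdiff hsub]
  have h2 : Ix d \ Jx d = (range (d + 1)).image (fun j => (j, d - j)) := by
    ext p
    rw [Finset.mem_sdiff, mem_Ix, mem_Jx, Finset.mem_image]
    constructor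
    · rintro ⟨h1, h2⟩
      refine ⟨p.1, Finset.mem_range.2 (by omega), ?_⟩
      ext
      · rfl
      · simp only; omega
    · rintro ⟨j, hj, rfl⟩
      rw [Finset.mem_range] at hj
      simp only
      omega
  rw [h2, Finset.sum_image (fun i _ j _ h => (Prod.mk.inj h).1)]
  unfold Vl
  congr 1
  · apply Finset.sum_congr rfl
    intro j hj
    rw [Finset.mem_range] at hj
    rw [if_pos]
    simp only
    omega
  · apply Finset.sum_congr rfl
    intro p hp
    rw [mem_Jx] at hp
    rw [if_neg (by omega)]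

open Classical in
lemma rangeE {A : ℤ[X]} (hA : Irreducible (A.map (Int.castRingHom ℚ))) (hd : 4 ≤ A.natDegree) :
    ∃ L₀ : ℕ, 1 ≤ L₀ ∧ ∀ H : ℕ, 1 ≤ H → ∀ S : Finset (ℕ × ℕ → ℤ), S ⊆ Bo (Jx A.natDegree) H →
      (∀ b ∈ S, (∀ θ ∈ Rt A, gam A A.natDegree (rb b) θ ≠ 0) ∧ ∃ P : ℤ × ℤ,
        Vl A A.natDegree b P.1 P.2 = 0 ∧
        ((A.natDegree + 1) * (L₀ * H)) ^ (kC A.natDegree) < max P.2.natAbs P.1.natAbs) →
      (S.card : ℝ) ≤ (kN A.natDegree : ℕ) * (2 * H + 1) ^ ((Jx A.natDegree).card - 1) := by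
  obtain ⟨d, hdd⟩ : ∃ d, d = A.natDegree := ⟨_, rfl⟩
  obtain ⟨a, ha⟩ : ∃ a : ℕ, a = ∑ j ∈ range (d + 1), (A.coeff j).natAbs := ⟨_, rfl⟩
  have haj : ∀ j, |A.coeff j| ≤ a := by
    intro j
    by_cases hj : j ≤ d
    · have h1 : (A.coeff j).natAbs ≤ a := by
        rw [ha]
        exact Finset.single_le_sum (f := fun j => (A.coeff j).natAbs) (fun _ _ => Nat.zero_le _)
          (Finset.mem_range.2 (by omega))
      rw [Int.abs_eq_natAbs]
      exact_mod_cast h1
    · rw [coeff_eq_zero_of_natDegree_lt (by omega)]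
      simp
  obtain ⟨n, hn⟩ : ∃ n, n = (Ix d).card := ⟨_, rfl⟩
  have hn1 : 1 ≤ n := by
    rw [hn]
    exact Finset.card_pos.2 ⟨(0, 0), by rw [mem_Ix]; simp⟩
  refine ⟨n * (1 + a), Nat.mul_pos hn1 (by omega), ?_⟩
  intro H hH S hS hSP
  obtain ⟨D, hD⟩ : ∃ D : Finset (ℕ × ℕ), D = (Jx d).filter (fun p => p.1 + p.2 + 4 ≤ d) := ⟨_, rfl⟩
  have hD4 : ∀ p ∈ D, p.1 + p.2 + 4 ≤ d := by
    intro p hp
    rw [hD, Finset.mem_filter] at hp
    exact hp.2
  have hDJ : D ⊆ Jx d := by rw [hD]; exact Finset.filter_subset _ _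
  have hD0 : (0, 0) ∈ D := by
    rw [hD, Finset.mem_filter, mem_Jx]
    simp only
    omega
  have hDc : 1 ≤ D.card := Finset.card_pos.2 ⟨_, hD0⟩
  have hDn : D.card ≤ (Jx d).card := Finset.card_le_card hDJ
  rw [← hdd] at hS hSP ⊢
  choose! P hP using fun b (hb : b ∈ S) => (hSP b hb).2
  have hfib : ∀ c ∈ S, (S.filter (fun c' => res D c' = res D c)).card ≤ kN d := by
    intro c hc
    obtain ⟨F, hF⟩ : ∃ F, F = FM (cv A d (res D c)) := ⟨_, rfl⟩
    have hff : ff (cv A d (res D c)) = A := by rw [hdd]; exact ff_cv A _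
    have hFd : F.totalDegree = d := by
      rw [hF]
      exact Pool.Agent.H322R2.totalDegree_FM (by omega) (by rw [hff, hdd])
    have hirr := Pool.Agent.H322R2.irr_FM (c := cv A d (res D c)) (by omega) (by rw [hff, hdd])
      (by rw [hff]; exact hA)
    rw [← hF] at hirr
    have hg : ∀ θ ∈ Rt A, gam A d (rb (res D c)) θ ≠ 0 := by
      intro θ hθ
      rw [gam_congr A (β' := rb c)]
      · exact (hSP c hc).1 θ hθ
      · intro p hp
        unfold rb res
        rw [if_neg]
        intro hpD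
        have := hD4 p hpD
        omega
    have hlines : ∀ p q : Fin 2 → ℝ, q ≠ 0 → F.totalDegree ≤
      (MvPolynomial.aeval (fun i => (C (p i) + C (q i) * X : ℝ[X])) F).natDegree + 2 := by
      intro p q hq
      rw [hFd, hF, hdd]
      apply lines_b hA hd _ _ p q hq
      intro θ hθ
      rw [← hdd]
      exact hg θ hθ
    have hbx : ∀ b ∈ S, ∀ p, |b p| ≤ H := fun b hb => (mem_Bo.1 (hS hb)).1
    have hlen : len F ≤ n * (1 + a) * H := by
      rw [hF]
      have h1 : cv A d (res D c) ∈ Bx _ (H + a) := by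
        rw [mem_Bx]
        intro p
        rw [cv]
        split_ifs
        · have := haj p.1.1
          push_cast
          omega
        · have := (mem_Bo.1 (res_mem' (K := D) (hS hc))).1 p.1
          push_cast
          omega
      refine (Pool.Agent.H322R2.len_FM h1).trans ?_
      rw [← hn, mul_assoc]
      apply Nat.mul_le_mul_left
      nlinarith
    have hm := main3 F (n * (1 + a) * H) (by omega) hirr hlines hlen
    rw [hFd] at hm
    obtain ⟨T, hT⟩ : ∃ T, T = (S.filter (fun c' => res D c' = res D c)).image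
      (fun b => (FM (pv D d b), (P b).2, (P b).1)) := ⟨_, rfl⟩
    have hinj : Set.InjOn (fun b : ℕ × ℕ → ℤ => (FM (pv D d b), (P b).2, (P b).1))
        (S.filter (fun c' => res D c' = res D c) : Set (ℕ × ℕ → ℤ)) := by
      intro b hb b' hb' h
      rw [Finset.mem_coe, Finset.mem_filter] at hb hb'
      have h1 : FM (pv D d b) = FM (pv D d b') := (Prod.mk.inj h).1
      funext p
      by_cases hp : p ∈ D
      · have h2 := congrArg (MvPolynomial.coeff (Finsupp.single 0 p.1 + Finsupp.single 1 p.2)) h1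
        rw [coeff_FM, coeff_FM, cf_pv hD4, cf_pv hD4] at h2
        have e1 : (Finsupp.single 0 p.1 + Finsupp.single 1 p.2 : Fin 2 →₀ ℕ) 0 = p.1 := by simp
        have e2 : (Finsupp.single 0 p.1 + Finsupp.single 1 p.2 : Fin 2 →₀ ℕ) 1 = p.2 := by simp
        rw [e1, e2, if_pos hp, if_pos hp] at h2
        exact h2
      · exact agree_of_res (hb.2.trans hb'.2.symm) hp
    have hTc : T.card = (S.filter (fun c' => res D c' = res D c)).card := by
      rw [hT]
      exact Finset.card_image_of_injOn hinj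
    rw [← hTc]
    have hsub : (T : Set (MvPolynomial (Fin 2) ℤ × ℤ × ℤ)) ⊆ {t | t.1.totalDegree + 4 ≤ d ∧
      len t.1 ≤ n * (1 + a) * H ∧ MvPolynomial.eval ![t.2.1, t.2.2] (F + t.1) = 0 ∧
      ((d + 1) * (n * (1 + a) * H)) ^ (kC d) < max t.2.1.natAbs t.2.2.natAbs} := by
      intro t ht
      rw [Finset.mem_coe, hT, Finset.mem_image] at ht
      obtain ⟨b, hb, rfl⟩ := ht
      rw [Finset.mem_filter] at hb
      refine ⟨?_, ?_, ?_, ?_⟩
      · simp only
        have h1 : (FM (pv D d b)).totalDegree ≤ d - 4 := by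
          apply Finset.sup_le
          intro m hm
          rw [MvPolynomial.mem_support_iff, coeff_FM, cf_pv hD4] at hm
          have h2 : (m 0, m 1) ∈ D := by
            by_contra h3
            rw [if_neg h3] at hm
            exact hm rfl
          have h3 := hD4 _ h2
          have h4 : (m.sum fun _ e => e) = m.degree := rfl
          rw [h4, degree_fin2]
          simp only at h3
          omega
        omega
      · simp only
        have h1 : pv D d b ∈ Bx _ H := by
          rw [mem_Bx]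
          intro p
          rw [pv]
          split_ifs
          · exact hbx b hb.1 p.1
          · simp
        refine (Pool.Agent.H322R2.len_FM h1).trans ?_
        rw [← hn]
        apply Nat.mul_le_mul_right
        nlinarith
      · simp only
        have h1 := (hP b hb.1).1
        rw [← eval_cv, cv_split A hD4 b, Pool.Agent.H322R2.FM_add, hb.2, ← hF] at h1
        exact h1
      · exact (hP b hb.1).2
    have h1 := (Set.encard_le_encard hsub).trans hm
    rw [Set.encard_coe_eq_coe_finsetCard] at h1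
    exact_mod_cast h1
  have h1 := card_fib hS hDJ hfib
  have h2 : (2 * H + 1) ^ ((Jx d).card - D.card) ≤ (2 * H + 1) ^ ((Jx d).card - 1) :=
    Nat.pow_le_pow_right (by omega) (by omega)
  have h3 := h1.trans (Nat.mul_le_mul_left _ h2)
  exact_mod_cast h3

end Pool.Agent.TH728.FX
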