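import Pool.Agent.TH728.FX.Win
import Pool.Agent.TH728.FX.Box

/-!
Integer points near an asymptote.
-/

open Polynomial

namespace Pool.Agent.TH728.FX

/-- value of the polynomial with top form `A` and lower coefficients `b` -/
noncomputable def Vl (A : ℤ[X]) (d : ℕ) (b : ℕ × ℕ → ℤ) (u w : ℤ) : ℤ :=
  ∑ j ∈ Finset.range (d + 1), A.coeff j * w ^ j * u ^ (d - j) +
    ∑ p ∈ Jx d, b p * w ^ p.1 * u ^ p.2

/-- normalised coefficients -/
noncomputable def nb (d : ℕ) (b : ℕ × ℕ → ℤ) (H : ℕ) : ℕ × ℕ → ℝ :=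
  fun p => (b p : ℝ) / (H : ℝ) ^ (d - p.1 - p.2)

/-- real coefficients -/
def rb (b : ℕ × ℕ → ℤ) : ℕ × ℕ → ℝ := fun p => (b p : ℝ)

lemma nb_le {d : ℕ} {b : ℕ × ℕ → ℤ} {H : ℕ} (hH : 1 ≤ H) (hb : b ∈ Bo (Jx d) H) (p : ℕ × ℕ) :
    |nb d b H p| ≤ 1 := by
  rw [mem_Bo] at hb
  have hH' : (1 : ℝ) ≤ H := by exact_mod_cast hH
  unfold nb
  rw [abs_div, abs_pow, Nat.abs_cast, div_le_one (by positivity)]
  by_cases hp : p ∈ Jx d
  · rw [mem_Jx] at hp
    have h1 : |(b p : ℝ)| ≤ H := by exact_mod_cast hb.1 p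
    refine h1.trans ?_
    exact le_self_pow₀ hH' (by omega)
  · rw [hb.2 p hp]
    simp only [Int.cast_zero, abs_zero]
    positivity

lemma Vl_eq (A : ℤ[X]) (b : ℕ × ℕ → ℤ) {H : ℕ} (hH : 1 ≤ H) {u : ℤ} (hu : u ≠ 0) (w : ℤ) :
    (Vl A A.natDegree b u w : ℝ) =
      (u : ℝ) ^ A.natDegree * Ps A A.natDegree (nb A.natDegree b H) ((H : ℝ) / u) ((w : ℝ) / u) := by
  obtain ⟨d, hd⟩ : ∃ d, d = A.natDegree := ⟨_, rfl⟩
  rw [← hd]
  have hu' : (u : ℝ) ≠ 0 := by exact_mod_cast hu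
  have hH' : (H : ℝ) ≠ 0 := by exact_mod_cast (by omega : H ≠ 0)
  unfold Vl Ps
  push_cast
  rw [mul_add, Finset.mul_sum]
  congr 1
  · have hnd : (Ar A).natDegree = d := by
      rw [hd]
      exact natDegree_map_eq_of_injective (RingHom.injective_int _) _
    rw [eval_eq_sum_range, hnd, Finset.mul_sum]
    apply Finset.sum_congr rfl
    intro j hj
    rw [Finset.mem_range] at hj
    rw [coeff_map]
    simp only [eq_intCast]
    have e : (u : ℝ) ^ d = u ^ (d - j) * u ^ j := by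
      rw [← pow_add]
      congr 1
      omega
    rw [e, div_pow]
    field_simp
  · apply Finset.sum_congr rfl
    intro p hp
    rw [mem_Jx] at hp
    unfold nb
    have e : (u : ℝ) ^ d = u ^ p.2 * u ^ (d - p.1 - p.2) * u ^ p.1 := by
      rw [← pow_add, ← pow_add]
      congr 1
      omega
    rw [e, div_pow, div_pow]
    field_simp

lemma gam_nb (A : ℤ[X]) (d : ℕ) (b : ℕ × ℕ → ℤ) {H : ℕ} (hH : 1 ≤ H) (θ : ℝ) :
    gam A d (nb d b H) θ = gam A d (rb b) θ / (H : ℝ) ^ 2 := by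
  have hH' : (H : ℝ) ≠ 0 := by exact_mod_cast (by omega : H ≠ 0)
  have e1 : ∀ t, G1 d (nb d b H) t = G1 d (rb b) t / H := by
    intro t
    unfold G1 nb rb
    rw [Finset.sum_div]
    apply Finset.sum_congr rfl
    intro p _
    split_ifs with h
    · rw [h, pow_one]; ring
    · simp
  have e2 : ∀ t, G1' d (nb d b H) t = G1' d (rb b) t / H := by
    intro t
    unfold G1' nb rb
    rw [Finset.sum_div]
    apply Finset.sum_congr rfl
    intro p _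
    split_ifs with h
    · rw [h, pow_one]; ring
    · simp
  have e3 : ∀ t, G2 d (nb d b H) t = G2 d (rb b) t / (H : ℝ) ^ 2 := by
    intro t
    unfold G2 nb rb
    rw [Finset.sum_div]
    apply Finset.sum_congr rfl
    intro p _
    split_ifs with h
    · rw [h]; ring
    · simp
  have e4 : kap A d (nb d b H) θ = kap A d (rb b) θ / H := by
    unfold kap
    rw [e1]
    ring
  unfold gam q2
  rw [e2, e3, e4]
  field_simp

/-- points near the asymptote of slope `θ` at scale `M` -/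
def Pt (A : ℤ[X]) (d : ℕ) (b : ℕ × ℕ → ℤ) (H : ℕ) (M θ K₀ : ℝ) (P : ℤ × ℤ) : Prop :=
  M ≤ |(P.1 : ℝ)| ∧ |(P.1 : ℝ)| ≤ 2 * M ∧ |(P.2 : ℝ) - θ * P.1| ≤ K₀ * H ∧
    |(Vl A d b P.1 P.2 : ℝ)| ≤ 2 * H * |(P.1 : ℝ)|

lemma Pt.facts {A : ℤ[X]} {b : ℕ × ℕ → ℤ} {H : ℕ} {M θ K₀ : ℝ} {P : ℤ × ℤ} (hH : 1 ≤ H)
    (hM : 0 < M) (hK : 0 ≤ K₀) (hd : 1 ≤ A.natDegree)
    (h : Pt A A.natDegree b H M θ K₀ P) :
    (P.1 : ℝ) ≠ 0 ∧ |(H : ℝ) / P.1| ≤ H / M ∧ |(P.2 : ℝ) / P.1 - θ| ≤ K₀ * (H / M) ∧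
      |Ps A A.natDegree (nb A.natDegree b H) ((H : ℝ) / P.1) ((P.2 : ℝ) / P.1)| ≤
        2 * H / M ^ (A.natDegree - 1) := by
  obtain ⟨h1, h2, h3, h4⟩ := h
  have hpos : 0 < |(P.1 : ℝ)| := by linarith
  have hne : (P.1 : ℝ) ≠ 0 := abs_pos.1 hpos
  have hH0 : (0 : ℝ) ≤ H := Nat.cast_nonneg _
  refine ⟨hne, ?_, ?_, ?_⟩
  · rw [abs_div, Nat.abs_cast]
    exact div_le_div_of_nonneg_left hH0 hM h1
  · have e : (P.2 : ℝ) / P.1 - θ = (P.2 - θ * P.1) / P.1 := by field_simp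
    rw [e, abs_div, div_le_iff₀ hpos]
    have h5 : K₀ * H ≤ K₀ * (H / M) * |(P.1 : ℝ)| := by
      rw [mul_assoc]
      apply mul_le_mul_of_nonneg_left _ hK
      rw [div_mul_eq_mul_div, le_div_iff₀ hM]
      exact mul_le_mul_of_nonneg_left h1 hH0
    linarith
  · have h5 := Vl_eq A b hH (u := P.1) (by exact_mod_cast hne) P.2
    rw [h5, abs_mul, abs_pow] at h4
    have h6 : |(P.1 : ℝ)| ^ A.natDegree = |(P.1 : ℝ)| ^ (A.natDegree - 1) * |(P.1 : ℝ)| := by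
      rw [← pow_succ]
      congr 1
      omega
    rw [h6] at h4
    have h7 : |(P.1 : ℝ)| ^ (A.natDegree - 1) *
        |Ps A A.natDegree (nb A.natDegree b H) ((H : ℝ) / P.1) ((P.2 : ℝ) / P.1)| ≤ 2 * H := by
      apply le_of_mul_le_mul_right _ hpos
      calc _ = |(P.1 : ℝ)| ^ (A.natDegree - 1) * |(P.1 : ℝ)| *
          |Ps A A.natDegree (nb A.natDegree b H) ((H : ℝ) / P.1) ((P.2 : ℝ) / P.1)| := by ring
        _ ≤ _ := h4
    rw [le_div_iff₀ (by positivity)]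
    refine le_trans ?_ h7
    rw [mul_comm]
    exact mul_le_mul_of_nonneg_right (pow_le_pow_left₀ hM.le h1 _) (abs_nonneg _)

lemma diff_inv {H x y : ℝ} (hx : x ≠ 0) (hy : y ≠ 0) (hH : 0 ≤ H) :
    |H / x - H / y| = H * |x - y| / (|x| * |y|) := by
  have e : H / x - H / y = H * (y - x) / (x * y) := by field_simp
  rw [e, abs_div, abs_mul, abs_mul, abs_of_nonneg hH, abs_sub_comm]

lemma strict_gap {k : ℕ} {f : ℕ → ℤ} {q : ℤ} (hf : ∀ i, i + 1 < k → f i < f (i + 1))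
    (hq : ∀ i j, i < k → j < k → q ∣ f i - f j) (hq0 : 0 < q) (i n : ℕ) (h : i + n < k) :
    n * q ≤ f (i + n) - f i := by
  induction n with
  | zero => simp
  | succ n ih =>
    have h1 := ih (by omega)
    have h2 := hf (i + n) (by omega)
    have h3 := hq (i + n + 1) (i + n) (by omega) (by omega)
    have h4 := Int.le_of_dvd (by linarith) h3
    push_cast
    have e : i + (n + 1) = i + n + 1 := by omega
    rw [e]
    linarith

end Pool.Agent.TH728.FX
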