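import Pool.Agent.TH728.FX.RangeA
import Pool.Agent.TH728.FX.RangeD

/-!
Tails: curves with an integer point which is not very small; curves with a small flex number.
-/

open Polynomial

namespace Pool.Agent.TH728.FX

lemma sum_sq_tail {B : ℕ} (hB : 1 ≤ B) (L : ℕ) :
    ∑ N ∈ Finset.Icc (B + 1) L, 1 / (N : ℝ) ^ 2 ≤ 1 / (B : ℝ) - (if B ≤ L then 1 / (L : ℝ) else 0) := by
  have hB0 : (0 : ℝ) < B := by exact_mod_cast (by omega : 0 < B)
  rcases lt_or_ge L B with h | h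
  · rw [if_neg (by omega), Finset.Icc_eq_empty (by omega), Finset.sum_empty]
    have : 0 ≤ 1 / (B : ℝ) := by positivity
    linarith
  · induction L, h using Nat.le_induction with
    | base => simp
    | succ n hn ih =>
      rw [Finset.sum_Icc_succ_top (by omega), if_pos (by omega)]
      rw [if_pos hn] at ih
      have hn' : (0 : ℝ) < n := by exact_mod_cast (by omega : 0 < n)
      have h3 : 1 / ((n : ℝ) + 1) ^ 2 ≤ 1 / n - 1 / (n + 1) := by
        rw [div_sub_div _ _ hn'.ne' (by positivity), div_le_div_iff₀ (by positivity) (by positivity)]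
        nlinarith
      push_cast
      linarith

open Classical in
lemma rangeA_tail {A : ℤ[X]} (hd : 4 ≤ A.natDegree) {c : ℝ} (hc : 1 ≤ c) {H : ℕ} (hH : 1 ≤ H)
    {B : ℕ} (hB : 1 ≤ B)
    (S : Finset (ℕ × ℕ → ℤ)) (hS : S ⊆ Bo (Jx A.natDegree) H)
    (hSP : ∀ b ∈ S, ∃ P : ℤ × ℤ, Vl A A.natDegree b P.1 P.2 = 0 ∧ B < max P.1.natAbs P.2.natAbs ∧
      |(P.1 : ℝ)| ≤ c * H ∧ |(P.2 : ℝ)| ≤ c * H) :
    (S.card : ℝ) ≤ (12 * (c + 2) ^ (A.natDegree + 3)) * (1 / B) *
      (2 * H + 1) ^ ((Jx A.natDegree).card - 1) := by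
  have hH' : (1 : ℝ) ≤ H := by exact_mod_cast hH
  have hH0 : (0 : ℝ) < H := by linarith
  obtain ⟨X, hX⟩ : ∃ X : ℝ, X = (2 * (H : ℝ) + 1) ^ ((Jx A.natDegree).card - 1) := ⟨_, rfl⟩
  have hX0 : 0 ≤ X := by rw [hX]; positivity
  obtain ⟨L, hL⟩ : ∃ L : ℕ, L = ⌊c * H⌋₊ := ⟨_, rfl⟩
  obtain ⟨Q, hQ⟩ : ∃ Q : ℕ → Finset (ℤ × ℤ), Q = fun N : ℕ =>
    (({(N : ℤ), -(N : ℤ)} : Finset ℤ) ×ˢ Finset.Icc (-(N : ℤ)) N) ∪
      (Finset.Icc (-(N : ℤ)) N ×ˢ ({(N : ℤ), -(N : ℤ)} : Finset ℤ)) := ⟨_, rfl⟩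
  have hQc : ∀ N : ℕ, 1 ≤ N → ((Q N).card : ℝ) ≤ 12 * N := by
    intro N hN
    have h1 : (Q N).card ≤ 2 * (2 * N + 1) + (2 * N + 1) * 2 := by
      rw [hQ]
      refine (Finset.card_union_le _ _).trans ?_
      rw [Finset.card_product, Finset.card_product, Int.card_Icc]
      have h2 : ({(N : ℤ), -(N : ℤ)} : Finset ℤ).card ≤ 2 := Finset.card_le_two
      have h3 : ((N : ℤ) + 1 - -(N : ℤ)).toNat = 2 * N + 1 := by omega
      rw [h3]
      exact add_le_add (Nat.mul_le_mul_right _ h2) (Nat.mul_le_mul_left _ h2)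
    have h2 : (Q N).card ≤ 12 * N := by omega
    exact_mod_cast h2
  have hQm : ∀ N : ℕ, ∀ P ∈ Q N, P.1.natAbs = N ∨ P.2.natAbs = N := by
    intro N P hP
    rw [hQ] at hP
    simp only [Finset.mem_union, Finset.mem_product, Finset.mem_insert, Finset.mem_singleton] at hP
    rcases hP with ⟨h, _⟩ | ⟨_, h⟩
    · left; omega
    · right; omega
  have hcov : S ⊆ (Finset.Icc (B + 1) L).biUnion
      (fun N => (Q N).biUnion (fun P => S.filter (fun b => Vl A A.natDegree b P.1 P.2 = 0))) := by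
    intro b hb
    obtain ⟨P, h1, h0, h2, h3⟩ := hSP b hb
    obtain ⟨N, hN⟩ : ∃ N : ℕ, N = max P.1.natAbs P.2.natAbs := ⟨_, rfl⟩
    rw [Finset.mem_biUnion]
    refine ⟨N, ?_, ?_⟩
    · rw [Finset.mem_Icc, hL]
      constructor
      · omega
      · apply Nat.le_floor
        rw [hN, Nat.cast_max]
        apply max_le
        · rw [Nat.cast_natAbs]
          exact_mod_cast h2
        · rw [Nat.cast_natAbs]
          exact_mod_cast h3
    · rw [Finset.mem_biUnion]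
      refine ⟨P, ?_, Finset.mem_filter.2 ⟨hb, h1⟩⟩
      rw [hQ]
      simp only [Finset.mem_union, Finset.mem_product, Finset.mem_insert, Finset.mem_singleton,
        Finset.mem_Icc]
      omega
  have h1 : ∀ N ∈ Finset.Icc (B + 1) L, (((Q N).biUnion (fun P => S.filter
      (fun b => Vl A A.natDegree b P.1 P.2 = 0))).card : ℝ) ≤
      12 * (c + 2) ^ (A.natDegree + 3) * X * (1 / (N : ℝ) ^ 2) := by
    intro N hN
    rw [Finset.mem_Icc] at hN
    have hN' : (1 : ℝ) ≤ N := by exact_mod_cast (by omega : 1 ≤ N)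
    have hNH : (N : ℝ) ≤ c * H := by
      have h2 : (N : ℝ) ≤ L := by exact_mod_cast hN.2
      refine h2.trans ?_
      rw [hL]
      exact Nat.floor_le (by positivity)
    have h2 : ((Q N).biUnion (fun P => S.filter
      (fun b => Vl A A.natDegree b P.1 P.2 = 0))).card ≤ ∑ P ∈ Q N, (S.filter
      (fun b => Vl A A.natDegree b P.1 P.2 = 0)).card := Finset.card_biUnion_le
    have h3 : ∀ P ∈ Q N, ((S.filter (fun b => Vl A A.natDegree b P.1 P.2 = 0)).card : ℝ) ≤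
        ((c + 2) / N) ^ 3 * (c + 2) ^ A.natDegree * X := by
      intro P hP
      rw [hX]
      apply one_point hd hc hH (by omega) hNH P.1 P.2 (hQm N P hP) _
        ((Finset.filter_subset _ _).trans hS)
      intro b hb
      exact (Finset.mem_filter.1 hb).2
    have h4 : (((Q N).biUnion (fun P => S.filter
      (fun b => Vl A A.natDegree b P.1 P.2 = 0))).card : ℝ) ≤ ((∑ P ∈ Q N, (S.filter
      (fun b => Vl A A.natDegree b P.1 P.2 = 0)).card : ℕ) : ℝ) := by exact_mod_cast h2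
    refine h4.trans ?_
    push_cast
    refine (Finset.sum_le_sum h3).trans ?_
    rw [Finset.sum_const, nsmul_eq_mul]
    have h5 : ((Q N).card : ℝ) * (((c + 2) / N) ^ 3 * (c + 2) ^ A.natDegree * X) ≤
      12 * N * (((c + 2) / N) ^ 3 * (c + 2) ^ A.natDegree * X) :=
      mul_le_mul_of_nonneg_right (hQc N (by omega)) (by positivity)
    refine h5.trans (le_of_eq ?_)
    rw [div_pow, pow_add]
    field_simp
  have h2 := (Finset.card_le_card hcov).trans Finset.card_biUnion_le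
  have h5 : (S.card : ℝ) ≤ ((∑ N ∈ Finset.Icc (B + 1) L, ((Q N).biUnion (fun P => S.filter
        (fun b => Vl A A.natDegree b P.1 P.2 = 0))).card : ℕ) : ℝ) := by exact_mod_cast h2
  refine h5.trans ?_
  push_cast
  refine (Finset.sum_le_sum h1).trans ?_
  rw [← Finset.mul_sum]
  have h6 := sum_sq_tail hB L
  have h7 : 0 ≤ (if B ≤ L then 1 / (L : ℝ) else 0) := by
    split_ifs
    · positivity
    · exact le_rfl
  have h8 : 12 * (c + 2) ^ (A.natDegree + 3) * X * ∑ N ∈ Finset.Icc (B + 1) L, 1 / (N : ℝ) ^ 2 ≤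
    12 * (c + 2) ^ (A.natDegree + 3) * X * (1 / B) := by
    apply mul_le_mul_of_nonneg_left _ (by positivity)
    linarith
  refine h8.trans (le_of_eq ?_)
  rw [← hX]
  ring

open Classical in
/-- two coordinates, the second one restricted by a linear form -/
lemma two_coord {S : Finset (ℕ × ℕ → ℤ)} {J : Finset (ℕ × ℕ)} {H : ℕ} (hS : S ⊆ Bo J H)
    {p₁ p₂ : ℕ × ℕ} (h1 : p₁ ∈ J) (h2 : p₂ ∈ J) (h12 : p₁ ≠ p₂) {k : ℕ}
    (hk : ∀ c ∈ S, (S.filter (fun b => res {p₁} b = res {p₁} c)).card ≤ k)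
    (φ : (ℕ × ℕ → ℤ) → ℝ) {a Y : ℝ} (ha : 0 < a) (hY : 0 ≤ Y) (hφ : ∀ b ∈ S, |φ b| ≤ Y)
    (hsep : ∀ b ∈ S, ∀ b' ∈ S, (∀ p, p ≠ p₁ → p ≠ p₂ → b p = b' p) →
      |φ b - φ b'| = a * |(b p₂ : ℝ) - b' p₂|) :
    (S.card : ℝ) ≤ k * (2 * Y / a + 1) * (2 * H + 1) ^ (J.card - 2) := by
  obtain ⟨D, hD⟩ : ∃ D : Finset (ℕ × ℕ), D = {p₁, p₂} := ⟨_, rfl⟩
  have hDJ : D ⊆ J := by
    intro p hp
    rw [hD, Finset.mem_insert, Finset.mem_singleton] at hp
    rcases hp with rfl | rfl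
    · exact h1
    · exact h2
  have hDc : D.card = 2 := by
    rw [hD, Finset.card_insert_of_notMem, Finset.card_singleton]
    rw [Finset.mem_singleton]
    exact h12
  have hpos : 0 ≤ 2 * Y / a + 1 := by positivity
  have hmain := card_fib (H := H) (k := ⌊(k : ℝ) * (2 * Y / a + 1)⌋₊) hS hDJ (by
    intro c hc
    apply Nat.le_floor
    obtain ⟨F, hF⟩ : ∃ F, F = S.filter (fun c' => res D c' = res D c) := ⟨_, rfl⟩
    rw [← hF]
    have hFm : ∀ b ∈ F, b ∈ S ∧ res D b = res D c := by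
      intro b hb
      rw [hF, Finset.mem_filter] at hb
      exact hb
    have hag : ∀ b ∈ F, ∀ b' ∈ F, ∀ p, p ≠ p₁ → p ≠ p₂ → b p = b' p := by
      intro b hb b' hb' p hp1 hp2
      have := congrFun ((hFm b hb).2.trans (hFm b' hb').2.symm) p
      have hpD : p ∉ D := by
        rw [hD, Finset.mem_insert, Finset.mem_singleton]
        tauto
      simp only [res, if_neg hpD] at this
      exact this
    have c1 := Finset.card_le_mul_card_image (f := fun b : ℕ × ℕ → ℤ => b p₂) F k (by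
      intro x hx
      obtain ⟨b, hb, rfl⟩ := Finset.mem_image.1 hx
      refine le_trans (Finset.card_le_card ?_) (hk b (hFm b hb).1)
      intro b' hb'
      rw [Finset.mem_filter] at hb' ⊢
      refine ⟨(hFm b' hb'.1).1, ?_⟩
      funext p
      simp only [res, Finset.mem_singleton]
      split_ifs with hp
      · rfl
      · by_cases hp2 : p = p₂
        · rw [hp2]; exact hb'.2
        · exact hag b' hb'.1 b hb p hp hp2)
    have c2 : ((F.image (fun b : ℕ × ℕ → ℤ => b p₂)).card : ℝ) ≤ 2 * Y / a + 1 := by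
      -- choose representatives
      obtain ⟨g, hg⟩ : ∃ g : ℤ → (ℕ × ℕ → ℤ), ∀ x ∈ F.image (fun b : ℕ × ℕ → ℤ => b p₂),
          g x ∈ F ∧ (g x) p₂ = x := by
        have : ∀ x : ℤ, ∃ b : ℕ × ℕ → ℤ, x ∈ F.image (fun b : ℕ × ℕ → ℤ => b p₂) →
            b ∈ F ∧ b p₂ = x := by
          intro x
          by_cases hx : x ∈ F.image (fun b : ℕ × ℕ → ℤ => b p₂)
          · obtain ⟨b, hb, hbx⟩ := Finset.mem_image.1 hx
            exact ⟨b, fun _ => ⟨hb, hbx⟩⟩
          · exact ⟨fun _ => 0, fun h => absurd h hx⟩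
        choose g hg using this
        exact ⟨g, hg⟩
      have := sep_card (F.image (fun b : ℕ × ℕ → ℤ => b p₂)) (fun x => φ (g x)) (B := a) (lo := -Y)
        (hi := Y) ha (by linarith) (by
          intro x hx
          exact abs_le.1 (hφ _ (hFm _ (hg x hx).1).1)) (by
          intro x hx y hy hxy
          have h3 := hsep _ (hFm _ (hg x hx).1).1 _ (hFm _ (hg y hy).1).1
            (hag _ (hg x hx).1 _ (hg y hy).1)
          rw [h3, (hg x hx).2, (hg y hy).2]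
          have h4 : (1 : ℤ) ≤ |x - y| := Int.one_le_abs (sub_ne_zero.2 hxy)
          have h5 : (1 : ℝ) ≤ |(x : ℝ) - y| := by exact_mod_cast h4
          exact le_mul_of_one_le_right ha.le h5)
      have e : (Y - -Y) / a = 2 * Y / a := by ring
      rw [e] at this
      exact this
    have c3 : (F.card : ℝ) ≤ k * ((F.image (fun b : ℕ × ℕ → ℤ => b p₂)).card : ℝ) := by
      exact_mod_cast c1
    exact c3.trans (mul_le_mul_of_nonneg_left c2 (Nat.cast_nonneg _)))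
  rw [hDc] at hmain
  have h3 : (S.card : ℝ) ≤ ((⌊(k : ℝ) * (2 * Y / a + 1)⌋₊ : ℕ) : ℝ) *
      (2 * H + 1) ^ (J.card - 2) := by exact_mod_cast hmain
  refine h3.trans ?_
  apply mul_le_mul_of_nonneg_right _ (by positivity)
  exact Nat.floor_le (by positivity)

/-- second factor of the flex number -/
noncomputable def ell (A : ℤ[X]) (d : ℕ) (β : ℕ × ℕ → ℝ) (θ : ℝ) : ℝ :=
  (derivative (derivative (Ar A))).eval θ / 2 * kap A d β θ + G1' d β θ

lemma gam_ell (A : ℤ[X]) (d : ℕ) (β : ℕ × ℕ → ℝ) (θ : ℝ) :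
    gam A d β θ = kap A d β θ * ell A d β θ + G2 d β θ := by
  unfold gam q2 ell
  ring

lemma G1_diff {d : ℕ} (hd : 4 ≤ d) {b b' : ℕ × ℕ → ℤ} {j₀ : ℕ} (hj : j₀ < d)
    (h : ∀ p, p ≠ (0, d - 2) → p ≠ (j₀, d - 1 - j₀) → b p = b' p) (θ : ℝ) :
    G1 d (rb b) θ - G1 d (rb b') θ = ((b (j₀, d - 1 - j₀) : ℝ) - b' (j₀, d - 1 - j₀)) * θ ^ j₀ := by
  unfold G1
  rw [← Finset.sum_sub_distrib, Finset.sum_eq_single (j₀, d - 1 - j₀)]
  · have : d - (j₀, d - 1 - j₀).1 - (j₀, d - 1 - j₀).2 = 1 := by simp only; omega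
    rw [if_pos this]
    unfold rb
    ring
  · intro p _ hp
    by_cases h2 : d - p.1 - p.2 = 1
    · have h3 : p ≠ (0, d - 2) := by
        rintro rfl
        simp only at h2
        omega
      unfold rb
      rw [h p h3 hp]
      ring
    · rw [if_neg h2]
      ring
  · intro hp
    exfalso
    apply hp
    rw [mem_Jx]
    simp only
    omega

lemma G1'_diff {d : ℕ} (hd : 4 ≤ d) {b b' : ℕ × ℕ → ℤ} {j₀ : ℕ} (hj : j₀ < d)
    (h : ∀ p, p ≠ (0, d - 2) → p ≠ (j₀, d - 1 - j₀) → b p = b' p) (θ : ℝ) :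
    G1' d (rb b) θ - G1' d (rb b') θ =
      ((b (j₀, d - 1 - j₀) : ℝ) - b' (j₀, d - 1 - j₀)) * (j₀ * θ ^ (j₀ - 1)) := by
  unfold G1'
  rw [← Finset.sum_sub_distrib, Finset.sum_eq_single (j₀, d - 1 - j₀)]
  · have : d - (j₀, d - 1 - j₀).1 - (j₀, d - 1 - j₀).2 = 1 := by simp only; omega
    rw [if_pos this]
    unfold rb
    ring
  · intro p _ hp
    by_cases h2 : d - p.1 - p.2 = 1
    · have h3 : p ≠ (0, d - 2) := by
        rintro rfl
        simp only at h2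
        omega
      unfold rb
      rw [h p h3 hp]
      ring
    · rw [if_neg h2]
      ring
  · intro hp
    exfalso
    apply hp
    rw [mem_Jx]
    simp only
    omega

lemma G2_le {d : ℕ} {b : ℕ × ℕ → ℤ} {H : ℕ} (hb : ∀ p, |b p| ≤ H) (θ : ℝ) :
    |G2 d (rb b) θ| ≤ (∑ p ∈ Jx d, |θ| ^ p.1) * H := by
  unfold G2
  refine (Finset.abs_sum_le_sum_abs _ _).trans ?_
  rw [Finset.sum_mul]
  apply Finset.sum_le_sum
  intro p _
  rw [abs_mul, mul_comm]
  have h1 : |rb b p| ≤ H := by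
    unfold rb
    exact_mod_cast hb p
  apply mul_le_mul _ h1 (abs_nonneg _) (by positivity)
  split_ifs
  · rw [abs_pow]
  · rw [abs_zero]; positivity

open Classical in
lemma D_theta {A : ℤ[X]} (hA : Irreducible (A.map (Int.castRingHom ℚ))) (hd : 4 ≤ A.natDegree)
    {θ : ℝ} (hθ : θ ∈ Rt A) : ∃ C : ℝ, 0 ≤ C ∧ ∀ H : ℕ, 1 ≤ H → ∀ S : Finset (ℕ × ℕ → ℤ),
      S ⊆ Bo (Jx A.natDegree) H → (∀ b ∈ S, |gam A A.natDegree (rb b) θ| < 1) →
      (S.card : ℝ) ≤ C * Real.sqrt H * (2 * H + 1) ^ ((Jx A.natDegree).card - 2) := by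
  have hA0 := ne_zero_of_irr hA
  have hD := deriv_ne_zero hA ((mem_Rt hA0).1 hθ)
  obtain ⟨d, hdd⟩ : ∃ d, d = A.natDegree := ⟨_, rfl⟩
  rw [← hdd] at hd ⊢
  obtain ⟨D, hDd⟩ : ∃ D, D = (derivative (Ar A)).eval θ := ⟨_, rfl⟩
  obtain ⟨E, hEd⟩ : ∃ E, E = (derivative (derivative (Ar A))).eval θ := ⟨_, rfl⟩
  rw [← hDd] at hD
  have hDpos : 0 < |D| := abs_pos.2 hD
  obtain ⟨C₁, hC1⟩ : ∃ C₁ : ℝ, C₁ = 1 + ∑ p ∈ Jx d, |θ| ^ p.1 := ⟨_, rfl⟩
  have hC10 : 0 < C₁ := by
    have : 0 ≤ ∑ p ∈ Jx d, |θ| ^ p.1 := Finset.sum_nonneg fun _ _ => by positivity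
    linarith
  -- second linear form
  obtain ⟨j₀, a₂, hj0, ha2, hell⟩ : ∃ (j₀ : ℕ) (a₂ : ℝ), (j₀ = 0 ∨ j₀ = 1) ∧ 0 < a₂ ∧
      ∀ b b' : ℕ × ℕ → ℤ, (∀ p, p ≠ (0, d - 2) → p ≠ (j₀, d - 1 - j₀) → b p = b' p) →
        |ell A d (rb b) θ - ell A d (rb b') θ| =
          a₂ * |(b (j₀, d - 1 - j₀) : ℝ) - b' (j₀, d - 1 - j₀)| := by
    have hform : ∀ b b' : ℕ × ℕ → ℤ, ell A d (rb b) θ - ell A d (rb b') θ =
        -(E / (2 * D)) * (G1 d (rb b) θ - G1 d (rb b') θ) + (G1' d (rb b) θ - G1' d (rb b') θ) := by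
      intro b b'
      unfold ell kap
      rw [← hDd, ← hEd]
      field_simp
      ring
    by_cases hE : E = 0
    · refine ⟨1, 1, Or.inr rfl, one_pos, ?_⟩
      intro b b' h
      rw [hform, G1'_diff hd (by omega : 1 < d) h, hE]
      simp
    · refine ⟨0, |E / (2 * D)|, Or.inl rfl, abs_pos.2 (div_ne_zero hE (by positivity)), ?_⟩
      intro b b' h
      rw [hform, G1'_diff hd (by omega : 0 < d) h, G1_diff hd (by omega : 0 < d) h, ← abs_mul,
        ← abs_neg]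
      congr 1
      simp
  refine ⟨3 * (2 * Real.sqrt C₁ * |D| + 1) + 3 * (2 * Real.sqrt C₁ / a₂ + 1), by positivity, ?_⟩
  intro H hH S hS hSg
  have hH' : (1 : ℝ) ≤ H := by exact_mod_cast hH
  have hH0 : (0 : ℝ) < H := by linarith
  obtain ⟨h, hh⟩ : ∃ h, h = Real.sqrt H := ⟨_, rfl⟩
  have hh1 : 1 ≤ h := by rw [hh]; exact Real.one_le_sqrt.2 hH'
  have hh2 : h * h = H := by rw [hh]; exact Real.mul_self_sqrt hH0.le
  obtain ⟨s, hs⟩ : ∃ s, s = Real.sqrt C₁ := ⟨_, rfl⟩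
  have hs0 : 0 < s := by rw [hs]; exact Real.sqrt_pos.2 hC10
  have hs2 : s * s = C₁ := by rw [hs]; exact Real.mul_self_sqrt hC10.le
  obtain ⟨Y, hY⟩ : ∃ Y, Y = s * h := ⟨_, rfl⟩
  have hY0 : 0 ≤ Y := by rw [hY]; positivity
  have hp1 : ((0, d - 2) : ℕ × ℕ) ∈ Jx d := by rw [mem_Jx]; simp only; omega
  have hp2 : ((0, d - 1) : ℕ × ℕ) ∈ Jx d := by rw [mem_Jx]; simp only; omega
  have hp3 : ((j₀, d - 1 - j₀) : ℕ × ℕ) ∈ Jx d := by
    rw [mem_Jx]; simp only; omega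
  have hfib : ∀ T ⊆ S, ∀ c ∈ T, (T.filter (fun b => res {(0, d - 2)} b = res {(0, d - 2)} c)).card ≤
      3 := by
    intro T hT c hc
    have h4 := sep_card (T.filter (fun b => res {(0, d - 2)} b = res {(0, d - 2)} c))
        (fun b => gam A d (rb b) θ) (B := 1) (lo := -1) (hi := 1) (by norm_num) (by norm_num) ?_ ?_
    · have h5 : (1 - (-1 : ℝ)) / 1 + 1 = ((3 : ℕ) : ℝ) := by norm_num
      rw [h5] at h4
      exact_mod_cast h4
    · intro b hb
      rw [Finset.mem_filter] at hb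
      have := abs_lt.1 (hSg b (hT hb.1))
      exact ⟨this.1.le, this.2.le⟩
    · intro b hb b' hb' hne
      rw [Finset.mem_filter] at hb hb'
      have h6 : ∀ p, p ≠ (0, d - 2) → b p = b' p := by
        intro p hp
        have := congrFun (hb.2.trans hb'.2.symm) p
        simp only [res, Finset.mem_singleton, if_neg hp] at this
        exact this
      rw [gam_diff A hd (fun p hp => by unfold rb; rw [h6 p hp]) θ]
      unfold rb
      have h7 : b (0, d - 2) ≠ b' (0, d - 2) := by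
        intro h8
        apply hne
        funext p
        by_cases hp : p = (0, d - 2)
        · rw [hp, h8]
        · exact h6 p hp
      have h8 : (1 : ℤ) ≤ |b (0, d - 2) - b' (0, d - 2)| := Int.one_le_abs (sub_ne_zero.2 h7)
      exact_mod_cast h8
  obtain ⟨S1, hS1⟩ : ∃ S1, S1 = S.filter (fun b => |kap A d (rb b) θ| ≤ Y) := ⟨_, rfl⟩
  obtain ⟨S2, hS2⟩ : ∃ S2, S2 = S.filter (fun b => |ell A d (rb b) θ| ≤ Y) := ⟨_, rfl⟩
  have hS1S : S1 ⊆ S := by rw [hS1]; exact Finset.filter_subset _ _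
  have hS2S : S2 ⊆ S := by rw [hS2]; exact Finset.filter_subset _ _
  have hcov : S ⊆ S1 ∪ S2 := by
    intro b hb
    rw [Finset.mem_union, hS1, hS2, Finset.mem_filter, Finset.mem_filter]
    by_contra hcon
    push Not at hcon
    have k1 := hcon.1 hb
    have k2 := hcon.2 hb
    have k3 : Y * Y < |kap A d (rb b) θ| * |ell A d (rb b) θ| :=
      mul_lt_mul'' k1 k2 hY0 hY0
    have k4 := hSg b hb
    rw [gam_ell] at k4
    have k5 := G2_le (d := d) (mem_Bo.1 (hS hb)).1 θ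
    have k6 : |kap A d (rb b) θ * ell A d (rb b) θ| ≤
        |kap A d (rb b) θ * ell A d (rb b) θ + G2 d (rb b) θ| + |G2 d (rb b) θ| := by
      have := abs_sub (kap A d (rb b) θ * ell A d (rb b) θ + G2 d (rb b) θ) (G2 d (rb b) θ)
      rw [add_sub_cancel_right] at this
      exact this
    rw [abs_mul] at k6
    have k7 : Y * Y = C₁ * H := by
      rw [hY, ← hs2, ← hh2]; ring
    rw [k7, hC1, add_mul, one_mul] at k3
    linarith
  have c1 := two_coord (H := H) (hS1S.trans hS) hp1 hp2 (by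
      intro h0
      have := (Prod.mk.inj h0).2
      omega) (hfib S1 hS1S) (fun b => kap A d (rb b) θ) (a := 1 / |D|) (Y := Y) (by positivity) hY0
      (by
        intro b hb
        rw [hS1, Finset.mem_filter] at hb
        exact hb.2) (by
        intro b _ b' _ hag
        have h1 := G1_diff hd (by omega : 0 < d) (b := b) (b' := b') (by simpa using hag) θ
        have h2 : kap A d (rb b) θ - kap A d (rb b') θ =
          -((1 / D) * (G1 d (rb b) θ - G1 d (rb b') θ)) := by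
          unfold kap
          rw [← hDd]
          ring
        rw [h2, h1, abs_neg, abs_mul, abs_div, abs_one]
        simp)
  have c2 := two_coord (H := H) (hS2S.trans hS) hp1 hp3 (by
      intro h0
      have h1 := (Prod.mk.inj h0).2
      have h2 := (Prod.mk.inj h0).1
      omega) (hfib S2 hS2S) (fun b => ell A d (rb b) θ) (a := a₂) (Y := Y) ha2 hY0
      (by
        intro b hb
        rw [hS2, Finset.mem_filter] at hb
        exact hb.2) (by
        intro b _ b' _ hag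
        exact hell b b' hag)
  obtain ⟨X, hX⟩ : ∃ X : ℝ, X = (2 * (H : ℝ) + 1) ^ ((Jx d).card - 2) := ⟨_, rfl⟩
  have hX0 : 0 ≤ X := by rw [hX]; positivity
  rw [← hX] at c1 c2
  rw [← hs, ← hh, ← hX]
  have c3 := (Finset.card_le_card hcov).trans (Finset.card_union_le _ _)
  have c4 : (S.card : ℝ) ≤ S1.card + S2.card := by exact_mod_cast c3
  have e1 : ((3 : ℕ) : ℝ) * (2 * Y / (1 / |D|) + 1) * X ≤ 3 * (2 * s * |D| + 1) * h * X := by
    apply mul_le_mul_of_nonneg_right _ hX0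
    have : 2 * Y / (1 / |D|) = 2 * s * |D| * h := by
      rw [hY]
      field_simp
    rw [this]
    push_cast
    linarith
  have e2 : ((3 : ℕ) : ℝ) * (2 * Y / a₂ + 1) * X ≤ 3 * (2 * s / a₂ + 1) * h * X := by
    apply mul_le_mul_of_nonneg_right _ hX0
    have : 2 * Y / a₂ = 2 * s / a₂ * h := by
      rw [hY]
      ring
    rw [this]
    push_cast
    linarith
  linarith

open Classical in
lemma rangeD5 {A : ℤ[X]} (hA : Irreducible (A.map (Int.castRingHom ℚ))) (hd : 4 ≤ A.natDegree) :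
    ∃ C : ℝ, 0 ≤ C ∧ ∀ H : ℕ, 1 ≤ H → ∀ S : Finset (ℕ × ℕ → ℤ),
      S ⊆ Bo (Jx A.natDegree) H → (∀ b ∈ S, ∃ θ ∈ Rt A, |gam A A.natDegree (rb b) θ| < 1) →
      (S.card : ℝ) ≤ C * Real.sqrt H * (2 * H + 1) ^ ((Jx A.natDegree).card - 2) := by
  choose! C hC0 hC using fun θ (hθ : θ ∈ Rt A) => D_theta hA hd hθ
  refine ⟨∑ θ ∈ Rt A, C θ, Finset.sum_nonneg hC0, ?_⟩
  intro H hH S hS hSP
  have hcov : S ⊆ (Rt A).biUnion (fun θ => S.filter (fun b => |gam A A.natDegree (rb b) θ| < 1)) := by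
    intro b hb
    obtain ⟨θ, hθ, h⟩ := hSP b hb
    rw [Finset.mem_biUnion]
    exact ⟨θ, hθ, Finset.mem_filter.2 ⟨hb, h⟩⟩
  have h1 := (Finset.card_le_card hcov).trans Finset.card_biUnion_le
  have h2 : (S.card : ℝ) ≤ ((∑ θ ∈ Rt A, (S.filter (fun b => |gam A A.natDegree (rb b) θ| < 1)).card :
    ℕ) : ℝ) := by exact_mod_cast h1
  refine h2.trans ?_
  push_cast
  rw [Finset.sum_mul, Finset.sum_mul]
  apply Finset.sum_le_sum
  intro θ hθ
  apply hC θ hθ H hH _ ((Finset.filter_subset _ _).trans hS)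
  intro b hb
  exact (Finset.mem_filter.1 hb).2

end Pool.Agent.TH728.FX
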