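import Pool.Agent.TH728.FX.Fine2

/-!
The volume attached to an integer point.
-/

open Filter Topology MeasureTheory
open scoped Pointwise

namespace Pool.Agent.TH728.FX

/-- the region -/
def Rg (d : ℕ) (u w : ℤ) : Set (↥(Jy d) → ℝ) :=
  {t | (∀ p, |t p| ≤ 1) ∧ |∑ p, t p * (w : ℝ) ^ p.1.1 * (u : ℝ) ^ p.1.2| ≤ 1}

/-- the probability -/
noncomputable def rho (d : ℕ) (u w : ℤ) : ℝ := (volume (Rg d u w)).toReal / 2 ^ (Jy d).card

lemma Rg_bdd (d : ℕ) (u w : ℤ) : Bornology.IsBounded (Rg d u w) := by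
  apply (Metric.isBounded_closedBall (x := (0 : ↥(Jy d) → ℝ)) (r := 1)).subset
  intro t ht
  rw [mem_closedBall_zero_iff, pi_norm_le_iff_of_nonneg (by norm_num)]
  exact ht.1

lemma Rg_closed (d : ℕ) (u w : ℤ) : IsClosed (Rg d u w) := by
  have h : Rg d u w = (⋂ p, {t : ↥(Jy d) → ℝ | |t p| ≤ 1}) ∩
      {t | |∑ p, t p * (w : ℝ) ^ p.1.1 * (u : ℝ) ^ p.1.2| ≤ 1} := by
    ext t
    simp [Rg]
  rw [h]
  apply IsClosed.inter
  · apply isClosed_iInter
    intro p
    exact isClosed_le (by fun_prop) continuous_const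
  · exact isClosed_le (by fun_prop) continuous_const

lemma Rg_convex (d : ℕ) (u w : ℤ) : Convex ℝ (Rg d u w) := by
  intro s hs t ht a b ha hb hab
  obtain ⟨h1, h2⟩ := hs
  obtain ⟨h3, h4⟩ := ht
  constructor
  · intro p
    simp only [Pi.add_apply, Pi.smul_apply, smul_eq_mul]
    refine (abs_add_le _ _).trans ?_
    rw [abs_mul, abs_mul, abs_of_nonneg ha, abs_of_nonneg hb]
    have e1 := mul_le_mul_of_nonneg_left (h1 p) ha
    have e2 := mul_le_mul_of_nonneg_left (h3 p) hb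
    linarith
  · have e : ∑ p : ↥(Jy d), (a • s + b • t) p * (w : ℝ) ^ p.1.1 * (u : ℝ) ^ p.1.2 =
      a * ∑ p : ↥(Jy d), s p * (w : ℝ) ^ p.1.1 * (u : ℝ) ^ p.1.2 +
      b * ∑ p : ↥(Jy d), t p * (w : ℝ) ^ p.1.1 * (u : ℝ) ^ p.1.2 := by
      rw [Finset.mul_sum, Finset.mul_sum, ← Finset.sum_add_distrib]
      apply Finset.sum_congr rfl
      intro p _
      simp only [Pi.add_apply, Pi.smul_apply, smul_eq_mul]
      ring
    rw [e]
    refine (abs_add_le _ _).trans ?_
    rw [abs_mul, abs_mul, abs_of_nonneg ha, abs_of_nonneg hb]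
    have e1 := mul_le_mul_of_nonneg_left h2 ha
    have e2 := mul_le_mul_of_nonneg_left h4 hb
    linarith

open Classical in
lemma card_Rg (d : ℕ) (u w : ℤ) (n : ℕ) (hn : 1 ≤ n) :
    Nat.card ↑(Rg d u w ∩ (n : ℝ)⁻¹ • (Submodule.span ℤ (Set.range (Pi.basisFun ℝ ↥(Jy d))) :
      Set (↥(Jy d) → ℝ))) = MP d u w 0 n := by
  have hn0 : (0 : ℝ) < n := by exact_mod_cast (by omega : 0 < n)
  have : NeZero n := ⟨by omega⟩
  obtain ⟨F, hF⟩ : ∃ F : (ℕ × ℕ → ℤ) → (↥(Jy d) → ℝ), F = fun c p => (c p.1 : ℝ) / n := ⟨_, rfl⟩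
  obtain ⟨S, hS⟩ : ∃ S, S = (Bo (Jy d) n).filter (fun c => |0 + Lc d u w c| ≤ n) := ⟨_, rfl⟩
  have hsum : ∀ c : ℕ × ℕ → ℤ, ∑ p : ↥(Jy d), F c p * (w : ℝ) ^ p.1.1 * (u : ℝ) ^ p.1.2 =
      (Lc d u w c : ℝ) / n := by
    intro c
    unfold Lc
    rw [hF]
    push_cast
    rw [Finset.sum_div, ← Finset.sum_coe_sort (Jy d)]
    apply Finset.sum_congr rfl
    intro p _
    ring
  have hset : Rg d u w ∩ (n : ℝ)⁻¹ • (Submodule.span ℤ (Set.range (Pi.basisFun ℝ ↥(Jy d))) :
      Set (↥(Jy d) → ℝ)) = F '' (S : Set (ℕ × ℕ → ℤ)) := by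
    ext t
    constructor
    · rintro ⟨⟨h1, h2⟩, h3⟩
      rw [Set.mem_smul_set] at h3
      obtain ⟨y, hy, rfl⟩ := h3
      rw [SetLike.mem_coe, Module.Basis.mem_span_iff_repr_mem] at hy
      choose z hz using hy
      have hz' : ∀ p, y p = (z p : ℝ) := by
        intro p
        have := hz p
        simpa using this.symm
      obtain ⟨c, hc⟩ : ∃ c : ℕ × ℕ → ℤ, c = fun p => if h : p ∈ Jy d then z ⟨p, h⟩ else 0 :=
        ⟨_, rfl⟩
      have hcz : ∀ p : ↥(Jy d), c p.1 = z p := by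
        intro p
        rw [hc]
        simp only
        rw [dif_pos p.2]
      have hFc : F c = (n : ℝ)⁻¹ • y := by
        funext p
        rw [hF, Pi.smul_apply, smul_eq_mul, hz', ← hcz]
        ring
      refine ⟨c, ?_, hFc⟩
      rw [hS, Finset.mem_coe, Finset.mem_filter, mem_Bo, zero_add]
      refine ⟨⟨?_, ?_⟩, ?_⟩
      · intro p
        by_cases hp : p ∈ Jy d
        · have h4 := h1 ⟨p, hp⟩
          rw [← hFc, hF] at h4
          simp only at h4
          rw [abs_div, Nat.abs_cast, div_le_one hn0] at h4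
          exact_mod_cast h4
        · rw [hc]
          simp only
          rw [dif_neg hp]
          simp
      · intro p hp
        rw [hc]
        simp only
        rw [dif_neg hp]
      · rw [← hFc, hsum, abs_div, Nat.abs_cast, div_le_one hn0] at h2
        exact_mod_cast h2
    · rintro ⟨c, hcS, rfl⟩
      rw [hS, Finset.mem_coe, Finset.mem_filter, mem_Bo, zero_add] at hcS
      obtain ⟨⟨h1, h2⟩, h3⟩ := hcS
      refine ⟨⟨?_, ?_⟩, ?_⟩
      · intro p
        rw [hF]
        simp only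
        rw [abs_div, Nat.abs_cast, div_le_one hn0]
        exact_mod_cast h1 p.1
      · rw [hsum, abs_div, Nat.abs_cast, div_le_one hn0]
        exact_mod_cast h3
      · rw [Set.mem_smul_set]
        refine ⟨fun p => (c p.1 : ℝ), ?_, ?_⟩
        · rw [SetLike.mem_coe, Module.Basis.mem_span_iff_repr_mem]
          intro p
          exact ⟨c p.1, by simp⟩
        · funext p
          rw [hF, Pi.smul_apply, smul_eq_mul]
          ring
  rw [hset, Nat.card_coe_set_eq, Set.InjOn.ncard_image, Set.ncard_coe_finset, hS]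
  · rfl
  · intro c hc c' hc' h
    rw [hS, Finset.mem_coe, Finset.mem_filter, mem_Bo] at hc hc'
    funext p
    by_cases hp : p ∈ Jy d
    · have h1 := congrFun h ⟨p, hp⟩
      rw [hF] at h1
      simp only at h1
      have h2 : (c p : ℝ) = c' p := by
        have := (div_left_inj' hn0.ne').1 h1
        exact this
      exact_mod_cast h2
    · rw [hc.1.2 p hp, hc'.1.2 p hp]

lemma MP_tendsto (d : ℕ) (u w : ℤ) : Tendsto (fun n : ℕ =>
    (MP d u w 0 n : ℝ) / (2 * n + 1) ^ (Jy d).card) atTop (𝓝 (rho d u w)) := by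
  have h1 := tendsto_card_div_pow_atTop_volume (Rg d u w) (Rg_bdd d u w)
    (Rg_closed d u w).measurableSet ((Rg_convex d u w).addHaar_frontier volume)
  have h2 : Tendsto (fun n : ℕ => (MP d u w 0 n : ℝ) / n ^ (Jy d).card) atTop
      (𝓝 (volume.real (Rg d u w))) := by
    refine h1.congr' ?_
    filter_upwards [eventually_ge_atTop 1] with n hn
    rw [card_Rg d u w n hn, Fintype.card_coe]
  have h3 : Tendsto (fun n : ℕ => ((n : ℝ) / (2 * n + 1)) ^ (Jy d).card) atTop
      (𝓝 ((1 / 2) ^ (Jy d).card)) := by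
    apply Tendsto.pow
    have h4 : Tendsto (fun n : ℕ => 1 / (2 + 1 / (n : ℝ))) atTop (𝓝 (1 / (2 + 0))) := by
      apply Tendsto.div tendsto_const_nhds
      · apply Tendsto.add tendsto_const_nhds tendsto_one_div_atTop_nhds_zero_nat
      · norm_num
    rw [add_zero] at h4
    refine h4.congr' ?_
    filter_upwards [eventually_ge_atTop 1] with n hn
    have hn0 : (0 : ℝ) < n := by exact_mod_cast (by omega : 0 < n)
    field_simp
  have h5 := h2.mul h3
  have e : volume.real (Rg d u w) * (1 / 2) ^ (Jy d).card = rho d u w := by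
    unfold rho Measure.real
    rw [one_div, inv_pow]
    rfl
  rw [e] at h5
  refine h5.congr' ?_
  filter_upwards [eventually_ge_atTop 1] with n hn
  have hn0 : (0 : ℝ) < n := by exact_mod_cast (by omega : 0 < n)
  rw [div_pow]
  field_simp

end Pool.Agent.TH728.FX
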