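import Pool.Agent.TH728.FX.Lin

/-!
Two or three points near an asymptote, in coordinates at infinity.
-/

open Polynomial

namespace Pool.Agent.TH728.FX

/-- normalised second coefficient -/
noncomputable def kap (A : ℤ[X]) (d : ℕ) (β : ℕ × ℕ → ℝ) (θ : ℝ) : ℝ :=
  -(G1 d β θ / (derivative (Ar A)).eval θ)

/-- the flex number -/
noncomputable def gam (A : ℤ[X]) (d : ℕ) (β : ℕ × ℕ → ℝ) (θ : ℝ) : ℝ :=
  q2 A d β θ (kap A d β θ)

lemma q1_kap (A : ℤ[X]) (d : ℕ) (β : ℕ × ℕ → ℝ) {θ : ℝ}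
    (h : (derivative (Ar A)).eval θ ≠ 0) : q1 A d β θ (kap A d β θ) = 0 := by
  unfold q1 kap
  field_simp
  ring

set_option maxHeartbeats 4000000 in
/-- the main estimates on the line through two points near an asymptote -/
lemma line_main {A : ℤ[X]} (hA : Irreducible (A.map (Int.castRingHom ℚ))) (d : ℕ) (K₀ : ℝ)
    (hK0 : 1 ≤ K₀) : ∃ r₀ K a : ℝ, 0 < r₀ ∧ r₀ ≤ 1 ∧ 1 ≤ K ∧ K₀ ≤ K ∧ 0 < a ∧
    (∀ θ ∈ Rt A, ∀ β : ℕ × ℕ → ℝ, (∀ p, |β p| ≤ 1) → |gam A d β θ| ≤ K) ∧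
    ∀ β : ℕ × ℕ → ℝ, (∀ p, |β p| ≤ 1) → ∀ θ ∈ Rt A, ∀ r v : ℝ, 0 < r → r ≤ r₀ → 0 ≤ v →
      (∀ σ t t' : ℝ, |σ| ≤ r → |t - θ| ≤ K * r → |t' - θ| ≤ K * r → |Ps A d β σ t| ≤ v →
        a * |t - t'| ≤ v + |Ps A d β σ t'|) ∧
      ∀ σ₁ t₁ σ₂ t₂ : ℝ, |σ₁| ≤ r → |σ₂| ≤ r → |t₁ - θ| ≤ K₀ * r → |t₂ - θ| ≤ K₀ * r →
        |Ps A d β σ₁ t₁| ≤ v → |Ps A d β σ₂ t₂| ≤ v → σ₁ ≠ σ₂ → v ≤ |σ₁ - σ₂| →
        ∃ α b q : ℝ, t₁ = α + b * σ₁ ∧ t₂ = α + b * σ₂ ∧
          |q - gam A d β θ| ≤ K * (r + v / |σ₁ - σ₂|) ∧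
          |(Ar A).eval α| ≤ 2 * v * r / |σ₁ - σ₂| + (|q| + K * r) * r ^ 2 ∧
          ∀ σ₃ : ℝ, |σ₃| ≤ r → |α + b * σ₃ - θ| ≤ K * r ∧
            |Ps A d β σ₁ t₁ * (σ₃ - σ₂) + Ps A d β σ₃ (α + b * σ₃) * (σ₂ - σ₁) +
              Ps A d β σ₂ t₂ * (σ₁ - σ₃) + (σ₁ - σ₃) * (σ₃ - σ₂) * (σ₂ - σ₁) * q| ≤
              K * r * |(σ₁ - σ₃) * (σ₃ - σ₂) * (σ₂ - σ₁)| := by
  have hA0 := ne_zero_of_irr hA
  -- lower bound for the derivative
  obtain ⟨a₁, ha1, hDa⟩ : ∃ a₁ : ℝ, 0 < a₁ ∧ ∀ θ ∈ Rt A, a₁ ≤ |(derivative (Ar A)).eval θ| := by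
    rcases (Rt A).eq_empty_or_nonempty with h0 | hne
    · exact ⟨1, one_pos, fun θ hθ => by rw [h0] at hθ; exact absurd hθ (Finset.notMem_empty θ)⟩
    · obtain ⟨θ0, hθ0, hmin⟩ := Finset.exists_min_image (Rt A)
        (fun θ => |(derivative (Ar A)).eval θ|) hne
      exact ⟨_, abs_pos.2 (deriv_ne_zero hA ((mem_Rt hA0).1 hθ0)), hmin⟩
  -- bound for the roots
  obtain ⟨B₀, hB0, hRB⟩ : ∃ B₀ : ℝ, 1 ≤ B₀ ∧ ∀ θ ∈ Rt A, |θ| ≤ B₀ := by
    refine ⟨1 + ∑ θ ∈ Rt A, |θ|, ?_, ?_⟩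
    · have : 0 ≤ ∑ θ ∈ Rt A, |θ| := Finset.sum_nonneg fun _ _ => abs_nonneg _
      linarith
    · intro θ hθ
      have := Finset.single_le_sum (f := fun θ : ℝ => |θ|) (fun _ _ => abs_nonneg _) hθ
      linarith
  obtain ⟨Ks, hKs, hls⟩ := ps_lip_s A d (B₀ + K₀) (by linarith)
  -- slope bound
  obtain ⟨B₁, hB1⟩ : ∃ B₁ : ℝ, B₁ = 2 / a₁ * (2 + Ks) := ⟨_, rfl⟩
  have hB10 : 0 ≤ B₁ := by rw [hB1]; positivity
  obtain ⟨Kg, hKg, hg⟩ := g_lip d (B₀ + K₀) (by linarith)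
  obtain ⟨B, hB⟩ : ∃ B : ℝ, B = B₀ + K₀ + B₁ + Kg / a₁ := ⟨_, rfl⟩
  have hKga : 0 ≤ Kg / a₁ := by positivity
  have hB1' : 1 ≤ B := by linarith
  obtain ⟨Kt, hKt, hlt⟩ := ps_lip_t A d (B + B) (by linarith)
  obtain ⟨Kl, hKl, hline⟩ := ps_line A d B
  obtain ⟨Kq, hKq, hlq⟩ := q_lip A d B hB1'
  obtain ⟨Kτ, hKτ, htay⟩ := poly_tay (Ar A) B hB1'
  -- final constants
  obtain ⟨C₁, hC1⟩ : ∃ C₁ : ℝ, C₁ = 2 / a₁ * (4 + 2 * Kl) := ⟨_, rfl⟩
  have hC10 : 0 ≤ C₁ := by rw [hC1]; positivity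
  obtain ⟨C₂, hC2⟩ : ∃ C₂ : ℝ, C₂ = 1 / a₁ * (2 + Kl + Kq * C₁) := ⟨_, rfl⟩
  have hC20 : 0 ≤ C₂ := by rw [hC2]; positivity
  obtain ⟨K, hK⟩ : ∃ K : ℝ, K = Kl + Kq * (C₁ + C₂) + (K₀ + 2 * B₁) := ⟨_, rfl⟩
  have hKqC : 0 ≤ Kq * (C₁ + C₂) := by positivity
  have hK1 : 1 ≤ K := by linarith
  obtain ⟨D₀, hD0⟩ : ∃ D₀ : ℝ, D₀ = Kt * (1 + 2 * K) + Kτ * K + 1 := ⟨_, rfl⟩
  have hD0pos : 0 < D₀ := by rw [hD0]; positivity
  obtain ⟨r₀, hr0⟩ : ∃ r₀ : ℝ, r₀ = min (a₁ / (2 * D₀)) (1 / K) := ⟨_, rfl⟩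
  have hr0pos : 0 < r₀ := by rw [hr0]; positivity
  have hr0a : r₀ * D₀ ≤ a₁ / 2 := by
    have h1 : r₀ ≤ a₁ / (2 * D₀) := by rw [hr0]; exact min_le_left _ _
    have h2 : a₁ / (2 * D₀) * D₀ = a₁ / 2 := by field_simp
    rw [← h2]
    exact mul_le_mul_of_nonneg_right h1 hD0pos.le
  have hr0K : K * r₀ ≤ 1 := by
    have h1 : r₀ ≤ 1 / K := by rw [hr0]; exact min_le_right _ _
    rw [le_div_iff₀ (by linarith)] at h1
    linarith
  have hr01 : r₀ ≤ 1 := by nlinarith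
  have hsmall1 : ∀ r, 0 < r → r ≤ r₀ → Kt * ((1 + 2 * K) * r) ≤ a₁ / 2 := by
    intro r hr hrr
    have h1 : r * D₀ ≤ r₀ * D₀ := mul_le_mul_of_nonneg_right hrr hD0pos.le
    have h2 : 0 ≤ r * (Kτ * K + 1) := by positivity
    rw [hD0] at h1 hr0a
    nlinarith
  have hsmall2 : ∀ r, 0 < r → r ≤ r₀ → Kτ * (K * r) ≤ a₁ / 2 := by
    intro r hr hrr
    have h1 : r * D₀ ≤ r₀ * D₀ := mul_le_mul_of_nonneg_right hrr hD0pos.le
    have h2 : 0 ≤ r * (Kt * (1 + 2 * K) + 1) := by positivity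
    rw [hD0] at h1 hr0a
    nlinarith
  have hkapB : ∀ θ ∈ Rt A, ∀ β : ℕ × ℕ → ℝ, (∀ p, |β p| ≤ 1) → |kap A d β θ| ≤ Kg / a₁ := by
    intro θ hθ β hβ
    unfold kap
    rw [abs_neg, abs_div]
    obtain ⟨_, _, _, g4, _, _⟩ := hg β hβ θ θ ((hRB θ hθ).trans (by linarith))
      ((hRB θ hθ).trans (by linarith))
    apply div_le_div₀ (by linarith) g4 ha1 (hDa θ hθ)
  obtain ⟨Kγ, hKγ⟩ : ∃ Kγ : ℝ, Kγ = Kl := ⟨_, rfl⟩
  refine ⟨r₀, K, a₁ / 2, hr0pos, hr01, hK1, by linarith, by positivity, ?_, ?_⟩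
  · intro θ hθ β hβ
    have h1 := hline β hβ θ (kap A d β θ) ((hRB θ hθ).trans (by linarith))
      ((hkapB θ hθ β hβ).trans (by linarith))
    exact h1.b2.trans (by linarith)
  · intro β hβ θ hθ r v hr hrr hv
    have hθB := hRB θ hθ
    have hKr1 : K * r ≤ 1 := by
      have : K * r ≤ K * r₀ := mul_le_mul_of_nonneg_left hrr (by linarith)
      linarith
    have hr1 : r ≤ 1 := hrr.trans hr01
    have hDθ := hDa θ hθ
    refine ⟨?_, ?_⟩
    · intro σ t t' hσ ht ht' hP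
      have h1 : |t| ≤ B + B := by
        have := abs_add_le (t - θ) θ
        rw [sub_add_cancel] at this
        linarith
      have h1' : |t'| ≤ B + B := by
        have := abs_add_le (t' - θ) θ
        rw [sub_add_cancel] at this
        linarith
      have h2 := hlt β hβ σ t t' θ (hσ.trans hr1) h1 h1' (by linarith)
      have h3 : Kt * (|σ| + |t - θ| + |t' - θ|) * |t - t'| ≤ a₁ / 2 * |t - t'| := by
        apply mul_le_mul_of_nonneg_right _ (abs_nonneg _)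
        refine le_trans ?_ (hsmall1 r hr hrr)
        apply mul_le_mul_of_nonneg_left _ (by linarith)
        linarith
      have h4 : a₁ * |t - t'| ≤ |(derivative (Ar A)).eval θ * (t - t')| := by
        rw [abs_mul]
        exact mul_le_mul_of_nonneg_right hDθ (abs_nonneg _)
      have h5 : |(derivative (Ar A)).eval θ * (t - t')| ≤
          |Ps A d β σ t - Ps A d β σ t' - (derivative (Ar A)).eval θ * (t - t')| +
          (|Ps A d β σ t| + |Ps A d β σ t'|) := by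
        have e : (derivative (Ar A)).eval θ * (t - t') = (Ps A d β σ t - Ps A d β σ t') -
          (Ps A d β σ t - Ps A d β σ t' - (derivative (Ar A)).eval θ * (t - t')) := by ring
        conv_lhs => rw [e]
        refine (abs_sub _ _).trans ?_
        have := abs_sub (Ps A d β σ t) (Ps A d β σ t')
        linarith
      linarith
    · intro σ₁ t₁ σ₂ t₂ hσ1 hσ2 ht1 ht2 hP1 hP2 hne hvΔ
      obtain ⟨Δ, hΔ⟩ : ∃ Δ : ℝ, Δ = |σ₁ - σ₂| := ⟨_, rfl⟩
      have hΔpos : 0 < Δ := by rw [hΔ]; exact abs_pos.2 (sub_ne_zero.2 hne)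
      rw [← hΔ] at hvΔ ⊢
      have hK0K : K₀ ≤ K := by linarith
      have hK0r : K₀ * r ≤ K * r := mul_le_mul_of_nonneg_right hK0K hr.le
      have hΔ2 : Δ ≤ 2 * r := by
        rw [hΔ]
        exact (abs_sub _ _).trans (by linarith)
      have ht1B : |t₁| ≤ B₀ + K₀ := by
        have := abs_add_le (t₁ - θ) θ
        rw [sub_add_cancel] at this
        have : K₀ * r ≤ K₀ * 1 := mul_le_mul_of_nonneg_left hr1 (by linarith)
        linarith
      have ht2B : |t₂| ≤ B₀ + K₀ := by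
        have := abs_add_le (t₂ - θ) θ
        rw [sub_add_cancel] at this
        have : K₀ * r ≤ K₀ * 1 := mul_le_mul_of_nonneg_left hr1 (by linarith)
        linarith
      -- the slope
      have htt : |t₁ - t₂| ≤ B₁ * Δ := by
        have h1 := hlt β hβ σ₁ t₁ t₂ θ (hσ1.trans hr1) (by linarith) (by linarith) (by linarith)
        have h2 := hls β hβ σ₁ σ₂ t₂ (hσ1.trans hr1) (hσ2.trans hr1) ht2B
        rw [← hΔ] at h2
        have h3 : Kt * (|σ₁| + |t₁ - θ| + |t₂ - θ|) * |t₁ - t₂| ≤ a₁ / 2 * |t₁ - t₂| := by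
          apply mul_le_mul_of_nonneg_right _ (abs_nonneg _)
          refine le_trans ?_ (hsmall1 r hr hrr)
          apply mul_le_mul_of_nonneg_left _ (by linarith)
          linarith
        have h4 : a₁ * |t₁ - t₂| ≤ |(derivative (Ar A)).eval θ * (t₁ - t₂)| := by
          rw [abs_mul]
          exact mul_le_mul_of_nonneg_right hDθ (abs_nonneg _)
        have h5 : |(derivative (Ar A)).eval θ * (t₁ - t₂)| ≤
            |Ps A d β σ₁ t₁ - Ps A d β σ₁ t₂ - (derivative (Ar A)).eval θ * (t₁ - t₂)| +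
            (|Ps A d β σ₁ t₂ - Ps A d β σ₂ t₂| + (|Ps A d β σ₁ t₁| + |Ps A d β σ₂ t₂|)) := by
          have e : (derivative (Ar A)).eval θ * (t₁ - t₂) =
            (Ps A d β σ₁ t₁ - Ps A d β σ₂ t₂ - (Ps A d β σ₁ t₂ - Ps A d β σ₂ t₂)) -
            (Ps A d β σ₁ t₁ - Ps A d β σ₁ t₂ - (derivative (Ar A)).eval θ * (t₁ - t₂)) := by ring
          conv_lhs => rw [e]
          refine (abs_sub _ _).trans ?_
          have f1 := abs_sub (Ps A d β σ₁ t₁ - Ps A d β σ₂ t₂) (Ps A d β σ₁ t₂ - Ps A d β σ₂ t₂)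
          have f2 := abs_sub (Ps A d β σ₁ t₁) (Ps A d β σ₂ t₂)
          linarith
        have h6 : a₁ / 2 * |t₁ - t₂| ≤ (2 + Ks) * Δ := by linarith
        rw [hB1]
        have h7 : 2 / a₁ * (a₁ / 2 * |t₁ - t₂|) = |t₁ - t₂| := by field_simp
        rw [← h7, mul_assoc]
        exact mul_le_mul_of_nonneg_left h6 (by positivity)
      obtain ⟨b, hb⟩ : ∃ b : ℝ, b = (t₁ - t₂) / (σ₁ - σ₂) := ⟨_, rfl⟩
      have hbB : |b| ≤ B₁ := by
        rw [hb, abs_div, ← hΔ, div_le_iff₀ hΔpos]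
        exact htt
      obtain ⟨α, hα⟩ : ∃ α : ℝ, α = t₁ - b * σ₁ := ⟨_, rfl⟩
      have hbσ : |b * σ₁| ≤ B₁ * r := by
        rw [abs_mul]
        exact mul_le_mul hbB hσ1 (abs_nonneg _) hB10
      have hB1r : B₁ * r ≤ B₁ := mul_le_of_le_one_right hB10 hr1
      have hαB : |α| ≤ B := by
        rw [hα]
        refine (abs_sub _ _).trans ?_
        linarith
      have hαθ : |α - θ| ≤ (K₀ + B₁) * r := by
        have e : α - θ = (t₁ - θ) - b * σ₁ := by rw [hα]; ring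
        rw [e]
        refine (abs_sub _ _).trans ?_
        linarith
      have hsub : σ₁ - σ₂ ≠ 0 := sub_ne_zero.2 hne
      have e1 : t₁ = α + b * σ₁ := by rw [hα]; ring
      have e2 : t₂ = α + b * σ₂ := by
        have : b * (σ₁ - σ₂) = t₁ - t₂ := by rw [hb]; field_simp
        rw [hα]
        linarith
      have hQ := hline β hβ α b hαB (hbB.trans (by linarith))
      obtain ⟨q0, hq0⟩ : ∃ q0, q0 = (Ar A).eval α := ⟨_, rfl⟩
      obtain ⟨q, hq⟩ : ∃ q, q = q2 A d β α b := ⟨_, rfl⟩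
      obtain ⟨p, hp⟩ : ∃ p, p = q1 A d β α b := ⟨_, rfl⟩
      rw [← hq0, ← hq, ← hp] at hQ
      have hr0' : |(0 : ℝ)| ≤ r := by rw [abs_zero]; exact hr.le
      -- first order
      have hp1 : |p| ≤ 2 * v / Δ + Kl * r := by
        have h1 := hQ.d1 r σ₁ σ₂ hr1 hσ1 hσ2
        rw [← e1, ← e2, ← hΔ] at h1
        have h2 : Δ * |p| ≤ 2 * v + Kl * r * Δ := by
          have e : (σ₁ - σ₂) * p = (Ps A d β σ₁ t₁ - Ps A d β σ₂ t₂) -
            (Ps A d β σ₁ t₁ - Ps A d β σ₂ t₂ - (σ₁ - σ₂) * p) := by ring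
          have h3 : Δ * |p| = |(σ₁ - σ₂) * p| := by rw [abs_mul, hΔ]
          rw [h3, e]
          refine (abs_sub _ _).trans ?_
          have f2 := abs_sub (Ps A d β σ₁ t₁) (Ps A d β σ₂ t₂)
          linarith
        have h3 : 2 * v / Δ + Kl * r = (2 * v + Kl * r * Δ) / Δ := by field_simp
        rw [h3, le_div_iff₀ hΔpos]
        linarith
      have hvΔ2 : v ≤ 2 * r * (v / Δ) := by
        rw [← mul_div_assoc, le_div_iff₀ hΔpos]
        have := mul_le_mul_of_nonneg_left hΔ2 hv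
        linarith
      have hvΔ0 : 0 ≤ v / Δ := by positivity
      -- value at infinity, rough
      have hq0r : |q0| ≤ (4 + 2 * Kl) * (v / Δ + r) := by
        have h1 := hQ.d1 r σ₁ 0 hr1 hσ1 hr0'
        rw [hQ.h0, ← e1, sub_zero] at h1
        have h2 : |q0| ≤ v + r * (2 * v / Δ + Kl * r) + Kl * r * r := by
          have e : q0 = (Ps A d β σ₁ t₁ - σ₁ * p) - (Ps A d β σ₁ t₁ - q0 - σ₁ * p) := by ring
          rw [e]
          refine (abs_sub _ _).trans ?_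
          have f1 := abs_sub (Ps A d β σ₁ t₁) (σ₁ * p)
          have f2 : |σ₁ * p| ≤ r * (2 * v / Δ + Kl * r) := by
            rw [abs_mul]
            exact mul_le_mul hσ1 hp1 (abs_nonneg _) hr.le
          have f3 : Kl * r * |σ₁| ≤ Kl * r * r := mul_le_mul_of_nonneg_left hσ1 (by positivity)
          linarith
        have h3 : 2 * v / Δ = 2 * (v / Δ) := by ring
        rw [h3] at h2
        have h4 : r * (v / Δ) ≤ v / Δ := mul_le_of_le_one_left hvΔ0 hr1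
        have h5 : Kl * r * r ≤ Kl * r := mul_le_of_le_one_right (by positivity) hr1
        have h6 : 0 ≤ Kl * (v / Δ) := by positivity
        have h7 : r * (2 * (v / Δ) + Kl * r) = 2 * (r * (v / Δ)) + Kl * r * r := by ring
        have h8 : (4 + 2 * Kl) * (v / Δ + r) = 4 * (v / Δ) + 4 * r + 2 * (Kl * (v / Δ)) +
          2 * (Kl * r) := by ring
        have h9 : 2 * r * (v / Δ) = 2 * (r * (v / Δ)) := by ring
        rw [h7] at h2
        rw [h9] at hvΔ2
        rw [h8]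
        linarith
      have hαθ2 : |α - θ| ≤ C₁ * (v / Δ + r) := by
        have h1 := htay α θ hαB (by linarith)
        rw [(mem_Rt hA0).1 hθ, sub_zero, ← hq0] at h1
        have h2 : Kτ * |α - θ| ^ 2 ≤ a₁ / 2 * |α - θ| := by
          rw [pow_two, ← mul_assoc]
          apply mul_le_mul_of_nonneg_right _ (abs_nonneg _)
          refine le_trans ?_ (hsmall2 r hr hrr)
          apply mul_le_mul_of_nonneg_left _ (by linarith)
          refine hαθ.trans (mul_le_mul_of_nonneg_right ?_ hr.le)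
          linarith
        have h3 : a₁ * |α - θ| ≤ |(derivative (Ar A)).eval θ * (α - θ)| := by
          rw [abs_mul]
          exact mul_le_mul_of_nonneg_right hDθ (abs_nonneg _)
        have h4 : |(derivative (Ar A)).eval θ * (α - θ)| ≤ |q0| +
            |q0 - (derivative (Ar A)).eval θ * (α - θ)| := by
          have e : (derivative (Ar A)).eval θ * (α - θ) = q0 -
            (q0 - (derivative (Ar A)).eval θ * (α - θ)) := by ring
          conv_lhs => rw [e]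
          exact abs_sub _ _
        have h5 : a₁ / 2 * |α - θ| ≤ (4 + 2 * Kl) * (v / Δ + r) := by linarith
        rw [hC1]
        have h7 : 2 / a₁ * (a₁ / 2 * |α - θ|) = |α - θ| := by field_simp
        rw [← h7, mul_assoc]
        exact mul_le_mul_of_nonneg_left h5 (by positivity)
      have hκB := (hkapB θ hθ β hβ).trans (show Kg / a₁ ≤ B by linarith)
      obtain ⟨g1, g2⟩ := hlq β hβ α b θ (kap A d β θ) hαB (hbB.trans (by linarith)) (by linarith) hκB
      have hD0' : (derivative (Ar A)).eval θ ≠ 0 := by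
        intro h0
        rw [h0, abs_zero] at hDθ
        linarith
      rw [q1_kap A d β hD0', sub_zero, ← hp] at g1
      have hbκ : |b - kap A d β θ| ≤ C₂ * (v / Δ + r) := by
        have h3 : a₁ * |b - kap A d β θ| ≤ |(derivative (Ar A)).eval θ * (b - kap A d β θ)| := by
          rw [abs_mul]
          exact mul_le_mul_of_nonneg_right hDθ (abs_nonneg _)
        have h4 : |(derivative (Ar A)).eval θ * (b - kap A d β θ)| ≤ |p| +
            |p - (derivative (Ar A)).eval θ * (b - kap A d β θ)| := by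
          have e : (derivative (Ar A)).eval θ * (b - kap A d β θ) = p -
            (p - (derivative (Ar A)).eval θ * (b - kap A d β θ)) := by ring
          conv_lhs => rw [e]
          exact abs_sub _ _
        have h5 : Kq * |α - θ| ≤ Kq * (C₁ * (v / Δ + r)) :=
          mul_le_mul_of_nonneg_left hαθ2 (by linarith)
        have h6 : 2 * v / Δ = 2 * (v / Δ) := by ring
        rw [h6] at hp1
        have h7 : 0 ≤ Kl * (v / Δ) := by positivity
        have h8 : a₁ * |b - kap A d β θ| ≤ (2 + Kl + Kq * C₁) * (v / Δ + r) := by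
          have e8 : (2 + Kl + Kq * C₁) * (v / Δ + r) = 2 * (v / Δ) + 2 * r + Kl * (v / Δ) + Kl * r +
            Kq * (C₁ * (v / Δ + r)) := by ring
          rw [e8]
          linarith
        rw [hC2]
        have h9 : 1 / a₁ * (a₁ * |b - kap A d β θ|) = |b - kap A d β θ| := by field_simp
        rw [← h9, mul_assoc (1 / a₁)]
        exact mul_le_mul_of_nonneg_left h8 (by positivity)
      refine ⟨α, b, q, e1, e2, ?_, ?_, ?_⟩
      · rw [hq]
        have hg : gam A d β θ = q2 A d β θ (kap A d β θ) := rfl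
        rw [hg]
        refine g2.trans ?_
        have h1 : Kq * (|α - θ| + |b - kap A d β θ|) ≤ Kq * ((C₁ + C₂) * (v / Δ + r)) := by
          apply mul_le_mul_of_nonneg_left _ (by linarith)
          linarith
        have h2 : 0 ≤ v / Δ + r := by linarith
        have h3 : Kq * ((C₁ + C₂) * (v / Δ + r)) ≤ K * (r + v / Δ) := by
          rw [← mul_assoc, add_comm r]
          apply mul_le_mul_of_nonneg_right _ h2
          linarith
        linarith
      · have h1 := hQ.d2 r σ₁ σ₂ 0 hr1 hσ1 hσ2 hr0'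
        rw [hQ.h0, ← e1, ← e2] at h1
        have h2 : |q0| * Δ ≤ 2 * v * r + (|q| + Kl * r) * r ^ 2 * Δ := by
          have h3 : |q0| * Δ = |q0 * (σ₁ - σ₂)| := by rw [abs_mul, hΔ]
          have e : q0 * (σ₁ - σ₂) = (Ps A d β σ₁ t₁ * (σ₂ - 0) + Ps A d β σ₂ t₂ * (0 - σ₁) +
              q0 * (σ₁ - σ₂) + (σ₁ - σ₂) * (σ₂ - 0) * (0 - σ₁) * q) -
              (Ps A d β σ₁ t₁ * σ₂ - Ps A d β σ₂ t₂ * σ₁ +
                (-((σ₁ - σ₂) * σ₂ * σ₁)) * q) := by ring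
          have hV : |(σ₁ - σ₂) * (σ₂ - 0) * (0 - σ₁)| ≤ Δ * r ^ 2 := by
            rw [abs_mul, abs_mul, ← hΔ, sub_zero, zero_sub, abs_neg, mul_assoc, pow_two]
            apply mul_le_mul_of_nonneg_left _ hΔpos.le
            exact mul_le_mul hσ2 hσ1 (abs_nonneg _) hr.le
          have hV' : |-((σ₁ - σ₂) * σ₂ * σ₁)| ≤ Δ * r ^ 2 := by
            rw [abs_neg, abs_mul, abs_mul, ← hΔ, mul_assoc, pow_two]
            apply mul_le_mul_of_nonneg_left _ hΔpos.le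
            exact mul_le_mul hσ2 hσ1 (abs_nonneg _) hr.le
          rw [h3, e]
          refine (abs_sub _ _).trans ?_
          have f1 : |Ps A d β σ₁ t₁ * σ₂| ≤ v * r := by
            rw [abs_mul]
            exact mul_le_mul hP1 hσ2 (abs_nonneg _) hv
          have f2 : |Ps A d β σ₂ t₂ * σ₁| ≤ v * r := by
            rw [abs_mul]
            exact mul_le_mul hP2 hσ1 (abs_nonneg _) hv
          have f3 : |(-((σ₁ - σ₂) * σ₂ * σ₁)) * q| ≤ Δ * r ^ 2 * |q| := by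
            rw [abs_mul]
            exact mul_le_mul_of_nonneg_right hV' (abs_nonneg _)
          have f4 : Kl * r * |(σ₁ - σ₂) * (σ₂ - 0) * (0 - σ₁)| ≤ Kl * r * (Δ * r ^ 2) :=
            mul_le_mul_of_nonneg_left hV (by positivity)
          have f5 := abs_add_le (Ps A d β σ₁ t₁ * σ₂ - Ps A d β σ₂ t₂ * σ₁)
            ((-((σ₁ - σ₂) * σ₂ * σ₁)) * q)
          have f6 := abs_sub (Ps A d β σ₁ t₁ * σ₂) (Ps A d β σ₂ t₂ * σ₁)
          have f7 : (|q| + Kl * r) * r ^ 2 * Δ = Δ * r ^ 2 * |q| + Kl * r * (Δ * r ^ 2) := by ring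
          linarith
        rw [← hq0]
        have h4 : 2 * v * r / Δ + (|q| + K * r) * r ^ 2 =
            (2 * v * r + (|q| + K * r) * r ^ 2 * Δ) / Δ := by field_simp
        rw [h4, le_div_iff₀ hΔpos]
        have h5 : (|q| + Kl * r) * r ^ 2 * Δ ≤ (|q| + K * r) * r ^ 2 * Δ := by
          apply mul_le_mul_of_nonneg_right _ hΔpos.le
          apply mul_le_mul_of_nonneg_right _ (by positivity)
          have : Kl * r ≤ K * r := mul_le_mul_of_nonneg_right (by linarith) hr.le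
          linarith
        linarith
      · intro σ₃ hσ3
        constructor
        · have e : α + b * σ₃ - θ = (α - θ) + b * σ₃ := by ring
          rw [e]
          refine (abs_add_le _ _).trans ?_
          have h1 : |b * σ₃| ≤ B₁ * r := by
            rw [abs_mul]
            exact mul_le_mul hbB hσ3 (abs_nonneg _) hB10
          have h2 : (K₀ + 2 * B₁) * r ≤ K * r := mul_le_mul_of_nonneg_right (by linarith) hr.le
          linarith
        · have h1 := hQ.d2 r σ₁ σ₃ σ₂ hr1 hσ1 hσ3 hσ2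
          rw [← e1, ← e2] at h1
          refine h1.trans ?_
          apply mul_le_mul_of_nonneg_right _ (abs_nonneg _)
          exact mul_le_mul_of_nonneg_right (by linarith) hr.le

end Pool.Agent.TH728.FX
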