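import Pool.Agent.TH728.FX.Count

/-!
Points in short windows near an asymptote are collinear, and there are few of them.
-/

open Polynomial

namespace Pool.Agent.TH728.FX

lemma dt_small {a H M W Z g u₁ u₂ u₃ E : ℝ} (ha : 0 < a) (hH : 1 ≤ H) (hM : 0 < M) (hW : 1 ≤ W)
    (h1 : M ≤ |u₁|) (h1' : |u₁| ≤ 2 * M) (h2 : M ≤ |u₂|) (h2' : |u₂| ≤ 2 * M) (h3 : M ≤ |u₃|)
    (h3' : |u₃| ≤ 2 * M) (h12 : |u₁ - u₂| ≤ M / W) (h13 : |u₁ - u₃| ≤ M / W)
    (h32 : |u₃ - u₂| ≤ M / W) (hE : 0 ≤ E) (hZ0 : 0 ≤ Z) (hZ : Z ≤ (g + 1) / H ^ 2) (_hg : 0 ≤ g)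
    (hWa : 16 * (g + 1) ≤ a * W ^ 3) (hMa : 96 * H < a * M)
    (h : a * E * |H / u₁ - H / u₂| ≤ |u₃| * (2 * H / M ^ 3 * (|H / u₁ - H / u₂| +
      (|H / u₃ - H / u₂| + |H / u₁ - H / u₃|)) + |H / u₁ - H / u₃| * |H / u₃ - H / u₂| *
      |H / u₁ - H / u₂| * Z)) : |u₁ - u₂| * E < 1 := by
  have hH0 : 0 < H := by linarith
  have hn1 : u₁ ≠ 0 := abs_pos.1 (by linarith)
  have hn2 : u₂ ≠ 0 := abs_pos.1 (by linarith)
  have hn3 : u₃ ≠ 0 := abs_pos.1 (by linarith)
  have key : ∀ x y : ℝ, x ≠ 0 → y ≠ 0 → M ≤ |x| → M ≤ |y| → |x - y| ≤ M / W →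
      |H / x - H / y| ≤ H / (W * M) := by
    intro x y hx hy hx1 hy1 hxy
    rw [diff_inv hx hy hH0.le]
    have e : H / (W * M) = H * (M / W) / (M * M) := by field_simp
    rw [e]
    apply div_le_div₀ (by positivity) _ (by positivity) (mul_le_mul hx1 hy1 hM.le (abs_nonneg _))
    exact mul_le_mul_of_nonneg_left hxy hH0.le
  have k12 := key u₁ u₂ hn1 hn2 h1 h2 h12
  have k13 := key u₁ u₃ hn1 hn3 h1 h3 h13
  have k32 := key u₃ u₂ hn3 hn2 h3 h2 h32
  obtain ⟨δ, hδ⟩ : ∃ δ, δ = H / (W * M) := ⟨_, rfl⟩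
  rw [← hδ] at k12 k13 k32
  have hδ0 : 0 < δ := by rw [hδ]; positivity
  have hlow : H * |u₁ - u₂| / (4 * M ^ 2) ≤ |H / u₁ - H / u₂| := by
    rw [diff_inv hn1 hn2 hH0.le]
    apply div_le_div_of_nonneg_left (by positivity) (by positivity)
    calc |u₁| * |u₂| ≤ (2 * M) * (2 * M) := mul_le_mul h1' h2' (abs_nonneg _) (by linarith)
      _ = _ := by ring
  have hL : a * E * (H * |u₁ - u₂| / (4 * M ^ 2)) ≤ a * E * |H / u₁ - H / u₂| :=
    mul_le_mul_of_nonneg_left hlow (by positivity)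
  have hR : |u₃| * (2 * H / M ^ 3 * (|H / u₁ - H / u₂| +
      (|H / u₃ - H / u₂| + |H / u₁ - H / u₃|)) + |H / u₁ - H / u₃| * |H / u₃ - H / u₂| *
      |H / u₁ - H / u₂| * Z) ≤ 2 * M * (2 * H / M ^ 3 * (3 * δ) + δ ^ 3 * ((g + 1) / H ^ 2)) := by
    apply mul_le_mul h3' _ (by positivity) (by linarith)
    apply add_le_add
    · apply mul_le_mul_of_nonneg_left _ (by positivity)
      linarith
    · apply mul_le_mul _ hZ hZ0 (by positivity)
      have e : δ ^ 3 = δ * δ * δ := by ring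
      rw [e]
      apply mul_le_mul _ k12 (abs_nonneg _) (by positivity)
      exact mul_le_mul k13 k32 (abs_nonneg _) hδ0.le
  have hLR := (hL.trans h).trans hR
  have e1 : 2 * M * (2 * H / M ^ 3 * (3 * δ) + δ ^ 3 * ((g + 1) / H ^ 2)) =
      a * H / (4 * M ^ 2) * (48 * H / (a * W * M) + 8 * (g + 1) / (a * W ^ 3)) := by
    rw [hδ]
    field_simp
    ring
  have e2 : a * E * (H * |u₁ - u₂| / (4 * M ^ 2)) = a * H / (4 * M ^ 2) * (|u₁ - u₂| * E) := by
    ring
  rw [e1, e2] at hLR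
  have h5 : |u₁ - u₂| * E ≤ 48 * H / (a * W * M) + 8 * (g + 1) / (a * W ^ 3) :=
    le_of_mul_le_mul_left hLR (by positivity)
  have h6 : 8 * (g + 1) / (a * W ^ 3) ≤ 1 / 2 := by
    rw [div_le_div_iff₀ (by positivity) (by norm_num)]
    linarith
  have h7 : 48 * H / (a * W * M) < 1 / 2 := by
    rw [div_lt_div_iff₀ (by positivity) (by norm_num)]
    have : a * M ≤ a * W * M := by
      have : a * M * 1 ≤ a * M * W := mul_le_mul_of_nonneg_left hW (by positivity)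
      linarith
    linarith
  linarith

lemma mid_elt {s : Finset ℤ} (hs : s.Nonempty) {q : ℤ} (hq0 : 0 < q)
    (hq : ∀ x ∈ s, ∀ y ∈ s, q ∣ x - y) {m : ℕ} (h : 2 * m + 1 ≤ s.card) :
    ∃ y ∈ s, m * q ≤ y - s.min' hs ∧ m * q ≤ s.max' hs - y := by
  obtain ⟨k, hk⟩ : ∃ k, k = s.card := ⟨_, rfl⟩
  rw [← hk] at h
  have hk0 : 0 < k := by omega
  obtain ⟨f, hf⟩ : ∃ f : ℕ → ℤ, f = fun i => if hi : i < k then s.orderEmbOfFin hk.symm ⟨i, hi⟩ else 0 :=
    ⟨_, rfl⟩
  have hfi : ∀ i (hi : i < k), f i = s.orderEmbOfFin hk.symm ⟨i, hi⟩ := by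
    intro i hi
    rw [hf]
    simp only
    rw [dif_pos hi]
  have hmem : ∀ i, i < k → f i ∈ s := by
    intro i hi
    rw [hfi i hi]
    exact Finset.orderEmbOfFin_mem _ _ _
  have hinc : ∀ i, i + 1 < k → f i < f (i + 1) := by
    intro i hi
    rw [hfi i (by omega), hfi (i + 1) hi]
    exact (s.orderEmbOfFin hk.symm).strictMono (by simp [Fin.lt_def])
  have hdv : ∀ i j, i < k → j < k → q ∣ f i - f j := fun i j hi hj =>
    hq _ (hmem i hi) _ (hmem j hj)
  have h0 : f 0 = s.min' hs := by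
    rw [hfi 0 hk0, Finset.orderEmbOfFin_zero]
  have hl : f (k - 1) = s.max' hs := by
    rw [hfi (k - 1) (by omega), Finset.orderEmbOfFin_last hk.symm hk0]
  refine ⟨f m, hmem m (by omega), ?_, ?_⟩
  · have := strict_gap hinc hdv hq0 0 m (by omega)
    rw [zero_add, h0] at this
    exact this
  · have := strict_gap hinc hdv hq0 m (k - 1 - m) (by omega)
    rw [show m + (k - 1 - m) = k - 1 by omega, hl] at this
    refine le_trans ?_ this
    apply mul_le_mul_of_nonneg_right _ hq0.le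
    have : m ≤ k - 1 - m := by omega
    exact_mod_cast this

/-- the determinant of three points -/
def Dt (P₁ P₂ P₃ : ℤ × ℤ) : ℤ :=
  P₃.2 * (P₁.1 - P₂.1) - (P₁.2 - P₂.2) * P₃.1 - (P₂.2 * P₁.1 - P₁.2 * P₂.1)

set_option maxHeartbeats 4000000 in
lemma window_count {A : ℤ[X]} (hA : Irreducible (A.map (Int.castRingHom ℚ)))
    (hd : 4 ≤ A.natDegree) (K₀ : ℝ) (hK0 : 1 ≤ K₀) : ∃ C a : ℝ, 1 ≤ C ∧ 0 < a ∧
      (∀ (b : ℕ × ℕ → ℤ) (H : ℕ), 1 ≤ H → b ∈ Bo (Jx A.natDegree) H → ∀ θ ∈ Rt A,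
        |gam A A.natDegree (rb b) θ| ≤ C * H ^ 2) ∧
      ∀ (b : ℕ × ℕ → ℤ) (H : ℕ), 1 ≤ H → b ∈ Bo (Jx A.natDegree) H → ∀ θ ∈ Rt A, ∀ M W g : ℝ,
        C * H ^ 3 ≤ M → 1 ≤ W → g = |gam A A.natDegree (rb b) θ| → 1 ≤ g →
        16 * (g + 1) ≤ a * W ^ 3 → ∀ T : Finset (ℤ × ℤ),
        (∀ P ∈ T, Pt A A.natDegree b H M θ K₀ P) →
        (∀ P ∈ T, ∀ Q ∈ T, |(P.1 : ℝ) - Q.1| ≤ M / W) →
        ∀ m : ℕ, 2 * m + 1 ≤ T.card →
          (m : ℝ) ^ 4 * g ^ 2 ≤ 17 * 512 ^ 2 * H ^ 2 * (H + g) := by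
  obtain ⟨M₀, K, a, hM0, hK, ha, hgK, hpf⟩ := pair_facts hA hd K₀ hK0
  have ha100 : 0 < 100 / a := by positivity
  refine ⟨M₀ + 20 * K + 100 / a, a, by linarith, ha, ?_, ?_⟩
  · intro b H hH hb θ hθ
    have hH0 : (0 : ℝ) < H := by exact_mod_cast (by omega : 0 < H)
    have h1 := hgK b H hH hb θ hθ
    rw [gam_nb A _ b hH θ, abs_div, abs_of_pos (show (0 : ℝ) < (H : ℝ) ^ 2 by positivity),
      div_le_iff₀ (by positivity)] at h1
    refine h1.trans (mul_le_mul_of_nonneg_right ?_ (by positivity))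
    linarith
  · intro b H hH hb θ hθ M W g hM hW hg hg1 hWg T hT hTW m hm
    have hH' : (1 : ℝ) ≤ H := by exact_mod_cast hH
    have hH0 : (0 : ℝ) < H := by linarith
    have hH3 : (H : ℝ) ≤ H ^ 3 := le_self_pow₀ hH' (by norm_num)
    have hH3' : (1 : ℝ) ≤ (H : ℝ) ^ 3 := by linarith
    have hM1 : M₀ * H ≤ M := by
      have : M₀ * H ≤ M₀ * H ^ 3 := mul_le_mul_of_nonneg_left hH3 (by linarith)
      have h2 : M₀ * H ^ 3 ≤ (M₀ + 20 * K + 100 / a) * H ^ 3 :=
        mul_le_mul_of_nonneg_right (by linarith) (by positivity)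
      linarith
    have hM2 : 20 * K * H ^ 3 ≤ M := by
      have h2 : 20 * K * H ^ 3 ≤ (M₀ + 20 * K + 100 / a) * H ^ 3 :=
        mul_le_mul_of_nonneg_right (by linarith) (by positivity)
      linarith
    have hM3 : 96 * H < a * M := by
      have h2 : 100 / a * H ^ 3 ≤ (M₀ + 20 * K + 100 / a) * H ^ 3 :=
        mul_le_mul_of_nonneg_right (by linarith) (by positivity)
      have h3 : 100 / a * H ≤ 100 / a * H ^ 3 := mul_le_mul_of_nonneg_left hH3 ha100.le
      have h4 : a * (100 / a * H) ≤ a * M := mul_le_mul_of_nonneg_left (by linarith) ha.le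
      have h5 : a * (100 / a * H) = 100 * H := by field_simp
      linarith
    have hM1' : 1 ≤ M := by
      have : 1 ≤ 20 * K * (H : ℝ) ^ 3 := by
        have : 1 * 1 ≤ 20 * K * (H : ℝ) ^ 3 := mul_le_mul (by linarith) hH3' (by norm_num) (by linarith)
        linarith
      linarith
    have hMpos : 0 < M := by linarith
    have hh1 : 10 * (1 / (20 * (H : ℝ) ^ 2)) ≤ 1 / H ^ 2 := by
      have e : 10 * (1 / (20 * (H : ℝ) ^ 2)) = 1 / H ^ 2 / 2 := by field_simp; norm_num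
      have : 0 < 1 / (H : ℝ) ^ 2 := by positivity
      rw [e]
      linarith
    have hh2 : 10 * (1 / (20 * (H : ℝ) ^ 2)) ≤ g / (2 * H ^ 2) := by
      have e : 10 * (1 / (20 * (H : ℝ) ^ 2)) = 1 / (2 * H ^ 2) := by field_simp; norm_num
      rw [e]
      exact div_le_div_of_nonneg_right hg1 (by positivity)
    rcases Nat.eq_zero_or_pos m with rfl | hm0
    · have : (0 : ℝ) ≤ 17 * 512 ^ 2 * H ^ 2 * (H + g) := by positivity
      simpa using this
    obtain ⟨G, hG⟩ : ∃ G, G = gam A A.natDegree (nb A.natDegree b H) θ := ⟨_, rfl⟩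
    have hGg : |G| = g / H ^ 2 := by
      rw [hG, gam_nb A _ b hH θ, abs_div, abs_of_pos (show (0 : ℝ) < (H : ℝ) ^ 2 by positivity), hg]
    have hP := hpf b H hH hb θ hθ M hM1
    have hKHM : K * (H / M) ≤ 1 / (20 * H ^ 2) := by
      rw [← mul_div_assoc, div_le_div_iff₀ hMpos (by positivity)]
      have : K * H * (20 * H ^ 2) = 20 * K * H ^ 3 := by ring
      linarith
    -- injectivity of the first coordinate
    have hinj : Set.InjOn Prod.fst (T : Set (ℤ × ℤ)) := by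
      intro P hPT Q hQT h
      have := (hP P Q (hT P hPT) (hT Q hQT)).2 h
      exact Prod.ext h this
    -- collinearity
    have hDt : ∀ P₁ ∈ T, ∀ P₂ ∈ T, ∀ P₃ ∈ T, P₁.1 ≠ P₂.1 → Dt P₁ P₂ P₃ = 0 := by
      intro P₁ h1 P₂ h2 P₃ h3 hne
      obtain ⟨α, β, q, F⟩ := (hP P₁ P₂ (hT P₁ h1) (hT P₂ h2)).1 hne
      have f3 := F.h3 P₃ (hT P₃ h3)
      have hq : |q| + K * (H / M) ≤ (g + 1) / H ^ 2 := by
        have h4 := F.hq
        rw [← hG] at h4
        have h5 : |q| ≤ |G| + |q - G| := by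
          have := abs_add_le G (q - G)
          rw [add_sub_cancel] at this
          exact this
        have h6 : K * (9 * H / M) = 9 * (K * (H / M)) := by ring
        rw [h6] at h4
        rw [add_div, ← hGg]
        linarith
      have hlt := dt_small (W := W) (Z := |q| + K * (H / M)) (g := g) ha hH' hMpos hW
        (hT P₁ h1).1 (hT P₁ h1).2.1 (hT P₂ h2).1 (hT P₂ h2).2.1 (hT P₃ h3).1 (hT P₃ h3).2.1
        (hTW _ h1 _ h2) (hTW _ h1 _ h3) (hTW _ h3 _ h2) (abs_nonneg _) (by positivity) hq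
        (by linarith) hWg hM3 f3
      rw [← abs_mul] at hlt
      have e : ((P₁.1 : ℝ) - P₂.1) * ((P₃.2 : ℝ) - α * P₃.1 - β) = ((Dt P₁ P₂ P₃ : ℤ) : ℝ) := by
        unfold Dt
        push_cast
        rw [F.l1, F.l2]
        ring
      rw [e] at hlt
      have : |Dt P₁ P₂ P₃| < 1 := by exact_mod_cast hlt
      exact Int.abs_lt_one_iff.1 this
    -- first and last point
    obtain ⟨s, hs⟩ : ∃ s, s = T.image Prod.fst := ⟨_, rfl⟩
    have hcard : s.card = T.card := by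
      rw [hs]
      exact Finset.card_image_of_injOn hinj
    have hsne : s.Nonempty := by
      rw [← Finset.card_pos]
      omega
    have hmin := s.min'_mem hsne
    have hmax := s.max'_mem hsne
    have hlt : s.min' hsne < s.max' hsne := Finset.min'_lt_max'_of_card s (by omega)
    obtain ⟨x, hx⟩ : ∃ x, x = s.min' hsne := ⟨_, rfl⟩
    obtain ⟨z, hz⟩ : ∃ z, z = s.max' hsne := ⟨_, rfl⟩
    rw [← hx] at hmin hlt
    rw [← hz] at hmax hlt
    rw [hs, Finset.mem_image] at hmin hmax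
    obtain ⟨P₁, hP1, e1⟩ := hmin
    obtain ⟨P₂, hP2, e2⟩ := hmax
    have hne : P₁.1 ≠ P₂.1 := by rw [e1, e2]; exact hlt.ne
    obtain ⟨α, β, q, F⟩ := (hP P₁ P₂ (hT P₁ hP1) (hT P₂ hP2)).1 hne
    obtain ⟨ρ, hρ⟩ : ∃ ρ : ℚ, ρ = ((P₁.2 : ℚ) - P₂.2) / (P₁.1 - P₂.1) := ⟨_, rfl⟩
    have hneQ : (P₁.1 : ℚ) - P₂.1 ≠ 0 := by
      intro h
      apply hne
      have : (P₁.1 : ℚ) = P₂.1 := by linarith
      exact_mod_cast this
    have hneR : (P₁.1 : ℝ) - P₂.1 ≠ 0 := by
      intro h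
      apply hne
      have : (P₁.1 : ℝ) = P₂.1 := by linarith
      exact_mod_cast this
    have hαρ : α = (ρ : ℝ) := by
      rw [hρ]
      push_cast
      rw [eq_div_iff hneR, F.l1, F.l2]
      ring
    have hαnd : α = ((ρ.num : ℤ) : ℝ) / ((ρ.den : ℤ) : ℝ) := by
      rw [hαρ]
      exact_mod_cast (Rat.num_div_den ρ).symm
    have hdv1 : ∀ P ∈ T, (ρ.den : ℤ) ∣ P.1 - P₁.1 := by
      intro P hPT
      have h1 := hDt P₁ hP1 P₂ hP2 P hPT hne
      unfold Dt at h1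
      have h2 : ((P.2 : ℚ) - P₁.2) = ρ * (P.1 - P₁.1) := by
        rw [hρ]
        field_simp
        have h3 : ((P.2 * (P₁.1 - P₂.1) - (P₁.2 - P₂.2) * P.1 - (P₂.2 * P₁.1 - P₁.2 * P₂.1) : ℤ) : ℚ) = 0 := by
          exact_mod_cast h1
        push_cast at h3
        linarith
      have h3 : (P.2 - P₁.2) * (ρ.den : ℤ) = ρ.num * (P.1 - P₁.1) := by
        have h4 : ((P.2 : ℚ) - P₁.2) * ρ.den = ρ.num * (P.1 - P₁.1) := by
          rw [h2]
          have : ρ * ρ.den = ρ.num := Rat.mul_den_eq_num ρ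
          calc ρ * ((P.1 : ℚ) - P₁.1) * ρ.den = (ρ * ρ.den) * (P.1 - P₁.1) := by ring
            _ = _ := by rw [this]
        exact_mod_cast h4
      have h4 : (ρ.den : ℤ) ∣ ρ.num * (P.1 - P₁.1) := ⟨P.2 - P₁.2, by rw [← h3]; ring⟩
      exact (Rat.isCoprime_num_den ρ).symm.dvd_of_dvd_mul_left h4
    have hdv : ∀ x ∈ s, ∀ y ∈ s, (ρ.den : ℤ) ∣ x - y := by
      intro x hx y hy
      rw [hs, Finset.mem_image] at hx hy
      obtain ⟨P, hPT, rfl⟩ := hx
      obtain ⟨Q, hQT, rfl⟩ := hy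
      have : P.1 - Q.1 = (P.1 - P₁.1) - (Q.1 - P₁.1) := by ring
      rw [this]
      exact dvd_sub (hdv1 P hPT) (hdv1 Q hQT)
    have hden : (0 : ℤ) < ρ.den := by exact_mod_cast ρ.den_pos
    obtain ⟨y, hy, hy1, hy2⟩ := mid_elt hsne hden hdv (hcard ▸ hm)
    rw [← hx] at hy1
    rw [← hz] at hy2
    rw [hs, Finset.mem_image] at hy
    obtain ⟨P₃, hP3, e3⟩ := hy
    -- P₃ is on the line
    have hline : (P₃.2 : ℝ) = α * P₃.1 + β := by
      have h1 := hDt P₁ hP1 P₂ hP2 P₃ hP3 hne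
      have e : ((P₁.1 : ℝ) - P₂.1) * ((P₃.2 : ℝ) - α * P₃.1 - β) = ((Dt P₁ P₂ P₃ : ℤ) : ℝ) := by
        unfold Dt
        push_cast
        rw [F.l1, F.l2]
        ring
      rw [h1, Int.cast_zero] at e
      rcases mul_eq_zero.1 e with h2 | h2
      · exact absurd h2 hneR
      · linarith
    have f4 := F.h4 P₃ (hT P₃ hP3) hline
    obtain ⟨d', hd'⟩ : ∃ d' : ℝ, d' = ((ρ.den : ℤ) : ℝ) := ⟨_, rfl⟩
    have hd1 : 1 ≤ d' := by
      rw [hd']
      exact_mod_cast hden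
    have hm1 : (1 : ℝ) ≤ m := by exact_mod_cast hm0
    obtain ⟨X, hX⟩ : ∃ X : ℝ, X = (P₃.1 : ℝ) - P₁.1 := ⟨_, rfl⟩
    obtain ⟨Y, hY⟩ : ∃ Y : ℝ, Y = (P₂.1 : ℝ) - P₃.1 := ⟨_, rfl⟩
    have hXm : m * d' ≤ X := by
      rw [hX, hd', e3, e1]
      exact_mod_cast hy1
    have hYm : m * d' ≤ Y := by
      rw [hY, hd', e2, e3]
      exact_mod_cast hy2
    have hmd : 0 < m * d' := by positivity
    have hXpos : 0 < X := by linarith
    have hYpos : 0 < Y := by linarith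
    -- differences
    obtain ⟨hn1, hs1, ht1, hp1⟩ := (hT P₁ hP1).facts hH hMpos (by linarith) (by omega)
    obtain ⟨hn2, hs2, ht2, hp2⟩ := (hT P₂ hP2).facts hH hMpos (by linarith) (by omega)
    obtain ⟨hn3, hs3, ht3, hp3⟩ := (hT P₃ hP3).facts hH hMpos (by linarith) (by omega)
    have key : ∀ P ∈ T, ∀ Q ∈ T, H * |(P.1 : ℝ) - Q.1| / (4 * M ^ 2) ≤ |(H : ℝ) / P.1 - H / Q.1| ∧
        |(H : ℝ) / P.1 - H / Q.1| ≤ H * |(P.1 : ℝ) - Q.1| / M ^ 2 := by
      intro P hPT Q hQT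
      obtain ⟨hn, _, _, _⟩ := (hT P hPT).facts hH hMpos (by linarith) (by omega)
      obtain ⟨hn', _, _, _⟩ := (hT Q hQT).facts hH hMpos (by linarith) (by omega)
      rw [diff_inv hn hn' hH0.le]
      constructor
      · apply div_le_div_of_nonneg_left (by positivity) (by positivity)
        calc |(P.1 : ℝ)| * |(Q.1 : ℝ)| ≤ (2 * M) * (2 * M) :=
              mul_le_mul (hT P hPT).2.1 (hT Q hQT).2.1 (abs_nonneg _) (by linarith)
          _ = _ := by ring
      · apply div_le_div_of_nonneg_left (by positivity) (by positivity)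
        rw [pow_two]
        exact mul_le_mul (hT P hPT).1 (hT Q hQT).1 hMpos.le (abs_nonneg _)
    obtain ⟨a13, b13⟩ := key P₁ hP1 P₃ hP3
    obtain ⟨a32, b32⟩ := key P₃ hP3 P₂ hP2
    obtain ⟨a12, b12⟩ := key P₁ hP1 P₂ hP2
    have n13 : |(P₁.1 : ℝ) - P₃.1| = X := by
      rw [abs_sub_comm, ← hX, abs_of_pos hXpos]
    have n32 : |(P₃.1 : ℝ) - P₂.1| = Y := by
      rw [abs_sub_comm, ← hY, abs_of_pos hYpos]
    have n12 : |(P₁.1 : ℝ) - P₂.1| = X + Y := by
      rw [abs_sub_comm]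
      have : (P₂.1 : ℝ) - P₁.1 = X + Y := by rw [hX, hY]; ring
      rw [this, abs_of_pos (by linarith)]
    rw [n13] at a13 b13
    rw [n32] at a32 b32
    rw [n12] at a12 b12
    obtain ⟨s13, hs13⟩ : ∃ t, t = |(H : ℝ) / P₁.1 - H / P₃.1| := ⟨_, rfl⟩
    obtain ⟨s32, hs32⟩ : ∃ t, t = |(H : ℝ) / P₃.1 - H / P₂.1| := ⟨_, rfl⟩
    obtain ⟨s12, hs12⟩ : ∃ t, t = |(H : ℝ) / P₁.1 - H / P₂.1| := ⟨_, rfl⟩
    rw [← hs13] at a13 b13 f4
    rw [← hs32] at a32 b32 f4
    rw [← hs12] at a12 b12 f4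
    have hq2 : g / (2 * H ^ 2) ≤ |q| - K * (H / M) := by
      have h4 := F.hq
      rw [← hG] at h4
      have h5 : |G| ≤ |q| + |q - G| := by
        have := abs_add_le q (G - q)
        rw [add_sub_cancel, abs_sub_comm G q] at this
        exact this
      have h6 : K * (9 * H / M) = 9 * (K * (H / M)) := by ring
      rw [h6] at h4
      have h8 : g / (2 * (H : ℝ) ^ 2) = g / H ^ 2 / 2 := by
        field_simp
      rw [hGg] at h5
      linarith
    have hV : (H * X / (4 * M ^ 2)) * (H * Y / (4 * M ^ 2)) * (H * (X + Y) / (4 * M ^ 2)) *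
        (g / (2 * H ^ 2)) ≤ 2 * H / M ^ (A.natDegree - 1) * (2 * (H * (X + Y) / M ^ 2)) := by
      have h1 : (H * X / (4 * M ^ 2)) * (H * Y / (4 * M ^ 2)) * (H * (X + Y) / (4 * M ^ 2)) *
        (g / (2 * H ^ 2)) ≤ s13 * s32 * s12 * (|q| - K * (H / M)) := by
        apply mul_le_mul _ hq2 (by positivity)
        · rw [hs13, hs32, hs12]; positivity
        · apply mul_le_mul _ a12 (by positivity)
          · rw [hs13, hs32]; positivity
          · apply mul_le_mul a13 a32 (by positivity)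
            rw [hs13]; positivity
      refine (h1.trans f4).trans ?_
      apply mul_le_mul_of_nonneg_left _ (by positivity)
      have h2 : 2 * (H * (X + Y) / M ^ 2) = H * (X + Y) / M ^ 2 + (H * X / M ^ 2 + H * Y / M ^ 2) := by
        ring
      rw [h2]
      linarith
    have hV2 : g * (X * Y) * M ^ (A.natDegree - 1) ≤ 512 * H * M ^ 4 := by
      have e1 : (H * X / (4 * M ^ 2)) * (H * Y / (4 * M ^ 2)) * (H * (X + Y) / (4 * M ^ 2)) *
        (g / (2 * H ^ 2)) = (H * (X + Y) / (128 * M ^ 6)) * (g * (X * Y)) := by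
        field_simp
        ring
      have e2 : 2 * H / M ^ (A.natDegree - 1) * (2 * (H * (X + Y) / M ^ 2)) =
        (H * (X + Y) / (128 * M ^ 6)) * (512 * H * M ^ 4 / M ^ (A.natDegree - 1)) := by
        field_simp
        ring
      rw [e1, e2] at hV
      have h1 := le_of_mul_le_mul_left hV (by positivity)
      rwa [le_div_iff₀ (by positivity)] at h1
    have hM3' : M ^ 3 ≤ M ^ (A.natDegree - 1) := by
      exact pow_le_pow_right₀ hM1' (by omega)
    have hXY : (m * d') ^ 2 ≤ X * Y := by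
      rw [pow_two]
      exact mul_le_mul hXm hYm hmd.le hXpos.le
    have hgm : g * (m * d') ^ 2 * M ^ (A.natDegree - 1) ≤ 512 * H * M ^ 4 := by
      refine le_trans ?_ hV2
      apply mul_le_mul_of_nonneg_right _ (by positivity)
      exact mul_le_mul_of_nonneg_left hXY (by linarith)
    rcases Nat.lt_or_ge 4 A.natDegree with h5 | h5
    · -- degree at least 5
      have hM4 : M ^ 4 ≤ M ^ (A.natDegree - 1) := by
        exact pow_le_pow_right₀ hM1' (by omega)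
      have h6 : g * (m * d') ^ 2 ≤ 512 * H := by
        have h7 : g * (m * d') ^ 2 * M ^ 4 ≤ 512 * H * M ^ 4 := by
          refine le_trans ?_ hgm
          exact mul_le_mul_of_nonneg_left hM4 (by positivity)
        exact le_of_mul_le_mul_right h7 (by positivity)
      have h7 : g * (m : ℝ) ^ 2 ≤ 512 * H := by
        refine le_trans ?_ h6
        apply mul_le_mul_of_nonneg_left _ (by linarith)
        apply pow_le_pow_left₀ (by linarith)
        exact le_mul_of_one_le_right (by linarith) hd1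
      have h8 : (m : ℝ) ^ 4 * g ^ 2 ≤ (512 * H) ^ 2 := by
        have : (m : ℝ) ^ 4 * g ^ 2 = (g * m ^ 2) ^ 2 := by ring
        rw [this]
        exact pow_le_pow_left₀ (by positivity) h7 2
      refine h8.trans ?_
      have h9 : (512 * (H : ℝ)) ^ 2 = 512 ^ 2 * H ^ 2 * 1 := by ring
      have h10 : 17 * 512 ^ 2 * (H : ℝ) ^ 2 * (H + g) = 512 ^ 2 * H ^ 2 * (17 * (H + g)) := by ring
      rw [h9, h10]
      apply mul_le_mul_of_nonneg_left _ (by positivity)
      linarith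
    · -- degree 4
      have h4 : A.natDegree = 4 := by omega
      have h6 : g * (m * d') ^ 2 ≤ 512 * H * M := by
        rw [h4] at hgm
        have h7 : g * (m * d') ^ 2 * M ^ 3 ≤ 512 * H * M * M ^ 3 := by
          have e : 512 * H * M ^ 4 = 512 * H * M * M ^ 3 := by ring
          rw [← e]
          exact hgm
        exact le_of_mul_le_mul_right h7 (by positivity)
      have hr := rat_lower hA (by omega) ρ.num hden
      rw [← hαnd, ← hd', h4] at hr
      have hAα := F.hA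
      have h7 : |(Ar A).eval α| ≤ 17 * (H + g) / M ^ 2 := by
        refine hAα.trans ?_
        have hq3 : |q| + K * (H / M) ≤ (g + 1) / H ^ 2 := by
          have h4 := F.hq
          rw [← hG] at h4
          have h5 : |q| ≤ |G| + |q - G| := by
            have := abs_add_le G (q - G)
            rw [add_sub_cancel] at this
            exact this
          have h6 : K * (9 * H / M) = 9 * (K * (H / M)) := by ring
          rw [h6] at h4
          rw [add_div, ← hGg]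
          linarith
        have h8 : (|q| + K * (H / M)) * (H / M) ^ 2 ≤ (g + 1) / H ^ 2 * (H / M) ^ 2 :=
          mul_le_mul_of_nonneg_right hq3 (by positivity)
        have h9 : (g + 1) / (H : ℝ) ^ 2 * (H / M) ^ 2 = (g + 1) / M ^ 2 := by
          field_simp
        rw [h9] at h8
        refine (add_le_add le_rfl h8).trans ?_
        rw [← add_div]
        apply div_le_div_of_nonneg_right _ (by positivity)
        linarith
      have h8 : M ^ 2 ≤ 17 * (H + g) * d' ^ 4 := by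
        have h9 : d' ^ 4 * |(Ar A).eval α| ≤ d' ^ 4 * (17 * (H + g) / M ^ 2) :=
          mul_le_mul_of_nonneg_left h7 (by positivity)
        have h10 := hr.trans h9
        rw [← mul_div_assoc, le_div_iff₀ (by positivity)] at h10
        linarith
      have h9 : (g * (m * d') ^ 2) ^ 2 ≤ (512 * H * M) ^ 2 :=
        pow_le_pow_left₀ (by positivity) h6 2
      have h10 : (m : ℝ) ^ 4 * g ^ 2 * d' ^ 4 ≤ 17 * 512 ^ 2 * H ^ 2 * (H + g) * d' ^ 4 := by
        have e1 : (g * (m * d') ^ 2) ^ 2 = (m : ℝ) ^ 4 * g ^ 2 * d' ^ 4 := by ring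
        have e2 : (512 * H * M) ^ 2 = 512 ^ 2 * H ^ 2 * M ^ 2 := by ring
        rw [e1, e2] at h9
        refine h9.trans ?_
        have e3 : 17 * 512 ^ 2 * (H : ℝ) ^ 2 * (H + g) * d' ^ 4 =
          512 ^ 2 * H ^ 2 * (17 * (H + g) * d' ^ 4) := by ring
        rw [e3]
        exact mul_le_mul_of_nonneg_left h8 (by positivity)
      exact le_of_mul_le_mul_right h10 (by positivity)

end Pool.Agent.TH728.FX
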